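import Pool.Agent.Helper54.SJ.Quot

/-!
# SJ-12: a criterion for a Galois algebra over a field to be a domain

PROOF.  Induction on the order of `P`.  `D.T` is nontrivial (`D.ι` injective).  First: if `D.T` is a domain then it
is a field: every `t` is a root of the monic polynomial `∏_σ (X - act σ t)` with coefficients fixed by `P`, so in
`D.ι(E)`; so `D.T` is integral over the field `E` (`isField_of_isIntegral_of_isField'`).
*Trivial group*: every `t` is fixed, `D.ι` is bijective.
*Step*: `z` central of order `p`, `pt_quot` gives `D1, incl, x, m`.  `D1` satisfies the hypothesis (for `χ1` on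
`P/⟨z⟩` and `w1` use `χ = χ1 ∘ mk` and `w = incl w1`).  So `L = D1.T` is a field (of characteristic `p`).
Claim: there is no `c : L` with `c^p - c = m`.  Otherwise let `w = x - incl c`, so `w^p = w`.  For `σ : P`,
`act σ w - w` is fixed by `z` (`act z w = w + 1`, `z` central), so it is `incl (d σ)` and `(d σ)^p = d σ` (as
`incl (d σ)^p = act σ w^p - w^p`, `incl` injective), so `d σ` is in the prime field (the `p` elements `0, …, p-1` are
all roots of `X^p - X` in the field `L`); `d (σ τ) = d σ + act σ (d τ) = d σ + d τ`, `d z = 1`.  So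
`d σ = χ σ` for a homomorphism `χ ≠ 1` and `w` contradicts the hypothesis (`w^p - w = 0`).
So `f = X^p - X - C m` is irreducible over `L`: let `q` be a monic factor of degree `0 < d < p`, `u` a root of `f` in an
algebraically closed field containing `L`; the roots of `f` are `u, u+1, …, u+p-1`, so the coefficient of
`X^(d-1)` of `q` is `-(d u + integer)`, so `u ∈ L` (`d` is invertible), a contradiction.
The homomorphism `L[X]/(f) → D.T`, `X ↦ x`, is surjective by the last part of `pt_quot`, and injective since
`L[X]/(f)` is a field and `D.T` is nontrivial.  So `D.T` is a field.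
-/

set_option autoImplicit false

namespace Pool.Agent.Helper54.SJ

open Polynomial

section artinSchreier

/-- fixed points of Frobenius are integers -/
private theorem isdom_fix {p : ℕ} [Fact p.Prime] {Ω : Type} [Field Ω] [CharP Ω p] (x : Ω)
    (hx : x ^ p = x) : ∃ n : ℤ, (n : Ω) = x :=
  (mem_bot_iff_intCast p Ω).1 ((Subfield.mem_bot_iff_pow_eq_self Ω p).2 hx)

private theorem isdom_splits {p : ℕ} [Fact p.Prime] {Ω : Type} [Field Ω] [CharP Ω p] (u : Ω) :
    (X ^ p - X - C (u ^ p - u) : Polynomial Ω).Splits := by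
  have h1 : (X ^ p - X : Polynomial Ω).Splits := by
    have := (Subfield.splits_bot Ω p).map (Subfield.subtype (⊥ : Subfield Ω))
    simpa using this
  have h2 := h1.comp_X_sub_C u
  have h3 : (X ^ p - X : Polynomial Ω).comp (X - C u) = X ^ p - X - C (u ^ p - u) := by
    rw [sub_comp, pow_comp, X_comp, sub_pow_char, map_sub, map_pow]
    ring
  rwa [h3] at h2

private theorem isdom_sum {Ω : Type} [Field Ω] (u : Ω) (s : Multiset Ω)
    (h : ∀ r ∈ s, ∃ n : ℤ, r = u + n) : ∃ n : ℤ, s.sum = (s.card : Ω) * u + n := by
  induction s using Multiset.induction_on with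
  | empty => exact ⟨0, by simp⟩
  | cons a s ih =>
    obtain ⟨n, hn⟩ := ih fun r hr => h r (Multiset.mem_cons_of_mem hr)
    obtain ⟨m, hm⟩ := h a (Multiset.mem_cons_self a s)
    refine ⟨m + n, ?_⟩
    rw [Multiset.sum_cons, Multiset.card_cons, hn, hm]
    push_cast
    ring

private theorem isdom_natDegree {p : ℕ} [Fact p.Prime] {L : Type} [Field L] (m : L) :
    (X ^ p - X - C m : Polynomial L).natDegree = p := by
  rw [natDegree_sub_C]
  exact FiniteField.X_pow_card_sub_X_natDegree_eq L (Fact.out : p.Prime).one_lt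

private theorem isdom_monic {p : ℕ} [Fact p.Prime] {L : Type} [Field L] (m : L) :
    (X ^ p - X - C m : Polynomial L).Monic := by
  have h : (X ^ p - X - C m : Polynomial L) = X ^ p - (X + C m) := by ring
  rw [h]
  apply (monic_X_pow p).sub_of_left
  rw [degree_X_add_C, degree_X_pow]
  exact_mod_cast (Fact.out : p.Prime).one_lt

/-- an Artin-Schreier polynomial without a root is irreducible -/
private theorem isdom_irr {p : ℕ} [Fact p.Prime] {L : Type} [Field L] [CharP L p] (m : L)
    (hm : ∀ c : L, c ^ p - c ≠ m) : Irreducible (X ^ p - X - C m : Polynomial L) := by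
  have hp1 := (Fact.out : p.Prime).one_lt
  haveI hΩ : CharP (AlgebraicClosure L) p :=
    charP_of_injective_ringHom (algebraMap L (AlgebraicClosure L)).injective p
  obtain ⟨u, hu⟩ : ∃ u : AlgebraicClosure L, aeval u (X ^ p - X - C m : Polynomial L) = 0 := by
    apply IsAlgClosed.exists_aeval_eq_zero
    rw [degree_eq_natDegree (isdom_monic (p := p) m).ne_zero, isdom_natDegree]
    exact_mod_cast (Fact.out : p.Prime).ne_zero
  have hu' : u ^ p - u = algebraMap L (AlgebraicClosure L) m := by
    simp only [map_sub, map_pow, aeval_X, aeval_C] at hu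
    linear_combination hu
  have hint : IsIntegral L u := Algebra.IsIntegral.isIntegral u
  obtain ⟨q, hq⟩ : ∃ q, q = minpoly L u := ⟨_, rfl⟩
  have hmon : q.Monic := hq ▸ minpoly.monic hint
  have hdvd : q ∣ X ^ p - X - C m := hq ▸ minpoly.dvd L u hu
  rcases lt_or_ge q.natDegree p with hdeg | hdeg
  · exfalso
    have hdpos : 0 < q.natDegree := hq ▸ minpoly.natDegree_pos hint
    have hmapf : (X ^ p - X - C m : Polynomial L).map (algebraMap L (AlgebraicClosure L)) =
        X ^ p - X - C (u ^ p - u) := by
      rw [hu']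
      simp
    have hdvd' : q.map (algebraMap L (AlgebraicClosure L)) ∣ X ^ p - X - C (u ^ p - u) := by
      rw [← hmapf]
      exact Polynomial.map_dvd _ hdvd
    have hspl : (q.map (algebraMap L (AlgebraicClosure L))).Splits :=
      (isdom_splits (p := p) u).of_dvd (isdom_monic (p := p) _).ne_zero hdvd'
    have hroots : ∀ r ∈ (q.map (algebraMap L (AlgebraicClosure L))).roots,
        ∃ n : ℤ, r = u + n := by
      intro r hr
      have hr0 : (q.map (algebraMap L (AlgebraicClosure L))).eval r = 0 := (mem_roots'.1 hr).2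
      have h1 := eval_dvd (x := r) hdvd'
      rw [hr0, zero_dvd_iff] at h1
      simp only [eval_sub, eval_pow, eval_X, eval_C] at h1
      obtain ⟨n, hn⟩ := isdom_fix (p := p) (r - u) (by
        rw [sub_pow_char]
        linear_combination h1)
      exact ⟨n, by rw [hn]; ring⟩
    obtain ⟨n, hn⟩ := isdom_sum u _ hroots
    have hcard : (q.map (algebraMap L (AlgebraicClosure L))).roots.card = q.natDegree := by
      rw [← hspl.natDegree_eq_card_roots, natDegree_map]
    have hnext : (q.map (algebraMap L (AlgebraicClosure L))).nextCoeff =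
        -(q.map (algebraMap L (AlgebraicClosure L))).roots.sum :=
      hspl.nextCoeff_eq_neg_sum_roots_of_monic (hmon.map _)
    rw [nextCoeff_map (algebraMap L (AlgebraicClosure L)).injective] at hnext
    have hd0 : (q.natDegree : L) ≠ 0 := by
      rw [Ne, CharP.cast_eq_zero_iff L p]
      exact Nat.not_dvd_of_pos_of_lt hdpos hdeg
    obtain ⟨κ, hκ⟩ : ∃ κ : L, κ = (-q.nextCoeff - n) / q.natDegree := ⟨_, rfl⟩
    have hκu : algebraMap L (AlgebraicClosure L) κ = u := by
      have h1 : algebraMap L (AlgebraicClosure L) (q.natDegree : L) ≠ 0 := by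
        rw [Ne, map_eq_zero]
        exact hd0
      rw [hκ, map_div₀, div_eq_iff h1, map_sub, map_neg, hnext, hn, hcard, map_intCast,
        map_natCast]
      ring
    apply hm κ
    apply (algebraMap L (AlgebraicClosure L)).injective
    rw [map_sub, map_pow, hκu, hu']
  · have h1 : X ^ p - X - C m = q :=
      Polynomial.eq_of_monic_of_dvd_of_natDegree_le hmon (isdom_monic (p := p) m) hdvd
        (by rw [isdom_natDegree]; exact hdeg)
    rw [h1, hq]
    exact minpoly.irreducible hint

/-- a ring generated by an Artin-Schreier root which is not in the ground field is a domain -/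
private theorem isdom_gen {p : ℕ} [Fact p.Prime] {L T : Type} [Field L] [CharP L p] [CommRing T]
    [Nontrivial T] (i : L →+* T) (x : T) (m : L) (hx : x ^ p - x = i m)
    (hm : ∀ c : L, c ^ p - c ≠ m)
    (hspan : ∀ t : T, ∃ a : ℕ → L, t = ∑ j ∈ Finset.range p, i (a j) * x ^ j) : IsDomain T := by
  have hmax : (Ideal.span {(X ^ p - X - C m : Polynomial L)}).IsMaximal :=
    PrincipalIdealRing.isMaximal_of_irreducible (isdom_irr m hm)
  have hle : Ideal.span {(X ^ p - X - C m : Polynomial L)} ≤ RingHom.ker (eval₂RingHom i x) := by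
    rw [Ideal.span_singleton_le_iff_mem, RingHom.mem_ker, coe_eval₂RingHom, eval₂_sub, eval₂_sub,
      eval₂_pow, eval₂_X, eval₂_C, hx, sub_self]
  have hne : RingHom.ker (eval₂RingHom i x) ≠ ⊤ := RingHom.ker_ne_top _
  have heq := hmax.eq_of_le hne hle
  have hprime : (RingHom.ker (eval₂RingHom i x)).IsPrime := heq ▸ hmax.isPrime
  have hsurj : ∀ t : T, ∃ P : Polynomial L, eval₂RingHom i x P = t := by
    intro t
    obtain ⟨a, ha⟩ := hspan t
    refine ⟨∑ j ∈ Finset.range p, C (a j) * X ^ j, ?_⟩
    rw [map_sum, ha]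
    refine Finset.sum_congr rfl fun j _ => ?_
    rw [coe_eval₂RingHom, eval₂_mul, eval₂_C, eval₂_pow, eval₂_X]
  have : NoZeroDivisors T := ⟨by
    intro a b hab
    obtain ⟨P, rfl⟩ := hsurj a
    obtain ⟨Q, rfl⟩ := hsurj b
    rw [← map_mul, ← RingHom.mem_ker] at hab
    exact hprime.mem_or_mem hab⟩
  exact NoZeroDivisors.to_isDomain T

end artinSchreier

/-- if the Galois algebra is a domain then it is a field -/
private theorem isdom_field {P : Type} [Group P] [Fintype P] {E : Type} [Field E] (D : PT P E)
    (h : IsDomain D.T) : IsField D.T := by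
  classical
  refine ⟨exists_pair_ne _, mul_comm, ?_⟩
  intro t ht
  have hinj : ∀ σ, Function.Injective (D.act σ) := by
    intro σ a b hab
    have h1 := congrArg (D.act σ⁻¹) hab
    have h2 : ∀ c, D.act σ⁻¹ (D.act σ c) = c := by
      intro c
      rw [← RingHom.comp_apply, ← D.act_mul, inv_mul_cancel, D.act_one]
      rfl
    rwa [h2, h2] at h1
  obtain ⟨r, hr⟩ := D.fix (∏ σ, D.act σ t) (by
    intro τ
    rw [map_prod]
    refine Fintype.prod_equiv (Equiv.mulLeft τ) _ _ fun σ => ?_
    rw [Equiv.coe_mulLeft, D.act_mul]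
    rfl)
  have hN : ∏ σ, D.act σ t ≠ 0 := by
    rw [Finset.prod_ne_zero_iff]
    intro σ _ h0
    apply ht
    apply hinj σ
    rw [h0, map_zero]
  have hr0 : r ≠ 0 := by
    rintro rfl
    rw [map_zero] at hr
    exact hN hr.symm
  have h1 : ∏ σ, D.act σ t = t * ∏ σ ∈ Finset.univ.erase 1, D.act σ t := by
    rw [← Finset.mul_prod_erase Finset.univ _ (Finset.mem_univ 1), D.act_one]
    rfl
  refine ⟨(∏ σ ∈ Finset.univ.erase 1, D.act σ t) * D.ι r⁻¹, ?_⟩
  rw [← mul_assoc, ← h1, ← hr, ← map_mul, mul_inv_cancel₀ hr0, map_one]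

/-- the step of the induction -/
private theorem isdom_step {p : ℕ} [Fact p.Prime] {E : Type} [Field E] [CharP E p]
    {P : Type} [Group P] [Fintype P] (D : PT P E)
    (hD : ∀ χ : P →* Multiplicative (ZMod p), χ ≠ 1 → ∀ w : D.T,
        (∀ σ, D.act σ w = w + (((χ σ).toAdd.val : ℕ) : D.T)) → w ^ p - w ≠ 0)
    (z : P) (hz : z ∈ Subgroup.center P)
    {Q : Type} (F : Field Q) (hF : CharP Q p) (incl : Q →+* D.T) (x : D.T) (m : Q)
    (hfixz : ∀ t, D.act z t = t → ∃ t1, incl t1 = t)
    (hincl : ∀ q, D.act z (incl q) = incl q)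
    (hzx : D.act z x = x + 1) (hxm : x ^ p - x = incl m)
    (hspan : ∀ t : D.T, ∃ a : ℕ → Q, t = ∑ i ∈ Finset.range p, incl (a i) * x ^ i) :
    IsDomain D.T := by
  have hnt : Nontrivial D.T := ⟨D.ι 0, D.ι 1, fun h => zero_ne_one (D.inj h)⟩
  haveI hT : CharP D.T p := charP_of_injective_ringHom D.inj p
  refine isdom_gen incl x m hxm ?_ hspan
  intro c hc
  obtain ⟨w, hw⟩ : ∃ w, w = x - incl c := ⟨_, rfl⟩
  have hzw : D.act z w = w + 1 := by
    rw [hw, map_sub, hzx, hincl]
    ring
  have hwp : w ^ p = w := by
    have h1 : incl c ^ p - incl c = incl m := by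
      rw [← map_pow, ← map_sub, hc]
    rw [hw, sub_pow_char]
    linear_combination hxm - h1
  have hint : ∀ σ, ∃ n : ℤ, D.act σ w = w + n := by
    intro σ
    obtain ⟨d, hd⟩ := hfixz (D.act σ w - w) (by
      have h1 : D.act z (D.act σ w) = D.act σ (D.act z w) := by
        rw [← RingHom.comp_apply, ← RingHom.comp_apply, ← D.act_mul, ← D.act_mul,
          Subgroup.mem_center_iff.1 hz σ]
      rw [map_sub, h1, hzw, map_add, map_one]
      ring)
    have h2 : d ^ p = d := by
      apply incl.injective
      rw [map_pow, hd, sub_pow_char, ← map_pow, hwp]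
    obtain ⟨n, hn⟩ := isdom_fix (p := p) d h2
    refine ⟨n, ?_⟩
    have h3 : D.act σ w = w + incl d := by rw [hd]; ring
    rw [h3, ← hn, map_intCast]
  choose n hn using hint
  have hcast : ∀ a b : ℤ, (a : D.T) = b → (a : ZMod p) = b := by
    intro a b hab
    exact (ZMod.intCast_eq_intCast_iff _ _ _).2 ((CharP.intCast_eq_intCast D.T p).1 hab)
  let χ : P →* Multiplicative (ZMod p) :=
    { toFun := fun σ => Multiplicative.ofAdd ((n σ : ℤ) : ZMod p)
      map_one' := by
        have h1 := hn 1
        rw [D.act_one, RingHom.id_apply] at h1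
        have h2 : ((n 1 : ℤ) : D.T) = ((0 : ℤ) : D.T) := by
          rw [Int.cast_zero]
          exact (left_eq_add.1 h1)
        rw [hcast _ _ h2, Int.cast_zero]
        rfl
      map_mul' := by
        intro σ τ
        have h1 := hn (σ * τ)
        rw [D.act_mul, RingHom.comp_apply, hn τ, map_add, hn σ, map_intCast] at h1
        have h2 : ((n (σ * τ) : ℤ) : D.T) = ((n σ + n τ : ℤ) : D.T) := by
          push_cast
          linear_combination -h1
        rw [hcast _ _ h2, Int.cast_add]
        rfl }
  have hχz : χ z ≠ 1 := by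
    intro h1
    have h2 := hn z
    rw [hzw] at h2
    have h3 : ((n z : ℤ) : D.T) = ((1 : ℤ) : D.T) := by
      rw [Int.cast_one]
      linear_combination -h2
    have h4 := hcast _ _ h3
    have h5 : ((n z : ℤ) : ZMod p) = 0 := h1
    rw [h5, Int.cast_one] at h4
    haveI : Fact (1 < p) := ⟨(Fact.out : p.Prime).one_lt⟩
    exact zero_ne_one h4
  refine hD χ (fun h1 => hχz (by rw [h1]; rfl)) w ?_ (by rw [hwp, sub_self])
  intro σ
  rw [hn σ]
  congr 1
  have h1 : (((((n σ : ℤ) : ZMod p).val : ℕ) : ℤ) : ZMod p) = ((n σ : ℤ) : ZMod p) := by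
    rw [Int.cast_natCast, ZMod.natCast_val, ZMod.cast_id]
  have h2 := (CharP.intCast_eq_intCast D.T p).2 ((ZMod.intCast_eq_intCast_iff _ _ _).1 h1)
  rw [Int.cast_natCast] at h2
  exact h2.symm

theorem pt_isDomain {p : ℕ} [Fact p.Prime] {E : Type} [Field E] [CharP E p] :
    ∀ (P : Type) [Group P] [Fintype P], IsPGroup p P → ∀ D : PT P E,
      (∀ χ : P →* Multiplicative (ZMod p), χ ≠ 1 → ∀ w : D.T,
        (∀ σ, D.act σ w = w + (((χ σ).toAdd.val : ℕ) : D.T)) → w ^ p - w ≠ 0) →
      IsDomain D.T := by
  have key : ∀ n : ℕ, ∀ (P : Type) [Group P] [Fintype P], Nat.card P = n → IsPGroup p P →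
      ∀ D : PT P E,
      (∀ χ : P →* Multiplicative (ZMod p), χ ≠ 1 → ∀ w : D.T,
        (∀ σ, D.act σ w = w + (((χ σ).toAdd.val : ℕ) : D.T)) → w ^ p - w ≠ 0) →
      IsDomain D.T := by
    intro n
    induction n using Nat.strong_induction_on with
    | _ n ih =>
      intro P _ _ hcard hP D hD
      have hnt : Nontrivial D.T := ⟨D.ι 0, D.ι 1, fun h => zero_ne_one (D.inj h)⟩
      rcases subsingleton_or_nontrivial P with hs | hs
      · have hall : ∀ t : D.T, ∃ r, D.ι r = t := by
          intro t
          apply D.fix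
          intro σ
          rw [Subsingleton.elim σ 1, D.act_one]
          rfl
        have : NoZeroDivisors D.T := ⟨by
          intro a b hab
          obtain ⟨r, rfl⟩ := hall a
          obtain ⟨s, rfl⟩ := hall b
          rw [← map_mul, ← map_zero D.ι] at hab
          rcases mul_eq_zero.1 (D.inj hab) with h | h
          · left
            rw [h, map_zero]
          · right
            rw [h, map_zero]⟩
        exact NoZeroDivisors.to_isDomain D.T
      · have hcn : Nontrivial (Subgroup.center P) := hP.center_nontrivial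
        have hcp : IsPGroup p (Subgroup.center P) := hP.to_subgroup _
        obtain ⟨k, hk⟩ := (IsPGroup.iff_card).1 hcp
        have hk0 : k ≠ 0 := by
          rintro rfl
          rw [pow_zero] at hk
          have := Finite.one_lt_card (α := Subgroup.center P)
          omega
        obtain ⟨z, hz⟩ := exists_prime_orderOf_dvd_card' (G := Subgroup.center P) p
          (hk ▸ dvd_pow_self p hk0)
        have hzo : orderOf (z : P) = p := by rw [Subgroup.orderOf_coe, hz]
        have hnorm : (Subgroup.zpowers (z : P)).Normal := by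
          refine ⟨fun a ha g => ?_⟩
          obtain ⟨i, rfl⟩ := Subgroup.mem_zpowers_iff.1 ha
          have h1 : g * (z : P) ^ i = (z : P) ^ i * g :=
            Subgroup.mem_center_iff.1 ((Subgroup.center P).zpow_mem z.2 i) g
          rw [h1, mul_inv_cancel_right]
          exact ha
        letI : Fintype (P ⧸ Subgroup.zpowers (z : P)) := Fintype.ofFinite _
        have hpE : (p : E) = 0 := CharP.cast_eq_zero E p
        obtain ⟨D1, incl, x, m, hinj, hcomp, hact, hfixz, hzx, hxm, hspan⟩ :=
          pt_quot hpE D (z : P) z.2 hzo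
        have hcardlt : Nat.card (P ⧸ Subgroup.zpowers (z : P)) < n := by
          have h1 := Subgroup.card_eq_card_quotient_mul_card_subgroup (Subgroup.zpowers (z : P))
          rw [Nat.card_zpowers, hzo, hcard] at h1
          have h2 : 0 < Nat.card (P ⧸ Subgroup.zpowers (z : P)) := Nat.card_pos
          have h3 := (Fact.out : p.Prime).one_lt
          rw [h1]
          nlinarith
        have hD1 : IsDomain D1.T := by
          refine ih _ hcardlt _ rfl (hP.to_quotient _) D1 ?_
          intro χ1 hχ1 w1 hw1 h0
          refine hD (χ1.comp (QuotientGroup.mk' _)) ?_ (incl w1) ?_ ?_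
          · intro h1
            apply hχ1
            apply DFunLike.ext
            intro q
            obtain ⟨σ, rfl⟩ := QuotientGroup.mk'_surjective _ q
            exact DFunLike.congr_fun h1 σ
          · intro σ
            have h1 := RingHom.congr_fun (hact σ) w1
            rw [RingHom.comp_apply, RingHom.comp_apply] at h1
            rw [← h1, hw1, map_add, map_natCast]
            rfl
          · rw [← map_pow, ← map_sub, h0, map_zero]
        have hfield := isdom_field D1 hD1
        refine isdom_step D hD (z : P) z.2 hfield.toField ?_ incl x m hfixz ?_ hzx hxm hspan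
        · exact charP_of_injective_ringHom D1.inj p
        · intro q
          have h1 := RingHom.congr_fun (hact (z : P)) q
          rw [RingHom.comp_apply, RingHom.comp_apply] at h1
          rw [← h1]
          have h2 : (QuotientGroup.mk (z : P) : P ⧸ Subgroup.zpowers (z : P)) = 1 :=
            (QuotientGroup.eq_one_iff _).2 (Subgroup.mem_zpowers _)
          rw [h2, D1.act_one]
          rfl
  intro P _ _ hP D hD
  exact key _ P rfl hP D hD

end Pool.Agent.Helper54.SJ
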