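import Pool.Agent.Helper54.SJ.Dom
import Pool.Agent.Helper54.SJ.IsDom
import Pool.Agent.Helper54.FP.Patch2

/-!
# SJ-13: good Galois algebras are totally ramified at infinity

PROOF.
* `conn_of_px`: by `conn_of_injective` it is enough that `Conn D ((px F).comp (affE a b hb))`.  Let `D'`, `β` be the
  base change of `D` along this homomorphism (`pt_baseChange`); `LaurentSeries F` is a field of characteristic `p`
  (`charP_LS`).  `D'.T` is a domain by `pt_isDomain`: let `χ ≠ 1`, `w'` with `act σ w' = w' + χ σ`, `w'^p - w' = 0`.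
  `hD` gives `w`, `g` with `act σ w = w + χ σ`, `w^p - w = ι g`, `g ∈ degSet p F`.  `β w - w'` is fixed, so it is
  `D'.ι f`, and `D'.ι (f^p - f) = β (w^p - w) = D'.ι (px F (affE a b hb g))`.  So
  `f^p - f = px F (g.comp (C a + C b * X))`, where the polynomial on the right has degree `n = natDegree g > 0`, `p ∤ n`
  (`natDegree_comp_lin` of FP/Patch2).  If `order f ≥ 0` then the left side has no coefficients at negative places, but
  the coefficient of the right side at `-n` is nonzero (`px_coeff`).  If `order f = -m < 0` then the order of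
  `f^p - f` is `-p m`, and the order of the right side is `-n`: contradiction to `p ∤ n`.
* `conn_α2`: `conn_of_px` with `h0` of `exists_h0` (FP/HomInf): see the proof of `hind` in FP/Patch2, where it is
  shown that `h0.comp (α2 k 1 1) = (px (KK k)).comp (compRingHom (C 1 + C t * X))`, `a = 1 = HahnSeries.C 1`,
  `b = t = HahnSeries.single 1 1`.
* `conn_px`: `conn_of_px` with `a = 0`, `b = 1`, `h = id`.
* `conn_comp`: clear from the definition (compose the two homomorphisms).
-/

set_option autoImplicit false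
open Pool.Agent.Helper54.FP

namespace Pool.Agent.Helper54.SJ

section
variable {p : ℕ} [Fact p.Prime] {P : Type} [Group P] [Fintype P]

theorem conn_comp {R R' E : Type} [CommRing R] [CommRing R'] [CommRing E] {D : PT P R}
    {α : R →+* R'} {D' : PT P R'} {β : D.T →+* D'.T} (h : IsEq D α D' β) {γ : R' →+* E}
    (hc : Conn D' γ) : Conn D (γ.comp α) := by
  obtain ⟨D'', β', h', hdom⟩ := hc
  refine ⟨D'', β'.comp β, ⟨?_, fun σ => ?_⟩, hdom⟩
  · rw [RingHom.comp_assoc, h.comm, ← RingHom.comp_assoc, h'.comm, RingHom.comp_assoc]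
  · rw [RingHom.comp_assoc, h.equi, ← RingHom.comp_assoc, h'.equi, RingHom.comp_assoc]

/-- there is no Laurent series `f` with `f ^ p - f` a polynomial in `1 / x` of positive degree prime
to `p` -/
theorem connpx_no_root {F : Type} [Field F] (G : Polynomial F) (hG : 0 < G.natDegree)
    (hGp : ¬ p ∣ G.natDegree) (f : LaurentSeries F) (h : f ^ p - f = px F G) : False := by
  have hp0 : 0 < p := (Fact.out : p.Prime).pos
  have hp2 : 2 ≤ p := (Fact.out : p.Prime).two_le
  set n := G.natDegree with hn
  have hG0 : G ≠ 0 := by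
    rintro rfl
    simp at hn
    omega
  have hc : (px F G).coeff (-(n : ℤ)) ≠ 0 := by
    rw [px_coeff, if_pos (by omega), neg_neg, Int.toNat_natCast, hn, Polynomial.coeff_natDegree]
    exact Polynomial.leadingCoeff_ne_zero.2 hG0
  have hf0 : f ≠ 0 := by
    rintro rfl
    rw [zero_pow hp0.ne', sub_zero] at h
    rw [← h] at hc
    simp at hc
  have hord : (f ^ p).order = (p : ℤ) * f.order := by
    rw [HahnSeries.order_pow, nsmul_eq_mul]
  rw [← h, HahnSeries.coeff_sub] at hc
  rcases le_or_gt 0 f.order with ho | ho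
  · apply hc
    rw [HahnSeries.coeff_eq_zero_of_lt_order (x := f) (by omega),
      HahnSeries.coeff_eq_zero_of_lt_order (x := f ^ p) (by rw [hord]; nlinarith), sub_zero]
  · have h1 : (p : ℤ) * f.order ≤ 2 * f.order := by nlinarith
    have h2 : ¬ (-(n : ℤ) < (p : ℤ) * f.order) := by
      intro h3
      apply hc
      rw [HahnSeries.coeff_eq_zero_of_lt_order (x := f) (by omega),
        HahnSeries.coeff_eq_zero_of_lt_order (x := f ^ p) (by rw [hord]; exact h3), sub_zero]
    have h3 : (px F G).coeff ((p : ℤ) * f.order) ≠ 0 := by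
      rw [← h, HahnSeries.coeff_sub, HahnSeries.coeff_eq_zero_of_lt_order (x := f) (by omega),
        sub_zero, ← hord]
      exact HahnSeries.coeff_order_eq_zero.not.2 (pow_ne_zero p hf0)
    rw [px_coeff, if_pos (by omega)] at h3
    have h4 := Polynomial.le_natDegree_of_ne_zero h3
    rw [← hn] at h4
    apply hGp
    have h5 : (n : ℤ) = (p : ℤ) * (-f.order) := by
      rw [mul_neg]
      omega
    have h6 : (p : ℤ) ∣ (n : ℤ) := ⟨_, h5⟩
    exact_mod_cast h6

theorem conn_of_px (hP : IsPGroup p P) {F : Type} [Field F] [CharP F p]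
    {D : PT P (Polynomial F)} (hD : GoodPT p (degSet p F) D) {E : Type} [CommRing E]
    (γ : Polynomial F →+* E) (h : E →+* LaurentSeries F) (hh : Function.Injective h) (a b : F)
    (hb : b ≠ 0) (hγ : h.comp γ = (px F).comp (affE a b hb : Polynomial F →+* Polynomial F)) :
    Conn D γ := by
  have hp : (p : Polynomial F) = 0 := CharP.cast_eq_zero _ _
  have : CharP (LaurentSeries F) p := charP_LS p F
  refine conn_of_injective hP hp D γ h hh ?_
  rw [hγ]
  obtain ⟨D', β, hIs, -⟩ := pt_baseChange hP hp D
    ((px F).comp (affE a b hb : Polynomial F →+* Polynomial F))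
  refine ⟨D', β, hIs, pt_isDomain P hP D' ?_⟩
  intro χ hχ w' hw' h0
  obtain ⟨w, g, hw, hwg, hg⟩ := hD χ hχ
  have : CharP D'.T p := charP_of_injective_ringHom D'.inj p
  have hequi : ∀ σ t, D'.act σ (β t) = β (D.act σ t) := fun σ t => by
    have := RingHom.congr_fun (hIs.equi σ) t
    exact this.symm
  have hfix : ∀ σ, D'.act σ (β w - w') = β w - w' := by
    intro σ
    rw [map_sub, hequi, hw, hw', map_add, map_natCast]
    ring
  obtain ⟨f, hf⟩ := D'.fix _ hfix
  have h1 : D'.ι (f ^ p - f) = D'.ι (px F (g.comp (Polynomial.C a + Polynomial.C b *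
      Polynomial.X))) := by
    rw [map_sub, map_pow, hf, sub_pow_char]
    have h2 : β w ^ p - β w = D'.ι (px F (g.comp (Polynomial.C a + Polynomial.C b *
      Polynomial.X))) := by
      rw [← map_pow, ← map_sub, hwg]
      have := RingHom.congr_fun hIs.comm g
      exact this
    rw [← h2]
    have h3 : w' ^ p = w' := sub_eq_zero.1 h0
    rw [h3]
    ring
  refine connpx_no_root (p := p) (g.comp (Polynomial.C a + Polynomial.C b * Polynomial.X)) ?_ ?_ f
    (D'.inj h1)
  · rw [natDegree_comp_lin _ _ _ hb]
    exact hg.1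
  · rw [natDegree_comp_lin _ _ _ hb]
    exact hg.2

theorem conn_px (hP : IsPGroup p P) {F : Type} [Field F] [CharP F p]
    {D : PT P (Polynomial F)} (hD : GoodPT p (degSet p F) D) : Conn D (px F) := by
  refine conn_of_px hP hD (px F) (RingHom.id _) Function.injective_id 0 1 one_ne_zero ?_
  apply Polynomial.ringHom_ext
  · intro r
    change px F (Polynomial.C r) = px F ((Polynomial.C r).comp _)
    rw [Polynomial.C_comp]
  · change px F Polynomial.X = px F (Polynomial.X.comp _)
    rw [Polynomial.X_comp, Polynomial.C_0, Polynomial.C_1, zero_add, one_mul]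

theorem conn_α2 (hP : IsPGroup p P) {k : Type} [Field k] [CharP k p]
    {D : PT P (Polynomial (KK k))} (hD : GoodPT p (degSet p (KK k)) D) :
    Conn D (α2 k 1 1) := by
  have : CharP (KK k) p := charP_LS p k
  obtain ⟨h0, h0i, h0c, h0w⟩ := exists_h0 (k := k)
  have hne : (HahnSeries.single (1 : ℤ) (1 : k) : KK k) ≠ 0 := by
    rw [Ne, HahnSeries.single_eq_zero_iff]
    exact one_ne_zero
  refine conn_of_px hP hD (α2 k 1 1) h0 h0i (HahnSeries.C (1 : k))
    (HahnSeries.single (1 : ℤ) (1 : k)) hne ?_
  have hss : (HahnSeries.single (-1 : ℤ) (1 : KK k) : LaurentSeries (KK k)) *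
      HahnSeries.single (1 : ℤ) (1 : KK k) = 1 := by
    rw [HahnSeries.single_mul_single]; simp
  rw [comp_α2 h0 HahnSeries.C h0c 1 1 (HahnSeries.C (HahnSeries.C (1 : k)) +
    HahnSeries.C (HahnSeries.single (1 : ℤ) (1 : k)) *
      HahnSeries.single (-1 : ℤ) (1 : KK k)) (by
        rw [h0w, add_sub_cancel_left, mul_assoc, hss, mul_one, pow_one])]
  apply Polynomial.ringHom_ext
  · intro r
    rw [Polynomial.coe_eval₂RingHom, Polynomial.eval₂_C]
    change _ = px (KK k) ((Polynomial.C r).comp _)
    rw [Polynomial.C_comp, px_C]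
  · rw [Polynomial.coe_eval₂RingHom, Polynomial.eval₂_X]
    change _ = px (KK k) (Polynomial.X.comp _)
    rw [Polynomial.X_comp, map_add, map_mul, px_C, px_C, px_X]

end

end Pool.Agent.Helper54.SJ
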