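import Pool.Agent.Helper54.SJ.BaseChange

/-!
# SJ-05: points with values in an algebraically closed field

PROOF.  Base change to `Ω` along `φ` (`pt_baseChange`): `D' : PT P Ω` with `β : D.T →+* D'.T`.  `D'.T` is
nontrivial (`D'.ι` is injective).  Let `M` be a maximal ideal of `D'.T`.  The field `D'.T ⧸ M` is integral over
`Ω`: every `t` is a root of the monic polynomial `∏_σ (X - act σ t)`, whose coefficients are fixed by `P` (so in
the image of `D'.ι`).  As `Ω` is algebraically closed, `Ω → D'.T ⧸ M` is bijective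
(`IsAlgClosed.algebraMap_surjective_of_isIntegral` or similar).  `κ` = composite
`D.T → D'.T → D'.T ⧸ M ≃ Ω`.
-/

set_option autoImplicit false

namespace Pool.Agent.Helper54.SJ

theorem pt_hom {p : ℕ} [Fact p.Prime] {P : Type} [Group P] [Fintype P] (hP : IsPGroup p P)
    {R : Type} [CommRing R] (hp : (p : R) = 0) (D : PT P R) {Ω : Type} [Field Ω] [IsAlgClosed Ω]
    (φ : R →+* Ω) : ∃ κ : D.T →+* Ω, κ.comp D.ι = φ := by
  classical
  obtain ⟨D', β, hβ, -⟩ := pt_baseChange hP hp D φ
  have hnt : Nontrivial D'.T := D'.inj.nontrivial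
  obtain ⟨M, hM⟩ := Ideal.exists_maximal D'.T
  let ψ : Ω →+* D'.T ⧸ M := (Ideal.Quotient.mk M).comp D'.ι
  letI : Field (D'.T ⧸ M) := Ideal.Quotient.field M
  letI : Algebra Ω (D'.T ⧸ M) := ψ.toAlgebra
  have hint : Algebra.IsIntegral Ω (D'.T ⧸ M) := by
    constructor
    intro x
    obtain ⟨t, rfl⟩ := Ideal.Quotient.mk_surjective x
    let f : Polynomial D'.T := ∏ σ : P, (Polynomial.X - Polynomial.C (D'.act σ t))
    have hfm : f.Monic := Polynomial.monic_prod_of_monic _ _ fun σ _ => Polynomial.monic_X_sub_C _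
    have hfix : ∀ τ, f.map (D'.act τ) = f := by
      intro τ
      have h1 : f.map (D'.act τ) = ∏ σ : P, (Polynomial.X - Polynomial.C (D'.act (τ * σ) t)) := by
        simp only [f, Polynomial.map_prod, Polynomial.map_sub, Polynomial.map_X, Polynomial.map_C]
        refine Finset.prod_congr rfl fun σ _ => ?_
        rw [D'.act_mul]
        rfl
      rw [h1]
      exact Fintype.prod_equiv (Equiv.mulLeft τ) _ _ fun σ => rfl
    have hlift : f ∈ Polynomial.lifts D'.ι := by
      rw [Polynomial.lifts_iff_coeff_lifts]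
      intro n
      obtain ⟨r, hr⟩ := D'.fix (f.coeff n) (fun τ => by
        have h1 := congrArg (fun q : Polynomial D'.T => q.coeff n) (hfix τ)
        simpa only [Polynomial.coeff_map] using h1)
      exact ⟨r, hr⟩
    obtain ⟨g, hg, -, hgm⟩ := Polynomial.lifts_and_natDegree_eq_and_monic hlift hfm
    refine ⟨g, hgm, ?_⟩
    have h0 : Polynomial.eval t f = 0 := by
      simp only [f, Polynomial.eval_prod]
      refine Finset.prod_eq_zero (Finset.mem_univ (1 : P)) ?_
      rw [D'.act_one]
      simp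
    have h2 : Polynomial.eval₂ (algebraMap Ω (D'.T ⧸ M)) (Ideal.Quotient.mk M t) g =
        Ideal.Quotient.mk M (Polynomial.eval₂ D'.ι t g) := by
      rw [Polynomial.hom_eval₂]
      rfl
    rw [h2, ← Polynomial.eval_map, hg, h0, map_zero]
  have hbij := IsAlgClosed.algebraMap_bijective_of_isIntegral (k := Ω) (K := D'.T ⧸ M)
  let E : Ω ≃+* D'.T ⧸ M := RingEquiv.ofBijective (algebraMap Ω (D'.T ⧸ M)) hbij
  refine ⟨(E.symm : (D'.T ⧸ M) →+* Ω).comp ((Ideal.Quotient.mk M).comp β), ?_⟩
  ext r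
  have h3 : β (D.ι r) = D'.ι (φ r) := RingHom.congr_fun hβ.comm r
  change E.symm (Ideal.Quotient.mk M (β (D.ι r))) = φ r
  rw [h3]
  exact E.symm_apply_apply (φ r)

end Pool.Agent.Helper54.SJ
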