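import Pool.Agent.Helper54.SJ.NB

/-!
# SJ-04: every equivariant homomorphism has the universal property of the base change

PROOF.  `(p : R') = α p = 0`.  `e' = β D.e` has trace one in `D'` (`D'.act σ (β e) = β (D.act σ e)`), so by
`nb_exists`/`nb_unique` (for `D'` and `e'`) every `t : D'.T` is uniquely `∑ D'.ι (r σ) * β (D.act σ e)`.
`pt_ext`: clear.  `pt_lift`: define `κ' t = ∑ φ (r σ) * κ (D.act σ e)`.  Additivity and `κ' ∘ ι' = φ` are clear
(`D'.ι r = ∑ D'.ι r * β (act σ e)` and `∑ κ (act σ e) = 1`).  `κ' (D'.ι r * t) = φ r * κ' t`.  `κ' ∘ β = κ`: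
write `t = ∑ D.ι (a σ) act σ e` (`nb_exists` for `D`), `β t = ∑ D'.ι (α (a σ)) β (act σ e)`, so
`κ' (β t) = ∑ φ (α (a σ)) κ (act σ e) = ∑ κ (D.ι (a σ)) κ (act σ e) = κ t`.  Multiplicativity: by bilinearity
it is enough to see it for `β (act σ e) * β (act τ e) = β (act σ e * act τ e)`, where it follows from
`κ' ∘ β = κ`.
-/

set_option autoImplicit false

namespace Pool.Agent.Helper54.SJ

private theorem eq_tr {P : Type} [Group P] [Fintype P] {R R' : Type} [CommRing R] [CommRing R']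
    {D : PT P R} {α : R →+* R'} {D' : PT P R'} {β : D.T →+* D'.T} (h : IsEq D α D' β) :
    ∑ σ, D'.act σ (β D.e) = 1 := by
  have h1 : ∀ σ, D'.act σ (β D.e) = β (D.act σ D.e) := fun σ =>
    (RingHom.congr_fun (h.equi σ) D.e).symm
  rw [Finset.sum_congr rfl (fun σ _ => h1 σ), ← map_sum, D.tr, map_one]

private theorem eq_coord {p : ℕ} [Fact p.Prime] {P : Type} [Group P] [Fintype P]
    (hP : IsPGroup p P)
    {R R' : Type} [CommRing R] [CommRing R'] (hp : (p : R) = 0) {D : PT P R} {α : R →+* R'}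
    {D' : PT P R'} {β : D.T →+* D'.T} (h : IsEq D α D' β) (t : D'.T) :
    ∃ r : P → R', t = ∑ σ, D'.ι (r σ) * β (D.act σ D.e) := by
  have hp' : (p : R') = 0 := by
    have h1 := congrArg α hp
    rwa [map_natCast, map_zero] at h1
  have h1 : ∀ σ, D'.act σ (β D.e) = β (D.act σ D.e) := fun σ =>
    (RingHom.congr_fun (h.equi σ) D.e).symm
  obtain ⟨r, hr⟩ := nb_exists hP hp' D' (β D.e) (eq_tr h) t
  refine ⟨r, ?_⟩
  rw [hr]
  exact Finset.sum_congr rfl (fun σ _ => by rw [h1 σ])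

private theorem eq_uniq {p : ℕ} [Fact p.Prime] {P : Type} [Group P] [Fintype P]
    (hP : IsPGroup p P)
    {R R' : Type} [CommRing R] [CommRing R'] (hp : (p : R) = 0) {D : PT P R} {α : R →+* R'}
    {D' : PT P R'} {β : D.T →+* D'.T} (h : IsEq D α D' β) (r s : P → R')
    (hrs : ∑ σ, D'.ι (r σ) * β (D.act σ D.e) = ∑ σ, D'.ι (s σ) * β (D.act σ D.e)) : r = s := by
  have hp' : (p : R') = 0 := by
    have h1 := congrArg α hp
    rwa [map_natCast, map_zero] at h1
  have h1 : ∀ σ, D'.act σ (β D.e) = β (D.act σ D.e) := fun σ =>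
    (RingHom.congr_fun (h.equi σ) D.e).symm
  have h2 := nb_unique hP hp' D' (β D.e) (eq_tr h) (fun σ => r σ - s σ) (by
    have h3 : ∀ σ, D'.ι (r σ - s σ) * D'.act σ (β D.e) =
        D'.ι (r σ) * β (D.act σ D.e) - D'.ι (s σ) * β (D.act σ D.e) := by
      intro σ
      rw [h1 σ, map_sub, sub_mul]
    rw [Finset.sum_congr rfl (fun σ _ => h3 σ), Finset.sum_sub_distrib, hrs, sub_self])
  funext σ
  exact sub_eq_zero.1 (congrFun h2 σ)

theorem pt_ext {p : ℕ} [Fact p.Prime] {P : Type} [Group P] [Fintype P] (hP : IsPGroup p P)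
    {R R' : Type} [CommRing R] [CommRing R'] (hp : (p : R) = 0) {D : PT P R} {α : R →+* R'}
    {D' : PT P R'} {β : D.T →+* D'.T} (h : IsEq D α D' β) {S : Type} [CommRing S]
    (κ1 κ2 : D'.T →+* S) (h1 : κ1.comp D'.ι = κ2.comp D'.ι) (h2 : κ1.comp β = κ2.comp β) :
    κ1 = κ2 := by
  apply RingHom.ext
  intro t
  obtain ⟨r, rfl⟩ := eq_coord hP hp h t
  rw [map_sum, map_sum]
  refine Finset.sum_congr rfl fun σ _ => ?_
  rw [map_mul, map_mul]
  have h3 : κ1 (D'.ι (r σ)) = κ2 (D'.ι (r σ)) := RingHom.congr_fun h1 (r σ)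
  have h4 : κ1 (β (D.act σ D.e)) = κ2 (β (D.act σ D.e)) := RingHom.congr_fun h2 _
  rw [h3, h4]

theorem pt_lift {p : ℕ} [Fact p.Prime] {P : Type} [Group P] [Fintype P] (hP : IsPGroup p P)
    {R R' : Type} [CommRing R] [CommRing R'] (hp : (p : R) = 0) {D : PT P R} {α : R →+* R'}
    {D' : PT P R'} {β : D.T →+* D'.T} (h : IsEq D α D' β) {S : Type} [CommRing S]
    (κ : D.T →+* S) (φ : R' →+* S) (hκ : κ.comp D.ι = φ.comp α) :
    ∃ κ' : D'.T →+* S, κ'.comp D'.ι = φ ∧ κ'.comp β = κ := by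
  choose c hc using eq_coord hP hp h
  have hK : ∀ r : P → R', c (∑ σ, D'.ι (r σ) * β (D.act σ D.e)) = r := by
    intro r
    exact eq_uniq hP hp h _ _ (hc _).symm
  obtain ⟨K, hKdef⟩ : ∃ K : D'.T → S, ∀ t, K t = ∑ σ, φ (c t σ) * κ (D.act σ D.e) :=
    ⟨_, fun _ => rfl⟩
  have hof : ∀ (r : P → R'), K (∑ σ, D'.ι (r σ) * β (D.act σ D.e)) =
      ∑ σ, φ (r σ) * κ (D.act σ D.e) := by
    intro r
    rw [hKdef, hK]
  have hadd : ∀ t u, K (t + u) = K t + K u := by
    intro t u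
    have h1 : t + u = ∑ σ, D'.ι (c t σ + c u σ) * β (D.act σ D.e) := by
      nth_rewrite 1 [hc t]
      nth_rewrite 1 [hc u]
      rw [← Finset.sum_add_distrib]
      exact Finset.sum_congr rfl fun σ _ => by rw [map_add, add_mul]
    rw [h1, hof, hKdef, hKdef, ← Finset.sum_add_distrib]
    exact Finset.sum_congr rfl fun σ _ => by rw [map_add, add_mul]
  have hzero : K 0 = 0 := by
    have h1 := hadd 0 0
    rw [add_zero] at h1
    exact left_eq_add.1 h1
  obtain ⟨Ka, hKa⟩ : ∃ Ka : D'.T →+ S, ∀ t, Ka t = K t :=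
    ⟨⟨⟨K, hzero⟩, hadd⟩, fun _ => rfl⟩
  have hsum : ∀ (f : P → D'.T), K (∑ σ, f σ) = ∑ σ, K (f σ) := by
    intro f
    rw [← hKa, map_sum]
    exact Finset.sum_congr rfl fun σ _ => hKa _
  have hsmul : ∀ r t, K (D'.ι r * t) = φ r * K t := by
    intro r t
    have h1 : D'.ι r * t = ∑ σ, D'.ι (r * c t σ) * β (D.act σ D.e) := by
      nth_rewrite 1 [hc t]
      rw [Finset.mul_sum]
      exact Finset.sum_congr rfl fun σ _ => by rw [map_mul, mul_assoc]
    rw [h1, hof, hKdef, Finset.mul_sum]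
    exact Finset.sum_congr rfl fun σ _ => by rw [map_mul, mul_assoc]
  have hbeta : ∀ t, K (β t) = κ t := by
    intro t
    obtain ⟨a, ha⟩ := nb_exists hP hp D D.e D.tr t
    have h1 : β t = ∑ σ, D'.ι (α (a σ)) * β (D.act σ D.e) := by
      rw [ha, map_sum]
      refine Finset.sum_congr rfl fun σ _ => ?_
      rw [map_mul]
      congr 1
      exact RingHom.congr_fun h.comm (a σ)
    rw [h1, hof]
    have h2 : κ t = κ (∑ σ, D.ι (a σ) * D.act σ D.e) := congrArg κ ha
    rw [h2, map_sum]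
    refine Finset.sum_congr rfl fun σ _ => ?_
    rw [map_mul]
    congr 1
    exact (RingHom.congr_fun hκ (a σ)).symm
  have hone : K 1 = 1 := by
    rw [← map_one β, hbeta, map_one]
  have hiota : ∀ r, K (D'.ι r) = φ r := by
    intro r
    have h1 := hsmul r 1
    rwa [mul_one, hone, mul_one] at h1
  have hbmul : ∀ s u, K (β s * u) = κ s * K u := by
    intro s u
    have h1 : β s * u = ∑ τ, D'.ι (c u τ) * β (s * D.act τ D.e) := by
      nth_rewrite 1 [hc u]
      rw [Finset.mul_sum]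
      refine Finset.sum_congr rfl fun τ _ => ?_
      rw [map_mul]
      ring
    rw [h1, hsum, hKdef u, Finset.mul_sum]
    refine Finset.sum_congr rfl fun τ _ => ?_
    rw [hsmul, hbeta, map_mul]
    ring
  have hmul : ∀ t u, K (t * u) = K t * K u := by
    intro t u
    have h1 : t * u = ∑ σ, D'.ι (c t σ) * (β (D.act σ D.e) * u) := by
      nth_rewrite 1 [hc t]
      rw [Finset.sum_mul]
      exact Finset.sum_congr rfl fun σ _ => by rw [mul_assoc]
    rw [h1, hsum, hKdef t, Finset.sum_mul]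
    refine Finset.sum_congr rfl fun σ _ => ?_
    rw [hsmul, hbmul, mul_assoc]
  refine ⟨RingHom.mk' ⟨⟨K, hone⟩, hmul⟩ hadd, ?_, ?_⟩
  · apply RingHom.ext
    intro r
    exact hiota r
  · apply RingHom.ext
    intro t
    exact hbeta t

end Pool.Agent.Helper54.SJ
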