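import Pool.Agent.Helper54.SJ.BaseChange
import Pool.Agent.Helper54.SJ.Lift

/-!
# SJ-07: domains among Galois algebras

PROOF.
* `pt_dom_inj`: let `t ≠ 0`.  `N = ∏_σ act σ t` is fixed by `P`, `N = ι r`, and `N ≠ 0` (`act σ t ≠ 0` because
  `act σ⁻¹` is a left inverse of `act σ`; domain).  So `r ≠ 0` and `κ t * κ (rest) = κ (ι r) ≠ 0` (injectivity of
  `κ ∘ ι` and `κ (ι 0) = 0`), so `κ t ≠ 0`.
* `isEq_injective`: `t = ∑ ι (r σ) act σ e` (`nb_exists`), `β t = ∑ ι' (α (r σ)) act' σ (β e)`, `β e` has trace one,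
  so `β t = 0` implies `α ∘ r = 0` (`nb_unique` for `D'`, `(p : R') = α p = 0`), so `r = 0`, `t = 0`.
* `conn_isDomain`: `hc` gives `D''`, `β''` with `IsEq D γ D'' β''` and `D''.T` a domain.  By `pt_lift` (for `h`) there
  is `κ : D'.T → D''.T` with `κ ∘ ι' = ι''`, `κ ∘ β = β''`.  It is equivariant (`pt_ext`: `κ ∘ act' σ` and
  `act'' σ ∘ κ` agree after composition with `ι'` and with `β`), so `IsEq D' id D'' κ`, so injective
  (`isEq_injective`), so `D'.T` is a domain (it is nontrivial: `D''.T` is, and `κ 1 = 1`).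
* `conn_of_injective`: let `D_E` be the base change along `γ` (`pt_baseChange`), `D'` the one along `h ∘ γ`
  (a domain).  `pt_lift` gives `κ : D_E.T → D'.T` with `κ ∘ ι_E = ι' ∘ h`, `κ ∘ β_E = β'`, equivariant by `pt_ext`,
  injective by `isEq_injective`.  So `D_E.T` is a domain.
-/

set_option autoImplicit false

namespace Pool.Agent.Helper54.SJ

theorem pt_dom_inj {P : Type} [Group P] [Fintype P] {E : Type} [CommRing E] (D : PT P E)
    [IsDomain D.T] {Ω : Type} [CommRing Ω] (κ : D.T →+* Ω)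
    (h : Function.Injective (κ.comp D.ι)) : Function.Injective κ := by
  rw [injective_iff_map_eq_zero]
  intro t ht
  by_contra hne
  have h1 : ∀ τ, D.act τ (∏ σ, D.act σ t) = ∏ σ, D.act σ t := by
    intro τ
    rw [map_prod]
    exact Fintype.prod_equiv (Equiv.mulLeft τ) _ _ (fun σ => by
      rw [Equiv.coe_mulLeft, D.act_mul, RingHom.comp_apply])
  obtain ⟨r, hr⟩ := D.fix _ h1
  have h2 : ∏ σ, D.act σ t ≠ 0 := by
    rw [Finset.prod_ne_zero_iff]
    intro σ _ h3
    apply hne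
    have h4 : D.act σ⁻¹ (D.act σ t) = t := by
      rw [← RingHom.comp_apply, ← D.act_mul, inv_mul_cancel, D.act_one, RingHom.id_apply]
    rw [← h4, h3, map_zero]
  have h5 : κ (∏ σ, D.act σ t) = 0 := by
    rw [map_prod]
    apply Finset.prod_eq_zero (Finset.mem_univ 1)
    rw [D.act_one, RingHom.id_apply, ht]
  rw [← hr] at h5 h2
  have h6 : r = 0 := by
    apply h
    rw [RingHom.comp_apply, h5, map_zero]
  rw [h6, map_zero] at h2
  exact h2 rfl

section
variable {p : ℕ} [Fact p.Prime] {P : Type} [Group P] [Fintype P] {R E E' : Type} [CommRing R]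
  [CommRing E] [CommRing E']

theorem isEq_injective (hP : IsPGroup p P) (hp : (p : R) = 0) {D : PT P R} {α : R →+* E}
    {D' : PT P E} {β : D.T →+* D'.T} (h : IsEq D α D' β) (hα : Function.Injective α) :
    Function.Injective β := by
  have hp' : (p : E) = 0 := by rw [← map_natCast α, hp, map_zero]
  have hequi : ∀ σ t, β (D.act σ t) = D'.act σ (β t) := fun σ t => by
    have := RingHom.congr_fun (h.equi σ) t
    exact this
  have hcomm : ∀ r, β (D.ι r) = D'.ι (α r) := fun r => by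
    have := RingHom.congr_fun h.comm r
    exact this
  have htr : ∑ σ, D'.act σ (β D.e) = 1 := by
    simp only [← hequi]
    rw [← map_sum, D.tr, map_one]
  rw [injective_iff_map_eq_zero]
  intro t ht
  obtain ⟨r, hr⟩ := nb_exists hP hp D D.e D.tr t
  have h1 : ∑ σ, D'.ι (α (r σ)) * D'.act σ (β D.e) = 0 := by
    rw [← ht, hr, map_sum]
    apply Finset.sum_congr rfl
    intro σ _
    rw [map_mul, hequi, hcomm]
  have h2 := nb_unique hP hp' D' (β D.e) htr (fun σ => α (r σ)) h1
  have h3 : ∀ σ, r σ = 0 := by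
    intro σ
    apply hα
    rw [map_zero]
    exact congrFun h2 σ
  rw [hr]
  simp only [h3, map_zero, zero_mul, Finset.sum_const_zero]

theorem lift_isEq (hP : IsPGroup p P) (hp : (p : R) = 0) {D : PT P R} {γ : R →+* E}
    {h : E →+* E'} {D' : PT P E} {β : D.T →+* D'.T} (h1 : IsEq D γ D' β)
    {D'' : PT P E'} {β'' : D.T →+* D''.T} (h2 : IsEq D (h.comp γ) D'' β'') :
    ∃ κ : D'.T →+* D''.T, IsEq D' h D'' κ := by
  obtain ⟨κ, hκ1, hκ2⟩ := pt_lift hP hp h1 β'' (D''.ι.comp h) (by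
    rw [h2.comm, RingHom.comp_assoc])
  refine ⟨κ, hκ1, fun σ => ?_⟩
  apply pt_ext hP hp h1
  · rw [RingHom.comp_assoc, D'.act_ι, RingHom.comp_assoc, hκ1, ← RingHom.comp_assoc, D''.act_ι]
  · calc (κ.comp (D'.act σ)).comp β = κ.comp ((D'.act σ).comp β) := RingHom.comp_assoc _ _ _
      _ = κ.comp (β.comp (D.act σ)) := by rw [h1.equi]
      _ = (κ.comp β).comp (D.act σ) := (RingHom.comp_assoc _ _ _).symm
      _ = (D''.act σ).comp (κ.comp β) := by rw [hκ2, h2.equi]
      _ = ((D''.act σ).comp κ).comp β := (RingHom.comp_assoc _ _ _).symm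

theorem conn_isDomain (hP : IsPGroup p P) (hp : (p : R) = 0) {D : PT P R} {γ : R →+* E}
    (hc : Conn D γ) {D' : PT P E} {β : D.T →+* D'.T} (h : IsEq D γ D' β) : IsDomain D'.T := by
  obtain ⟨D'', β'', h2, hdom⟩ := hc
  have hp' : (p : E) = 0 := by rw [← map_natCast γ, hp, map_zero]
  obtain ⟨κ, hκ⟩ := lift_isEq (h := RingHom.id E) hP hp h (D'' := D'') (β'' := β'') (by
    rw [RingHom.id_comp]
    exact h2)
  have hinj := isEq_injective hP hp' hκ (fun _ _ h => h)
  exact hinj.isDomain κ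

theorem conn_of_injective (hP : IsPGroup p P) (hp : (p : R) = 0) (D : PT P R) (γ : R →+* E)
    (h : E →+* E') (hh : Function.Injective h) (hc : Conn D (h.comp γ)) : Conn D γ := by
  obtain ⟨D'', β'', h2, hdom⟩ := hc
  have hp' : (p : E) = 0 := by rw [← map_natCast γ, hp, map_zero]
  obtain ⟨D', β', h1, -⟩ := pt_baseChange hP hp D γ
  obtain ⟨κ, hκ⟩ := lift_isEq hP hp h1 h2
  have hinj := isEq_injective hP hp' hκ hh
  exact ⟨D', β', h1, hinj.isDomain κ⟩

end

end Pool.Agent.Helper54.SJ
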