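import Pool.Agent.Helper54.SJ.UMat
import Pool.Agent.Helper54.SJ.Dom

/-!
# SJ-14: relations between the entries of the fundamental matrix of a connected Galois algebra

PROOF.  Let `D_E`, `β` be the base change of `D` along `γ0` (`pt_baseChange`, `β D.e = D_E.e`).  `D_E.T` is a domain
by `conn_isDomain`.  `pt_lift`: `κ = κ_E ∘ β` with `κ_E ∘ D_E.ι = i`, and `κ_E` is injective (`pt_dom_inj`).  By
`um_eq`, `UM D κ = UM D_E κ_E`.
* `fm_tr`: `fm_of_pt` for `D_E`, `κ_E` (`(p : E) = 0`).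
* `rel_tr`: similarly `κ' = κ'_E ∘ β`, `κ'_E ∘ D_E.ι = j`.  Let `Y0 = C.map D_E.ι * UM D_E id`, a matrix over `D_E.T`.
  `κ_E (ev D_E.ι Y0 F) = ev i (C.map i * UM D κ) F` (`ev_map`, `um_map`), and the same for `κ'_E`, `j`.  So `Rel i _ j _`
  by injectivity of `κ_E`, and `Rel.restrict γ` gives the result.
-/

set_option autoImplicit false
open Pool.Agent.Helper54.FP

namespace Pool.Agent.Helper54.SJ

section
variable {p : ℕ} [Fact p.Prime] {G : Type} [Group G] [Fintype G] [DecidableEq G] {P : Subgroup G}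
  [Fintype P]

/-- matrix identity used below -/
private theorem map_cu {E Ω T : Type} [CommRing E] [CommRing Ω] [CommRing T] (ι : E →+* T)
    (κ : T →+* Ω) {i : E →+* Ω} (h : κ.comp ι = i) (C : Matrix G G E) (U : Matrix G G T) :
    (C.map ι * U).map κ = C.map i * U.map κ := by
  rw [Matrix.map_mul]
  congr 1
  rw [← h]
  rfl

theorem rel_tr (hP : IsPGroup p P) {R R0 E Ω Ω' : Type} [CommRing R] [CommRing R0] [CommRing E]
    [CommRing Ω] [CommRing Ω'] (hp : (p : R0) = 0) (D : PT P R0) (γ0 : R0 →+* E) (hc : Conn D γ0)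
    (γ : R →+* E) {i : E →+* Ω} (hi : Function.Injective i) {j : E →+* Ω'} (κ : D.T →+* Ω)
    (hκ : κ.comp D.ι = i.comp γ0) (κ' : D.T →+* Ω') (hκ' : κ'.comp D.ι = j.comp γ0)
    (C : Matrix G G E) :
    Rel (i.comp γ) (C.map i * UM D κ) (j.comp γ) (C.map j * UM D κ') := by
  obtain ⟨DE, β, hβ, he⟩ := pt_baseChange hP hp D γ0
  have hdom : IsDomain DE.T := conn_isDomain hP hp hc hβ
  obtain ⟨κE, h1, h2⟩ := pt_lift hP hp hβ κ i hκ
  obtain ⟨κE', h1', h2'⟩ := pt_lift hP hp hβ κ' j hκ'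
  have hinj : Function.Injective κE := pt_dom_inj DE κE (by rw [h1]; exact hi)
  have e1 : UM D κ = (UM DE (RingHom.id DE.T)).map κE := by
    rw [um_map, RingHom.comp_id, um_eq hβ he, h2]
  have e2 : UM D κ' = (UM DE (RingHom.id DE.T)).map κE' := by
    rw [um_map, RingHom.comp_id, um_eq hβ he, h2']
  have hrel : Rel i (C.map i * UM D κ) j (C.map j * UM D κ') := by
    intro F hF
    rw [e1, ← map_cu DE.ι κE h1] at hF
    rw [e2, ← map_cu DE.ι κE' h1']
    have h3 := ev_map κE DE.ι (C.map DE.ι * UM DE (RingHom.id DE.T)) F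
    have h4 := ev_map κE' DE.ι (C.map DE.ι * UM DE (RingHom.id DE.T)) F
    rw [h1] at h3
    rw [h1'] at h4
    rw [← h3] at hF
    have h5 : ev DE.ι (C.map DE.ι * UM DE (RingHom.id DE.T)) F = 0 := hinj (by rw [hF, map_zero])
    rw [← h4, h5, map_zero]
  exact Rel.restrict γ hrel

theorem fm_tr (hP : IsPGroup p P) {R0 E Ω : Type} [CommRing R0] [CommRing E] [CommRing Ω]
    (hp : (p : R0) = 0) (D : PT P R0) (γ0 : R0 →+* E) (hc : Conn D γ0)
    {i : E →+* Ω} (hi : Function.Injective i) (κ : D.T →+* Ω) (hκ : κ.comp D.ι = i.comp γ0) :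
    FM p i (UM D κ) P := by
  obtain ⟨DE, β, hβ, he⟩ := pt_baseChange hP hp D γ0
  have hdom : IsDomain DE.T := conn_isDomain hP hp hc hβ
  obtain ⟨κE, h1, h2⟩ := pt_lift hP hp hβ κ i hκ
  have hinj : Function.Injective κE := pt_dom_inj DE κE (by rw [h1]; exact hi)
  have hp' : (p : E) = 0 := by rw [← map_natCast γ0, hp, map_zero]
  have h3 := fm_of_pt (G := G) (P := P) hP hp' DE κE hinj
  rw [h1, um_eq hβ he, h2] at h3
  exact h3

end

end Pool.Agent.Helper54.SJ
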