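import Pool.Agent.Helper54.SJ.EvnPt
import Pool.Agent.Helper54.SJ.ConnPx
import Pool.Agent.Helper54.SJ.RelTr
import Pool.Agent.Helper54.SJ.Hom
import Pool.Agent.Helper54.FP.Descent

/-!
# SJ-26: descent from a big algebraically closed field to a small one

PROOF.  This is `pcov_descent` of FP/Descent.lean with `Umat p τ u` replaced by `UM D κ`; please copy that proof with
these changes.
* `frob_C'`: by `um_frob` there is an invertible `Ψ0` over `K[X]` with `(UM D κ)^(p) = Ψ0.map (κ ∘ ι) * UM D κ`, and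
  `UM D κ` is invertible (`um_unit`), so `C^(p) * Ψ0.map px = Ψ.map px * C`.  `Umat p τ g` is replaced by `Ψ0` and
  `Umat p τ (-g)` by `Ψ0⁻¹`.
* instead of `evn_poly g` take the `S` and `c` of `evn_pt`; `x = c * d'.coeff .. * e'.coeff ..`.
* `DR`, `β` from `evn_pt` (`β DR.e = D.e`).  `Dk`, `βk` = base change of `DR` along `mapRingHom l` (`pt_baseChange`,
  `βk DR.e = Dk.e`), it is good.  `ik : k((x)) → AlgebraicClosure (k((x)))`, `κk : Dk.T → ..` over `ik ∘ px` (`pt_hom`).
* relations: `Conn DR (px R)`: by `conn_of_injective` with `h = lm R.val` (`lm_injective`) it is enough to have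
  `Conn DR ((lm R.val).comp (px R))`, and `(lm R.val).comp (px R) = (px K).comp (mapRingHom R.val)` (`lm_px`), so
  `conn_comp` and `conn_px` (for `D`) apply.  `rel_tr` with `γ0 = γ = px R`, `i ∘ lm R.val`, `ik ∘ lm l`, `C'`,
  `κ ∘ β`, `κk ∘ βk`, and `UM DR (κ ∘ β) = UM D κ`, `UM DR (κk ∘ βk) = UM Dk κk` (`um_eq`).
* the rest is unchanged (`hunit`: `um_unit`).
-/

set_option autoImplicit false
open Pool.Agent.Helper54.FP

set_option linter.unusedVariables false
set_option linter.unusedSectionVars false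
set_option linter.style.haveILetI false

namespace Pool.Agent.Helper54.SJ

attribute [local irreducible] lm px UM

private theorem desc_frob {p : ℕ} [Fact p.Prime] {G : Type} [Group G] [Fintype G] [DecidableEq G]
    {P : Subgroup G} [Fintype P] {K : Type} [Field K] [CharP K p] {D : PT P (Polynomial K)}
    {C : Matrix G G (LaurentSeries K)} {Ω : Type} [Field Ω] {i : LaurentSeries K →+* Ω}
    {κ : D.T →+* Ω} (hκ : κ.comp D.ι = i.comp (px K)) (hU : IsUnit (UM D κ))
    {Ψ0 Ψ : Matrix G G (Polynomial K)}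
    (hΨ0 : (UM D κ).map (fun y => y ^ p) = Ψ0.map (κ.comp D.ι) * UM D κ)
    (hΨ : (C.map i * UM D κ).map (fun y => y ^ p) =
      Ψ.map (i.comp (px K)) * (C.map i * UM D κ)) :
    C.map (fun x => x ^ p) * Ψ0.map (px K) = Ψ.map (px K) * C := by
  haveI : CharP (LaurentSeries K) p := charP_LS p K
  haveI : CharP Ω p := charP_hom i
  have e1 : (C.map i * UM D κ).map (fun y => y ^ p) =
      (C.map (fun x => x ^ p)).map i * (Ψ0.map (px K)).map i * UM D κ := by
    have h1 : (C.map i * UM D κ).map (fun y => y ^ p) =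
        (C.map i).map (frobenius Ω p) * (UM D κ).map (frobenius Ω p) := by
      rw [← Matrix.map_mul]
      rfl
    have h2 : (UM D κ).map (frobenius Ω p) = (Ψ0.map (px K)).map i * UM D κ := by
      have h3 : (UM D κ).map (frobenius Ω p) = Ψ0.map (κ.comp D.ι) * UM D κ := hΨ0
      rw [h3, hκ]
      rfl
    have h3 : (C.map i).map (frobenius Ω p) = (C.map (fun x => x ^ p)).map i := by
      ext1 a b
      simp [frobenius_def]
    rw [h1, h2, h3, Matrix.mul_assoc]
  rw [e1] at hΨ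
  have h5 : (Ψ.map (px K)).map i = Ψ.map (i.comp (px K)) := by
    ext1 a b
    simp
  have e2 : (C.map (fun x => x ^ p)).map i * (Ψ0.map (px K)).map i =
      (Ψ.map (px K)).map i * C.map i := by
    rw [h5]
    rw [← Matrix.mul_assoc] at hΨ
    exact hU.mul_right_cancel hΨ
  apply map_isUnit_inj i
  rw [Matrix.map_mul, Matrix.map_mul, e2]

theorem pcovR_descent {p : ℕ} [Fact p.Prime] {G : Type} [Group G] [Fintype G] [DecidableEq G]
    {P : Subgroup G} [Fintype P] (hP : IsPGroup p P) {k K : Type} [Field k] [IsAlgClosed k]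
    [CharP k p] [Field K] [IsAlgClosed K] [Algebra k K] {H : Subgroup G} (h : PCovR p K P H) :
    PCovR p k P H := by
  classical
  haveI : CharP K p := charP_hom (algebraMap k K)
  haveI : CharP (LaurentSeries K) p := charP_LS p K
  have hpK : (p : Polynomial K) = 0 := CharP.cast_eq_zero _ p
  have hpk : (p : Polynomial k) = 0 := CharP.cast_eq_zero _ p
  obtain ⟨D, C, Ω, _, i, κ, hDg, hκ, hC, hFM⟩ := h
  haveI : CharP Ω p := charP_hom i
  have hφ : Function.Injective (i.comp (px K)) := i.injective.comp (px_injective K)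
  obtain ⟨Ψ, hΨu, hΨ⟩ := hFM.frob
  obtain ⟨Ψ0, hΨ0u, hΨ0⟩ := um_frob (G := G) hP hpK D
  have hUu : IsUnit (UM D κ) := um_unit hP hpK D κ
  have hfr := desc_frob hκ hUu (hΨ0 Ω inferInstance κ) hΨ
  have hΨ0d := (Matrix.isUnit_iff_isUnit_det _).1 hΨ0u
  have hΨd := (Matrix.isUnit_iff_isUnit_det _).1 hΨu
  have hCd := (Matrix.isUnit_iff_isUnit_det _).1 hC
  -- the equations for `C` and its inverse
  have hΨi : (Ψ⁻¹).map (px K) * Ψ.map (px K) = 1 := by
    rw [← Matrix.map_mul, Matrix.nonsing_inv_mul _ hΨd]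
    exact Matrix.map_one _ (map_zero _) (map_one _)
  have hC1 : C = (Ψ⁻¹).map (px K) * C.map (fun x => x ^ p) * Ψ0.map (px K) := by
    rw [Matrix.mul_assoc, hfr, ← Matrix.mul_assoc, hΨi, Matrix.one_mul]
  have hCp : (C⁻¹).map (fun x => x ^ p) * C.map (fun x => x ^ p) = 1 := by
    have h1 : (C⁻¹).map (frobenius (LaurentSeries K) p) * C.map (frobenius (LaurentSeries K) p) =
        1 := by
      rw [← Matrix.map_mul, Matrix.nonsing_inv_mul _ hCd]
      exact Matrix.map_one _ (map_zero _) (map_one _)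
    exact h1
  have hUi : (Ψ0⁻¹).map (px K) * Ψ0.map (px K) = 1 := by
    rw [← Matrix.map_mul, Matrix.nonsing_inv_mul _ hΨ0d]
    exact Matrix.map_one _ (map_zero _) (map_one _)
  have hC2 : C⁻¹ = (Ψ0⁻¹).map (px K) * (C⁻¹).map (fun x => x ^ p) * Ψ.map (px K) := by
    have h1 : ((Ψ0⁻¹).map (px K) * (C⁻¹).map (fun x => x ^ p) * Ψ.map (px K)) * C = 1 := by
      rw [Matrix.mul_assoc, ← hfr, Matrix.mul_assoc, ← Matrix.mul_assoc ((C⁻¹).map _), hCp,
        Matrix.one_mul, hUi]
    exact Matrix.inv_eq_left_inv h1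
  obtain ⟨S1, hS1⟩ := rational_coeffs (p := p) (k := k) C (Ψ⁻¹) Ψ0 hC1
  obtain ⟨S2, hS2⟩ := rational_coeffs (p := p) (k := k) (C⁻¹) (Ψ0⁻¹) Ψ hC2
  haveI : Fintype H := Fintype.ofFinite H
  obtain ⟨Θ, r, A, B, q, d, e, hr, hirr, hd, he, hr2, hq, hAB⟩ := exists_prim hφ hFM
  obtain ⟨S3, hS3⟩ := bertini_noether (k := k) r hr hirr
  obtain ⟨c, hc0, S5, hS5⟩ := evn_pt (k := k) hP D hDg
  -- the finitely generated subalgebra
  have E1 : Evn (fun R : Subalgebra k K => ∀ i j n, (C i j).coeff n ∈ R) := ⟨S1, hS1⟩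
  have E2 : Evn (fun R : Subalgebra k K => ∀ i j n, (C⁻¹ i j).coeff n ∈ R) := ⟨S2, hS2⟩
  have E3 : Evn (fun R : Subalgebra k K => ∀ rR : Polynomial (Polynomial R),
        rR.map (Polynomial.mapRingHom (R.val : R →+* K)) = r →
        ∀ l : R →ₐ[k] k, Irreducible (rR.map (Polynomial.mapRingHom (l : R →+* k)))) := ⟨S3, hS3⟩
  have E4 := Evn.forall (Finset.univ : Finset (G × G))
    (P := fun ij (R : Subalgebra k K) => ∃ F' : Polynomial (Polynomial R),
      F'.map (Polynomial.mapRingHom (R.val : R →+* K)) = q ij.1 ij.2)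
    (fun ij _ => evn_poly2 (q ij.1 ij.2))
  have E5 : Evn (fun R : Subalgebra k K =>
      ∃ (hc : c ∈ R) (DR : PT P (Polynomial R)) (β : DR.T →+* D.T),
        IsEq DR (Polynomial.mapRingHom (R.val : R →+* K)) D β ∧ β DR.e = D.e ∧
        ∀ l : R →ₐ[k] k, l ⟨c, hc⟩ ≠ 0 → ∀ (D' : PT P (Polynomial k)) (β' : DR.T →+* D'.T),
          IsEq DR (Polynomial.mapRingHom (l : R →+* k)) D' β' → GoodPT p (degSet p k) D') :=
    ⟨S5, hS5⟩
  obtain ⟨S, hS⟩ := ((((E1.and E2).and E3).and E4).and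
    (((evn_mat (k := k) Ψ).and (evn_mat (Ψ⁻¹))).and E5)).and
      (((evn_mv (k := k) Θ).and (((evn_poly2 r).and (evn_poly2 A)).and (evn_poly2 B))).and
        ((evn_poly d).and (evn_poly e)))
  obtain ⟨R, hR⟩ : ∃ R : Subalgebra k K, R = Algebra.adjoin k (S : Set K) := ⟨_, rfl⟩
  obtain ⟨⟨⟨⟨⟨r1, r2⟩, r3⟩, r4⟩, ⟨⟨⟨Ψ', hΨ'⟩, ⟨Ψi', hΨi'⟩⟩, ⟨hcR, DR, β, hβ, hβe, hgood⟩⟩⟩, ⟨⟨⟨Θ', hΘ'⟩,
    ⟨⟨⟨r', hr'⟩, ⟨A', hA'⟩⟩, ⟨B', hB'⟩⟩⟩, ⟨⟨d', hd'⟩, ⟨e', he'⟩⟩⟩⟩ := hS R (by
      rw [hR]; exact Algebra.subset_adjoin)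
  have r5 : ∀ ij : G × G, ∃ F' : Polynomial (Polynomial R),
      F'.map (Polynomial.mapRingHom (R.val : R →+* K)) = q ij.1 ij.2 :=
    fun ij => r4 ij (Finset.mem_univ _)
  choose q' hq' using r5
  have hval : Function.Injective (R.val : R →+* K) := Subtype.val_injective
  have hρ : Function.Injective (Polynomial.mapRingHom (R.val : R →+* K)) :=
    Polynomial.map_injective _ hval
  have hρ2 : Function.Injective (Polynomial.map (Polynomial.mapRingHom (R.val : R →+* K))) :=
    Polynomial.map_injective _ hρ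
  -- the specialization
  have hlc : ∀ (F : Polynomial K) (F' : Polynomial R),
      Polynomial.mapRingHom (R.val : R →+* K) F' = F →
        F.leadingCoeff = ((F'.coeff F.natDegree : R) : K) := by
    intro F F' hF
    subst hF
    exact Polynomial.coeff_map _ _
  obtain ⟨x, hx⟩ : ∃ x : R, x = ⟨c, hcR⟩ * d'.coeff d.natDegree *
      e'.coeff e.natDegree := ⟨_, rfl⟩
  have hx0 : (x : K) ≠ 0 := by
    rw [hx, Subalgebra.coe_mul, Subalgebra.coe_mul, ← hlc d d' hd', ← hlc e e' he']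
    exact mul_ne_zero (mul_ne_zero hc0
      (Polynomial.leadingCoeff_ne_zero.2 hd)) (Polynomial.leadingCoeff_ne_zero.2 he)
  obtain ⟨l, hl⟩ : ∃ l : R →ₐ[k] k, l x ≠ 0 := by
    subst hR
    exact exists_point S (x : K) x.2 hx0
  rw [hx, map_mul, map_mul] at hl
  have hlg : l ⟨c, hcR⟩ ≠ 0 := fun h0 => hl (by rw [h0, zero_mul, zero_mul])
  have hld : l (d'.coeff d.natDegree) ≠ 0 := fun h0 => hl (by rw [h0, mul_zero, zero_mul])
  have hle : l (e'.coeff e.natDegree) ≠ 0 := fun h0 => hl (by rw [h0, mul_zero])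
  -- the matrices
  have hC' : ∀ a b, ∃ f' : LaurentSeries R, lm (R.val : R →+* K) f' = C a b := fun a b =>
    exists_lm _ hval _ (fun n => ⟨⟨_, r1 a b n⟩, rfl⟩)
  have hD' : ∀ a b, ∃ f' : LaurentSeries R, lm (R.val : R →+* K) f' = C⁻¹ a b := fun a b =>
    exists_lm _ hval _ (fun n => ⟨⟨_, r2 a b n⟩, rfl⟩)
  obtain ⟨C', hCm⟩ : ∃ C' : Matrix G G (LaurentSeries R),
      C'.map (lm (R.val : R →+* K)) = C := by
    choose c hc using hC'
    exact ⟨Matrix.of c, by ext1 a b; exact hc a b⟩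
  obtain ⟨D', hDm⟩ : ∃ D' : Matrix G G (LaurentSeries R),
      D'.map (lm (R.val : R →+* K)) = C⁻¹ := by
    choose c hc using hD'
    exact ⟨Matrix.of c, by ext1 a b; exact hc a b⟩
  have hlmi := lm_injective (R.val : R →+* K) hval
  have hCD : C' * D' = 1 := by
    have h1 : (C' * D').map (lm (R.val : R →+* K)) =
        (1 : Matrix G G (LaurentSeries R)).map (lm (R.val : R →+* K)) := by
      rw [Matrix.map_mul, hCm, hDm, Matrix.mul_nonsing_inv _ hCd]
      exact (Matrix.map_one _ (map_zero _) (map_one _)).symm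
    ext1 a b
    apply hlmi
    have := congrFun (congrFun h1 a) b
    simpa only [Matrix.map_apply] using this
  have hC'u : IsUnit C' := IsUnit.of_mul_eq_one _ hCD
  -- the specialized cover
  have hpR : (p : Polynomial R) = 0 := by
    apply hρ
    rw [map_natCast, map_zero]
    exact hpK
  obtain ⟨Dk, βk, hβk, hβke⟩ := pt_baseChange hP hpR DR (Polynomial.mapRingHom (l : R →+* k))
  obtain ⟨Ck, hCk⟩ : ∃ Ck : Matrix G G (LaurentSeries k), Ck = C'.map (lm (l : R →+* k)) :=
    ⟨_, rfl⟩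
  have hCku : IsUnit Ck := by rw [hCk]; exact isUnit_map _ hC'u
  obtain ⟨ik, hik⟩ : ∃ ik : LaurentSeries k →+* AlgebraicClosure (LaurentSeries k),
      ik = algebraMap _ _ := ⟨_, rfl⟩
  haveI : CharP (LaurentSeries k) p := charP_LS p k
  haveI : CharP (AlgebraicClosure (LaurentSeries k)) p := charP_hom ik
  obtain ⟨κk, hκk⟩ := pt_hom hP hpk Dk (ik.comp (px k))
  refine ⟨Dk, Ck, AlgebraicClosure (LaurentSeries k), inferInstance, ik, κk,
    hgood l hlg Dk βk hβk, hκk, hCku, ?_⟩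
  -- relations
  have hiE : Function.Injective (i.comp (lm (R.val : R →+* K))) := i.injective.comp hlmi
  have c1 : (i.comp (lm (R.val : R →+* K))).comp (px R) =
      (i.comp (px K)).comp (Polynomial.mapRingHom (R.val : R →+* K)) := by
    refine RingHom.ext fun F => ?_
    simp only [RingHom.comp_apply, lm_px, Polynomial.coe_mapRingHom]
  have c2 : (ik.comp (lm (l : R →+* k))).comp (px R) =
      (ik.comp (px k)).comp (Polynomial.mapRingHom (l : R →+* k)) := by
    refine RingHom.ext fun F => ?_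
    simp only [RingHom.comp_apply, lm_px, Polynomial.coe_mapRingHom]
  have hconn : Conn DR (px R) := by
    refine conn_of_injective hP hpR DR (px R) (lm (R.val : R →+* K)) hlmi ?_
    have c0 : (lm (R.val : R →+* K)).comp (px R) =
        (px K).comp (Polynomial.mapRingHom (R.val : R →+* K)) := by
      refine RingHom.ext fun F => ?_
      simp only [RingHom.comp_apply, lm_px, Polynomial.coe_mapRingHom]
    rw [c0]
    exact conn_comp hβ (conn_px hP hDg)
  have hκR : (κ.comp β).comp DR.ι = (i.comp (lm (R.val : R →+* K))).comp (px R) := by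
    rw [RingHom.comp_assoc, hβ.comm, ← RingHom.comp_assoc, hκ, c1]
  have hκkR : (κk.comp βk).comp DR.ι = (ik.comp (lm (l : R →+* k))).comp (px R) := by
    rw [RingHom.comp_assoc, hβk.comm, ← RingHom.comp_assoc, hκk, c2]
  have hrel := rel_tr hP hpR DR (px R) hconn (px R) hiE (κ.comp β) hκR (κk.comp βk) hκkR C'
  rw [← um_eq hβ hβe κ, ← um_eq hβk hβke κk] at hrel
  have c3 : C'.map (i.comp (lm (R.val : R →+* K))) = C.map i := by
    rw [← hCm]; rfl
  have c4 : C'.map (ik.comp (lm (l : R →+* k))) = Ck.map ik := by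
    rw [hCk]; rfl
  rw [c1, c2, c3, c4] at hrel
  obtain ⟨Y, hY⟩ : ∃ Y : Matrix G G Ω, Y = C.map i * UM D κ := ⟨_, rfl⟩
  obtain ⟨Yk, hYk⟩ : ∃ Yk : Matrix G G (AlgebraicClosure (LaurentSeries k)),
      Yk = Ck.map ik * UM Dk κk := ⟨_, rfl⟩
  obtain ⟨φ, hφe⟩ : ∃ φ : Polynomial K →+* Ω, φ = i.comp (px K) := ⟨_, rfl⟩
  obtain ⟨ρ, hρe⟩ : ∃ ρ : Polynomial R →+* Polynomial K,
      ρ = Polynomial.mapRingHom (R.val : R →+* K) := ⟨_, rfl⟩
  obtain ⟨μ, hμe⟩ : ∃ μ : Polynomial R →+* Polynomial k,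
      μ = Polynomial.mapRingHom (l : R →+* k) := ⟨_, rfl⟩
  rw [← hY, ← hYk, ← hφe, ← hρe, ← hμe] at hrel
  rw [← hY, ← hφe] at hFM hΨ hr2 hq
  rw [← hρe] at hΨ' hΨi' hΘ' hr' hA' hB' hd' he' hρ hρ2
  rw [← hφe] at hφ
  have hev : ∀ (g : G) (F : MvPolynomial (G × G) (Polynomial R)),
      ev (φ.comp ρ) (actM g Y) F = ev φ (actM g Y) (MvPolynomial.map ρ F) :=
    fun g F => (ev_mapCoeff ρ φ (actM g Y) F).symm
  rw [← hYk]
  refine fm_specialize μ (φ1 := φ.comp ρ) (ik.injective.comp (px_injective k)) hrel ?_ ?_ ?_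
    Θ' r' A' B' (fun a b => q' (a, b)) d' e' ?_ ?_ ?_ ?_ ?_ ?_ ?_
  · intro h hh F hF
    have h1 := hev 1 F
    rw [actM_one] at h1
    rw [hev]
    exact hFM.sym h hh _ (h1.symm.trans hF)
  · rw [hYk]
    exact (isUnit_map _ hCku).mul (um_unit hP hpk Dk κk)
  · refine ⟨Ψ'.map μ, ?_, ?_⟩
    · have h1 : Ψ' * Ψi' = 1 := by
        have h2 : (Ψ' * Ψi').map ρ = (1 : Matrix G G (Polynomial R)).map ρ := by
          rw [Matrix.map_mul, hΨ', hΨi', Matrix.mul_nonsing_inv _ hΨd]
          exact (Matrix.map_one _ (map_zero _) (map_one _)).symm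
        ext1 a b
        apply hρ
        have := congrFun (congrFun h2 a) b
        simpa only [Matrix.map_apply] using this
      exact isUnit_map _ (IsUnit.of_mul_eq_one _ h1)
    · ext1 a b
      have h3 := hrel.eq (F := MvPolynomial.X (a, b) ^ p)
        (F' := ∑ c, MvPolynomial.C (Ψ' a c) * MvPolynomial.X (c, b)) (by
          rw [map_pow, map_sum, ev_X]
          have h4 := congrFun (congrFun hΨ a) b
          rw [Matrix.mul_apply] at h4
          rw [Matrix.map_apply] at h4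
          rw [h4]
          apply Finset.sum_congr rfl
          intro c _
          rw [map_mul, ev_C, ev_X, Matrix.map_apply, ← hΨ', Matrix.map_apply]
          rfl)
      rw [map_pow, map_sum, ev_X] at h3
      rw [Matrix.map_apply, Matrix.mul_apply, h3]
      apply Finset.sum_congr rfl
      intro c _
      rw [map_mul, ev_C, ev_X, Matrix.map_apply, Matrix.map_apply]
      rfl
  · apply Polynomial.monic_of_injective hρ
    rw [hr']; exact hr
  · rw [← Polynomial.map_map, hr', hr2]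
    apply Finset.prod_congr rfl
    intro h _
    rw [hev, hΘ']
  · intro a b
    have h1 := hq a b
    have h2 := hev 1 Θ'
    rw [actM_one, hΘ'] at h2
    rw [h2, RingHom.comp_apply, hd', h1]
    rw [← Polynomial.eval₂_map]
    have h3 := hq' (a, b)
    rw [← hρe] at h3
    rw [h3]
  · apply hρ2
    rw [Polynomial.map_add, Polynomial.map_mul, Polynomial.map_mul, ← Polynomial.derivative_map,
      hA', hr', hB', Polynomial.map_C, he', hAB]
  · intro h0
    apply hld
    rw [hμe, Polynomial.coe_mapRingHom] at h0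
    have := congrArg (fun F => F.coeff d.natDegree) h0
    simpa using this
  · intro h0
    apply hle
    rw [hμe, Polynomial.coe_mapRingHom] at h0
    have := congrArg (fun F => F.coeff e.natDegree) h0
    simpa using this
  · rw [hμe]
    exact r3 r' (by rw [← hρe]; exact hr') l

end Pool.Agent.Helper54.SJ
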