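import Pool.Agent.Helper54.SJ.ConnPx
import Pool.Agent.Helper54.SJ.RelTr
import Pool.Agent.Helper54.SJ.Hom
import Pool.Agent.Helper24.FP.GeomExt

/-!
# SJ-24: extension of constants

PROOF.  Compare Helper24/FP/GeomExt.lean (`pcov_baseChange`); `geRep_all` there can be used.
Let `h = (D, C, Ω, i, κ)`, `E = F((x))`, `E' = F'((x))`.  Let `D'`, `β0` be the base change of `D` along
`mapRingHom j : F[X] → F'[X]` (`pt_baseChange`, `β0 D.e = D'.e`).  `D'` is good: `β0 w`, `g.map j` (same degree).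
`D_E`, `β` = base change of `D` along `px F`; `D'_E`, `β'` = base change of `D'` along `px F'`; both are domains
(`conn_px`, `conn_isDomain`).  As `px F' ∘ mapRingHom j = lm j ∘ px F` (`lm_px`), `pt_lift` gives `β1 : D_E.T → D'_E.T` with
`β1 ∘ D_E.ι = D'_E.ι ∘ lm j`, `β1 ∘ β = β' ∘ β0`; it is equivariant (`pt_ext`) and `β1 D_E.e = D'_E.e`.
Let `i' : E' → Ω' = AlgebraicClosure E'`, `κ' : D'.T → Ω'` over `i' ∘ px F'` (`pt_hom`), `κ_E : D_E.T → Ω` over `i`,
`κ'_E : D'_E.T → Ω'` over `i'` the extensions (`pt_lift`); both are injective (`pt_dom_inj`).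
Put `ev_E f = ev (D_E.ι ∘ px F) (C.map D_E.ι * UM D_E id) f ∈ D_E.T` for `f` over `F[X]`, so
`κ_E (ev_E f) = ev (i ∘ px F) (C.map i * UM D κ) f`, and for `f` over `F'[X]`,
`ev_E' f = ev (D'_E.ι ∘ px F') ((C.map (lm j)).map D'_E.ι * UM D'_E id) f`,
`κ'_E (ev_E' f) = ev (i' ∘ px F') ((C.map (lm j)).map i' * UM D' κ') f`.
`ev_E' (map (mapRingHom j) f) = β1 (ev_E f)`.  Let `ω_b` be a basis of `F'` over `F`.  If
`∑_b ω_b β1 (t_b) = 0` with `t_b ∈ D_E.T`, write `t_b = ∑_σ D_E.ι (r b σ) act σ e` (`nb_exists`); `nb_unique` for `D'_E`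
gives `∑_b ω_b lm j (r b σ) = 0` for all `σ`, and comparing coefficients `r b σ = 0`, `t_b = 0`.  Every `f` over `F'[X]` is
`∑_b ω_b map f_b` (`geRep_all`).  Now unit, frob, sym, fix follow as in `pcov_baseChange`.
-/

set_option autoImplicit false
open Pool.Agent.Helper54.FP

namespace Pool.Agent.Helper54.SJ

/-- pulling a fundamental matrix back along an injective homomorphism -/
private theorem fm_pullback {p : ℕ} {G : Type} [Group G] [Fintype G] [DecidableEq G]
    {R T Ω : Type} [CommRing R] [CommRing T] [CommRing Ω] (κ : T →+* Ω)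
    (hκ : Function.Injective κ) (φ : R →+* T) (Y : Matrix G G T) (hY : IsUnit Y) {H : Subgroup G}
    (h : FM p (κ.comp φ) (Y.map κ) H) : FM p φ Y H := by
  refine ⟨hY, ?_, ?_, ?_⟩
  · obtain ⟨Ψ, h1, h2⟩ := h.frob
    refine ⟨Ψ, h1, ?_⟩
    ext a b
    apply hκ
    have h3 := congrFun (congrFun h2 a) b
    simp only [Matrix.map_apply, Matrix.mul_apply, RingHom.comp_apply] at h3 ⊢
    rw [map_pow, h3, map_sum]
    simp only [map_mul]
  · intro g hg F hF
    have h1 := h.sym g hg F (by rw [← ev_map, hF, map_zero])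
    rw [← actM_map, ← ev_map] at h1
    apply hκ
    rw [h1, map_zero]
  · intro F hF
    obtain ⟨r, hr⟩ := h.fix F (fun g hg => by
      rw [← actM_map, ← ev_map, ← ev_map, hF g hg])
    rw [← ev_map] at hr
    exact ⟨r, hκ hr⟩

/-- pushing a fundamental matrix forward along an injective homomorphism -/
private theorem fm_push {p : ℕ} {G : Type} [Group G] [Fintype G] [DecidableEq G]
    {R T Ω : Type} [CommRing R] [CommRing T] [CommRing Ω] (κ : T →+* Ω)
    (hκ : Function.Injective κ) (φ : R →+* T) (Y : Matrix G G T) {H : Subgroup G}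
    (h : FM p φ Y H) : FM p (κ.comp φ) (Y.map κ) H := by
  refine ⟨?_, ?_, ?_, ?_⟩
  · exact h.unit.map (RingHom.mapMatrix (m := G) κ)
  · obtain ⟨Ψ, h1, h2⟩ := h.frob
    refine ⟨Ψ, h1, ?_⟩
    ext a b
    have h3 := congrArg κ (congrFun (congrFun h2 a) b)
    simp only [Matrix.map_apply, Matrix.mul_apply, RingHom.comp_apply, map_pow, map_sum,
      map_mul] at h3 ⊢
    exact h3
  · intro g hg F hF
    have h1 : ev φ Y F = 0 := by
      apply hκ
      rw [ev_map, hF, map_zero]
    rw [← actM_map, ← ev_map, h.sym g hg F h1, map_zero]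
  · intro F hF
    obtain ⟨r, hr⟩ := h.fix F (fun g hg => by
      apply hκ
      rw [ev_map, ev_map, actM_map]
      exact hF g hg)
    refine ⟨r, ?_⟩
    rw [← ev_map, hr]
    rfl

/-- linear independence over the constants -/
private theorem ext_indep {p : ℕ} [Fact p.Prime] {P : Type} [Group P] [Fintype P]
    (hP : IsPGroup p P) {F F' : Type} [Field F] [Field F'] (j : F →+* F')
    (hp : (p : LaurentSeries F) = 0) (hp' : (p : LaurentSeries F') = 0)
    (DE : PT P (LaurentSeries F)) (DE' : PT P (LaurentSeries F')) (β1 : DE.T →+* DE'.T)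
    (h1 : IsEq DE (lm j) DE' β1) (he : β1 DE.e = DE'.e)
    {ι : Type} (ω : ι → F')
    (hω : ∀ (s : Finset ι) (c : ι → F), ∑ b ∈ s, j (c b) * ω b = 0 → ∀ b ∈ s, c b = 0)
    (s : Finset ι) (t : ι → DE.T)
    (h0 : ∑ b ∈ s, DE'.ι (HahnSeries.C (ω b)) * β1 (t b) = 0) : ∀ b ∈ s, t b = 0 := by
  classical
  choose r hr using fun b => nb_exists hP hp DE DE.e DE.tr (t b)
  have hβ : ∀ b, β1 (t b) = ∑ σ, DE'.ι (lm j (r b σ)) * DE'.act σ DE'.e := by
    intro b
    rw [hr b, map_sum]
    refine Finset.sum_congr rfl fun σ _ => ?_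
    rw [map_mul]
    congr 1
    · exact RingHom.congr_fun h1.comm (r b σ)
    · rw [← he]
      exact RingHom.congr_fun (h1.equi σ) DE.e
  have hsum : ∑ σ, DE'.ι (∑ b ∈ s, HahnSeries.C (ω b) * lm j (r b σ)) * DE'.act σ DE'.e = 0 := by
    rw [← h0]
    simp only [hβ, map_sum, Finset.sum_mul, Finset.mul_sum, map_mul]
    rw [Finset.sum_comm]
    refine Finset.sum_congr rfl fun b _ => Finset.sum_congr rfl fun σ _ => ?_
    rw [mul_assoc]
  have hz := nb_unique hP hp' DE' DE'.e DE'.tr _ hsum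
  intro b hb
  rw [hr b]
  refine Finset.sum_eq_zero fun σ _ => ?_
  have hrz : r b σ = 0 := by
    ext n
    have h2 : (∑ b ∈ s, HahnSeries.C (ω b) * lm j (r b σ)) = 0 := congrFun hz σ
    have h3 : ∑ b ∈ s, j ((r b σ).coeff n) * ω b = 0 := by
      have h4 := congrArg (fun f : LaurentSeries F' => f.coeff n) h2
      simp only [HahnSeries.coeff_sum, HahnSeries.coeff_zero] at h4
      rw [← h4]
      refine Finset.sum_congr rfl fun b _ => ?_
      rw [HahnSeries.C_mul_eq_smul, HahnSeries.coeff_smul, lm_coeff, smul_eq_mul, mul_comm]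
    simpa using hω s (fun b => (r b σ).coeff n) h3 b hb
  rw [hrz, map_zero, zero_mul]

theorem pcovR_baseChange {p : ℕ} [Fact p.Prime] {G : Type} [Group G] [Fintype G] [DecidableEq G]
    {P : Subgroup G} [Fintype P] (hP : IsPGroup p P) {F F' : Type} [Field F] [Field F'] [CharP F p]
    (j : F →+* F') {H : Subgroup G} (h : PCovR p F P H) : PCovR p F' P H := by
  classical
  obtain ⟨D, C, Ω, _, i, κ, hD, hκ, hC, hFM⟩ := h
  have : CharP F' p := charP_of_injective_ringHom j.injective p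
  have hpF : (p : Polynomial F) = 0 := CharP.cast_eq_zero _ _
  have hpF' : (p : Polynomial F') = 0 := CharP.cast_eq_zero _ _
  have hpL : (p : LaurentSeries F) = 0 := by rw [← map_natCast (px F) p, hpF, map_zero]
  have hpL' : (p : LaurentSeries F') = 0 := by rw [← map_natCast (px F') p, hpF', map_zero]
  obtain ⟨D', β0, h0, he0⟩ := pt_baseChange hP hpF D (Polynomial.mapRingHom j)
  have hD' : GoodPT p (degSet p F') D' := by
    intro χ hχ
    obtain ⟨w, g, hw1, hw2, hg1, hg2⟩ := hD χ hχ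
    refine ⟨β0 w, g.map j, ?_, ?_, ?_, ?_⟩
    · intro σ
      have h1 : D'.act σ (β0 w) = β0 (D.act σ w) := (RingHom.congr_fun (h0.equi σ) w).symm
      rw [h1, hw1, map_add, map_natCast]
    · have h1 : β0 (D.ι g) = D'.ι (g.map j) := RingHom.congr_fun h0.comm g
      rw [← h1, ← hw2, map_sub, map_pow]
    · rw [Polynomial.natDegree_map]; exact hg1
    · rw [Polynomial.natDegree_map]; exact hg2
  obtain ⟨DE, β, hE, heE⟩ := pt_baseChange hP hpF D (px F)
  obtain ⟨DE', β', hE', heE'⟩ := pt_baseChange hP hpF' D' (px F')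
  have hdom : IsDomain DE.T := conn_isDomain hP hpF (conn_px hP hD) hE
  have hdom' : IsDomain DE'.T := conn_isDomain hP hpF' (conn_px hP hD') hE'
  have hpx : (px F').comp (Polynomial.mapRingHom j) = (lm j).comp (px F) := by
    apply RingHom.ext
    intro q
    rw [RingHom.comp_apply, RingHom.comp_apply, lm_px]
    rfl
  obtain ⟨β1, hβ1, hβ1'⟩ := pt_lift hP hpF hE (β'.comp β0) (DE'.ι.comp (lm j)) (by
    rw [RingHom.comp_assoc, h0.comm, ← RingHom.comp_assoc, hE'.comm, RingHom.comp_assoc,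
      RingHom.comp_assoc, hpx])
  have h1 : IsEq DE (lm j) DE' β1 := by
    refine ⟨hβ1, fun σ => ?_⟩
    apply pt_ext hP hpF hE
    · rw [RingHom.comp_assoc, DE.act_ι, RingHom.comp_assoc, hβ1, ← RingHom.comp_assoc, DE'.act_ι]
    · rw [RingHom.comp_assoc, ← hE.equi, ← RingHom.comp_assoc, hβ1', RingHom.comp_assoc, h0.equi,
        ← RingHom.comp_assoc, hE'.equi, RingHom.comp_assoc, RingHom.comp_assoc, hβ1']
  have he1 : β1 DE.e = DE'.e := by
    rw [← heE, ← heE', ← he0]
    exact RingHom.congr_fun hβ1' D.e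
  let Ω' : Type := AlgebraicClosure (LaurentSeries F')
  let i' : LaurentSeries F' →+* Ω' := algebraMap _ _
  obtain ⟨κ', hκ'⟩ := pt_hom hP hpF' D' (i'.comp (px F'))
  obtain ⟨κE, hκE, hκE'⟩ := pt_lift hP hpF hE κ i hκ
  obtain ⟨κF, hκF, hκF'⟩ := pt_lift hP hpF' hE' κ' i' hκ'
  have hinj : Function.Injective κE := pt_dom_inj DE κE (by rw [hκE]; exact i.injective)
  have hinj' : Function.Injective κF := pt_dom_inj DE' κF (by rw [hκF]; exact i'.injective)
  -- matrices over the Galois algebras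
  set ψ0 : Polynomial F →+* DE.T := DE.ι.comp (px F) with hψ0
  set Y0 : Matrix G G DE.T := C.map DE.ι * UM DE (RingHom.id DE.T) with hY0
  set ψ1 : Polynomial F' →+* DE'.T := DE'.ι.comp (px F') with hψ1
  set Y1 : Matrix G G DE'.T := (C.map (lm j)).map DE'.ι * UM DE' (RingHom.id DE'.T) with hY1
  have hψ : ψ1.comp (Polynomial.mapRingHom j) = β1.comp ψ0 := by
    rw [hψ1, hψ0, RingHom.comp_assoc, hpx, ← RingHom.comp_assoc, ← RingHom.comp_assoc, hβ1]
  have hYY : Y0.map β1 = Y1 := by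
    rw [hY0, hY1, Matrix.map_mul, um_map, RingHom.comp_id, um_eq h1 he1 (RingHom.id DE'.T),
      RingHom.id_comp, Matrix.map_map, Matrix.map_map]
    congr 1
    ext a b
    exact RingHom.congr_fun hβ1 (C a b)
  have hY0u : IsUnit Y0 := by
    refine IsUnit.mul (hC.map (RingHom.mapMatrix (m := G) DE.ι)) ?_
    exact um_unit hP hpL DE _
  have hY1u : IsUnit Y1 := by
    refine IsUnit.mul ((hC.map (RingHom.mapMatrix (m := G) (lm j))).map
      (RingHom.mapMatrix (m := G) DE'.ι)) ?_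
    exact um_unit hP hpL' DE' _
  have hFM0 : FM p ψ0 Y0 H := by
    apply fm_pullback κE hinj ψ0 Y0 hY0u
    have e1 : κE.comp ψ0 = i.comp (px F) := by
      rw [hψ0, ← RingHom.comp_assoc, hκE]
    have e2 : Y0.map κE = C.map i * UM D κ := by
      rw [hY0, Matrix.map_mul, um_map, RingHom.comp_id, um_eq hE heE κE, hκE', Matrix.map_map]
      congr 1
      ext a b
      exact RingHom.congr_fun hκE (C a b)
    rw [e1, e2]
    exact hFM
  -- basis of `F'` over `F`
  let _ : Algebra F F' := j.toAlgebra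
  let bas := Module.Basis.ofVectorSpace F F'
  let ι : Type := ↥(Module.Basis.ofVectorSpaceIndex F F')
  let ω : ι → F' := fun b => bas b
  have hω1 : ∀ (s : Finset ι) (c : ι → F), ∑ b ∈ s, j (c b) * ω b = 0 → ∀ b ∈ s, c b = 0 :=
    linearIndependent_iff'.1 bas.linearIndependent
  have hω2 : ∀ a : F', ∃ c : ι →₀ F, a = c.sum fun b x => j x * ω b := by
    intro a
    refine ⟨bas.repr a, ?_⟩
    conv_lhs => rw [← bas.linearCombination_repr a, Finsupp.linearCombination_apply]
    rfl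
  have hind := ext_indep hP j hpL hpL' DE DE' β1 h1 he1 ω hω1
  have hψC : ∀ b, ψ1 (Polynomial.C (ω b)) = DE'.ι (HahnSeries.C (ω b)) := by
    intro b
    rw [hψ1, RingHom.comp_apply]
    congr 1
    simp [px]
  have hev : ∀ (Z : Matrix G G DE.T) (f : MvPolynomial (G × G) (Polynomial F)),
      ev ψ1 (Z.map β1) (MvPolynomial.map (Polynomial.mapRingHom j) f) = β1 (ev ψ0 Z f) := by
    intro Z f
    rw [ev_mapCoeff, hψ, ev_map]
  have hEV : ∀ (Z : Matrix G G DE.T) (f : ι →₀ MvPolynomial (G × G) (Polynomial F)),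
      ev ψ1 (Z.map β1) (f.sum fun b Fb => MvPolynomial.C (Polynomial.C (ω b)) *
        MvPolynomial.map (Polynomial.mapRingHom j) Fb) =
      ∑ b ∈ f.support, DE'.ι (HahnSeries.C (ω b)) * β1 (ev ψ0 Z (f b)) := by
    intro Z f
    rw [Finsupp.sum, map_sum]
    refine Finset.sum_congr rfl fun b _ => ?_
    rw [map_mul, ev_C, hψC, hev]
  have hFM1 : FM p ψ1 Y1 H := by
    rw [← hYY]
    refine ⟨by rw [hYY]; exact hY1u, ?_, ?_, ?_⟩
    · obtain ⟨Ψ, hΨ, hΨ2⟩ := hFM0.frob
      refine ⟨Ψ.map (Polynomial.mapRingHom j),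
        hΨ.map (RingHom.mapMatrix (m := G) (Polynomial.mapRingHom j)), ?_⟩
      ext a b
      have h3 := congrArg β1 (congrFun (congrFun hΨ2 a) b)
      have h4 : ∀ q, ψ1 (Polynomial.mapRingHom j q) = β1 (ψ0 q) := fun q =>
        RingHom.congr_fun hψ q
      simp only [Matrix.map_apply, Matrix.mul_apply, map_pow, map_sum, map_mul, h4] at h3 ⊢
      exact h3
    · intro x hx Q hQ
      obtain ⟨f, rfl⟩ := geRep_all (G := G) (j := j) (ω := ω) hω2 Q
      rw [hEV] at hQ
      rw [← actM_map, hEV]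
      refine Finset.sum_eq_zero fun b hb => ?_
      have h2 := hind f.support (fun b => ev ψ0 Y0 (f b)) hQ b hb
      rw [hFM0.sym x hx (f b) h2, map_zero, mul_zero]
    · intro Q hQ
      obtain ⟨f, rfl⟩ := geRep_all (G := G) (j := j) (ω := ω) hω2 Q
      have h2 : ∀ b ∈ f.support, ∀ x ∈ H, ev ψ0 (actM x Y0) (f b) = ev ψ0 Y0 (f b) := by
        intro b hb x hx
        have h3 := hQ x hx
        rw [← actM_map, hEV, hEV, ← sub_eq_zero, ← Finset.sum_sub_distrib] at h3
        have h4 := hind f.support (fun b => ev ψ0 (actM x Y0) (f b) - ev ψ0 Y0 (f b)) (by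
          rw [← h3]
          refine Finset.sum_congr rfl fun b _ => ?_
          rw [map_sub, mul_sub]) b hb
        exact sub_eq_zero.1 h4
      have h4 : ∀ b, ∃ r : Polynomial F, b ∈ f.support → ev ψ0 Y0 (f b) = ψ0 r := by
        intro b
        by_cases hb : b ∈ f.support
        · obtain ⟨r, hr⟩ := hFM0.fix (f b) (h2 b hb)
          exact ⟨r, fun _ => hr⟩
        · exact ⟨0, fun h => absurd h hb⟩
      choose r hr using h4
      refine ⟨∑ b ∈ f.support, Polynomial.C (ω b) * (Polynomial.mapRingHom j (r b)), ?_⟩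
      rw [hEV, map_sum]
      refine Finset.sum_congr rfl fun b hb => ?_
      rw [map_mul, hψC, hr b hb]
      congr 1
      exact (RingHom.congr_fun hψ (r b)).symm
  refine ⟨D', C.map (lm j), Ω', inferInstance, i', κ', hD', hκ', ?_, ?_⟩
  · exact hC.map (RingHom.mapMatrix (m := G) (lm j))
  · have e1 : κF.comp ψ1 = i'.comp (px F') := by
      rw [hψ1, ← RingHom.comp_assoc, hκF]
    have e2 : Y1.map κF = (C.map (lm j)).map i' * UM D' κ' := by
      rw [hY1, Matrix.map_mul, um_map, RingHom.comp_id, um_eq hE' heE' κF, hκF', Matrix.map_map]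
      congr 1
      ext a b
      exact RingHom.congr_fun hκF _
    rw [← e1, ← e2]
    exact fm_push κF hinj' ψ1 Y1 hFM1

end Pool.Agent.Helper54.SJ
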