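import Pool.Agent.Helper54.SJ.ConnPx
import Pool.Agent.Helper54.SJ.RelTr
import Pool.Agent.Helper35.FP.CoverOfPCov

/-!
# SJ-27: the cover of the affine line defined by a patched matrix

PROOF.  Compare `realAct_of_pcov` in Helper35/FP/CoverOfPCov.lean; `cop_galois`, `cop_finite`, `cop_exists_val` there can
be used as they are (they do not mention `Umat`).  So one has `L, j, YL, Θ, hfd, hgal, hj, hYL, hΘ, hden, hFM` and `B`,
`A = B.comap j`, and everything about the places of `L` as there.  What remains is `hD`: `σ • A = A` iff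
`σ ∈ Θ(P)`, and by `local_global` and Galois theory (`hkey` there) it is enough to see for `y : L`:
`j y ∈ Set.range i ↔ ∀ σ ∈ P, Θ σ y = y`.
Let `E = k((x))`, `D_E`, `β` = base change of `D` along `px k` (`pt_baseChange`, `β D.e = D_E.e`), a domain (`conn_px`,
`conn_isDomain`), `κ_E : D_E.T → Ω` the extension of `κ` with `κ_E ∘ D_E.ι = i` (`pt_lift`), injective (`pt_dom_inj`);
`UM D κ = UM D_E κ_E` (`um_eq`).  By `hden`, `pk k L d * y = ev (pk k L) YL F`, `d ≠ 0`.  Let
`t = D_E.ι (px d)⁻¹ * ev (D_E.ι ∘ px) (C.map D_E.ι * UM D_E id) F`.  Then `j y = κ_E t`, and for `σ ∈ P`: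
`pk k L d * Θ σ y = ev (pk k L) (actM σ YL) F`, so `j (Θ σ y) = i (px d)⁻¹ * ev (i ∘ px) (C.map i * actM σ (UM D_E κ_E)) F`
`= κ_E (act σ t)` (`actM_mul`, `actM_um`, `ev_map`, `um_map`).  So `j y ∈ range i` iff `t ∈ range D_E.ι` (`κ_E` injective)
iff `act σ t = t` for all `σ` iff `Θ σ y = y` for all `σ ∈ P`.
-/

set_option autoImplicit false
open scoped Pointwise
open Pool.Agent.Helper54.FP Pool.Agent.Helper54.PW

namespace Pool.Agent.Helper54.SJ

/-- the elements of `L` which are Laurent series -/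
private theorem range_iff {p : ℕ} [Fact p.Prime] {G : Type} [Group G] [Fintype G] [DecidableEq G]
    {P : Subgroup G} [Fintype P] {k L Ω : Type} [Field k] [Field L] [Algebra (RatFunc k) L]
    [Field Ω] (DE : PT P (LaurentSeries k)) (C : Matrix G G (LaurentSeries k))
    (i : LaurentSeries k →+* Ω) (κE : DE.T →+* Ω) (hκi : κE.comp DE.ι = i)
    (hinj : Function.Injective κE) (j : L →+* Ω) (YL : Matrix G G L)
    (hj : ∀ q : Polynomial k, j (pk k L q) = (i.comp (px k)) q)
    (hY : YL.map j = C.map i * UM DE κE) (Θ : G ≃* (L ≃ₐ[RatFunc k] L))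
    (hΘ : ∀ g : G, YL.map (Θ g) = actM g YL)
    (hden : ∀ x : L, ∃ (d : Polynomial k) (F : MvPolynomial (G × G) (Polynomial k)), d ≠ 0 ∧
        pk k L d * x = ev (pk k L) YL F) (y : L) :
    j y ∈ Set.range i ↔ ∀ σ : P, Θ (σ : G) y = y := by
  obtain ⟨d, F, hd, hF⟩ := hden y
  have hκi' : ∀ f, κE (DE.ι f) = i f := fun f => DFunLike.congr_fun hκi f
  have hd0 : px k d ≠ 0 := (map_ne_zero_iff _ (px_injective k)).2 hd
  have hid0 : i (px k d) ≠ 0 := (_root_.map_ne_zero i).2 hd0
  set Y0 : Matrix G G DE.T := C.map DE.ι * UM DE (RingHom.id DE.T) with hY0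
  have hCmap : (C.map DE.ι).map κE = C.map i := by
    ext a b
    simp only [Matrix.map_apply]
    exact hκi' _
  have hY0κ : Y0.map κE = C.map i * UM DE κE := by
    rw [hY0, Matrix.map_mul, hCmap, um_map, RingHom.comp_id]
  have hY0act : ∀ σ : P, Y0.map (DE.act σ) = actM (σ : G) Y0 := by
    intro σ
    have h1 : (C.map DE.ι).map (DE.act σ) = C.map DE.ι := by
      ext a b
      simp only [Matrix.map_apply]
      exact DFunLike.congr_fun (DE.act_ι σ) _
    rw [hY0, Matrix.map_mul, h1, um_map, RingHom.comp_id, actM_mul, actM_um, RingHom.id_comp]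
  have hφ : κE.comp (DE.ι.comp (px k)) = i.comp (px k) := by
    rw [← RingHom.comp_assoc, hκi]
  have hevκ : ∀ Y' : Matrix G G DE.T, κE (ev (DE.ι.comp (px k)) Y' F) =
      ev (i.comp (px k)) (Y'.map κE) F := by
    intro Y'
    rw [ev_map, hφ]
  have hevj : ∀ Y' : Matrix G G L, j (ev (pk k L) Y' F) = ev (i.comp (px k)) (Y'.map j) F := by
    intro Y'
    rw [ev_map]
    congr 2
    exact RingHom.ext hj
  have hevact : ∀ σ : P, DE.act σ (ev (DE.ι.comp (px k)) Y0 F) =
      ev (DE.ι.comp (px k)) (actM (σ : G) Y0) F := by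
    intro σ
    rw [ev_map, hY0act, ← RingHom.comp_assoc, DE.act_ι]
  obtain ⟨t0, ht0⟩ : ∃ t0, t0 = ev (DE.ι.comp (px k)) Y0 F := ⟨_, rfl⟩
  obtain ⟨t, ht⟩ : ∃ t, t = DE.ι (px k d)⁻¹ * t0 := ⟨_, rfl⟩
  have hactt : ∀ σ : P, DE.act σ t = DE.ι (px k d)⁻¹ * DE.act σ t0 := by
    intro σ
    rw [ht, map_mul]
    congr 1
    exact DFunLike.congr_fun (DE.act_ι σ) _
  -- values at `y`
  have e1 : κE t = j y := by
    have h1 := congrArg j hF
    rw [map_mul, hj, hevj, hY, ← hY0κ, ← hevκ, ← ht0] at h1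
    rw [ht, map_mul, hκi', ← h1, map_inv₀, RingHom.comp_apply, inv_mul_cancel_left₀ hid0]
  have e2 : ∀ σ : P, κE (DE.act σ t) = j (Θ (σ : G) y) := by
    intro σ
    have h0 : pk k L d * Θ (σ : G) y = ev (pk k L) (actM (σ : G) YL) F := by
      have h1 := congrArg (Θ (σ : G)) hF
      have h2 := ev_map ((Θ (σ : G) : L ≃ₐ[RatFunc k] L) : L →+* L) (pk k L) YL F
      rw [fmOfY_comp_pk] at h2
      rw [map_mul] at h1
      have h3 : Θ (σ : G) (pk k L d) = pk k L d := DFunLike.congr_fun (fmOfY_comp_pk _) d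
      rw [h3] at h1
      rw [h1]
      refine Eq.trans h2 ?_
      exact congrArg (fun Z => ev (pk k L) Z F) (hΘ (σ : G))
    have h1 := congrArg j h0
    rw [map_mul, hj, hevj, actM_map, hY, ← hY0κ, ← actM_map, ← hevκ, ← hevact, ← ht0] at h1
    rw [hactt, map_mul, hκi', ← h1, map_inv₀, RingHom.comp_apply, inv_mul_cancel_left₀ hid0]
  constructor
  · rintro ⟨f, hf⟩ σ
    have h1 : t = DE.ι f := by
      apply hinj
      rw [e1, hκi', hf]
    apply j.injective
    rw [← e2, ← e1, h1]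
    congr 1
    exact DFunLike.congr_fun (DE.act_ι σ) _
  · intro h
    obtain ⟨f, hf⟩ := DE.fix t (by
      intro σ
      apply hinj
      rw [e2, e1, h σ])
    exact ⟨f, by rw [← e1, ← hf, hκi']⟩

theorem realAct_of_pcovR {p : ℕ} [Fact p.Prime] {G : Type} [Group G] [Fintype G] [DecidableEq G]
    {P : Subgroup G} [Fintype P] (hP : IsPGroup p P) {k : Type} [Field k] [IsAlgClosed k]
    [CharP k p] (h : PCovR p k P ⊤) : RealAct k P := by
  obtain ⟨D, C, Ω, _, i, κ, hD, hκ, hC, hFM0⟩ := h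
  have hp : p.Prime := Fact.out
  have hφ : Function.Injective (i.comp (px k)) := i.injective.comp (px_injective k)
  obtain ⟨L, _, _, j, YL, Θ, hfd, hgal, hj, hYL, hΘ, hden, hFM⟩ := cop_galois hφ hFM0
  refine ⟨L, inferInstance, inferInstance, hfd, hgal, Θ.symm.toMonoidHom, Θ.symm.surjective, ?_, ?_⟩
  · intro A hA hk hX σ hσ
    refine cop_finite hFM A hA hk hX σ hσ _ ?_
    have := hΘ (Θ.symm σ)
    rw [Θ.apply_symm_apply] at this
    exact this
  obtain ⟨B, hB⟩ := cop_exists_val i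
  have hjr : ∀ r : RatFunc k, j (algebraMap (RatFunc k) L r) = i (rx k r) := by
    intro r
    have : j.comp (algebraMap (RatFunc k) L) = i.comp (rx k) := by
      apply IsLocalization.ringHom_ext (nonZeroDivisors (Polynomial k))
      refine RingHom.ext fun q => ?_
      have h1 := hj q
      rw [RingHom.comp_apply, ← LocalGlobalAux.lg_rx_poly] at h1
      exact h1
    exact DFunLike.congr_fun this r
  have hXB : j (tX k L) ∉ B := by
    rw [tX, hjr, LocalGlobalAux.lg_rx_X]
    exact LocalGlobalAux.lg_single_notMem i B hB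
  have hXA : tX k L ∉ B.comap j := fun h => hXB (ValuationSubring.mem_comap.1 h)
  refine ⟨B.comap j, ?_, ?_, hXA, ?_⟩
  · intro htop
    apply hXA
    rw [htop]
    exact ValuationSubring.mem_top _
  · intro c
    rw [ValuationSubring.mem_comap]
    have h1 : algebraMap (RatFunc k) L (algebraMap k (RatFunc k) c) = algebraMap (RatFunc k) L
        (algebraMap (Polynomial k) (RatFunc k) (Polynomial.C c)) := rfl
    rw [h1, hjr, LocalGlobalAux.lg_rx_C, hB]
    exact ⟨PowerSeries.C c, by rw [LaurentSeries.coe_algebraMap, HahnSeries.ofPowerSeries_C]⟩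
  -- the base change to the Laurent series
  have hpR : ((p : ℕ) : Polynomial k) = 0 := CharP.cast_eq_zero _ p
  obtain ⟨DE, β, hβ, hβe⟩ := pt_baseChange hP hpR D (px k)
  have hdom : IsDomain DE.T := conn_isDomain hP hpR (conn_px hP hD) hβ
  obtain ⟨κE, hκE1, hκE2⟩ := pt_lift hP hpR hβ κ i hκ
  have hκEinj : Function.Injective κE := pt_dom_inj DE κE (by rw [hκE1]; exact i.injective)
  have hUM : UM D κ = (UM DE κE : Matrix G G Ω) := by rw [um_eq hβ hβe κE, hκE2]
  rw [hUM] at hYL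
  have hkey : ∀ y : L, j y ∈ Set.range i ↔ ∀ σ : P, Θ (σ : G) y = y :=
    range_iff (p := p) DE C i κE hκE1 hκEinj j YL hj hYL Θ hΘ hden
  have hDD : ∀ σ : L ≃ₐ[RatFunc k] L, σ • B.comap j = B.comap j ↔
      σ ∈ P.map Θ.toMonoidHom := by
    intro σ
    rw [local_global i j hjr B hB σ]
    constructor
    · intro hσ
      rw [← IntermediateField.fixingSubgroup_fixedField (P.map Θ.toMonoidHom),
        IntermediateField.mem_fixingSubgroup_iff]
      intro y hy
      apply hσ
      rw [hkey]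
      intro τ
      exact hy ⟨Θ (τ : G), Subgroup.mem_map_of_mem _ τ.2⟩
    · rintro ⟨g, hg, rfl⟩ y hy
      rw [hkey] at hy
      exact hy ⟨g, hg⟩
  intro g'
  constructor
  · intro hg'
    refine ⟨Θ g', ?_, Θ.symm_apply_apply g'⟩
    rw [hDD]
    exact Subgroup.mem_map_of_mem _ hg'
  · rintro ⟨σ, hσ, rfl⟩
    rw [hDD] at hσ
    obtain ⟨g, hg, rfl⟩ := hσ
    have h1 : Θ.symm.toMonoidHom (Θ.toMonoidHom g) = g := Θ.symm_apply_apply g
    rw [h1]
    exact hg

end Pool.Agent.Helper54.SJ
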