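import Pool.Agent.Helper54.SJ.Defs

/-!
# SJ-15: induction of Galois algebras

PROOF.  `D'.T` = the subring of `P → D.T` of all `f` with `f (h σ) = D.act h (f σ)` for `h ∈ P1`, `σ ∈ P`
(`h` regarded as an element of `P` by `hle`).  `(act g f) σ = f (σ g)`, `ι r` = the constant function `D.ι r`.  A fixed
`f` is constant with value fixed by `P1`.  `e' σ = D.act σ D.e` for `σ ∈ P1` and `0` otherwise (check
`e' (h σ) = act h (e' σ)`); `∑_g e' (σ g) = ∑_{h ∈ P1} act h e = 1`.  `κ' f = κ (f 1)`: `κ' (ι r) = κ (D.ι r)` and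
`UM D' κ' i j = ∑_{σ ∈ P} [i = σ j] κ (e' σ⁻¹)`, where only `σ ∈ P1` contribute `κ (act σ⁻¹ e)`.
`pcovG_mono`: take `D'` and `κ'` for `D`, `κ`; `UM D' κ' = UM D κ` and `κ' ∘ ι' = κ ∘ ι`.
`pcovR_to`: forget `GoodPT`.
-/

set_option autoImplicit false
open Pool.Agent.Helper54.FP

namespace Pool.Agent.Helper54.SJ

section
variable {G : Type} [Group G] [Fintype G] [DecidableEq G] {P1 P : Subgroup G} [Fintype P1]
  [Fintype P]

/-- the underlying ring of the induced algebra -/
private def indRing (hle : P1 ≤ P) {R : Type} [CommRing R] (D : PT P1 R) : Subring (P → D.T) where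
  carrier := {f | ∀ (h : P1) (σ : P), f (Subgroup.inclusion hle h * σ) = D.act h (f σ)}
  mul_mem' := fun {f g} hf hg h σ => by
    rw [Pi.mul_apply, Pi.mul_apply, hf, hg, map_mul]
  one_mem' := fun h σ => by rw [Pi.one_apply, Pi.one_apply, map_one]
  add_mem' := fun {f g} hf hg h σ => by
    rw [Pi.add_apply, Pi.add_apply, hf, hg, map_add]
  zero_mem' := fun h σ => by rw [Pi.zero_apply, Pi.zero_apply, map_zero]
  neg_mem' := fun {f} hf h σ => by
    rw [Pi.neg_apply, Pi.neg_apply, hf, map_neg]

open Classical in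
/-- the element of trace one of the induced algebra -/
private noncomputable def indE {R : Type} [CommRing R] (D : PT P1 R) : P → D.T :=
  fun σ => if h : (σ : G) ∈ P1 then D.act ⟨(σ : G), h⟩ D.e else 0

omit [Fintype G] [DecidableEq G] [Fintype P] in
private theorem indE_incl (hle : P1 ≤ P) {R : Type} [CommRing R] (D : PT P1 R) (h : P1) :
    indE (P := P) D (Subgroup.inclusion hle h) = D.act h D.e := by
  unfold indE
  exact dif_pos (show ((Subgroup.inclusion hle h : P) : G) ∈ P1 from h.2)

omit [Fintype G] [DecidableEq G] [Fintype P] in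
private theorem indE_not {R : Type} [CommRing R] (D : PT P1 R) (σ : P) (h : (σ : G) ∉ P1) :
    indE D σ = 0 := by
  unfold indE
  rw [dif_neg h]

omit [Fintype G] [DecidableEq G] [Fintype P1] [Fintype P] in
private theorem not_range (hle : P1 ≤ P) (σ : P) (h : σ ∉ Set.range (Subgroup.inclusion hle)) :
    (σ : G) ∉ P1 := by
  intro h1
  exact h ⟨⟨(σ : G), h1⟩, rfl⟩

omit [Fintype G] [DecidableEq G] [Fintype P] in
private theorem indE_mem (hle : P1 ≤ P) {R : Type} [CommRing R] (D : PT P1 R) :
    indE D ∈ indRing hle D := by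
  intro h σ
  by_cases hσ : (σ : G) ∈ P1
  · have e1 : σ = Subgroup.inclusion hle ⟨(σ : G), hσ⟩ := rfl
    rw [e1, ← map_mul, indE_incl, indE_incl, D.act_mul, RingHom.comp_apply]
  · rw [indE_not D σ hσ, map_zero]
    apply indE_not
    intro h1
    apply hσ
    have h2 := P1.mul_mem (P1.inv_mem h.2) h1
    have h3 : ((h : G))⁻¹ * ((Subgroup.inclusion hle h * σ : P) : G) = (σ : G) := by
      rw [Subgroup.coe_mul, Subgroup.coe_inclusion, inv_mul_cancel_left]
    rwa [h3] at h2

/-- the induced algebra -/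
private noncomputable def indPT (hle : P1 ≤ P) {R : Type} [CommRing R] (D : PT P1 R) : PT P R where
  T := indRing hle D
  ι :=
    { toFun := fun r => ⟨fun _ => D.ι r, fun h _ => by
        have := congrArg (fun φ => φ r) (congrArg DFunLike.coe (D.act_ι h))
        simpa using this.symm⟩
      map_one' := by
        apply Subtype.ext
        funext σ
        exact map_one D.ι
      map_mul' := fun x y => by
        apply Subtype.ext
        funext σ
        exact map_mul D.ι x y
      map_zero' := by
        apply Subtype.ext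
        funext σ
        exact map_zero D.ι
      map_add' := fun x y => by
        apply Subtype.ext
        funext σ
        exact map_add D.ι x y }
  act := fun g =>
    { toFun := fun f => ⟨fun σ => f.1 (σ * g), fun h σ => by
        change f.1 (Subgroup.inclusion hle h * σ * g) = D.act h (f.1 (σ * g))
        rw [mul_assoc]
        exact f.2 h (σ * g)⟩
      map_one' := rfl
      map_mul' := fun x y => rfl
      map_zero' := rfl
      map_add' := fun x y => rfl }
  act_one := by
    ext f σ
    change f.1 (σ * 1) = f.1 σ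
    rw [mul_one]
  act_mul := fun g g' => by
    ext f σ
    change f.1 (σ * (g * g')) = f.1 (σ * g * g')
    rw [mul_assoc]
  act_ι := fun g => by
    ext r σ
    rfl
  fix := fun f hf => by
    have h1 : ∀ σ : P, f.1 σ = f.1 1 := by
      intro σ
      have h2 := congrArg (fun x : indRing hle D => x.1 1) (hf σ)
      change f.1 (1 * σ) = f.1 1 at h2
      rwa [one_mul] at h2
    obtain ⟨r, hr⟩ := D.fix (f.1 1) (fun h => by
      rw [← f.2 h 1]
      exact h1 _)
    refine ⟨r, ?_⟩
    apply Subtype.ext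
    funext σ
    rw [h1 σ]
    exact hr
  inj := fun r r' h => by
    have h2 := congrArg (fun x : indRing hle D => x.1 1) h
    exact D.inj h2
  e := ⟨indE D, indE_mem hle D⟩
  tr := by
    apply Subtype.ext
    funext σ
    rw [AddSubmonoidClass.coe_finsetSum, Finset.sum_apply]
    change ∑ g : P, indE D (σ * g) = 1
    rw [Fintype.sum_equiv (Equiv.mulLeft σ) (fun g => indE D (σ * g)) (fun g => indE D g)
      (fun g => rfl), ← D.tr]
    symm
    apply Fintype.sum_of_injective (Subgroup.inclusion hle) (Subgroup.inclusion_injective hle)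
    · intro g hg
      exact indE_not D g (not_range hle g hg)
    · intro g
      exact (indE_incl hle D g).symm

theorem pt_ind (hle : P1 ≤ P) {R : Type} [CommRing R] (D : PT P1 R) :
    ∃ D' : PT P R, ∀ (Ω : Type) (_ : CommRing Ω) (κ : D.T →+* Ω), ∃ κ' : D'.T →+* Ω,
      κ'.comp D'.ι = κ.comp D.ι ∧ UM D' κ' = UM D κ := by
  refine ⟨indPT hle D, fun Ω _ κ => ?_⟩
  let κ' : (indPT hle D).T →+* Ω :=
    κ.comp ((Pi.evalRingHom (fun _ : P => D.T) 1).comp (indRing hle D).subtype)
  refine ⟨κ', ?_, ?_⟩
  · ext r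
    rfl
  · ext i j
    unfold UM
    symm
    apply Fintype.sum_of_injective (Subgroup.inclusion hle) (Subgroup.inclusion_injective hle)
    · intro g hg
      have h1 : κ' ((indPT hle D).act g⁻¹ (indPT hle D).e) = κ (indE D (1 * g⁻¹)) := rfl
      rw [h1, one_mul, indE_not D g⁻¹, map_zero, ite_self]
      intro h2
      apply not_range hle g hg
      rw [Subgroup.coe_inv] at h2
      exact (P1.inv_mem_iff).mp h2
    · intro g
      have h1 : κ' ((indPT hle D).act (Subgroup.inclusion hle g)⁻¹ (indPT hle D).e) =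
          κ (indE D (1 * (Subgroup.inclusion hle g)⁻¹)) := rfl
      rw [h1, one_mul, ← map_inv, indE_incl]
      rfl

theorem pcovG_mono {p : ℕ} {F : Type} [Field F] {H : Subgroup G} (hle : P1 ≤ P)
    (h : PCovG p F P1 H) : PCovG p F P H := by
  obtain ⟨D, C, Ω, iΩ, i, κ, h1, h2, h3⟩ := h
  obtain ⟨D', hD'⟩ := pt_ind hle D
  obtain ⟨κ', h4, h5⟩ := hD' Ω inferInstance κ
  refine ⟨D', C, Ω, iΩ, i, κ', h4.trans h1, h2, ?_⟩
  rw [h5]
  exact h3

theorem pcovR_to {p : ℕ} {F : Type} [Field F] {H : Subgroup G} (h : PCovR p F P H) :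
    PCovG p F P H := by
  obtain ⟨D, C, Ω, iΩ, i, κ, _, h1, h2, h3⟩ := h
  exact ⟨D, C, Ω, iΩ, i, κ, h1, h2, h3⟩

end

end Pool.Agent.Helper54.SJ
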