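import Pool.Agent.Helper54.SJ.Defs

/-!
# SJ-09: cocycles with values in a Galois algebra

PROOF.
* `pt_h1`: `b = - ∑_τ c τ * act τ e`.  `act σ b = - ∑_τ act σ (c τ) * act (σ τ) e = - ∑_τ (c (σ τ) - c σ) act (σ τ) e
  = b + c σ * 1` (reindex, trace one).
* `pt_h1_quot`: `c (σ n) = c σ + act σ (c n) = c σ` for `n ∈ N`, so `c` factors through `P ⧸ N`; apply `pt_h1`.
* `pt_cocycle`: choose a function `n : P → ZMod p` with `n (σ z) = n σ + 1` for all `σ` (write `σ = s(q) z^i` with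
  `s` a section of `P → P/⟨z⟩`, `i` is determined mod `p`; `n σ = i`).  `z` is central.  For `σ, τ ∈ P` the element
  `d σ τ = n (σ τ) - n τ` of `ZMod p` only depends on the class of `τ` modulo `⟨z⟩`, and
  `d (σ ρ) τ = d σ (ρ τ) + d ρ τ`.  Put `c σ = ∑_{q : P/⟨z⟩} (d σ q) * D1.act (σ q) D1.e` (the element of `ZMod p` is
  mapped to `D1.T` by `ZMod.castHom`/`val`; `(p : D1.T) = 0`).  Then
  `c (σ ρ) = ∑_q d σ (ρ q) act (σ ρ q) e + ∑_q d ρ q act σ (act (ρ q) e) = c σ + act σ (c ρ)`, and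
  `c z = ∑_q 1 * act q e = 1` because `d z τ = n (z τ) - n τ = 1`.
-/

set_option autoImplicit false

namespace Pool.Agent.Helper54.SJ

theorem pt_h1 {Q : Type} [Group Q] [Fintype Q] {R : Type} [CommRing R] (D : PT Q R) (c : Q → D.T)
    (hc : ∀ σ τ, c (σ * τ) = c σ + D.act σ (c τ)) : ∃ b : D.T, ∀ σ, c σ = D.act σ b - b := by
  refine ⟨-∑ τ, c τ * D.act τ D.e, fun σ => ?_⟩
  have h1 : D.act σ (∑ τ, c τ * D.act τ D.e) = ∑ τ, (c (σ * τ) - c σ) * D.act (σ * τ) D.e := by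
    rw [map_sum]
    apply Finset.sum_congr rfl
    intro τ _
    rw [map_mul, D.act_mul, RingHom.comp_apply, hc]
    ring
  have h2 : ∑ τ, (c (σ * τ) - c σ) * D.act (σ * τ) D.e = ∑ ρ, (c ρ - c σ) * D.act ρ D.e :=
    Fintype.sum_equiv (Equiv.mulLeft σ) _ _ (fun τ => rfl)
  have h3 : ∑ ρ, (c ρ - c σ) * D.act ρ D.e = ∑ ρ, c ρ * D.act ρ D.e - c σ := by
    simp only [sub_mul, Finset.sum_sub_distrib]
    rw [← Finset.mul_sum, D.tr, mul_one]
  rw [map_neg, h1, h2, h3]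
  ring

theorem pt_h1_quot {P : Type} [Group P] {N : Subgroup P} [N.Normal] [Fintype (P ⧸ N)] {R : Type}
    [CommRing R] (D1 : PT (P ⧸ N) R) (c : P → D1.T)
    (hc : ∀ σ τ, c (σ * τ) = c σ + D1.act (QuotientGroup.mk σ) (c τ)) (h1 : ∀ n ∈ N, c n = 0) :
    ∃ b : D1.T, ∀ σ : P, c σ = D1.act (QuotientGroup.mk σ) b - b := by
  have h2 : ∀ σ : P, c (QuotientGroup.mk σ : P ⧸ N).out = c σ := by
    intro σ
    obtain ⟨n, hn⟩ := QuotientGroup.mk_out_eq_mul N σ
    rw [hn, hc, h1 _ n.2, map_zero, add_zero]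
  obtain ⟨b, hb⟩ := pt_h1 D1 (fun q : P ⧸ N => c q.out) (by
    intro q q'
    obtain ⟨σ, rfl⟩ := QuotientGroup.mk_surjective q
    obtain ⟨τ, rfl⟩ := QuotientGroup.mk_surjective q'
    have h3 : (QuotientGroup.mk σ * QuotientGroup.mk τ : P ⧸ N) = QuotientGroup.mk (σ * τ) := rfl
    rw [h3, h2, h2, h2, hc])
  refine ⟨b, fun σ => ?_⟩
  rw [← hb, h2]

theorem pt_cocycle {p : ℕ} [Fact p.Prime] {P : Type} [Group P] {R : Type} [CommRing R]
    (hp : (p : R) = 0) (z : P) (hz : z ∈ Subgroup.center P) (hzp : orderOf z = p)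
    [(Subgroup.zpowers z).Normal] [Fintype (P ⧸ Subgroup.zpowers z)]
    (D1 : PT (P ⧸ Subgroup.zpowers z) R) :
    ∃ c : P → D1.T, (∀ σ τ, c (σ * τ) = c σ + D1.act (QuotientGroup.mk σ) (c τ)) ∧ c z = 1 := by
  have hex : ∀ σ : P, ∃ j : ℤ,
      (QuotientGroup.mk σ : P ⧸ Subgroup.zpowers z).out = σ * z ^ j := by
    intro σ
    obtain ⟨⟨h, hh⟩, e⟩ := QuotientGroup.mk_out_eq_mul (Subgroup.zpowers z) σ
    obtain ⟨j, rfl⟩ := Subgroup.mem_zpowers_iff.1 hh
    exact ⟨j, e⟩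
  choose j hj using hex
  obtain ⟨n, hn⟩ : ∃ n : P → ZMod p, ∀ (σ : P) (k : ℤ), n (σ * z ^ k) = n σ + k := by
    refine ⟨fun σ => -((j σ : ℤ) : ZMod p), fun σ k => ?_⟩
    have h1 : (QuotientGroup.mk (σ * z ^ k) : P ⧸ Subgroup.zpowers z) = QuotientGroup.mk σ := by
      rw [QuotientGroup.eq]
      refine Subgroup.mem_zpowers_iff.2 ⟨-k, ?_⟩
      group
    have h2 := hj (σ * z ^ k)
    rw [h1, hj σ, mul_assoc] at h2
    have h3 : z ^ (j σ) = z ^ (k + j (σ * z ^ k)) := by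
      rw [zpow_add]
      exact mul_left_cancel h2
    rw [zpow_eq_zpow_iff_modEq, hzp] at h3
    have h4 : ((j σ : ℤ) : ZMod p) = ((k + j (σ * z ^ k) : ℤ) : ZMod p) :=
      (ZMod.intCast_eq_intCast_iff _ _ _).2 h3
    push_cast at h4
    show -((j (σ * z ^ k) : ℤ) : ZMod p) = -((j σ : ℤ) : ZMod p) + k
    rw [h4]
    ring
  have hcl : ∀ σ τ τ' : P, (QuotientGroup.mk τ : P ⧸ Subgroup.zpowers z) = QuotientGroup.mk τ' →
      n (σ * τ) - n τ = n (σ * τ') - n τ' := by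
    intro σ τ τ' h
    rw [QuotientGroup.eq] at h
    obtain ⟨k, hk⟩ := Subgroup.mem_zpowers_iff.1 h
    have h1 : τ' = τ * z ^ k := by rw [hk]; group
    rw [h1, ← mul_assoc, hn, hn]
    ring
  have hpT : (p : D1.T) = 0 := by rw [← map_natCast D1.ι, hp, map_zero]
  obtain ⟨φ, hφ⟩ : ∃ φ : ZMod p →+ D1.T, ∀ k : ℤ, φ (k : ZMod p) = (k : D1.T) := by
    refine ⟨ZMod.lift p ⟨Int.castAddHom D1.T, by simpa using hpT⟩, fun k => ?_⟩
    simp
  have hφ1 : φ 1 = 1 := by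
    have := hφ 1
    simpa using this
  have hφa : ∀ q x, D1.act q (φ x) = φ x := by
    intro q x
    obtain ⟨k, rfl⟩ := ZMod.intCast_surjective x
    rw [hφ, map_intCast]
  refine ⟨fun σ => ∑ q : P ⧸ Subgroup.zpowers z, φ (n (σ * q.out) - n q.out) *
    D1.act (QuotientGroup.mk σ * q) D1.e, ?_, ?_⟩
  · intro σ ρ
    have h1 : ∀ q : P ⧸ Subgroup.zpowers z,
        φ (n (σ * ρ * q.out) - n q.out) * D1.act (QuotientGroup.mk (σ * ρ) * q) D1.e =
        φ (n (σ * (QuotientGroup.mk ρ * q).out) - n (QuotientGroup.mk ρ * q).out) *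
          D1.act (QuotientGroup.mk σ * (QuotientGroup.mk ρ * q)) D1.e +
        D1.act (QuotientGroup.mk σ) (φ (n (ρ * q.out) - n q.out) *
          D1.act (QuotientGroup.mk ρ * q) D1.e) := by
      intro q
      have h2 : n (σ * (QuotientGroup.mk ρ * q).out) - n (QuotientGroup.mk ρ * q).out =
          n (σ * (ρ * q.out)) - n (ρ * q.out) := by
        apply hcl
        rw [QuotientGroup.out_eq']
        show QuotientGroup.mk ρ * q = QuotientGroup.mk ρ * QuotientGroup.mk q.out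
        rw [QuotientGroup.out_eq']
      have h3 : n (σ * ρ * q.out) - n q.out = (n (σ * (ρ * q.out)) - n (ρ * q.out)) +
          (n (ρ * q.out) - n q.out) := by
        rw [mul_assoc]
        ring
      have h4 : (QuotientGroup.mk (σ * ρ) * q : P ⧸ Subgroup.zpowers z) =
          QuotientGroup.mk σ * (QuotientGroup.mk ρ * q) := by
        rw [← mul_assoc]
        rfl
      rw [h2, h3, h4, map_add, map_mul, hφa, D1.act_mul, RingHom.comp_apply]
      ring
    simp only [h1, Finset.sum_add_distrib, ← map_sum]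
    congr 1
    exact Fintype.sum_equiv (Equiv.mulLeft (QuotientGroup.mk ρ : P ⧸ Subgroup.zpowers z)) _ _
      (fun q => rfl)
  · have h1 : (QuotientGroup.mk z : P ⧸ Subgroup.zpowers z) = 1 :=
      (QuotientGroup.eq_one_iff z).2 (Subgroup.mem_zpowers z)
    have h2 : ∀ q : P ⧸ Subgroup.zpowers z, φ (n (z * q.out) - n q.out) *
        D1.act (QuotientGroup.mk z * q) D1.e = D1.act q D1.e := by
      intro q
      have h3 : z * q.out = q.out * z ^ (1 : ℤ) := by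
        rw [zpow_one]
        exact (Subgroup.mem_center_iff.1 hz q.out).symm
      rw [h3, hn, h1, one_mul]
      have h4 : n q.out + ((1 : ℤ) : ZMod p) - n q.out = 1 := by
        push_cast
        ring
      rw [h4, hφ1, one_mul]
    simp only [h2]
    exact D1.tr

end Pool.Agent.Helper54.SJ
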