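import Pool.Agent.Helper54.SJ.Defs

/-!
# SJ-10: central extension of the group by an Artin-Schreier extension

PROOF.  `(p : D1.T) = 0`.  `D.T = AdjoinRoot f`, `f = X^p - X - C m` over `D1.T` (monic of degree `p`; if `D1.T` is
trivial then everything is trivial), `incl = AdjoinRoot.of f`, `x = AdjoinRoot.root f`; `D.T` is free over `D1.T` with
basis `1, x, …, x^(p-1)` (`AdjoinRoot.powerBasis'`), so `incl` is injective.  Universal property:
`AdjoinRoot.lift`; uniqueness: `AdjoinRoot.ringHom_ext` / induction.  Action: `act σ` = lift of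
`incl ∘ D1.act σ` with `x ↦ x + incl (c σ)`: `(x + c)^p - (x + c) - act σ m = m + c^p - c - act σ m = 0` by `hm`
(all in characteristic `p`: `(a + b)^p = a^p + b^p`).  `c 1 = 0` (cocycle), so `act 1 = id`; `act (σ τ) x =
x + c σ + act σ (c τ) = act σ (x + c τ)`, so `act (σ τ) = act σ ∘ act τ` by uniqueness.  `ι = incl ∘ D1.ι`.
fix: let `t = ∑_{i<p} incl (a i) x^i` be fixed by all `σ`.  For `σ = z`: `z` acts trivially on `D1.T`
(its class is `1`) and `x ↦ x + 1`, so `∑ a i ((x+1)^i - x^i) = 0`; looking at the highest `i ≥ 1` with `a i ≠ 0`, the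
coefficient of `x^(i-1)` is `i * a i = 0`, `i` invertible mod `p`, contradiction; (do it as: for a polynomial `A` of
degree `< p` over `D1.T` with `A(X+1) = A(X)` one has `A = C a`; reduce mod the monic `f` of degree `p`).  So
`t = incl a` with `a` fixed by `P/⟨z⟩`, so `a = D1.ι r`.
trace: `e = incl (D1.e) * (1 - x^(p-1))`.  `∑_{j<p} (1 - (x + j)^(p-1)) = 1` in characteristic `p`
(`∑_{j<p} j^k = 0` in `ZMod p` for `0 ≤ k < p-1`, `= -1` for `k = p-1`: Mathlib `FiniteField.sum_pow_lt_card_sub_one`
and `ZMod.pow_card_sub_one_eq_one`).  So `∑_{n ∈ ⟨z⟩} act n e = incl D1.e`, and the sum over `P` is the sum over the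
cosets `q` of `act q.out` of this (`Subgroup.groupEquivQuotientProdSubgroup`), which is
`incl (∑_q D1.act q D1.e) = 1`.
-/

set_option autoImplicit false

namespace Pool.Agent.Helper54.SJ

theorem add_pow_of_zero {S : Type} [CommRing S] {p : ℕ} [Fact p.Prime] (hp : (p : S) = 0) (a b : S) :
    (a + b) ^ p = a ^ p + b ^ p := by
  have h := add_pow_prime_eq (Fact.out : p.Prime) a b
  rw [h, hp]
  simp

theorem zmod_sum_pow (p : ℕ) [Fact p.Prime] :
    ∑ a : ZMod p, ((Polynomial.X : Polynomial (ZMod p)) + Polynomial.C a) ^ (p - 1) = -1 := by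
  have hp : p.Prime := Fact.out
  have h1 : ∀ a : ZMod p, ((Polynomial.X : Polynomial (ZMod p)) + Polynomial.C a) ^ (p - 1) =
      ∑ k ∈ Finset.range (p - 1 + 1), Polynomial.X ^ k * Polynomial.C (a ^ (p - 1 - k)) *
        (((p - 1).choose k : ℕ) : Polynomial (ZMod p)) := by
    intro a
    rw [add_pow]
    refine Finset.sum_congr rfl fun k _ => ?_
    rw [Polynomial.C_pow]
  rw [Finset.sum_congr rfl fun a _ => h1 a, Finset.sum_comm]
  have h2 : ∀ k ∈ Finset.range (p - 1 + 1), ∑ a : ZMod p,
      Polynomial.X ^ k * Polynomial.C (a ^ (p - 1 - k)) *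
        (((p - 1).choose k : ℕ) : Polynomial (ZMod p)) =
      if k = 0 then (-1 : Polynomial (ZMod p)) else 0 := by
    intro k hk
    rw [← Finset.sum_mul, ← Finset.mul_sum, ← map_sum]
    by_cases h0 : k = 0
    · subst h0
      have h3 : ∑ a : ZMod p, a ^ (p - 1) = -1 := by
        have h4 := FiniteField.sum_pow_units (ZMod p) (p - 1)
        have h5 : ∑ a : ZMod p, a ^ (p - 1) = ∑ a ∈ (Finset.univ \ {0} : Finset (ZMod p)), (1 : ZMod p) := by
          rw [← Finset.sum_sdiff (Finset.subset_univ ({0} : Finset (ZMod p)))]
          rw [Finset.sum_singleton, zero_pow (Nat.sub_ne_zero_of_lt hp.one_lt), add_zero]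
          refine Finset.sum_congr rfl fun a ha => ?_
          simp only [Finset.mem_sdiff, Finset.mem_univ, Finset.mem_singleton, true_and] at ha
          exact ZMod.pow_card_sub_one_eq_one ha
        rw [h5, Finset.sum_const, Finset.card_sdiff]
        simp only [Finset.inter_univ, Finset.card_singleton, Finset.card_univ, ZMod.card, nsmul_eq_mul, mul_one]
        rw [Nat.cast_sub hp.one_lt.le]
        simp
      simp [h3]
    · rw [if_neg h0]
      have h3 : ∑ a : ZMod p, a ^ (p - 1 - k) = 0 := by
        apply FiniteField.sum_pow_lt_card_sub_one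
        rw [ZMod.card]
        have := hp.one_lt
        omega
      rw [h3]
      simp
  rw [Finset.sum_congr rfl h2]
  simp

theorem sum_range_pow {S : Type} [CommRing S] [Nontrivial S] {p : ℕ} [Fact p.Prime] (hp0 : (p : S) = 0) (x : S) :
    ∑ j ∈ Finset.range p, (1 - (x + (j : S)) ^ (p - 1)) = 1 := by
  have : CharP S p := by
    have h := CharP.ringChar_of_prime_eq_zero (Fact.out : p.Prime) hp0
    rw [← h]
    infer_instance
  rw [Finset.sum_sub_distrib, Finset.sum_const, Finset.card_range, nsmul_eq_mul, hp0, zero_mul]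
  have h1 := congrArg (Polynomial.eval₂ (ZMod.castHom (dvd_refl p) S) x) (zmod_sum_pow p)
  rw [Polynomial.eval₂_finsetSum] at h1
  simp only [Polynomial.eval₂_pow, Polynomial.eval₂_add, Polynomial.eval₂_X, Polynomial.eval₂_C,
    Polynomial.eval₂_neg, Polynomial.eval₂_one] at h1
  have h2 : ∑ j ∈ Finset.range p, (x + (j : S)) ^ (p - 1) =
      ∑ a : ZMod p, (x + (ZMod.castHom (dvd_refl p) S) a) ^ (p - 1) := by
    symm
    apply Finset.sum_bij (fun (a : ZMod p) _ => a.val)
    · intro a _
      exact Finset.mem_range.mpr (ZMod.val_lt a)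
    · intro a _ b _ h
      exact ZMod.val_injective p h
    · intro j hj
      refine ⟨(j : ZMod p), Finset.mem_univ _, ?_⟩
      rw [ZMod.val_natCast, Nat.mod_eq_of_lt (Finset.mem_range.mp hj)]
    · intro a _
      congr 2
      rw [ZMod.castHom_apply, ZMod.natCast_val]
  rw [h2, h1]
  ring

theorem const_of_shift {S : Type} [CommRing S] {p : ℕ} [Fact p.Prime] (hp0 : (p : S) = 0)
    (A : Polynomial S) (hA : A.natDegree < p) (h : A.comp (Polynomial.X + 1) = A) :
    A = Polynomial.C (A.coeff 0) := by
  have hp : p.Prime := Fact.out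
  by_contra hne
  have hn : A.natDegree ≠ 0 := by
    intro h0
    exact hne (Polynomial.eq_C_of_natDegree_eq_zero h0)
  obtain ⟨n, hn'⟩ := Nat.exists_eq_succ_of_ne_zero hn
  have h1 : (Polynomial.taylor 1 A).coeff n = A.coeff n := by
    rw [Polynomial.taylor_apply]
    rw [Polynomial.C_1, h]
  rw [Polynomial.taylor_coeff, Polynomial.eval_eq_sum_range] at h1
  have h2 : (Polynomial.hasseDeriv n A).natDegree ≤ 1 := by
    refine (Polynomial.natDegree_hasseDeriv_le A n).trans ?_
    omega
  have h3 : ∑ i ∈ Finset.range ((Polynomial.hasseDeriv n A).natDegree + 1),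
      (Polynomial.hasseDeriv n A).coeff i * 1 ^ i = ∑ i ∈ Finset.range 2,
      (Polynomial.hasseDeriv n A).coeff i * 1 ^ i := by
    apply Finset.sum_subset
    · intro i hi
      rw [Finset.mem_range] at hi ⊢
      omega
    · intro i _ hi
      rw [Finset.mem_range, not_lt] at hi
      rw [Polynomial.coeff_eq_zero_of_natDegree_lt (by omega), zero_mul]
  rw [h3, Finset.sum_range_succ, Finset.sum_range_one, Polynomial.hasseDeriv_coeff,
    Polynomial.hasseDeriv_coeff] at h1
  simp only [zero_add, Nat.choose_self, Nat.cast_one, one_mul, pow_zero, mul_one, one_pow] at h1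
  have h4 : (((1 + n).choose n : ℕ) : S) * A.coeff (1 + n) = 0 := by
    linear_combination h1
  rw [show 1 + n = n + 1 by ring, Nat.choose_succ_self_right] at h4
  have h5 : IsUnit (((n + 1 : ℕ) : S)) := by
    have h6 : Nat.Coprime (n + 1) p := by
      rw [Nat.coprime_comm, Nat.Prime.coprime_iff_not_dvd hp]
      intro hd
      have := Nat.le_of_dvd (Nat.succ_pos n) hd
      omega
    have h7 := Nat.isCoprime_iff_coprime.mpr h6
    obtain ⟨a, b, hab⟩ := h7
    have h8 := congrArg (fun t : ℤ => (t : S)) hab
    simp only [Int.cast_add, Int.cast_mul, Int.cast_natCast, Int.cast_one, hp0, mul_zero, add_zero] at h8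
    exact IsUnit.of_mul_eq_one _ (by rw [mul_comm]; exact h8)
  have h9 : A.coeff (n + 1) = 0 := (h5.mul_right_eq_zero).mp h4
  rw [← Nat.succ_eq_add_one, ← hn'] at h9
  have h10 : A.leadingCoeff = 0 := h9
  rw [Polynomial.leadingCoeff_eq_zero] at h10
  rw [h10] at hn
  simp at hn

section step

variable {p : ℕ} [Fact p.Prime] {T1 : Type} [CommRing T1]

/-- the Artin-Schreier polynomial -/
noncomputable def asPoly (p : ℕ) (m : T1) : Polynomial T1 :=
  Polynomial.X ^ p - (Polynomial.X + Polynomial.C m)

theorem asPoly_monic [Nontrivial T1] (m : T1) : (asPoly p m).Monic := by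
  have hp : p.Prime := Fact.out
  apply Polynomial.monic_X_pow_sub
  calc (Polynomial.X + Polynomial.C m : Polynomial T1).degree ≤ 1 := by
        refine (Polynomial.degree_add_le _ _).trans ?_
        refine max_le Polynomial.degree_X_le ?_
        exact Polynomial.degree_C_le.trans (by norm_num)
    _ < p := by exact_mod_cast hp.one_lt

theorem asPoly_degree [Nontrivial T1] (m : T1) : (asPoly p m).natDegree = p := by
  have hp : p.Prime := Fact.out
  apply Polynomial.natDegree_eq_of_degree_eq_some
  unfold asPoly
  rw [Polynomial.degree_sub_eq_left_of_degree_lt]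
  · exact Polynomial.degree_X_pow p
  · rw [Polynomial.degree_X_pow]
    calc (Polynomial.X + Polynomial.C m : Polynomial T1).degree ≤ 1 := by
          refine (Polynomial.degree_add_le _ _).trans ?_
          refine max_le Polynomial.degree_X_le ?_
          exact Polynomial.degree_C_le.trans (by norm_num)
      _ < p := by exact_mod_cast hp.one_lt

omit [Fact p.Prime] in
theorem asPoly_eval₂ {S : Type} [CommRing S] (m : T1) (i : T1 →+* S) (y : S) :
    (asPoly p m).eval₂ i y = y ^ p - (y + i m) := by
  unfold asPoly
  simp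

omit [Fact p.Prime] in
theorem as_root (m : T1) :
    (AdjoinRoot.root (asPoly p m)) ^ p - AdjoinRoot.root (asPoly p m) = AdjoinRoot.of (asPoly p m) m := by
  have h := AdjoinRoot.eval₂_root (asPoly p m)
  rw [asPoly_eval₂] at h
  linear_combination h

theorem as_of_inj [Nontrivial T1] (m : T1) : Function.Injective (AdjoinRoot.of (asPoly p m)) := by
  have hp : p.Prime := Fact.out
  rw [injective_iff_map_eq_zero]
  intro a ha
  have h1 : AdjoinRoot.modByMonicHom (asPoly_monic (p := p) m) (AdjoinRoot.mk _ (Polynomial.C a)) = 0 := by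
    rw [AdjoinRoot.mk_C, ha, map_zero]
  rw [AdjoinRoot.modByMonicHom_mk, (Polynomial.modByMonic_eq_self_iff (asPoly_monic m)).mpr] at h1
  · exact Polynomial.C_eq_zero.mp h1
  · refine lt_of_le_of_lt Polynomial.degree_C_le ?_
    rw [Polynomial.degree_eq_natDegree (asPoly_monic (p := p) m).ne_zero, asPoly_degree]
    exact_mod_cast hp.pos

omit [Fact p.Prime] in
theorem as_ext {S : Type} [CommRing S] (m : T1) (F1 F2 : AdjoinRoot (asPoly p m) →+* S)
    (h1 : F1.comp (AdjoinRoot.of _) = F2.comp (AdjoinRoot.of _))
    (h2 : F1 (AdjoinRoot.root _) = F2 (AdjoinRoot.root _)) : F1 = F2 := by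
  apply Ideal.Quotient.ringHom_ext
  apply Polynomial.ringHom_ext
  · intro a
    exact congrArg (fun g : T1 →+* S => g a) h1
  · exact h2

end step

theorem mk_zpow_eq_one {P : Type} [Group P] (z : P) [(Subgroup.zpowers z).Normal] (j : ℕ) :
    (QuotientGroup.mk (z ^ j) : P ⧸ Subgroup.zpowers z) = 1 := by
  rw [QuotientGroup.eq_one_iff]
  exact Subgroup.npow_mem_zpowers z j

theorem sum_cosets {P : Type} [Group P] [Fintype P] {M : Type} [AddCommMonoid M] {p : ℕ} (z : P)
    (hzp : orderOf z = p) [(Subgroup.zpowers z).Normal] [Fintype (P ⧸ Subgroup.zpowers z)]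
    (F : P → M) :
    ∑ σ : P, F σ = ∑ q : P ⧸ Subgroup.zpowers z, ∑ j ∈ Finset.range p, F (q.out * z ^ j) := by
  classical
  have h1 : ∀ q : P ⧸ Subgroup.zpowers z, ∑ j ∈ Finset.range p, F (q.out * z ^ j) =
      ∑ σ ∈ Finset.univ.filter (fun σ : P => (QuotientGroup.mk σ : P ⧸ Subgroup.zpowers z) = q), F σ := by
    intro q
    apply Finset.sum_bij (fun (j : ℕ) _ => q.out * z ^ j)
    · intro j _
      rw [Finset.mem_filter]
      refine ⟨Finset.mem_univ _, ?_⟩
      rw [QuotientGroup.mk_mul, mk_zpow_eq_one, mul_one]
      exact QuotientGroup.out_eq' q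
    · intro i hi j hj h
      have h2 : z ^ i = z ^ j := mul_left_cancel h
      have h3 := pow_injOn_Iio_orderOf (x := z)
      apply h3 _ _ h2
      · rw [hzp]; exact Finset.mem_range.mp hi
      · rw [hzp]; exact Finset.mem_range.mp hj
    · intro σ hσ
      rw [Finset.mem_filter] at hσ
      have h2 : (QuotientGroup.mk (q.out) : P ⧸ Subgroup.zpowers z) = QuotientGroup.mk σ := by
        rw [hσ.2]
        exact QuotientGroup.out_eq' q
      rw [QuotientGroup.eq] at h2
      have h3 : q.out⁻¹ * σ ∈ Submonoid.powers z := by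
        rw [mem_powers_iff_mem_zpowers]
        exact h2
      obtain ⟨n, hn⟩ := h3
      refine ⟨n % p, ?_, ?_⟩
      · rw [Finset.mem_range]
        apply Nat.mod_lt
        rw [← hzp]
        exact orderOf_pos z
      · have h4 : z ^ (n % p) = z ^ n := by
          rw [← hzp]
          exact pow_mod_orderOf z n
        rw [h4]
        have h5 : z ^ n = q.out⁻¹ * σ := hn
        rw [h5]
        group
    · intro j _
      rfl
  rw [Finset.sum_congr rfl fun q _ => h1 q]
  rw [← Finset.sum_fiberwise (g := fun σ : P => (QuotientGroup.mk σ : P ⧸ Subgroup.zpowers z))]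

theorem pt_step {p : ℕ} [Fact p.Prime] {P : Type} [Group P] [Fintype P] {R : Type} [CommRing R]
    (hp : (p : R) = 0) (z : P) (hz : z ∈ Subgroup.center P) (hzp : orderOf z = p)
    [(Subgroup.zpowers z).Normal] [Fintype (P ⧸ Subgroup.zpowers z)]
    (D1 : PT (P ⧸ Subgroup.zpowers z) R) (c : P → D1.T)
    (hc : ∀ σ τ, c (σ * τ) = c σ + D1.act (QuotientGroup.mk σ) (c τ)) (hcz : c z = 1) (m : D1.T)
    (hm : ∀ σ : P, D1.act (QuotientGroup.mk σ) m - m = c σ ^ p - c σ) :
    ∃ (D : PT P R) (incl : D1.T →+* D.T) (x : D.T),
      Function.Injective incl ∧ incl.comp D1.ι = D.ι ∧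
      (∀ σ : P, incl.comp (D1.act (QuotientGroup.mk σ)) = (D.act σ).comp incl) ∧
      (∀ σ : P, D.act σ x = x + incl (c σ)) ∧ x ^ p - x = incl m ∧
      (∀ (S : Type) (_ : CommRing S) (f : D1.T →+* S) (y : S), y ^ p - y = f m →
        ∃ F : D.T →+* S, F.comp incl = f ∧ F x = y) ∧
      ∀ (S : Type) (_ : CommRing S) (F1 F2 : D.T →+* S), F1.comp incl = F2.comp incl →
        F1 x = F2 x → F1 = F2 := by
  have hpp : p.Prime := Fact.out
  rcases subsingleton_or_nontrivial D1.T with hss | hnt
  · refine ⟨{ T := D1.T
              ι := D1.ι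
              act := fun σ => D1.act (QuotientGroup.mk σ)
              act_one := by
                rw [QuotientGroup.mk_one]; exact D1.act_one
              act_mul := fun σ τ => by
                rw [QuotientGroup.mk_mul]; exact D1.act_mul _ _
              act_ι := fun σ => D1.act_ι _
              fix := fun t _ => ⟨0, Subsingleton.elim _ _⟩
              inj := D1.inj
              e := 0
              tr := Subsingleton.elim _ _ }, RingHom.id _, 0, fun a b h => h, RingHom.ext fun a => rfl,
      fun σ => RingHom.ext fun a => rfl, fun σ => Subsingleton.elim (α := D1.T) _ _,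
      Subsingleton.elim (α := D1.T) _ _, ?_, ?_⟩
    · intro S _ f y _
      refine ⟨f, RingHom.ext fun a => rfl, ?_⟩
      have h1 : (1 : S) = 0 := by
        rw [← map_one f, ← map_zero f]
        exact congrArg f (Subsingleton.elim _ _)
      have h2 : Subsingleton S := subsingleton_of_zero_eq_one h1.symm
      exact Subsingleton.elim _ _
    · intro S _ F1 F2 h _
      exact h
  · have hp1 : (p : D1.T) = 0 := by
      have := congrArg D1.ι hp
      rwa [map_natCast, map_zero] at this
    set f := asPoly p m with hf
    have hmon : f.Monic := asPoly_monic m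
    have hdeg : f.natDegree = p := asPoly_degree m
    set incl : D1.T →+* AdjoinRoot f := AdjoinRoot.of f with hincl
    set x : AdjoinRoot f := AdjoinRoot.root f with hx
    have hinj : Function.Injective incl := as_of_inj m
    have hroot : x ^ p - x = incl m := as_root m
    have hpT : (p : AdjoinRoot f) = 0 := by
      have := congrArg incl hp1
      rwa [map_natCast, map_zero] at this
    have hntT : Nontrivial (AdjoinRoot f) := hinj.nontrivial
    -- the action
    have hact : ∀ σ : P, f.eval₂ (incl.comp (D1.act (QuotientGroup.mk σ))) (x + incl (c σ)) = 0 := by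
      intro σ
      refine (asPoly_eval₂ m _ _).trans ?_
      rw [add_pow_of_zero hpT]
      have h1 : D1.act (QuotientGroup.mk σ) m = m + (c σ ^ p - c σ) := by
        rw [← hm σ]; ring
      rw [RingHom.comp_apply, h1, map_add, map_sub, map_pow]
      linear_combination hroot
    let act : P → AdjoinRoot f →+* AdjoinRoot f := fun σ =>
      AdjoinRoot.lift (incl.comp (D1.act (QuotientGroup.mk σ))) (x + incl (c σ)) (hact σ)
    have act_incl : ∀ (σ : P) (a : D1.T), act σ (incl a) = incl (D1.act (QuotientGroup.mk σ) a) := by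
      intro σ a
      exact AdjoinRoot.lift_of (hact σ)
    have act_x : ∀ σ : P, act σ x = x + incl (c σ) := fun σ => AdjoinRoot.lift_root (hact σ)
    have hc1 : c 1 = 0 := by
      have h1 := hc 1 1
      rw [mul_one, QuotientGroup.mk_one, D1.act_one, RingHom.id_apply] at h1
      linear_combination -h1
    have hext : ∀ (S : Type) (_ : CommRing S) (F1 F2 : AdjoinRoot f →+* S), F1.comp incl = F2.comp incl →
        F1 x = F2 x → F1 = F2 := fun S _ F1 F2 h1 h2 => as_ext m F1 F2 h1 h2
    have act_one : act 1 = RingHom.id _ := by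
      apply hext
      · ext a
        rw [RingHom.comp_apply, act_incl, QuotientGroup.mk_one, D1.act_one]
        rfl
      · rw [act_x, hc1, map_zero, add_zero]
        rfl
    have act_mul : ∀ σ τ, act (σ * τ) = (act σ).comp (act τ) := by
      intro σ τ
      apply hext
      · ext a
        rw [RingHom.comp_apply, RingHom.comp_apply, RingHom.comp_apply, act_incl, act_incl, act_incl,
          QuotientGroup.mk_mul, D1.act_mul]
        rfl
      · rw [act_x, RingHom.comp_apply, act_x, map_add, act_x, act_incl, hc, map_add]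
        ring
    -- powers of z
    have hcj : ∀ j : ℕ, c (z ^ j) = (j : D1.T) := by
      intro j
      induction j with
      | zero => rw [pow_zero, hc1, Nat.cast_zero]
      | succ n ih =>
        rw [pow_succ, hc, ih, hcz, map_one, Nat.cast_succ]
    have actz_incl : ∀ (j : ℕ) (a : D1.T), act (z ^ j) (incl a) = incl a := by
      intro j a
      rw [act_incl, mk_zpow_eq_one, D1.act_one, RingHom.id_apply]
    have actz_x : ∀ j : ℕ, act (z ^ j) x = x + (j : AdjoinRoot f) := by
      intro j
      rw [act_x, hcj, map_natCast]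
    have hfix : ∀ t, (∀ σ, act σ t = t) → ∃ r, (incl.comp D1.ι) r = t := by
      intro t ht
      set A := AdjoinRoot.modByMonicHom hmon t with hA
      have hAt : AdjoinRoot.mk f A = t := AdjoinRoot.mk_leftInverse hmon t
      have hAdeg : A.natDegree < p := by
        have h1 : A = A %ₘ f := by
          conv_lhs => rw [hA, ← hAt, AdjoinRoot.modByMonicHom_mk]
        rw [h1]
        have h2 := Polynomial.natDegree_modByMonic_lt A hmon (by
          intro h3
          rw [h3] at hdeg
          rw [Polynomial.natDegree_one] at hdeg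
          exact hpp.pos.ne hdeg)
        rwa [hdeg] at h2
      have hself : ∀ B : Polynomial D1.T, B.natDegree < p → B %ₘ f = B := by
        intro B hB
        rw [Polynomial.modByMonic_eq_self_iff hmon]
        apply Polynomial.degree_lt_degree
        rwa [hdeg]
      have hz1 := ht z
      have hzz : act z t = AdjoinRoot.mk f (A.comp (Polynomial.X + 1)) := by
        rw [← hAt]
        have h1 : ∀ B : Polynomial D1.T, act z (AdjoinRoot.mk f B) =
            AdjoinRoot.mk f (B.comp (Polynomial.X + 1)) := by
          intro B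
          have h2 : (act z).comp (AdjoinRoot.mk f) = (AdjoinRoot.mk f).comp
              (Polynomial.compRingHom (Polynomial.X + 1)) := by
            apply Polynomial.ringHom_ext
            · intro a
              rw [RingHom.comp_apply, RingHom.comp_apply, Polynomial.coe_compRingHom_apply,
                Polynomial.C_comp, AdjoinRoot.mk_C]
              have h3 := actz_incl 1 a
              rw [pow_one] at h3
              exact h3
            · rw [RingHom.comp_apply, RingHom.comp_apply, Polynomial.coe_compRingHom_apply,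
                Polynomial.X_comp, map_add, map_one, AdjoinRoot.mk_X]
              have h3 := actz_x 1
              rw [pow_one, Nat.cast_one] at h3
              exact h3
          have h3 := congrArg (fun g : Polynomial D1.T →+* AdjoinRoot f => g B) h2
          exact h3
        exact h1 A
      rw [hzz, ← hAt] at hz1
      have hcompdeg : (A.comp (Polynomial.X + 1)).natDegree < p := by
        refine lt_of_le_of_lt Polynomial.natDegree_comp_le ?_
        have h1 : (Polynomial.X + 1 : Polynomial D1.T).natDegree ≤ 1 := by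
          have := Polynomial.natDegree_X_add_C (1 : D1.T)
          rw [Polynomial.C_1] at this
          exact this.le
        calc A.natDegree * (Polynomial.X + 1 : Polynomial D1.T).natDegree ≤ A.natDegree * 1 :=
              Nat.mul_le_mul_left _ h1
          _ = A.natDegree := mul_one _
          _ < p := hAdeg
      have h4 := congrArg (AdjoinRoot.modByMonicHom hmon) hz1
      rw [AdjoinRoot.modByMonicHom_mk, AdjoinRoot.modByMonicHom_mk, hself _ hcompdeg, hself _ hAdeg] at h4
      have h5 := const_of_shift hp1 A hAdeg h4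
      have h6 : t = incl (A.coeff 0) := by
        rw [← hAt]
        conv_lhs => rw [h5]
        exact AdjoinRoot.mk_C _
      have h7 : ∀ q, D1.act q (A.coeff 0) = A.coeff 0 := by
        intro q
        obtain ⟨σ, rfl⟩ := QuotientGroup.mk_surjective q
        apply hinj
        rw [← act_incl, ← h6]
        exact ht σ
      obtain ⟨r, hr⟩ := D1.fix _ h7
      exact ⟨r, by rw [RingHom.comp_apply, hr, h6]⟩
    have htr : ∑ σ, act σ (incl D1.e * (1 - x ^ (p - 1))) = 1 := by
      rw [sum_cosets z hzp]
      have h1 : ∀ q : P ⧸ Subgroup.zpowers z, ∑ j ∈ Finset.range p,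
          act (q.out * z ^ j) (incl D1.e * (1 - x ^ (p - 1))) = incl (D1.act q D1.e) := by
        intro q
        have h2 : ∀ j ∈ Finset.range p, act (q.out * z ^ j) (incl D1.e * (1 - x ^ (p - 1))) =
            act q.out (incl D1.e * (1 - (x + (j : AdjoinRoot f)) ^ (p - 1))) := by
          intro j _
          rw [act_mul, RingHom.comp_apply]
          congr 1
          rw [map_mul, actz_incl, map_sub, map_one, map_pow, actz_x]
        rw [Finset.sum_congr rfl h2, ← map_sum, ← Finset.mul_sum, sum_range_pow hpT, mul_one, act_incl]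
        congr 2
        rw [QuotientGroup.out_eq' q]
      rw [Finset.sum_congr rfl fun q _ => h1 q, ← map_sum, D1.tr, map_one]
    refine ⟨{ T := AdjoinRoot f
              ι := incl.comp D1.ι
              act := act
              act_one := act_one
              act_mul := act_mul
              act_ι := fun σ => by
                ext a
                rw [RingHom.comp_apply, RingHom.comp_apply, act_incl]
                have := congrArg (fun g : R →+* D1.T => g a) (D1.act_ι (QuotientGroup.mk σ))
                exact congrArg incl this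
              fix := hfix
              inj := hinj.comp D1.inj
              e := incl D1.e * (1 - x ^ (p - 1))
              tr := htr }, incl, x, hinj, rfl, ?_, act_x, hroot, ?_, hext⟩
    · intro σ
      ext a
      exact (act_incl σ a).symm
    · intro S _ g y hy
      have h1 : f.eval₂ g y = 0 := by
        rw [hf, asPoly_eval₂, ← hy]
        ring
      exact ⟨AdjoinRoot.lift g y h1, AdjoinRoot.lift_comp_of h1, AdjoinRoot.lift_root h1⟩

end Pool.Agent.Helper54.SJ
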