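import Pool.Agent.Helper54.SJ.Quot
import Pool.Agent.Helper54.SJ.Coc
import Pool.Agent.Helper54.SJ.Ext1

/-!
# SJ-11: approximation of a Galois algebra

PROOF.  Induction on the order of `P` (all groups).  `(p : R') = α p = 0`, and the same in all algebras.
*Trivial group.*  `D.T = R`, `ι = id`, `act = id`, `e = 1`, `β = D'.ι ∘ α`; there is no `χ ≠ 1`.
*Step.*  Choose `z` in the center of `P` of order `p` (`IsPGroup.center_nontrivial`, Cauchy); `⟨z⟩` is normal.
`pt_quot` for `D'` gives `D1' , incl', x', m'`.  By induction there are `D1 : PT (P ⧸ ⟨z⟩) R`, `β1 : D1.T → D1'.T` with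
`IsEq D1 α D1' β1` and `GoodPT p 𝒢 D1`.  `pt_cocycle` gives `c : P → D1.T` with `c z = 1`.
(1) `act z (act σ x' - x') = act σ (x' + 1) - x' - 1 = act σ x' - x'`, so `act σ x' - x' = incl' (c' σ)`, a cocycle with
`c' z = 1`.  The cocycle `c' - β1 ∘ c` vanishes at `z`, hence on `⟨z⟩` (`z` acts trivially on `D1'.T`, so
`c (z^i) = i c z`); by `pt_h1_quot`, `c' σ - β1 (c σ) = act σ b - b`.  Let `x'' = x' - incl' b`, `m'' = m' - b^p + b`:
`act σ x'' = x'' + incl' (β1 (c σ))`, `x''^p - x'' = incl' m''`, and so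
`act σ m'' - m'' = (β1 (c σ))^p - β1 (c σ)` (`incl'` is injective).
(2) `σ ↦ (c σ)^p - c σ` is a cocycle with values in `D1.T` which vanishes at `z`, so it is `act σ m0 - m0`
(`pt_h1_quot`).  `m'' - β1 m0` is fixed by `P/⟨z⟩`, so it is `D1'.ι r'`.
(3) For every `χ : P →* Multiplicative (ZMod p)` with `χ z ≠ 1` let `u ∈ {1, …, p-1}` be the value at `z`.
`σ ↦ χ σ - u (c σ)` (values in `D1.T`) is a cocycle vanishing at `z`, so it is `act σ b_χ - b_χ`.  The element
`u m0 + b_χ^p - b_χ` is fixed by `P/⟨z⟩` (`u^p = u` in `D1.T`), so it is `D1.ι (g_χ)`.  Let `F` be the finite set of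
all these `g_χ` (there are finitely many `χ`).
(4) By `h` there are `r`, `s'` with `r' = α r + (s'^p - s')` and `g + c r ∈ 𝒢` for `g ∈ F`, `p ∤ c`.  Let
`m = m0 + D1.ι r` and let `D, incl, x` be given by `pt_step`.  `β : D.T → D'.T` is the extension of `incl' ∘ β1` with
`x ↦ y = x'' - D'.ι s'`: `y^p - y = incl' m'' - D'.ι (s'^p - s') = incl' (β1 m0 + D1'.ι (α r)) = incl' (β1 m)`.
`β ∘ ι = D'.ι ∘ α` is clear and `β ∘ act σ = act σ ∘ β` holds on `incl` and at `x` (uniqueness part of `pt_step`).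
(5) `GoodPT`: if `χ z = 1` then `χ` comes from `χ1 ≠ 1` on `P/⟨z⟩` and `w = incl w1` works with the same `g`.
If `χ z ≠ 1`, `w = u x + incl b_χ`: `act σ w = w + χ σ` and
`w^p - w = u (x^p - x) + incl (b_χ^p - b_χ) = incl (u m0 + b_χ^p - b_χ) + ι (u r) = ι (g_χ + u r)`, `p ∤ u`.
-/

set_option autoImplicit false

namespace Pool.Agent.Helper54.SJ

private lemma ap_congr {S : Type} [CommRing S] {p : ℕ} (hS : (p : S) = 0) {a b : ℕ}
    (h : a ≡ b [MOD p]) : (a : S) = (b : S) := by
  obtain ⟨k, hk⟩ := Nat.modEq_iff_dvd.1 h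
  have h1 := congrArg (fun t : ℤ => (t : S)) hk
  simp only [Int.cast_sub, Int.cast_mul, Int.cast_natCast, hS, zero_mul] at h1
  exact (sub_eq_zero.1 h1).symm

private lemma ap_fermat {S : Type} [CommRing S] {p : ℕ} [Fact p.Prime] (hS : (p : S) = 0) (n : ℕ) :
    (n : S) ^ p = (n : S) := by
  have h1 : ((n ^ p : ℕ) : ZMod p) = ((n : ℕ) : ZMod p) := by
    rw [Nat.cast_pow, ZMod.pow_card]
  have h2 := ap_congr hS ((ZMod.natCast_eq_natCast_iff _ _ p).1 h1)
  rwa [Nat.cast_pow] at h2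

private lemma ap_val_mul {S : Type} [CommRing S] {p : ℕ} [Fact p.Prime] (hS : (p : S) = 0)
    (a b : Multiplicative (ZMod p)) :
    ((((a * b).toAdd).val : ℕ) : S) = (((a.toAdd).val : ℕ) : S) + (((b.toAdd).val : ℕ) : S) := by
  rw [toAdd_mul, ZMod.val_add, ← Nat.cast_add]
  exact ap_congr hS (Nat.mod_modEq _ _)

private lemma ap_zpowers {P : Type} [Group P] [Finite P] {R : Type} [CommRing R] (z : P)
    [(Subgroup.zpowers z).Normal] [Fintype (P ⧸ Subgroup.zpowers z)]
    (D1 : PT (P ⧸ Subgroup.zpowers z) R) (c : P → D1.T)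
    (hc : ∀ σ τ, c (σ * τ) = c σ + D1.act (QuotientGroup.mk σ) (c τ)) (hcz : c z = 0) :
    ∀ n ∈ Subgroup.zpowers z, c n = 0 := by
  intro n hn
  rw [← mem_powers_iff_mem_zpowers] at hn
  obtain ⟨j, rfl⟩ := (Submonoid.mem_powers_iff _ _).1 hn
  induction j with
  | zero =>
    have h1 := hc 1 1
    rw [mul_one, QuotientGroup.mk_one, D1.act_one, RingHom.id_apply] at h1
    rw [pow_zero]
    linear_combination -h1
  | succ j ih =>
    rw [pow_succ, hc, hcz, map_zero, add_zero]
    exact ih ((mem_powers_iff_mem_zpowers).2 (Subgroup.npow_mem_zpowers z j) |> fun h => h)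

private lemma ap_base {p : ℕ} [Fact p.Prime] {R R' : Type} [CommRing R] [CommRing R']
    (α : R →+* R') (𝒢 : Set R) (P : Type) [Group P] [Fintype P] [Subsingleton P] (D' : PT P R') :
    ∃ (D : PT P R) (β : D.T →+* D'.T), IsEq D α D' β ∧ GoodPT p 𝒢 D := by
  refine ⟨{ T := R
            ι := RingHom.id R
            act := fun _ => RingHom.id R
            act_one := rfl
            act_mul := fun _ _ => rfl
            act_ι := fun _ => rfl
            fix := fun t _ => ⟨t, rfl⟩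
            inj := fun _ _ h => h
            e := 1
            tr := by
              rw [Fintype.sum_subsingleton _ (1 : P)]
              rfl }, D'.ι.comp α, ⟨rfl, fun σ => ?_⟩, ?_⟩
  · change (D'.ι.comp α) = (D'.act σ).comp (D'.ι.comp α)
    rw [← RingHom.comp_assoc, D'.act_ι]
  · intro χ hχ
    exfalso
    apply hχ
    ext σ
    rw [Subsingleton.elim σ 1, map_one]
    rfl

private lemma ap_step {p : ℕ} [Fact p.Prime] {R R' : Type} [CommRing R] [CommRing R']
    (hp : (p : R) = 0) (α : R →+* R') (𝒢 : Set R)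
    (h : ∀ (r' : R') (F : Finset R), ∃ (r : R) (s' : R'), r' = α r + (s' ^ p - s') ∧
      ∀ g ∈ F, ∀ c : ℕ, ¬ p ∣ c → g + c * r ∈ 𝒢)
    (P : Type) [Group P] [Fintype P] (z : P) (hz : z ∈ Subgroup.center P) (hzp : orderOf z = p)
    [(Subgroup.zpowers z).Normal] [Fintype (P ⧸ Subgroup.zpowers z)]
    (ih : ∀ D' : PT (P ⧸ Subgroup.zpowers z) R',
      ∃ (D : PT (P ⧸ Subgroup.zpowers z) R) (β : D.T →+* D'.T), IsEq D α D' β ∧ GoodPT p 𝒢 D)
    (D' : PT P R') :
    ∃ (D : PT P R) (β : D.T →+* D'.T), IsEq D α D' β ∧ GoodPT p 𝒢 D := by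
  have hpp : p.Prime := Fact.out
  have hmkz : (QuotientGroup.mk z : P ⧸ Subgroup.zpowers z) = 1 := by
    have h1 := mk_zpow_eq_one z 1
    rwa [pow_one] at h1
  have hpR' : (p : R') = 0 := by
    have h1 := congrArg α hp
    rwa [map_natCast, map_zero] at h1
  obtain ⟨D1', incl', x', m', hinj', hι', hact', hfix', hzx', hroot', -⟩ := pt_quot hpR' D' z hz hzp
  obtain ⟨D1, β1, hIs1, hgood1⟩ := ih D1'
  obtain ⟨c, hc, hcz⟩ := pt_cocycle hp z hz hzp D1
  have hpD1 : (p : D1.T) = 0 := by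
    have h1 := congrArg D1.ι hp
    rwa [map_natCast, map_zero] at h1
  have hpD1' : (p : D1'.T) = 0 := by
    have h1 := congrArg D1'.ι hpR'
    rwa [map_natCast, map_zero] at h1
  have hpD' : (p : D'.T) = 0 := by
    have h1 := congrArg D'.ι hpR'
    rwa [map_natCast, map_zero] at h1
  have ha' : ∀ (σ : P) (t : D1'.T), D'.act σ (incl' t) = incl' (D1'.act (QuotientGroup.mk σ) t) :=
    fun σ t => (RingHom.congr_fun (hact' σ) t).symm
  have hi' : ∀ r : R', incl' (D1'.ι r) = D'.ι r := fun r => RingHom.congr_fun hι' r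
  have hβι : ∀ r : R, β1 (D1.ι r) = D1'.ι (α r) := fun r => RingHom.congr_fun hIs1.comm r
  have hβa : ∀ (q : P ⧸ Subgroup.zpowers z) (t : D1.T), β1 (D1.act q t) = D1'.act q (β1 t) :=
    fun q t => RingHom.congr_fun (hIs1.equi q) t
  have hmul' : ∀ (σ τ : P) (t : D'.T), D'.act (σ * τ) t = D'.act σ (D'.act τ t) := by
    intro σ τ t
    rw [D'.act_mul]
    rfl
  -- the cocycle of x'
  have hc0 : ∀ σ : P, ∃ t : D1'.T, incl' t = D'.act σ x' - x' := by
    intro σ
    apply hfix'
    rw [map_sub, ← hmul', ← (Subgroup.mem_center_iff.1 hz σ), hmul', hzx', map_add, map_one]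
    ring
  choose c' hc'0 using hc0
  have hc' : ∀ σ τ, c' (σ * τ) = c' σ + D1'.act (QuotientGroup.mk σ) (c' τ) := by
    intro σ τ
    apply hinj'
    have h1 : D'.act τ x' = x' + incl' (c' τ) := by rw [hc'0]; ring
    rw [hc'0, hmul', h1, map_add, ha', map_add, hc'0]
    ring
  have hc'z : c' z = 1 := by
    apply hinj'
    rw [hc'0, hzx', map_one]
    ring
  obtain ⟨b, hb⟩ : ∃ b : D1'.T, ∀ σ : P, c' σ - β1 (c σ) = D1'.act (QuotientGroup.mk σ) b - b := by
    refine pt_h1_quot D1' (fun σ => c' σ - β1 (c σ)) ?_ ?_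
    · intro σ τ
      simp only [hc', hc, map_add, map_sub, hβa]
      ring
    · refine ap_zpowers z D1' _ ?_ ?_
      · intro σ τ
        simp only [hc', hc, map_add, map_sub, hβa]
        ring
      · simp only [hc'z, hcz, map_one, sub_self]
  set x2 : D'.T := x' - incl' b with hx2
  set m2 : D1'.T := m' - b ^ p + b with hm2
  have hx'2 : x' = x2 + incl' b := by rw [hx2]; ring
  have hroot2 : x2 ^ p - x2 = incl' m2 := by
    have h1 := hroot'
    rw [hx'2, add_pow_of_zero hpD'] at h1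
    rw [hm2, map_add, map_sub, map_pow]
    linear_combination h1
  have hact2 : ∀ σ : P, D'.act σ x2 = x2 + incl' (β1 (c σ)) := by
    intro σ
    have h1 : D'.act σ x' = x' + incl' (c' σ) := by rw [hc'0]; ring
    have h2 := congrArg incl' (hb σ)
    rw [map_sub, map_sub] at h2
    rw [hx2, map_sub, h1, ha']
    linear_combination h2
  have hm2a : ∀ σ : P, D1'.act (QuotientGroup.mk σ) m2 = m2 + (β1 (c σ) ^ p - β1 (c σ)) := by
    intro σ
    apply hinj'
    rw [← ha', ← hroot2, map_sub, map_pow, hact2, add_pow_of_zero hpD', map_add, ← hroot2, map_sub, map_pow]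
    ring
  -- m0
  obtain ⟨m0, hm0⟩ : ∃ m0 : D1.T, ∀ σ : P, c σ ^ p - c σ = D1.act (QuotientGroup.mk σ) m0 - m0 := by
    have hcoc : ∀ σ τ : P, c (σ * τ) ^ p - c (σ * τ) = (c σ ^ p - c σ) +
        D1.act (QuotientGroup.mk σ) (c τ ^ p - c τ) := by
      intro σ τ
      rw [hc, add_pow_of_zero hpD1, map_sub, map_pow]
      ring
    exact pt_h1_quot D1 (fun σ => c σ ^ p - c σ) hcoc
      (ap_zpowers z D1 _ hcoc (by simp only [hcz, one_pow, sub_self]))
  obtain ⟨r', hr'⟩ : ∃ r', D1'.ι r' = m2 - β1 m0 := by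
    apply D1'.fix
    intro q
    obtain ⟨σ, rfl⟩ := QuotientGroup.mk_surjective q
    have h1 := congrArg β1 (hm0 σ)
    rw [map_sub, map_pow, map_sub, hβa] at h1
    have h2 := hm2a σ
    rw [map_sub]
    change D1'.act (QuotientGroup.mk σ) m2 - D1'.act (QuotientGroup.mk σ) (β1 m0) = _
    rw [h2]
    linear_combination h1
  -- characters
  have hX : ∀ χ : P →* Multiplicative (ZMod p), ∃ (bχ : D1.T) (g : R),
      (∀ σ : P, (((χ σ).toAdd.val : ℕ) : D1.T) - (((χ z).toAdd.val : ℕ) : D1.T) * c σ =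
        D1.act (QuotientGroup.mk σ) bχ - bχ) ∧
      D1.ι g = (((χ z).toAdd.val : ℕ) : D1.T) * m0 + bχ ^ p - bχ := by
    intro χ
    set u : ℕ := (χ z).toAdd.val with hu
    have hcoc : ∀ σ τ : P, (((χ (σ * τ)).toAdd.val : ℕ) : D1.T) - (u : D1.T) * c (σ * τ) =
        ((((χ σ).toAdd.val : ℕ) : D1.T) - (u : D1.T) * c σ) +
        D1.act (QuotientGroup.mk σ) ((((χ τ).toAdd.val : ℕ) : D1.T) - (u : D1.T) * c τ) := by
      intro σ τ
      rw [map_mul, ap_val_mul hpD1, hc, map_sub, map_mul, map_natCast, map_natCast]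
      ring
    obtain ⟨bχ, hbχ⟩ := pt_h1_quot D1
      (fun σ => (((χ σ).toAdd.val : ℕ) : D1.T) - (u : D1.T) * c σ) hcoc
      (ap_zpowers z D1 _ hcoc (by simp only [hcz, mul_one, ← hu, sub_self]))
    obtain ⟨g, hg⟩ := D1.fix ((u : D1.T) * m0 + bχ ^ p - bχ) (by
      intro q
      obtain ⟨σ, rfl⟩ := QuotientGroup.mk_surjective q
      have h1 : D1.act (QuotientGroup.mk σ) bχ =
          bχ + ((((χ σ).toAdd.val : ℕ) : D1.T) - (u : D1.T) * c σ) := by
        rw [hbχ σ]; ring
      have h2 : D1.act (QuotientGroup.mk σ) m0 = m0 + (c σ ^ p - c σ) := by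
        rw [hm0 σ]; ring
      have h3 : (((((χ σ).toAdd.val : ℕ) : D1.T) - (u : D1.T) * c σ)) ^ p =
          (((χ σ).toAdd.val : ℕ) : D1.T) - (u : D1.T) * c σ ^ p := by
        have h4 := add_pow_of_zero hpD1 ((((χ σ).toAdd.val : ℕ) : D1.T) - (u : D1.T) * c σ)
          ((u : D1.T) * c σ)
        rw [sub_add_cancel, ap_fermat hpD1, mul_pow, ap_fermat hpD1] at h4
        linear_combination -h4
      rw [map_sub, map_add, map_mul, map_natCast, map_pow, h1, h2, add_pow_of_zero hpD1, h3]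
      ring)
    exact ⟨bχ, g, hbχ, hg⟩
  choose bX gX hbX hgX using hX
  have hfin : Finite (P →* Multiplicative (ZMod p)) := by
    haveI : NeZero p := ⟨hpp.ne_zero⟩
    haveI : Finite (Multiplicative (ZMod p)) := inferInstanceAs (Finite (ZMod p))
    exact DFunLike.finite _
  obtain ⟨r, s', hrs, hgood⟩ := h r' (Set.toFinite (Set.range gX)).toFinset
  have hm : ∀ σ : P, D1.act (QuotientGroup.mk σ) (m0 + D1.ι r) - (m0 + D1.ι r) = c σ ^ p - c σ := by
    intro σ
    have h1 : D1.act (QuotientGroup.mk σ) (D1.ι r) = D1.ι r := RingHom.congr_fun (D1.act_ι _) r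
    rw [hm0, map_add, h1]
    ring
  obtain ⟨D, incl, x, hinj, hι, hact, hx, hroot, hlift, hext⟩ :=
    pt_step hp z hz hzp D1 c hc hcz (m0 + D1.ι r) hm
  have hpD : (p : D.T) = 0 := by
    have h1 := congrArg D.ι hp
    rwa [map_natCast, map_zero] at h1
  have ha : ∀ (σ : P) (t : D1.T), D.act σ (incl t) = incl (D1.act (QuotientGroup.mk σ) t) :=
    fun σ t => (RingHom.congr_fun (hact σ) t).symm
  have hi : ∀ r : R, incl (D1.ι r) = D.ι r := fun r => RingHom.congr_fun hι r
  have hy : (x2 - D'.ι s') ^ p - (x2 - D'.ι s') = (incl'.comp β1) (m0 + D1.ι r) := by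
    have h1 : (x2 - D'.ι s') ^ p = x2 ^ p - D'.ι s' ^ p := by
      have h4 := add_pow_of_zero hpD' (x2 - D'.ι s') (D'.ι s')
      rw [sub_add_cancel] at h4
      linear_combination -h4
    have h2 : incl' m2 = incl' (β1 m0) + (D'.ι (α r) + (D'.ι s' ^ p - D'.ι s')) := by
      have h3 : m2 = β1 m0 + D1'.ι r' := by rw [hr']; ring
      rw [h3, map_add, hi', hrs, map_add, map_sub, map_pow]
    rw [h1, RingHom.comp_apply, map_add, hβι, map_add, hi']
    linear_combination hroot2 + h2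
  obtain ⟨β, hβ1, hβ2⟩ := hlift D'.T _ (incl'.comp β1) (x2 - D'.ι s') hy
  have hβi : ∀ t : D1.T, β (incl t) = incl' (β1 t) := fun t => RingHom.congr_fun hβ1 t
  refine ⟨D, β, ⟨?_, ?_⟩, ?_⟩
  · ext r0
    rw [RingHom.comp_apply, RingHom.comp_apply, ← hi, hβi, hβι, hi']
  · intro σ
    apply hext D'.T _ (β.comp (D.act σ)) ((D'.act σ).comp β)
    · ext t
      rw [RingHom.comp_apply, RingHom.comp_apply, RingHom.comp_apply, RingHom.comp_apply, ha, hβi,
        hβa, hβi, ha']
    · have h5 : D'.act σ (D'.ι s') = D'.ι s' := RingHom.congr_fun (D'.act_ι σ) s'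
      rw [RingHom.comp_apply, RingHom.comp_apply, hx, map_add, hβ2, hβi, map_sub, hact2, h5]
      ring
  · intro χ hχ
    by_cases hχz : χ z = 1
    · have hker : ∀ n ∈ Subgroup.zpowers z, χ n = 1 := by
        intro n hn
        obtain ⟨k, rfl⟩ := Subgroup.mem_zpowers_iff.1 hn
        rw [map_zpow, hχz, one_zpow]
      obtain ⟨w1, g, hw1, hwg, hg⟩ := hgood1 (QuotientGroup.lift (Subgroup.zpowers z) χ hker) (by
        intro h1
        apply hχ
        ext σ
        have h2 := DFunLike.congr_fun h1 (QuotientGroup.mk σ : P ⧸ Subgroup.zpowers z)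
        rw [QuotientGroup.lift_mk] at h2
        rw [h2]
        rfl)
      refine ⟨incl w1, g, ?_, ?_, hg⟩
      · intro σ
        rw [ha, hw1, QuotientGroup.lift_mk, map_add, map_natCast]
      · rw [← map_pow, ← map_sub, hwg, hi]
    · set u : ℕ := (χ z).toAdd.val with hu
      have hup : ¬ p ∣ u := by
        intro hd
        haveI : NeZero p := ⟨hpp.ne_zero⟩
        have h1 : u < p := ZMod.val_lt _
        have h2 : u = 0 := Nat.eq_zero_of_dvd_of_lt hd h1
        rw [hu, ZMod.val_eq_zero] at h2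
        exact hχz (Multiplicative.toAdd.injective h2)
      refine ⟨(u : D.T) * x + incl (bX χ), gX χ + u * r, ?_, ?_, ?_⟩
      · intro σ
        have h1 : D1.act (QuotientGroup.mk σ) (bX χ) =
            bX χ + ((((χ σ).toAdd.val : ℕ) : D1.T) - (u : D1.T) * c σ) := by
          rw [hbX χ σ]; ring
        rw [map_add, map_mul, map_natCast, hx, ha, h1, map_add, map_sub, map_mul, map_natCast,
          map_natCast]
        ring
      · have h1 := congrArg incl (hgX χ)
        rw [map_sub, map_add, map_mul, map_pow, map_natCast, hi] at h1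
        have h2 := hroot
        rw [map_add, hi] at h2
        rw [add_pow_of_zero hpD, mul_pow, ap_fermat hpD, map_add, map_mul, map_natCast]
        linear_combination (u : D.T) * h2 - h1
      · exact hgood (gX χ) (by
          rw [Set.Finite.mem_toFinset]
          exact ⟨χ, rfl⟩) u hup

private lemma ap_main {p : ℕ} [Fact p.Prime] {R R' : Type} [CommRing R] [CommRing R']
    (hp : (p : R) = 0) (α : R →+* R') (𝒢 : Set R)
    (h : ∀ (r' : R') (F : Finset R), ∃ (r : R) (s' : R'), r' = α r + (s' ^ p - s') ∧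
      ∀ g ∈ F, ∀ c : ℕ, ¬ p ∣ c → g + c * r ∈ 𝒢) (n : ℕ) :
    ∀ (P : Type) [Group P] [Fintype P], Nat.card P ≤ n → IsPGroup p P → ∀ D' : PT P R',
      ∃ (D : PT P R) (β : D.T →+* D'.T), IsEq D α D' β ∧ GoodPT p 𝒢 D := by
  classical
  have hpp : p.Prime := Fact.out
  induction n with
  | zero =>
    intro P _ _ hcard _ D'
    have h1 : 0 < Nat.card P := Nat.card_pos
    omega
  | succ n ih =>
    intro P _ _ hcard hP D'
    rcases subsingleton_or_nontrivial P with hs | hn
    · exact ap_base α 𝒢 P D'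
    · have hcn : Nontrivial (Subgroup.center P) := hP.center_nontrivial
      have hcP : IsPGroup p (Subgroup.center P) := hP.to_subgroup _
      have hdvd : p ∣ Nat.card (Subgroup.center P) := by
        rcases hcP.card_eq_or_dvd with h1 | h1
        · exfalso
          have h2 := Finite.one_lt_card (α := Subgroup.center P)
          omega
        · exact h1
      obtain ⟨ζ, hζ⟩ := exists_prime_orderOf_dvd_card' p hdvd
      have hz : (ζ : P) ∈ Subgroup.center P := ζ.2
      have hzp : orderOf (ζ : P) = p := by rw [Subgroup.orderOf_coe, hζ]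
      haveI hnorm : (Subgroup.zpowers (ζ : P)).Normal := by
        refine ⟨fun m hm g => ?_⟩
        obtain ⟨k, rfl⟩ := Subgroup.mem_zpowers_iff.1 hm
        have h1 : (ζ : P) ^ k ∈ Subgroup.center P := Subgroup.zpow_mem _ hz k
        rw [Subgroup.mem_center_iff.1 h1 g, mul_assoc, mul_inv_cancel, mul_one]
        exact hm
      haveI : Fintype (P ⧸ Subgroup.zpowers (ζ : P)) := Fintype.ofFinite _
      have hq : Nat.card (P ⧸ Subgroup.zpowers (ζ : P)) ≤ n := by
        have h1 := Subgroup.card_eq_card_quotient_mul_card_subgroup (Subgroup.zpowers (ζ : P))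
        rw [Nat.card_zpowers, hzp] at h1
        have h2 : 0 < Nat.card (P ⧸ Subgroup.zpowers (ζ : P)) := Nat.card_pos
        have h3 := hpp.two_le
        have h4 : Nat.card (P ⧸ Subgroup.zpowers (ζ : P)) * 2 ≤ Nat.card P := by
          rw [h1]
          exact Nat.mul_le_mul_left _ h3
        omega
      exact ap_step hp α 𝒢 h P (ζ : P) hz hzp
        (ih (P ⧸ Subgroup.zpowers (ζ : P)) hq (hP.to_quotient _)) D'

theorem pt_approx {p : ℕ} [Fact p.Prime] {R R' : Type} [CommRing R] [CommRing R']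
    (hp : (p : R) = 0) (α : R →+* R') (𝒢 : Set R)
    (h : ∀ (r' : R') (F : Finset R), ∃ (r : R) (s' : R'), r' = α r + (s' ^ p - s') ∧
      ∀ g ∈ F, ∀ c : ℕ, ¬ p ∣ c → g + c * r ∈ 𝒢) :
    ∀ (P : Type) [Group P] [Fintype P], IsPGroup p P → ∀ D' : PT P R',
      ∃ (D : PT P R) (β : D.T →+* D'.T), IsEq D α D' β ∧ GoodPT p 𝒢 D := by
  intro P _ _ hP D'
  exact ap_main hp α 𝒢 h (Nat.card P) P le_rfl hP D'


end Pool.Agent.Helper54.SJ
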