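import Pool.Agent.Helper54.SJ.NB

/-!
# SJ-06: the fundamental matrix `UM D κ`

PROOF.  `UM D κ i j` has at most one nonzero summand: `σ = i j⁻¹` if this is in `P`.
* `um_map`: clear.  `um_eq`: `β (D.act σ⁻¹ D.e) = D'.act σ⁻¹ D'.e`.
* `actM_um`: `actM τ (UM D κ) i j = ∑_σ [i = σ τ j] κ (act σ⁻¹ e)`; put `σ' = σ τ`, `σ⁻¹ = τ σ'⁻¹`.
* `um_inv`: with `x σ = act σ⁻¹ e` (`∑ x = 1`) and `y` its convolution inverse (`exists_conv_inv`), the matrix
  `V i j = ∑_σ [i = σ j] y σ` is the inverse of `UM D id` (a sum over `l` of `[i = σ l][l = τ j] = [i = σ τ j]`).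
* `um_unit`: image of `um_inv` under `κ` (`um_map`).
* `um_frob`: let `U = UM D id` over `D.T`, `V` its inverse, `Ψ' = U^(p) V` (`U^(p)` = entries to the power `p`).
  `U.map (act τ) = UM D (act τ) = actM τ U` is `U` with its columns permuted, i.e. `U * Q_τ` for a permutation
  matrix `Q_τ` (entries 0, 1; `Q_τ` is invertible); `U^(p).map (act τ) = U^(p) * Q_τ`; so
  `V.map (act τ) = Q_τ⁻¹ V` and `Ψ'` is fixed by all `act τ`, so `Ψ' = Ψ.map ι`.  `Ψ'` is invertible: `U^(p)` is the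
  matrix `UM` of the element with coordinates `(act σ⁻¹ e)^p`, i.e. `∑_σ [i = σ j] (act σ⁻¹ e)^p`, and
  `∑_σ (act σ⁻¹ e)^p = (∑ act σ⁻¹ e)^p = 1` as `p = 0` in `D.T`; so `exists_conv_inv` applies again.  The inverse of
  `Ψ'` is also fixed, so it comes from a matrix over `R` (`ι` injective: `Ψ` is invertible).  Then for every `κ`:
  `(UM D κ)^(p) = κ(U^(p)) = κ(Ψ' U)`.
* `fm_of_pt`: `φ = κ ∘ ι`, `Y = UM D κ = κ(U)`.  `ev φ Y F = κ (ev ι U F)` (`ev_map`).  sym: if it is `0` then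
  `ev ι U F = 0` (`κ` injective); apply `act g` (`act g ∘ ι = ι`, `U.map (act g) = actM g U`):
  `ev ι (actM g U) F = 0`; apply `κ`.  fix: `t = ev ι U F` satisfies `κ (act g t) = ev φ (actM g Y) F = κ t`, so
  `act g t = t` for all `g ∈ P`, `t = ι r`.
-/

set_option autoImplicit false
open Pool.Agent.Helper54.FP

namespace Pool.Agent.Helper54.SJ

section
variable {p : ℕ} [Fact p.Prime] {G : Type} [Group G] [Fintype G] [DecidableEq G] {P : Subgroup G}
  [Fintype P] {R R' Ω Ω' : Type} [CommRing R] [CommRing R'] [CommRing Ω] [CommRing Ω']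

/-- the matrix `∑_σ x σ [σ]` -/
private noncomputable def WM (P : Subgroup G) [Fintype P] (x : P → Ω) : Matrix G G Ω := fun i j =>
  ∑ σ : P, if i = (σ : G) * j then x σ else 0

omit [Fintype G] in
private lemma wm_pos (x : P → Ω) {i j : G} (σ : P) (h : i = (σ : G) * j) : WM P x i j = x σ := by
  unfold WM
  rw [Finset.sum_eq_single σ]
  · rw [if_pos h]
  · intro τ _ hne
    rw [if_neg]
    intro h2
    apply hne
    apply Subtype.ext
    rw [h] at h2
    exact (mul_right_cancel h2).symm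
  · intro h2
    exact absurd (Finset.mem_univ _) h2

omit [Fintype G] in
private lemma wm_neg (x : P → Ω) {i j : G} (h : ∀ σ : P, i ≠ (σ : G) * j) : WM P x i j = 0 := by
  unfold WM
  apply Finset.sum_eq_zero
  intro σ _
  rw [if_neg (h σ)]

omit [Fintype G] in
private lemma wm_map (x : P → Ω) (f : Ω → Ω') (h0 : f 0 = 0) :
    (WM P x).map f = WM P (fun σ => f (x σ)) := by
  ext i j
  rw [Matrix.map_apply]
  by_cases h : ∃ σ : P, i = (σ : G) * j
  · obtain ⟨σ, hσ⟩ := h
    rw [wm_pos x σ hσ, wm_pos (fun σ => f (x σ)) σ hσ]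
  · push Not at h
    rw [wm_neg x h, wm_neg (fun σ => f (x σ)) h, h0]

private lemma wm_mul (x y : P → Ω) :
    WM P x * WM P y = WM P (fun ρ => ∑ σ, x σ * y (σ⁻¹ * ρ)) := by
  ext i j
  rw [Matrix.mul_apply]
  have h1 : ∀ l ∈ (Finset.univ : Finset G), WM P x i l * WM P y l j =
      ∑ σ : P, if l = (σ : G)⁻¹ * i then x σ * WM P y l j else 0 := by
    intro l _
    unfold WM
    rw [Finset.sum_mul]
    apply Finset.sum_congr rfl
    intro σ _
    by_cases h : i = (σ : G) * l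
    · have h2 : l = (σ : G)⁻¹ * i := by rw [h]; group
      rw [if_pos h, if_pos h2]
    · have h2 : ¬ l = (σ : G)⁻¹ * i := by
        intro h3
        apply h
        rw [h3]
        group
      rw [if_neg h, if_neg h2, zero_mul]
  rw [Finset.sum_congr rfl h1, Finset.sum_comm]
  have h2 : ∀ σ ∈ (Finset.univ : Finset P), (∑ l : G, if l = (σ : G)⁻¹ * i then
      x σ * WM P y l j else 0) = x σ * WM P y ((σ : G)⁻¹ * i) j := by
    intro σ _
    rw [Finset.sum_ite_eq' Finset.univ ((σ : G)⁻¹ * i), if_pos (Finset.mem_univ _)]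
  rw [Finset.sum_congr rfl h2]
  by_cases h : ∃ ρ : P, i = (ρ : G) * j
  · obtain ⟨ρ, hρ⟩ := h
    rw [wm_pos _ ρ hρ]
    apply Finset.sum_congr rfl
    intro σ _
    rw [wm_pos y (σ⁻¹ * ρ)]
    rw [hρ, Subgroup.coe_mul, Subgroup.coe_inv, mul_assoc]
  · push Not at h
    rw [wm_neg _ h]
    apply Finset.sum_eq_zero
    intro σ _
    rw [wm_neg y, mul_zero]
    intro τ hτ
    apply h (σ * τ)
    rw [Subgroup.coe_mul, mul_assoc, ← hτ]
    group

omit [Fintype G] in
private lemma wm_one : WM P (fun ρ => if ρ = 1 then (1 : Ω) else 0) = 1 := by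
  ext i j
  by_cases h : ∃ ρ : P, i = (ρ : G) * j
  · obtain ⟨ρ, hρ⟩ := h
    rw [wm_pos _ ρ hρ, Matrix.one_apply]
    by_cases h1 : ρ = 1
    · rw [if_pos h1, if_pos]
      rw [hρ, h1, Subgroup.coe_one, one_mul]
    · rw [if_neg h1, if_neg]
      intro h2
      apply h1
      apply Subtype.ext
      rw [h2] at hρ
      exact (right_eq_mul.1 hρ)
  · push Not at h
    rw [wm_neg _ h, Matrix.one_apply, if_neg]
    intro h1
    apply h 1
    rw [h1, Subgroup.coe_one, one_mul]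

omit [Fintype G] in
private lemma um_wm (D : PT P R) (κ : D.T →+* Ω) :
    UM D κ = WM P (fun σ => κ (D.act σ⁻¹ D.e)) := rfl

omit [Fact p.Prime] [Fintype G] [DecidableEq G] in
private lemma p_zero (hp : (p : R) = 0) (D : PT P R) : (p : D.T) = 0 := by
  have h := congrArg D.ι hp
  rwa [map_natCast, map_zero] at h

omit [Fintype G] [DecidableEq G] in
private lemma sum_x (D : PT P R) : ∑ σ : P, D.act σ⁻¹ D.e = 1 := by
  rw [← D.tr]
  exact Equiv.sum_comp (Equiv.inv P) (fun σ => D.act σ D.e)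

private lemma pow_sum_one {T : Type} [CommRing T] (hT : (p : T) = 0) {ι : Type} (s : Finset ι)
    (x : ι → T) (hx : ∑ i ∈ s, x i = 1) : ∑ i ∈ s, x i ^ p = 1 := by
  rcases subsingleton_or_nontrivial T with h | h
  · exact Subsingleton.elim _ _
  · have : CharP T p := (CharP.charP_iff_prime_eq_zero Fact.out).2 hT
    rw [← sum_pow_char, hx, one_pow]

theorem um_map (D : PT P R) (κ : D.T →+* Ω) (δ : Ω →+* Ω') :
    (UM D κ).map δ = UM D (δ.comp κ) := by
  rw [um_wm, um_wm, wm_map _ _ (map_zero δ)]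
  rfl

theorem um_eq {D : PT P R} {α : R →+* R'} {D' : PT P R'} {β : D.T →+* D'.T}
    (h : IsEq D α D' β) (he : β D.e = D'.e) (κ : D'.T →+* Ω) :
    UM D' κ = UM D (κ.comp β) := by
  rw [um_wm, um_wm]
  congr 1
  funext σ
  rw [RingHom.comp_apply, ← he]
  congr 1
  exact (RingHom.congr_fun (h.equi σ⁻¹) D.e).symm

theorem actM_um (D : PT P R) (κ : D.T →+* Ω) (τ : P) :
    actM (τ : G) (UM D κ) = UM D (κ.comp (D.act τ)) := by
  ext i j
  rw [actM_apply]
  unfold UM
  symm
  rw [← Equiv.sum_comp (Equiv.mulRight τ)]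
  apply Finset.sum_congr rfl
  intro σ _
  have e1 : ((Equiv.mulRight τ σ : P) : G) * j = (σ : G) * ((τ : G) * j) := by
    change ((σ * τ : P) : G) * j = _
    rw [Subgroup.coe_mul, mul_assoc]
  have e2 : (κ.comp (D.act τ)) (D.act (Equiv.mulRight τ σ : P)⁻¹ D.e) = κ (D.act σ⁻¹ D.e) := by
    change κ (D.act τ (D.act (σ * τ)⁻¹ D.e)) = _
    have h1 : D.act τ (D.act (σ * τ)⁻¹ D.e) = D.act (τ * (σ * τ)⁻¹) D.e := by
      rw [D.act_mul]
      rfl
    rw [h1]
    congr 3
    group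
  rw [e1, e2]

theorem um_inv (hP : IsPGroup p P) (hp : (p : R) = 0) (D : PT P R) :
    ∃ V : Matrix G G D.T, UM D (RingHom.id D.T) * V = 1 ∧ V * UM D (RingHom.id D.T) = 1 := by
  obtain ⟨y, hy1, hy2⟩ := exists_conv_inv hP (p_zero hp D) (fun σ : P => D.act σ⁻¹ D.e) (sum_x D)
  refine ⟨WM P y, ?_, ?_⟩
  · rw [um_wm, wm_mul]
    have : (fun ρ => ∑ σ : P, (RingHom.id D.T) (D.act σ⁻¹ D.e) * y (σ⁻¹ * ρ)) =
        fun ρ => if ρ = 1 then (1 : D.T) else 0 := by
      funext ρ
      exact hy1 ρ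
    rw [this, wm_one]
  · rw [um_wm, wm_mul]
    have : (fun ρ => ∑ σ : P, y σ * (RingHom.id D.T) (D.act (σ⁻¹ * ρ)⁻¹ D.e)) =
        fun ρ => if ρ = 1 then (1 : D.T) else 0 := by
      funext ρ
      exact hy2 ρ
    rw [this, wm_one]

theorem um_unit (hP : IsPGroup p P) (hp : (p : R) = 0) (D : PT P R) (κ : D.T →+* Ω) :
    IsUnit (UM D κ) := by
  obtain ⟨V, hV1, hV2⟩ := um_inv hP hp D
  have e1 : UM D κ = (UM D (RingHom.id D.T)).map κ := by
    rw [um_map, RingHom.comp_id]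
  have e2 : UM D κ * V.map κ = 1 := by
    rw [e1, ← Matrix.map_mul, hV1, Matrix.map_one κ (map_zero κ) (map_one κ)]
  exact IsUnit.of_mul_eq_one _ e2

/-- the matrix of the permutation of the columns -/
private def QM (Ω : Type) [CommRing Ω] (g : G) : Matrix G G Ω := fun l j =>
  if l = g * j then 1 else 0

private lemma mul_qm (g : G) (Y : Matrix G G Ω) : Y * QM Ω g = actM g Y := by
  ext i j
  rw [Matrix.mul_apply, actM_apply]
  unfold QM
  simp

/-- matrices fixed by all `act τ` come from `R` -/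
private lemma exists_of_fixed (D : PT P R) (M : Matrix G G D.T)
    (h : ∀ τ : P, M.map (D.act τ) = M) : ∃ N : Matrix G G R, N.map D.ι = M := by
  have h1 : ∀ i j, ∃ r, D.ι r = M i j := by
    intro i j
    apply D.fix
    intro τ
    exact congrFun (congrFun (h τ) i) j
  choose N hN using h1
  exact ⟨N, by ext i j; exact hN i j⟩

/-- if `A`, `B` both change by the same permutation and `B * C = 1` then `A * C` is fixed -/
private lemma fixed_mul (D : PT P R) (τ : P) (A B C : Matrix G G D.T)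
    (hA : A.map (D.act τ) = A * QM D.T (τ : G)) (hB : B.map (D.act τ) = B * QM D.T (τ : G))
    (hCB : C * B = 1) : (A * C).map (D.act τ) = A * C := by
  have h1 : C.map (D.act τ) * (B * QM D.T (τ : G)) = 1 := by
    rw [← hB, ← Matrix.map_mul, hCB, Matrix.map_one _ (map_zero _) (map_one _)]
  have h2 : (B * QM D.T (τ : G)) * C.map (D.act τ) = 1 := mul_eq_one_comm.1 h1
  have h3 : QM D.T (τ : G) * C.map (D.act τ) = C := by
    calc QM D.T (τ : G) * C.map (D.act τ)
        = (C * B) * (QM D.T (τ : G) * C.map (D.act τ)) := by rw [hCB, one_mul]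
      _ = C * ((B * QM D.T (τ : G)) * C.map (D.act τ)) := by simp only [Matrix.mul_assoc]
      _ = C := by rw [h2, mul_one]
  rw [Matrix.map_mul, hA, Matrix.mul_assoc, h3]

theorem um_frob (hP : IsPGroup p P) (hp : (p : R) = 0) (D : PT P R) :
    ∃ Ψ : Matrix G G R, IsUnit Ψ ∧ ∀ (S : Type) (_ : CommRing S) (κ : D.T →+* S),
      (UM D κ).map (fun y => y ^ p) = Ψ.map (κ.comp D.ι) * UM D κ := by
  have hp0 : p ≠ 0 := (Fact.out : p.Prime).ne_zero
  set x : P → D.T := fun σ => D.act σ⁻¹ D.e with hx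
  set U : Matrix G G D.T := UM D (RingHom.id D.T) with hU
  have hUw : U = WM P x := rfl
  obtain ⟨V, hV1, hV2⟩ := um_inv hP hp D
  set Up : Matrix G G D.T := WM P (fun σ => x σ ^ p) with hUp
  have hUpm : U.map (fun y => y ^ p) = Up := by
    rw [hUw, wm_map _ _ (zero_pow hp0)]
  obtain ⟨y, hy1, hy2⟩ := exists_conv_inv hP (p_zero hp D) (fun σ : P => x σ ^ p)
    (pow_sum_one (p_zero hp D) Finset.univ x (sum_x D))
  set V' : Matrix G G D.T := WM P y with hV'
  have hV'1 : Up * V' = 1 := by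
    rw [hUp, hV', wm_mul]
    have : (fun ρ => ∑ σ : P, x σ ^ p * y (σ⁻¹ * ρ)) =
        fun ρ => if ρ = 1 then (1 : D.T) else 0 := by
      funext ρ
      exact hy1 ρ
    rw [this, wm_one]
  have hV'2 : V' * Up = 1 := mul_eq_one_comm.1 hV'1
  -- the action
  have hUact : ∀ τ : P, U.map (D.act τ) = U * QM D.T (τ : G) := by
    intro τ
    rw [mul_qm, hU, um_map, actM_um, RingHom.comp_id, RingHom.id_comp]
  have hUpact : ∀ τ : P, Up.map (D.act τ) = Up * QM D.T (τ : G) := by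
    intro τ
    rw [mul_qm, ← hUpm]
    have h1 : (U.map (fun y => y ^ p)).map (D.act τ) = (U.map (D.act τ)).map (fun y => y ^ p) := by
      ext i j
      simp only [Matrix.map_apply, map_pow]
    rw [h1, hUact τ, mul_qm]
    rfl
  obtain ⟨Ψ, hΨ⟩ := exists_of_fixed D (Up * V)
    (fun τ => fixed_mul D τ Up U V (hUpact τ) (hUact τ) hV2)
  obtain ⟨Φ, hΦ⟩ := exists_of_fixed D (U * V')
    (fun τ => fixed_mul D τ U Up V' (hUact τ) (hUpact τ) hV'2)
  have hΨΦ : Ψ * Φ = 1 := by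
    have h1 : (Ψ * Φ).map D.ι = (1 : Matrix G G R).map D.ι := by
      rw [Matrix.map_mul, hΨ, hΦ, Matrix.map_one _ (map_zero _) (map_one _)]
      calc Up * V * (U * V') = Up * ((V * U) * V') := by simp only [Matrix.mul_assoc]
        _ = 1 := by rw [hV2, one_mul, hV'1]
    ext i j
    exact D.inj (congrFun (congrFun h1 i) j)
  refine ⟨Ψ, IsUnit.of_mul_eq_one _ hΨΦ, ?_⟩
  intro S _ κ
  have e1 : UM D κ = U.map κ := by
    rw [hU, um_map, RingHom.comp_id]
  have e2 : (U.map κ).map (fun y => y ^ p) = Up.map κ := by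
    rw [← hUpm]
    ext i j
    simp only [Matrix.map_apply, map_pow]
  have e3 : Ψ.map (κ.comp D.ι) = (Up * V).map κ := by
    rw [← hΨ]
    rfl
  rw [e1, e2, e3, ← Matrix.map_mul, Matrix.mul_assoc, hV2, mul_one]

theorem fm_of_pt (hP : IsPGroup p P) (hp : (p : R) = 0) (D : PT P R) (κ : D.T →+* Ω)
    (hκ : Function.Injective κ) : FM p (κ.comp D.ι) (UM D κ) P := by
  set U : Matrix G G D.T := UM D (RingHom.id D.T) with hU
  have e1 : UM D κ = U.map κ := by
    rw [hU, um_map, RingHom.comp_id]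
  have hUact : ∀ τ : P, U.map (D.act τ) = actM (τ : G) U := by
    intro τ
    rw [hU, um_map, actM_um, RingHom.comp_id, RingHom.id_comp]
  have hev : ∀ F : MvPolynomial (G × G) R, ev (κ.comp D.ι) (UM D κ) F = κ (ev D.ι U F) := by
    intro F
    rw [e1, ev_map]
  have hevg : ∀ (g : P) (F : MvPolynomial (G × G) R),
      ev (κ.comp D.ι) (actM (g : G) (UM D κ)) F = κ (D.act g (ev D.ι U F)) := by
    intro g F
    rw [ev_map (D.act g), D.act_ι, hUact g, ev_map κ, actM_map, ← e1]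
  refine ⟨um_unit hP hp D κ, ?_, ?_, ?_⟩
  · obtain ⟨Ψ, h1, h2⟩ := um_frob hP hp D
    exact ⟨Ψ, h1, h2 Ω inferInstance κ⟩
  · intro g hg F hF
    rw [hev] at hF
    have h1 : ev D.ι U F = 0 := hκ (by rw [hF, map_zero])
    have h2 := hevg ⟨g, hg⟩ F
    rw [h1, map_zero, map_zero] at h2
    exact h2
  · intro F hF
    obtain ⟨r, hr⟩ := D.fix (ev D.ι U F) (by
      intro σ
      apply hκ
      rw [← hevg σ F, ← hev F]
      exact hF σ σ.2)
    refine ⟨r, ?_⟩
    rw [hev, RingHom.comp_apply, hr]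

end

end Pool.Agent.Helper54.SJ
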