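import Pool.Agent.Helper54.SJ.Local
import Pool.Agent.Helper54.SJ.Approx
import Pool.Agent.Helper54.SJ.UMat
import Pool.Agent.Helper54.FP.All

/-!
# SJ-29: from covers to patching data

PROOF.  Compare `pcov_of_realizable` in Helper97/FP/PCovOfCover.lean.  The first part (up to `hst`) is the same: one gets
`L`, `f : H ≃* Gal(L)`, `A`, `Y` with `Y.map (f h) = actM h Y`, `hFM : FM p (pk k L) Y H`, and `σ • A = A` iff `σ = f g`
with `g ∈ P` (`P ≤ H`).  `exists_local_pt` for `f` restricted to `P` gives `Ω, i, j, D', κ'`.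
`pt_approx` with `α = px k` and `𝒢 = Set.univ` (`exists_px`) gives `D : PT P k[X]` and `β : D.T → D'.T` with
`IsEq D (px k) D' β`.  Put `κ = κ' ∘ β`; `κ ∘ D.ι = i ∘ px`.  Let `V` be the inverse of `UM D (id)` (`um_inv`).
`Z = Y' * (V.map β)` is a matrix over `D'.T`, where `Y'` has entries `t` with `j (Y a b) = κ' t` and
`j (f σ (Y a b)) = κ' (act σ t)`.  It is fixed by `act σ`: `Y'.map (act σ) = actM σ Y'` (`κ'` is injective and
`Y.map (f σ) = actM σ Y`), `(UM D β).map (act σ) = UM D (β ∘ act σ) = actM σ (UM D β)` (`um_map`, `actM_um`), and both are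
multiplied from the right by the same permutation matrix `actM σ 1` (`actM_mul`).  So `Z = C.map D'.ι` and
`Y.map j = C.map i * UM D κ`.  `C` is invertible because `Y.map j` is (`det ≠ 0` over the field `k((x))`).  The end of the
proof is as there (`fm_transport`).
-/

set_option autoImplicit false
open Pool.Agent.Helper54.FP Pool.Agent.Helper54.PW
open scoped Pointwise

namespace Pool.Agent.Helper54.SJ

theorem pcovG_of_realAct {p : ℕ} [Fact p.Prime] {G : Type} [Group G] [Fintype G] [DecidableEq G]
    {P : Subgroup G} [Fintype P] (hP : IsPGroup p P) {k : Type} [Field k] [IsAlgClosed k]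
    [CharP k p] {H : Subgroup G} (hH : P ≤ H) (h : RealAct k (P.subgroupOf H)) :
    PCovG p k P H := by
  -- a place of the rational function field
  obtain ⟨x, hx, hxk⟩ : ∃ x : ValuationSubring (RatFunc k), x ≠ ⊤ ∧
      ∀ c : k, algebraMap k (RatFunc k) c ∈ x := by
    obtain ⟨F, _, _, _, _, _, _, _, A, _, hA2, hA3, _⟩ := h
    refine ⟨A.comap (algebraMap (RatFunc k) F), ?_, hA2⟩
    intro ht
    have : (RatFunc.X : RatFunc k) ∈ A.comap (algebraMap (RatFunc k) F) := by
      rw [ht]; exact ValuationSubring.mem_top _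
    exact hA3 this
  obtain ⟨L, _, _, _, _, f, hunr, A, hA1, hA2, hA3, hA4⟩ :=
    exists_cover_of_realizable _ x hx hxk (realizable_of_realAct _ h x hx hxk)
  obtain ⟨Y, hY, hYint, hYint', hYf⟩ := exists_Y H f hunr
  have hFM : FM p (pk k L) Y H := fm_of_Y H f Y hY hYint hYint' hYf
  -- the local group
  let f' : P →* (L ≃ₐ[RatFunc k] L) := f.toMonoidHom.comp (Subgroup.inclusion hH)
  have hf'a : ∀ σ : P, f' σ = f ⟨σ, hH σ.2⟩ := fun σ => rfl
  have hf' : Function.Injective f' := by
    intro a b hab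
    have h1 := f.injective hab
    exact Subgroup.inclusion_injective hH h1
  have hst : ∀ σ : L ≃ₐ[RatFunc k] L, σ • A = A ↔ σ ∈ f'.range := by
    intro σ
    rw [hA4]
    constructor
    · rintro ⟨g, hg, rfl⟩
      exact ⟨⟨(g : G), Subgroup.mem_subgroupOf.1 hg⟩, rfl⟩
    · rintro ⟨g, rfl⟩
      exact ⟨⟨(g : G), hH g.2⟩, Subgroup.mem_subgroupOf.2 g.2, rfl⟩
  obtain ⟨Ω, _, i, j, D', κ', hκ', hκi, hij, hlift⟩ :=
    exists_local_pt hP f' hf' A hA1 hA2 hA3 hst
  have hpX : (p : Polynomial k) = 0 := by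
    have h2 : (Polynomial.C (p : k) : Polynomial k) = 0 := by
      rw [CharP.cast_eq_zero, map_zero]
    rwa [Polynomial.C_eq_natCast] at h2
  obtain ⟨D, β, hβ, -⟩ := pt_approx hpX (px k) Set.univ (by
    intro r' F
    obtain ⟨g, s, hg⟩ := exists_px (p := p) r'
    exact ⟨g, s, hg, fun _ _ _ _ => Set.mem_univ _⟩) P hP D'
  -- the entries of `Y` in `D'.T`
  choose T0 hT0 hT0' using fun a b : G => hlift (Y a b)
  let Y' : Matrix G G D'.T := Matrix.of T0
  have hY'κ : Y'.map κ' = Y.map j := by
    ext a b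
    exact (hT0 a b).symm
  have hY'act : ∀ σ : P, Y'.map (D'.act σ) = actM (σ : G) Y' := by
    intro σ
    ext a b
    apply hκ'
    have h1 := hYf ⟨σ, hH σ.2⟩
    have h2 : f' σ (Y a b) = Y a ((σ : G) * b) := congrFun (congrFun h1 a) b
    change κ' (D'.act σ (T0 a b)) = κ' (T0 a ((σ : G) * b))
    rw [← hT0', h2, hT0]
  -- the fundamental matrix of `D` and its inverse
  obtain ⟨V, hV1, hV2⟩ := um_inv (G := G) hP hpX D
  set U : Matrix G G D'.T := UM D β with hU
  set W : Matrix G G D'.T := V.map β with hW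
  have hUmap : (UM D (RingHom.id D.T)).map β = U := by
    rw [um_map, RingHom.comp_id]
  have hUW : U * W = 1 := by
    rw [← hUmap, hW, ← Matrix.map_mul, hV1, Matrix.map_one _ (map_zero _) (map_one _)]
  have hWU : W * U = 1 := by
    rw [← hUmap, hW, ← Matrix.map_mul, hV2, Matrix.map_one _ (map_zero _) (map_one _)]
  have hQ : ∀ (σ : P) (M : Matrix G G D'.T), actM (σ : G) M = M * actM (σ : G) 1 := by
    intro σ M
    rw [← actM_mul, mul_one]
  have hUact : ∀ σ : P, U.map (D'.act σ) = U * actM (σ : G) 1 := by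
    intro σ
    rw [← hQ, hU, um_map, actM_um, hβ.equi]
  have hfix : ∀ σ : P, (Y' * W).map (D'.act σ) = Y' * W := by
    intro σ
    have h1 : W.map (D'.act σ) * (U * actM (σ : G) 1) = 1 := by
      rw [← hUact, ← Matrix.map_mul, hWU, Matrix.map_one _ (map_zero _) (map_one _)]
    have h2 : (U * actM (σ : G) 1) * W.map (D'.act σ) = 1 := mul_eq_one_comm.1 h1
    have h3 : actM (σ : G) 1 * W.map (D'.act σ) = W := by
      calc actM (σ : G) 1 * W.map (D'.act σ)
          = (W * U) * (actM (σ : G) 1 * W.map (D'.act σ)) := by rw [hWU, one_mul]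
        _ = W * ((U * actM (σ : G) 1) * W.map (D'.act σ)) := by simp only [Matrix.mul_assoc]
        _ = W := by rw [h2, mul_one]
    rw [Matrix.map_mul, hY'act, hQ, Matrix.mul_assoc, h3]
  have hC : ∀ a b, ∃ c : LaurentSeries k, D'.ι c = (Y' * W) a b := by
    intro a b
    apply D'.fix
    intro σ
    exact congrFun (congrFun (hfix σ) a) b
  choose C0 hC0 using hC
  let C : Matrix G G (LaurentSeries k) := Matrix.of C0
  have hCmap : C.map D'.ι = Y' * W := by
    ext a b
    exact hC0 a b
  have hCU : C.map i * UM D (κ'.comp β) = Y.map j := by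
    have h1 : C.map D'.ι * U = Y' := by
      rw [hCmap, Matrix.mul_assoc, hWU, Matrix.mul_one]
    have h2 : C.map i = (C.map D'.ι).map κ' := by
      rw [← hκi]
      rfl
    have h3 : UM D (κ'.comp β) = U.map κ' := by
      rw [hU, um_map]
    rw [h2, h3, ← Matrix.map_mul, h1, hY'κ]
  have : CharP (LaurentSeries k) p := charP_KK p k
  have : CharP Ω p :=
    charP_of_injective_ringHom (f := i.comp (HahnSeries.C : k →+* LaurentSeries k))
      (RingHom.injective _) p
  have : CharP L p :=
    charP_of_injective_ringHom (f := (algebraMap (RatFunc k) L).comp (algebraMap k (RatFunc k)))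
      (RingHom.injective _) p
  have hi : Function.Injective i := RingHom.injective i
  have hYj : IsUnit (Y.map j) := by
    have := hY.map (j.mapMatrix (m := G))
    exact this
  have hCunit : IsUnit C := by
    rw [Matrix.isUnit_iff_isUnit_det, isUnit_iff_ne_zero]
    intro h0
    have h1 : (C.map i).det = 0 := by
      have := RingHom.map_det i C
      rw [h0, map_zero] at this
      exact this.symm
    have h2 : (Y.map j).det = 0 := by
      rw [← hCU, Matrix.det_mul, h1, zero_mul]
    exact ((Matrix.isUnit_iff_isUnit_det _).1 hYj).ne_zero h2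
  refine ⟨D, C, Ω, inferInstance, i, κ'.comp β, ?_, hCunit, ?_⟩
  · rw [RingHom.comp_assoc, hβ.comm, ← RingHom.comp_assoc, hκi]
  rw [hCU]
  have hcomp : i.comp (px k) = j.comp (pk k L) := by
    refine RingHom.ext fun q => ?_
    have h1 := hij (algebraMap (Polynomial k) (RatFunc k) q)
    have h2 : rx k (algebraMap (Polynomial k) (RatFunc k) q) = px k q := by
      simp [rx]
    rw [h2] at h1
    exact h1.symm
  rw [hcomp]
  have hinj : Function.Injective (j.comp (pk k L)) := by
    rw [← hcomp]
    exact hi.comp (px_injective k)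
  exact (fm_transport hinj hFM (Rel.of_hom j (pk k L) Y)).1

end Pool.Agent.Helper54.SJ
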