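import Pool.Agent.Helper54.SJ.RelTr
import Pool.Agent.Helper54.FP.Patch2

/-!
# SJ-21: gluing

PROOF.
* `glue_step'` is `glue_step` of FP/Step.lean with the matrix `Umat p τ u1` replaced by an arbitrary matrix `V`
  (the proof there never uses what `Umat p τ u1` is).
* `step_b`: this is the part `step B` of the proof of `patch_two` in FP/Patch2.lean.  `regB`: the matrix
  `C2.map θ * (1 + X^m2 • M2').map iA * UM DB κ2 = C2.map θ * UM D κ = (C2.map θ2).map φ2 * UM D κ` (`map_θ`) is a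
  fundamental matrix for `φ2` and `P`, by `fm_tr` (`γ0 = α2 k 1 1`, `i = φ2 k`, `φ2_injective`, `φ2_α2`) and `fm_left`.
  Apply `glue_step'` with `V = UM DB κ2`, `a = c = 1`, `H1 = H2`, `H2 = P`, and rewrite
  `B2.. * (C2.map θ * (1 + ..) * UM DB κ2) = (B2.. * C2.map θ2).map φ2 * UM D κ`.
-/

set_option autoImplicit false
open Pool.Agent.Helper54.FP

namespace Pool.Agent.Helper54.SJ

section
variable {p : ℕ} [Fact p.Prime] {G : Type} [Group G] [Fintype G] [DecidableEq G] {P : Subgroup G}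
  [Fintype P] {k : Type} [Field k]

theorem glue_step' [CharP k p] {H1 H2 : Subgroup G} (C : Matrix G G (LaurentSeries k))
    (hC : IsUnit C) (m : ℕ)
    (hm : ∀ M : Matrix G G (A0 k), ∃ M' : Matrix G G (A0 k),
      C.map (θ k) * ((PowerSeries.X : A0 k) ^ m • M).map (iA k) * (C⁻¹).map (θ k) =
        ((PowerSeries.X : A0 k) • M').map (iA k))
    (V : Matrix G G (Om k)) (hdisc : FM p (φ1 k) (C.map (θ k) * V) H1) (M : Matrix G G (A0 k))
    (hreg : FM p (φ2 k)
      (C.map (θ k) * (1 + (PowerSeries.X : A0 k) ^ m • M).map (iA k) * V) H2)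
    (a : ℕ) (c : k) :
    ∃ B1 B2 : Matrix G G (Pk k), IsUnit B1 ∧ IsUnit B2 ∧
      (B1.map (algebraMap (Pk k) (R1 k))).map (φ1 k) * (C.map (θ k) * V) =
        (B2.map (algebraMap (Pk k) (R2 k))).map (φ2 k) *
          (C.map (θ k) * (1 + (PowerSeries.X : A0 k) ^ m • M).map (iA k) * V) ∧
      FM p (φ0 k a c) ((B2.map (algebraMap (Pk k) (R2 k))).map (φ2 k) *
          (C.map (θ k) * (1 + (PowerSeries.X : A0 k) ^ m • M).map (iA k) * V))
        (H1 ⊔ H2) := by
  obtain ⟨M', hM'⟩ := hm M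
  obtain ⟨B1, B2, hB1, hB2, hB⟩ := factorization M'
  have e1 : (B1.map (algebraMap (Pk k) (R1 k))).map (φ1 k) = (B1.map (a1 k)).map (iA k) := by
    ext1 i j
    simp only [Matrix.map_apply, φ1_algebraMap]
  have e2 : (B2.map (algebraMap (Pk k) (R2 k))).map (φ2 k) = (B2.map (a2 k)).map (iA k) := by
    ext1 i j
    simp only [Matrix.map_apply, φ2_algebraMap]
  have hCC : C.map (θ k) * (C⁻¹).map (θ k) = 1 := by
    rw [← Matrix.map_mul, Matrix.mul_nonsing_inv _ ((Matrix.isUnit_iff_isUnit_det _).1 hC)]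
    exact Matrix.map_one _ (map_zero _) (map_one _)
  have hCC' : (C⁻¹).map (θ k) * C.map (θ k) = 1 := by
    rw [← Matrix.map_mul, Matrix.nonsing_inv_mul _ ((Matrix.isUnit_iff_isUnit_det _).1 hC)]
    exact Matrix.map_one _ (map_zero _) (map_one _)
  have hA : C.map (θ k) * (1 + (PowerSeries.X : A0 k) ^ m • M).map (iA k) * V =
      (1 + (PowerSeries.X : A0 k) • M').map (iA k) * (C.map (θ k) * V) := by
    have h1 : (1 + (PowerSeries.X : A0 k) • M').map (iA k) =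
        C.map (θ k) * (1 + (PowerSeries.X : A0 k) ^ m • M).map (iA k) * (C⁻¹).map (θ k) := by
      rw [Matrix.map_add _ (map_add _), Matrix.map_add _ (map_add _), mul_add, add_mul, hM',
        Matrix.map_one _ (map_zero _) (map_one _), mul_one, hCC]
    rw [h1]
    simp only [Matrix.mul_assoc]
    rw [← Matrix.mul_assoc ((C⁻¹).map (θ k)), hCC', Matrix.one_mul]
  have hkey : (B1.map (algebraMap (Pk k) (R1 k))).map (φ1 k) * (C.map (θ k) * V) =
        (B2.map (algebraMap (Pk k) (R2 k))).map (φ2 k) *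
          (C.map (θ k) * (1 + (PowerSeries.X : A0 k) ^ m • M).map (iA k) * V) := by
    rw [hA, e1, e2, ← hB, Matrix.map_mul]
    simp only [Matrix.mul_assoc]
  refine ⟨B1, B2, hB1, hB2, hkey, ?_⟩
  have f1 : FM p (φ1 k) ((B2.map (algebraMap (Pk k) (R2 k))).map (φ2 k) *
          (C.map (θ k) * (1 + (PowerSeries.X : A0 k) ^ m • M).map (iA k) * V)) H1 := by
    rw [← hkey]
    exact fm_left hdisc _ (isUnit_map _ hB1)
  have f2 := fm_left hreg (B2.map (algebraMap (Pk k) (R2 k))) (isUnit_map _ hB2)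
  have g1 : (φ1 k).comp (α1 k a c) = φ0 k a c := by rw [φ0]
  exact fm_patch (α1 k a c) (α2 k a c) g1 (φ2_α2 a c) (φ0_injective k a c)
    (fun r1 r2 h => inter a c r1 r2 h) f1 f2

theorem step_b [CharP k p] (hP : IsPGroup p P) {H2 : Subgroup G} (DB : PT P (Polynomial k))
    (C2 : Matrix G G (LaurentSeries k)) (hC2 : IsUnit C2) (m2 : ℕ)
    (hm2 : ∀ M : Matrix G G (A0 k), ∃ M' : Matrix G G (A0 k),
      C2.map (θ k) * ((PowerSeries.X : A0 k) ^ m2 • M).map (iA k) * (C2⁻¹).map (θ k) =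
        ((PowerSeries.X : A0 k) • M').map (iA k))
    (κ2 : DB.T →+* Om k)
    (hFM2 : FM p (φ1 k) (C2.map (θ k) * UM DB κ2) H2)
    (D : PT P (Polynomial (KK k))) (hc : Conn D (α2 k 1 1)) (κ : D.T →+* Om k)
    (hκ : κ.comp D.ι = φ0 k 1 1) (M2 : Matrix G G (A0 k))
    (hU : UM D κ = (1 + (PowerSeries.X : A0 k) ^ m2 • M2).map (iA k) * UM DB κ2) :
    ∃ B1 B2 : Matrix G G (Pk k), IsUnit B1 ∧ IsUnit B2 ∧
      (B1.map (algebraMap (Pk k) (R1 k))).map (φ1 k) * (C2.map (θ k) * UM DB κ2) =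
        (B2.map (algebraMap (Pk k) (R2 k)) * C2.map (θ2 k)).map (φ2 k) * UM D κ ∧
      FM p (φ0 k 1 1)
        ((B2.map (algebraMap (Pk k) (R2 k)) * C2.map (θ2 k)).map (φ2 k) * UM D κ)
        (H2 ⊔ P) := by
  have : CharP (KK k) p := charP_KK p k
  have hp0 : ((p : ℕ) : Polynomial (KK k)) = 0 := CharP.cast_eq_zero _ p
  have hκ' : κ.comp D.ι = (φ2 k).comp (α2 k 1 1) := by
    rw [hκ, φ2_α2]
  have regB : FM p (φ2 k) (C2.map (θ k) * (1 + (PowerSeries.X : A0 k) ^ m2 • M2).map (iA k) *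
      UM DB κ2) P := by
    rw [Matrix.mul_assoc, ← hU, ← map_θ]
    exact fm_left (fm_tr hP hp0 D (α2 k 1 1) hc (φ2_injective k) κ hκ') _
      (isUnit_map _ hC2)
  obtain ⟨B1, B2, hB1, hB2, hkey, hFMB⟩ :=
    glue_step' C2 hC2 m2 hm2 (UM DB κ2) hFM2 M2 regB 1 1
  have hYB : (B2.map (algebraMap (Pk k) (R2 k))).map (φ2 k) *
      (C2.map (θ k) * (1 + (PowerSeries.X : A0 k) ^ m2 • M2).map (iA k) * UM DB κ2) =
      (B2.map (algebraMap (Pk k) (R2 k)) * C2.map (θ2 k)).map (φ2 k) * UM D κ := by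
    rw [hU, Matrix.map_mul, map_θ]
    simp only [Matrix.mul_assoc]
  rw [hYB] at hFMB hkey
  exact ⟨B1, B2, hB1, hB2, hkey, hFMB⟩

end

end Pool.Agent.Helper54.SJ
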