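import Pool.Agent.Helper54.SJ.NB

/-!
# SJ-03: base change of Galois algebras

PROOF.  Make `D.T` an algebra over `R` (`D.ι.toAlgebra`) and `R'` an algebra over `R` (`α.toAlgebra`).  By
`nb_exists`, `nb_unique` the elements `D.act σ D.e` are a basis of `D.T` over `R` (`Basis.mk`).  Take
`T' = TensorProduct R R' D.T` (or with the factors in the other order), `ι' r = r ⊗ 1`, `act' σ = id ⊗ act σ`
(`Algebra.TensorProduct.map`), `β t = 1 ⊗ t`, `e' = 1 ⊗ e`.  `1 ⊗ act σ e` is a basis of `T'` over `R'`
(`Basis.baseChange`).  If `t = ∑ r σ • (1 ⊗ act σ e)` is fixed, comparing coefficients `r (τ σ) = r σ` for all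
`τ`, so `r` is constant, `t = r 1 ⊗ ∑ act σ e = ι' (r 1)`.  If `ι' r = 0` then `∑ r • (1 ⊗ act σ e) = 0`, so
`r = 0`.  Other construction (no tensor products): `T' = P → R'` with the multiplication given by the structure
constants of the normal basis.
-/

set_option autoImplicit false

open scoped TensorProduct

namespace Pool.Agent.Helper54.SJ

theorem pt_baseChange {p : ℕ} [Fact p.Prime] {P : Type} [Group P] [Fintype P] (hP : IsPGroup p P)
    {R R' : Type} [CommRing R] [CommRing R'] (hp : (p : R) = 0) (D : PT P R) (α : R →+* R') :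
    ∃ (D' : PT P R') (β : D.T →+* D'.T), IsEq D α D' β ∧ β D.e = D'.e := by
  classical
  letI : Algebra R D.T := D.ι.toAlgebra
  letI : Algebra R R' := α.toAlgebra
  have hsmul : ∀ (r : R) (t : D.T), r • t = D.ι r * t := fun r t => Algebra.smul_def r t
  have hli : LinearIndependent R (fun σ : P => D.act σ D.e) := by
    rw [Fintype.linearIndependent_iff]
    intro g hg
    have h1 := nb_unique hP hp D D.e D.tr g (by simpa only [hsmul] using hg)
    intro i
    rw [h1]
    rfl
  have hsp : ⊤ ≤ Submodule.span R (Set.range (fun σ : P => D.act σ D.e)) := by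
    intro t _
    rw [Submodule.mem_span_range_iff_exists_fun]
    obtain ⟨r, hr⟩ := nb_exists hP hp D D.e D.tr t
    exact ⟨r, by simpa only [hsmul] using hr.symm⟩
  obtain ⟨b, hb⟩ : ∃ b : Module.Basis P R D.T, ∀ σ, b σ = D.act σ D.e :=
    ⟨Module.Basis.mk hli hsp, fun σ => Module.Basis.mk_apply hli hsp σ⟩
  obtain ⟨b', hb'⟩ : ∃ b' : Module.Basis P R' (TensorProduct R R' D.T),
      ∀ σ, b' σ = (1 : R') ⊗ₜ[R] D.act σ D.e :=
    ⟨Algebra.TensorProduct.basis R' b, fun σ => by
      rw [Algebra.TensorProduct.basis_apply, hb]⟩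
  let actA : P → (D.T →ₐ[R] D.T) := fun σ =>
    { D.act σ with commutes' := fun r => RingHom.congr_fun (D.act_ι σ) r }
  let act' : P → (TensorProduct R R' D.T →ₐ[R'] TensorProduct R R' D.T) := fun σ =>
    Algebra.TensorProduct.map (AlgHom.id R' R') (actA σ)
  have hact : ∀ σ (r : R') (t : D.T), act' σ (r ⊗ₜ[R] t) = r ⊗ₜ[R] D.act σ t := fun σ r t =>
    Algebra.TensorProduct.map_tmul _ _ _ _
  have hactb : ∀ τ σ, act' τ (b' σ) = b' (τ * σ) := by
    intro τ σ
    rw [hb', hb', hact, D.act_mul]
    rfl
  have hsum1 : ∑ σ, b' σ = 1 := by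
    simp only [hb']
    rw [← TensorProduct.tmul_sum, D.tr]
    rfl
  have hone : ∀ r : R', algebraMap R' (TensorProduct R R' D.T) r = ∑ σ, r • b' σ := by
    intro r
    rw [← Finset.smul_sum, hsum1, Algebra.algebraMap_eq_smul_one]
  let D' : PT P R' :=
    { T := TensorProduct R R' D.T
      ι := algebraMap R' (TensorProduct R R' D.T)
      act := fun σ => (act' σ).toRingHom
      act_one := by
        refine RingHom.ext fun t => ?_
        change act' 1 t = t
        induction t using TensorProduct.induction_on with
        | zero => rw [map_zero]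
        | tmul r t =>
          rw [hact, D.act_one]
          rfl
        | add x y hx hy => rw [map_add, hx, hy]
      act_mul := by
        intro σ τ
        refine RingHom.ext fun t => ?_
        change act' (σ * τ) t = act' σ (act' τ t)
        induction t using TensorProduct.induction_on with
        | zero => rw [map_zero, map_zero, map_zero]
        | tmul r t =>
          rw [hact, hact, hact, D.act_mul]
          rfl
        | add x y hx hy => rw [map_add, hx, hy, map_add, map_add]
      act_ι := by
        intro σ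
        ext r
        exact (act' σ).commutes r
      fix := by
        intro t ht
        have h1 : ∀ τ, ∑ σ, b'.repr t (τ⁻¹ * σ) • b' σ = t := by
          intro τ
          have h2 : ∑ σ, b'.repr t σ • b' (τ * σ) = t := by
            have h5 : act' τ (∑ σ, b'.repr t σ • b' σ) = t := by
              rw [b'.sum_repr]
              exact ht τ
            rw [map_sum] at h5
            refine Eq.trans (Finset.sum_congr rfl fun σ _ => ?_) h5
            rw [map_smul, hactb]
          rw [← Equiv.sum_comp (Equiv.mulLeft τ)]
          simp only [Equiv.coe_mulLeft, inv_mul_cancel_left]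
          exact h2
        have h3 : ∀ τ σ, b'.repr t (τ⁻¹ * σ) = b'.repr t σ := by
          intro τ σ
          have h4 : b'.repr (∑ σ, b'.repr t (τ⁻¹ * σ) • b' σ) σ = b'.repr t σ := by rw [h1 τ]
          rw [b'.repr_sum_self] at h4
          exact h4
        refine ⟨b'.repr t 1, ?_⟩
        rw [hone]
        nth_rewrite 2 [← b'.sum_repr t]
        apply Finset.sum_congr rfl
        intro σ _
        rw [← h3 σ σ, inv_mul_cancel]
      inj := by
        rw [injective_iff_map_eq_zero]
        intro r hr
        rw [hone] at hr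
        have h4 : b'.repr (∑ σ, (fun _ => r) σ • b' σ) 1 = 0 := by
          rw [hr, map_zero]
          rfl
        rw [b'.repr_sum_self] at h4
        exact h4
      e := (1 : R') ⊗ₜ[R] D.e
      tr := by
        change ∑ σ, act' σ ((1 : R') ⊗ₜ[R] D.e) = 1
        rw [← hsum1]
        apply Finset.sum_congr rfl
        intro σ _
        rw [hact, hb'] }
  refine ⟨D', (Algebra.TensorProduct.includeRight : D.T →ₐ[R] TensorProduct R R' D.T).toRingHom,
    ⟨?_, ?_⟩, rfl⟩
  · ext r
    exact (Algebra.TensorProduct.includeRight : D.T →ₐ[R] TensorProduct R R' D.T).commutes r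
  · intro σ
    ext t
    change (1 : R') ⊗ₜ[R] D.act σ t = act' σ ((1 : R') ⊗ₜ[R] t)
    rw [hact]

end Pool.Agent.Helper54.SJ
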