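import Pool.Agent.Helper54.SJ.UMat
import Pool.Agent.Helper54.SJ.BaseChange
import Pool.Agent.Helper54.SJ.Lift
import Pool.Agent.Helper54.FP.Step

/-!
# SJ-20: transfer of a local cover to the big field; covers on the disc

PROOF.
* `exists_transfer`: base change `D` along `γ` to `D_E` (`pt_baseChange`, `β D.e = D_E.e`) and extend `κ` to
  `κ_E : D_E.T → Ω` over `i` (`pt_lift`).  Let `S` be the range of `κ_E` (a domain).  It contains `i(E)` and is integral
  over it: `t : D_E.T` is a root of the monic polynomial `∏_σ (X - act σ t)`, whose coefficients are in `D_E.ι(E)`.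
  So `S` is algebraic over the field `E`; as `Ω1` is algebraically closed, `θ` extends to `δ : S → Ω1`
  (`IsAlgClosed.lift`, `S` as an `E`-algebra via `i`, `Ω1` via `θ`).  `κ1 = δ ∘ κ_E ∘ β`.  `κ1 ∘ ι = δ ∘ i ∘ γ = θ ∘ γ`.
  All entries of `C.map i * UM D κ` are in `S` and `δ` maps this matrix to `C.map θ * UM D κ1`; if
  `ev i (C.map i * UM D κ) F = 0` (a relation in `S ⊆ Ω`), apply `δ` (`ev_map`).
* `disc_cover'`: take `κ1` from `exists_transfer` with `γ = px k`, `θ = θ k` and copy the proof of `disc_cover` in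
  FP/Step.lean: `Umat p τ u` is replaced by `UM D κ`, `Umat p τ u1` by `UM D κ1`, and `h2` there is
  `Rel.restrict (px k)` of the relation given by `exists_transfer` (`θ ∘ px = φ1 ∘ β1` by `φ1_β1`).
-/

set_option autoImplicit false
open Pool.Agent.Helper54.FP

namespace Pool.Agent.Helper54.SJ

section
variable {p : ℕ} [Fact p.Prime] {G : Type} [Group G] [Fintype G] [DecidableEq G] {P : Subgroup G}
  [Fintype P]

theorem exists_transfer (hP : IsPGroup p P) {R E Ω Ω1 : Type} [CommRing R] [Field E] [Field Ω]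
    [Field Ω1] [IsAlgClosed Ω1] (hp : (p : R) = 0) (D : PT P R) (γ : R →+* E) (i : E →+* Ω)
    (θ : E →+* Ω1) (κ : D.T →+* Ω) (hκ : κ.comp D.ι = i.comp γ) :
    ∃ κ1 : D.T →+* Ω1, κ1.comp D.ι = θ.comp γ ∧
      ∀ C : Matrix G G E, Rel i (C.map i * UM D κ) θ (C.map θ * UM D κ1) := by
  classical
  obtain ⟨D', β, hβ, he⟩ := pt_baseChange hP hp D γ
  obtain ⟨κE, hκ1, hκ2⟩ := pt_lift hP hp hβ κ i hκ
  have hp' : (p : E) = 0 := by
    have h1 := congrArg γ hp
    rwa [map_natCast, map_zero] at h1
  letI : Algebra E D'.T := D'.ι.toAlgebra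
  letI : Algebra E κE.range := (κE.rangeRestrict.comp D'.ι).toAlgebra
  letI : Algebra E Ω1 := θ.toAlgebra
  let f : D'.T →ₐ[E] κE.range := { κE.rangeRestrict with commutes' := fun _ => rfl }
  haveI : Module.Finite E D'.T := by
    refine ⟨Submodule.fg_def.2 ⟨Set.range (fun σ : P => D'.act σ D'.e), Set.finite_range _, ?_⟩⟩
    rw [eq_top_iff]
    intro t _
    rw [Submodule.mem_span_range_iff_exists_fun]
    obtain ⟨r, hr⟩ := nb_exists hP hp' D' D'.e D'.tr t
    refine ⟨r, ?_⟩
    rw [hr]
    exact Finset.sum_congr rfl fun σ _ => Algebra.smul_def _ _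
  haveI : Module.Finite E κE.range :=
    Module.Finite.of_surjective f.toLinearMap κE.rangeRestrict_surjective
  haveI : Algebra.IsAlgebraic E κE.range := Algebra.IsAlgebraic.of_finite E κE.range
  let δ : κE.range →ₐ[E] Ω1 := IsAlgClosed.lift
  have hδ : (δ : κE.range →+* Ω1).comp (algebraMap E κE.range) = θ := by
    ext r
    exact δ.commutes r
  refine ⟨(δ : κE.range →+* Ω1).comp (κE.rangeRestrict.comp β), ?_, ?_⟩
  · ext r
    have h1 : β (D.ι r) = D'.ι (γ r) := RingHom.congr_fun hβ.comm r
    change δ (κE.rangeRestrict (β (D.ι r))) = θ (γ r)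
    rw [h1]
    exact δ.commutes (γ r)
  · intro C
    have h1 : (κE.range.subtype).comp (algebraMap E κE.range) = i := by
      rw [← hκ1]
      rfl
    have h2 : (C.map (algebraMap E κE.range) * UM D (κE.rangeRestrict.comp β)).map
        κE.range.subtype = C.map i * UM D κ := by
      rw [Matrix.map_mul, um_map, ← hκ2, ← h1]
      rfl
    have h3 : (C.map (algebraMap E κE.range) * UM D (κE.rangeRestrict.comp β)).map
        (δ : κE.range →+* Ω1) = C.map θ * UM D ((δ : κE.range →+* Ω1).comp
          (κE.rangeRestrict.comp β)) := by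
      rw [Matrix.map_mul, um_map]
      congr 1
      ext a b
      exact δ.commutes (C a b)
    rw [← h2, ← h3]
    have h4 := Rel.of_hom_injective κE.range.subtype Subtype.val_injective
      (algebraMap E κE.range) (C.map (algebraMap E κE.range) * UM D (κE.rangeRestrict.comp β))
    have h5 := Rel.of_hom (δ : κE.range →+* Ω1) (algebraMap E κE.range)
      (C.map (algebraMap E κE.range) * UM D (κE.rangeRestrict.comp β))
    rw [h1] at h4
    rw [hδ] at h5
    exact h4.trans h5

attribute [local irreducible] φ1 φ2 c1 c2 α1 α2 θ2 θ β1 t1 z1 w2 t2 iK φ0 lm px UM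

theorem disc_cover' (hP : IsPGroup p P) {k : Type} [Field k] [CharP k p] {H : Subgroup G}
    (D : PT P (Polynomial k))
    {C : Matrix G G (LaurentSeries k)} {Ω : Type} [Field Ω] {i : LaurentSeries k →+* Ω}
    (κ : D.T →+* Ω) (hκ : κ.comp D.ι = i.comp (px k))
    (hFM : FM p (i.comp (px k)) (C.map i * UM D κ) H) :
    ∃ (κ1 : D.T →+* Om k) (L : Type) (_ : Field L) (ι : k →+* L) (y : L) (YL : Matrix G G L),
      κ1.comp D.ι = (θ k).comp (px k) ∧
      Function.Injective (Polynomial.eval₂RingHom ι y) ∧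
      (∀ g ∈ H, ∃ δ : L →+* L, δ.comp ι = ι ∧ δ y = y ∧ YL.map δ = actM g YL) ∧
      ∀ e : R1 k →+* LaurentSeries L, Function.Injective e → e.comp (c1 k) = lm ι →
        e (z1 k) = HahnSeries.C y * HahnSeries.single 1 1 →
        (∀ δ : L →+* L, δ.comp ι = ι → δ y = y → (lm δ).comp e = e) →
        FM p (φ1 k) (C.map (θ k) * UM D κ1) H ∧
        Rel (φ1 k) (C.map (θ k) * UM D κ1) e
          (YL.map (HahnSeries.C : L →+* LaurentSeries L)) := by
  have hp0 : (p : Polynomial k) = 0 := CharP.cast_eq_zero _ p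
  obtain ⟨κ1, hκ1, hrel⟩ := exists_transfer hP hp0 D (px k) i (θ k) κ hκ
  haveI : CharP (LaurentSeries k) p := charP_LS p k
  haveI : CharP Ω p := charP_hom i
  have hinj : Function.Injective (i.comp (px k)) := i.injective.comp (px_injective k)
  obtain ⟨L, _, φL, YL, incl, hincl, hYL, hδ⟩ := exists_field hFM
  have hφL : Function.Injective φL := by
    intro a b hab
    apply hinj
    rw [← hincl, RingHom.comp_apply, RingHom.comp_apply, hab]
  have hev : Polynomial.eval₂RingHom (φL.comp Polynomial.C) (φL Polynomial.X) = φL := by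
    apply Polynomial.ringHom_ext
    · intro a; simp
    · simp
  refine ⟨κ1, L, inferInstance, φL.comp Polynomial.C, φL Polynomial.X, YL, hκ1, ?_, ?_, ?_⟩
  · rw [hev]; exact hφL
  · intro g hg
    obtain ⟨δ, h1, h2⟩ := hδ g hg
    refine ⟨δ, ?_, ?_, h2⟩
    · rw [← RingHom.comp_assoc, h1]
    · rw [← RingHom.comp_apply, h1]
  intro e he he1 he2 he3
  have heβ : e.comp (β1 k) = (HahnSeries.C : L →+* LaurentSeries L).comp φL := by
    apply Polynomial.ringHom_ext
    · intro a
      have h1 : β1 k (Polynomial.C a) = c1 k (HahnSeries.C a) := by simp [β1]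
      rw [RingHom.comp_apply, h1, ← RingHom.comp_apply, he1, lm_C]
      rfl
    · have h1 : β1 k Polynomial.X * t1 k = z1 k := by
        have h2 : β1 k Polynomial.X = z1 k * ((isUnit_R1_X k).unit⁻¹ : (R1 k)ˣ) := by simp [β1]
        rw [h2, mul_assoc, mul_comm _ (t1 k), t1_unit, mul_one]
      have h3 : e (t1 k) = HahnSeries.single (1 : ℤ) (1 : L) := by
        rw [← c1_single, ← RingHom.comp_apply, he1, lm_single, map_one]
      have h4 := congrArg e h1
      rw [map_mul, h3, he2] at h4
      have h5 : (HahnSeries.single (1 : ℤ) (1 : L) : LaurentSeries L) ≠ 0 := by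
        rw [Ne, HahnSeries.single_eq_zero_iff]
        exact one_ne_zero
      rw [RingHom.comp_apply, RingHom.comp_apply]
      exact mul_right_cancel₀ h5 h4
  have hS : Rel (i.comp (px k)) (C.map i * UM D κ) (e.comp (β1 k))
      (YL.map (HahnSeries.C : L →+* LaurentSeries L)) := by
    rw [heβ, ← hincl, ← hYL]
    exact (Rel.of_hom_injective incl incl.injective φL YL).trans
      (Rel.of_hom (HahnSeries.C : L →+* LaurentSeries L) φL YL)
  have hδ' : ∀ g ∈ H, ∃ δ : LaurentSeries L →+* LaurentSeries L, δ.comp e = e ∧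
      (YL.map (HahnSeries.C : L →+* LaurentSeries L)).map δ =
        actM g (YL.map (HahnSeries.C : L →+* LaurentSeries L)) := by
    intro g hg
    obtain ⟨δ, h1, h2⟩ := hδ g hg
    refine ⟨lm δ, ?_, ?_⟩
    · apply he3
      · rw [← RingHom.comp_assoc, h1]
      · rw [← RingHom.comp_apply, h1]
    · have h3 : (YL.map (HahnSeries.C : L →+* LaurentSeries L)).map (lm δ) =
          (YL.map δ).map (HahnSeries.C : L →+* LaurentSeries L) := by
        ext1 a b
        simp only [Matrix.map_apply, lm_C]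
      rw [h3, h2]
      rfl
  have h2 : Rel (i.comp (px k)) (C.map i * UM D κ) ((φ1 k).comp (β1 k))
      (C.map (θ k) * UM D κ1) := by
    rw [φ1_β1]
    exact (hrel C).restrict (px k)
  have hF := fm_baseChange (β1 k) hinj hFM e (YL.map (HahnSeries.C : L →+* LaurentSeries L)) hS hδ'
  have hR := rel_baseChange (β1 k) hFM e he
    (YL.map (HahnSeries.C : L →+* LaurentSeries L)) hS hδ' (φ1 k) _ h2
  haveI : CharP L p := charP_hom (φL.comp Polynomial.C)
  haveI : CharP (LaurentSeries L) p := charP_LS p L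
  exact fm_transport (φ1_injective k) hF hR

end

end Pool.Agent.Helper54.SJ
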