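import Pool.Agent.Helper54.SJ.Base
import Pool.Agent.Helper54.SJ.ConnPx
import Pool.Agent.Helper54.SJ.Transfer
import Pool.Agent.Helper54.SJ.Glue
import Pool.Agent.Helper54.SJ.Hom
import Pool.Agent.Helper54.FP.Step

/-!
# SJ-23: patching two covers

PROOF.  This is `patch_two` of FP/Patch2.lean with `Umat p τ u` replaced by `UM D κ`; please copy that proof with
these changes.
* `h1 = (DA, C1, Ω1, i1, κA)`, `h2 = (DB, C2, Ω2, i2, κB)`; `m1`, `m2`, `N`, `B = m1 + m2 + 1`, `ν`, `a = N + B` as there.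
* `disc_cover'` gives `κ1 : DA.T → Om k` and `κ2 : DB.T → Om k` (both over `θ ∘ px`), with the same output as there
  (`L, ι, y, YL` for the second cover, `hFM1`, `hFM2`, `hRel2`).
* `base_torsor` (with `m = m1 + m2`) gives `D` (good), and `kA : D.T → Om k` over `φ0 k a 0`, `M1'` with
  `UM D kA = (1 + X^m • M1').map iA * UM DA κ1` and `kB : D.T → Om k` over `φ0 k 1 1`, `M2'` with
  `UM D kB = (1 + X^m • M2').map iA * UM DB κ2`; `X^m • M1' = X^m1 • (X^m2 • M1')` and similarly for `M2'`, so one has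
  `hU1`, `hU2` as there (with exponents `m1`, `m2`).  `hind` is replaced by `Conn D (α2 k 1 1)` (`conn_α2`).
* step B: `step_b` gives `B1, B2, hkey, hFMB` (with `H2 ⊔ P = H2`), `D` there is here called `E`:
  `E = B2.map .. * C2.map θ2`, `hYB : E.map φ2 * UM D kB`.
* step A: `D0`, `M3` from `hνD B2 hB2`; `hνα : ν.comp (α2 k 1 1) = φ0 k a 0`.  `hRelBA :
  Rel (φ0 k 1 1) (E.map φ2 * UM D kB) (φ0 k a 0) (E.map ν * UM D kA)` by `rel_tr` with `γ0 = γ = α2 k 1 1`, `i = φ2`,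
  `j = ν` (`kA ∘ ι = φ0 k a 0 = ν ∘ α2 k 1 1`).  `e'`, `YS`, `hee`, `hRelBS`, `hδ`, `hFMe`, `hRelSA`, `hFMA`, `hRelAS`, `Q`, `M4`,
  `hQY`, `regA` as there (`hQY : Q.map φ2 * (E.map ν * UM D kA) = C1.map θ * (1 + X^m1 • M4).map iA * UM DA κ1`), and
  `glue_step'` with `V = UM DA κ1`.
* infinity: as there, with `v` replaced by `κ∞ : D.T → AlgebraicClosure (LaurentSeries (KK k))`, `κ∞ ∘ ι = i ∘ px`
  (`pt_hom`) and `hBinf` by `rel_tr` with `j = i ∘ hB`.
-/

set_option autoImplicit false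
open Pool.Agent.Helper54.FP

set_option linter.unusedVariables false
set_option linter.unusedSectionVars false
set_option linter.style.haveILetI false

namespace Pool.Agent.Helper54.SJ

attribute [local irreducible] φ1 φ2 c1 c2 α1 α2 θ2 θ β1 t1 z1 w2 t2 iK φ0 lm px

theorem patch_two' {p : ℕ} [Fact p.Prime] {G : Type} [Group G] [Fintype G] [DecidableEq G]
    {P : Subgroup G} [Fintype P] (hP : IsPGroup p P) {k : Type} [Field k] [CharP k p]
    {H1 H2 : Subgroup G} (hP2 : P ≤ H2) (h1 : PCovG p k P H1) (h2 : PCovG p k P H2) :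
    PCovR p (KK k) P (H1 ⊔ H2) := by
  haveI := charP_Om p k
  haveI := charP_R1 p k
  haveI := charP_R2 p k
  haveI : CharP (KK k) p := charP_KK p k
  have hp0 : ((p : ℕ) : Polynomial (KK k)) = 0 := CharP.cast_eq_zero _ p
  obtain ⟨DA, C1, Ω1, _, i1, κA, hκA, hC1, hF1⟩ := h1
  obtain ⟨DB, C2, Ω2, _, i2, κB, hκB, hC2, hF2⟩ := h2
  obtain ⟨m1, hm1⟩ := conj_estimate C1 hC1
  obtain ⟨m2, hm2⟩ := conj_estimate C2 hC2
  obtain ⟨N, hN⟩ := exists_nu C2 hC2
  obtain ⟨B, hB⟩ : ∃ B, B = m1 + m2 + 1 := ⟨_, rfl⟩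
  obtain ⟨ν, hνc, hνw, hνD⟩ := hN B (by omega)
  obtain ⟨a, ha⟩ : ∃ a, a = N + B := ⟨_, rfl⟩
  rw [← ha] at hνw
  -- the disc covers
  obtain ⟨κ2, L, _, ι, y, YL, hκ2, hy, hδL, hdisc2⟩ := disc_cover' hP DB κB hκB hF2
  obtain ⟨e, he, hec, hez, heδ⟩ := exists_e1 ι y hy
  obtain ⟨hFM2, hRel2⟩ := hdisc2 e he hec hez heδ
  obtain ⟨κ1, hκ1, hFM1⟩ : ∃ κ1 : DA.T →+* Om k, κ1.comp DA.ι = (θ k).comp (px k) ∧
      FM p (φ1 k) (C1.map (θ k) * UM DA κ1) H1 := by
    obtain ⟨κ1, L1, _, ι1, y1, YL1, hκ1, hy1, -, hdisc1⟩ := disc_cover' hP DA κA hκA hF1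
    obtain ⟨e1, h1, h2, h3, h4⟩ := exists_e1 ι1 y1 hy1
    exact ⟨κ1, hκ1, (hdisc1 e1 h1 h2 h3 h4).1⟩
  -- the torsor
  obtain ⟨D, hgood, hDA, hDB⟩ := base_torsor (G := G) hP DA DB a (m1 + m2) (by omega)
  obtain ⟨kA, M1'', hkA, hUA⟩ := hDA κ1 hκ1
  obtain ⟨kB, M2'', hkB, hUB⟩ := hDB κ2 hκ2
  obtain ⟨M1', hM1'⟩ : ∃ M1' : Matrix G G (A0 k), M1' = (PowerSeries.X : A0 k) ^ m2 • M1'' :=
    ⟨_, rfl⟩
  obtain ⟨M2', hM2'⟩ : ∃ M2' : Matrix G G (A0 k), M2' = (PowerSeries.X : A0 k) ^ m1 • M2'' :=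
    ⟨_, rfl⟩
  have hU1 : UM D kA = (1 + (PowerSeries.X : A0 k) ^ m1 • M1').map (iA k) * UM DA κ1 := by
    rw [hUA, hM1', smul_smul, ← pow_add]
  have hU2 : UM D kB = (1 + (PowerSeries.X : A0 k) ^ m2 • M2').map (iA k) * UM DB κ2 := by
    rw [hUB, hM2', smul_smul, ← pow_add, Nat.add_comm m2 m1]
  have hconn : Conn D (α2 k 1 1) := conn_α2 hP hgood
  have hτC : ∀ C : Matrix G G (LaurentSeries k), IsUnit C → IsUnit (C.map (θ2 k)) :=
    fun C hC => isUnit_map _ hC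
  -- step B
  obtain ⟨B1, B2, hB1, hB2, hkey, hFMB⟩ :=
    step_b hP DB C2 hC2 m2 hm2 κ2 hFM2 D hconn kB hkB M2' hU2
  have hsup : H2 ⊔ P = H2 := sup_eq_left.2 hP2
  rw [hsup] at hFMB
  obtain ⟨E, hE⟩ : ∃ E : Matrix G G (R2 k),
      E = B2.map (algebraMap (Pk k) (R2 k)) * C2.map (θ2 k) := ⟨_, rfl⟩
  rw [← hE] at hkey hFMB
  have hEu : IsUnit E := by
    rw [hE]; exact (isUnit_map _ hB2).mul (hτC C2 hC2)
  -- step A
  obtain ⟨D0, M3, hD0, hD03⟩ := hνD B2 hB2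
  rw [← hE] at hD03
  have hνα : ν.comp (α2 k 1 1) = φ0 k a 0 := by
    have h1 : φ0 k a 0 = Polynomial.eval₂RingHom (iK k) (φ1 k (t1 k ^ a * z1 k)) := by
      apply Polynomial.ringHom_ext
      · intro r
        rw [φ0, RingHom.comp_apply, α1_C, Polynomial.coe_eval₂RingHom, Polynomial.eval₂_C, iK]
        rfl
      · rw [φ0, RingHom.comp_apply, α1_X, Polynomial.coe_eval₂RingHom, Polynomial.eval₂_X,
          map_zero, map_zero, zero_add]
    rw [h1]
    apply comp_α2 ν (iK k) hνc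
    have h2 : iK k (HahnSeries.single (1 : ℤ) (1 : k)) = φ1 k (t1 k) := by
      rw [← c1_single, iK]; rfl
    rw [map_one, map_one, pow_one, h2]
    linear_combination -hνw
  have hkB' : kB.comp D.ι = (φ2 k).comp (α2 k 1 1) := by rw [hkB, φ2_α2]
  have hRelBA : Rel (φ0 k 1 1) (E.map (φ2 k) * UM D kB) (φ0 k a 0)
      (E.map ν * UM D kA) := by
    have h3 := rel_tr hP hp0 D (α2 k 1 1) hconn (α2 k 1 1) (φ2_injective k) kB hkB'
      (j := ν) kA (by rw [hkA, hνα]) E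
    rwa [φ2_α2, hνα] at h3
  obtain ⟨e', he', he'c, he'w, he'δ⟩ := exists_e2 ι y hy a (by omega)
  obtain ⟨YS, hYS⟩ : ∃ YS : Matrix G G (LaurentSeries L),
      YS = (B1.map (algebraMap (Pk k) (R1 k))).map e *
        YL.map (HahnSeries.C : L →+* LaurentSeries L) :=
    ⟨_, rfl⟩
  have hss : ∀ (F : Type) [Field F], (HahnSeries.single (-1 : ℤ) (1 : F) : LaurentSeries F) *
      HahnSeries.single (1 : ℤ) (1 : F) = 1 := by
    intro F _
    rw [HahnSeries.single_mul_single]; simp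
  have hee : e'.comp (α2 k a 0) = e.comp (α1 k 1 1) := by
    have h3 : e (t1 k) = HahnSeries.single (1 : ℤ) (1 : L) := by
      rw [← c1_single, ← RingHom.comp_apply, hec, lm_single, map_one]
    have h1 : e.comp (α1 k 1 1) = Polynomial.eval₂RingHom (lm ι)
        (1 + HahnSeries.C y * HahnSeries.single (1 : ℤ) (1 : L) ^ 2) := by
      apply Polynomial.ringHom_ext
      · intro r
        rw [RingHom.comp_apply, α1_C, Polynomial.coe_eval₂RingHom, Polynomial.eval₂_C, ← hec]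
        rfl
      · rw [RingHom.comp_apply, α1_X, Polynomial.coe_eval₂RingHom, Polynomial.eval₂_X,
          map_add, map_mul, map_pow, h3, hez, map_one, map_one, map_one]
        ring
    rw [h1]
    apply comp_α2 e' (lm ι) he'c
    rw [map_zero, map_zero, sub_zero, mul_comm, he'w, lm_single, map_one ι]
  have hRelBS : Rel (φ0 k 1 1) (E.map (φ2 k) * UM D kB) (e'.comp (α2 k a 0))
      YS := by
    rw [hee, hYS, ← hkey]
    have h3 := (hRel2.mul_left (B1.map (algebraMap (Pk k) (R1 k)))).restrict (α1 k 1 1)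
    have g1 : (φ1 k).comp (α1 k 1 1) = φ0 k 1 1 := by rw [φ0]
    rwa [g1] at h3
  have hδ : ∀ h ∈ H2, ∃ δ : LaurentSeries L →+* LaurentSeries L, δ.comp e' = e' ∧
      YS.map δ = actM h YS := by
    intro h hh
    obtain ⟨δ, d1, d2, d3⟩ := hδL h hh
    refine ⟨lm δ, he'δ δ d1 d2, ?_⟩
    rw [hYS, Matrix.map_mul, actM_mul]
    congr 1
    · ext1 i j
      simp only [Matrix.map_apply]
      rw [← RingHom.comp_apply, heδ δ d1 d2]
    · have h3 : (YL.map (HahnSeries.C : L →+* LaurentSeries L)).map (lm δ) =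
          (YL.map δ).map (HahnSeries.C : L →+* LaurentSeries L) := by
        ext1 i j
        simp only [Matrix.map_apply, lm_C]
      rw [h3, d3]
      rfl
  haveI : CharP L p := charP_hom ι
  haveI : CharP (LaurentSeries L) p := charP_LS p L
  have hFMe := fm_baseChange (α2 k a 0) (φ0_injective k 1 1) hFMB e' YS hRelBS hδ
  have hRelSA := rel_baseChange (α2 k a 0) hFMB e' he' YS hRelBS hδ (φ2 k)
    (E.map ν * UM D kA) (by rw [φ2_α2]; exact hRelBA)
  obtain ⟨hFMA, hRelAS⟩ := fm_transport (φ2_injective k) hFMe hRelSA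
  obtain ⟨Q, hQ⟩ : ∃ Q : Matrix G G (R2 k), Q = C1.map (θ2 k) * (D0⁻¹).map (c2 k) := ⟨_, rfl⟩
  have hD0i : IsUnit D0⁻¹ := by
    rw [Matrix.isUnit_nonsing_inv_iff]; exact hD0
  have hQu : IsUnit Q := by
    rw [hQ]; exact (hτC C1 hC1).mul (isUnit_map _ hD0i)
  obtain ⟨M4, hM4⟩ : ∃ M4 : Matrix G G (A0 k),
      (1 + (PowerSeries.X : A0 k) ^ B • M3) * (1 + (PowerSeries.X : A0 k) ^ m1 • M1') =
        1 + (PowerSeries.X : A0 k) ^ m1 • M4 := by
    refine ⟨M1' + (PowerSeries.X : A0 k) ^ (B - m1) • M3 +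
      (PowerSeries.X : A0 k) ^ B • (M3 * M1'), ?_⟩
    have hBm : (PowerSeries.X : A0 k) ^ B = (PowerSeries.X : A0 k) ^ m1 *
        (PowerSeries.X : A0 k) ^ (B - m1) := by
      rw [← pow_add]; congr 1; omega
    rw [hBm]
    simp only [mul_add, add_mul, mul_one, one_mul, smul_add, smul_smul, mul_smul_comm,
      smul_mul_assoc]
    abel
  have hQY : Q.map (φ2 k) * (E.map ν * UM D kA) =
      C1.map (θ k) * (1 + (PowerSeries.X : A0 k) ^ m1 • M4).map (iA k) * UM DA κ1 := by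
    have hc : (D0⁻¹.map (c2 k)).map (φ2 k) = D0⁻¹.map (iK k) := by
      ext1 i j
      simp only [Matrix.map_apply]
      rw [← φ2_c2]; rfl
    rw [hU1, hQ, Matrix.map_mul, map_θ, hc, ← hM4, Matrix.map_mul, ← hD03]
    simp only [Matrix.mul_assoc]
  have regA : FM p (φ2 k) (C1.map (θ k) * (1 + (PowerSeries.X : A0 k) ^ m1 • M4).map (iA k) *
      UM DA κ1) H2 := by
    rw [← hQY]
    exact fm_left hFMA Q hQu
  obtain ⟨B3, B4, hB3, hB4, hkey', hFMf⟩ :=
    glue_step' C1 hC1 m1 hm1 (UM DA κ1) hFM1 M4 regA a 0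
  rw [← hQY] at hFMf
  -- infinity
  obtain ⟨hA, hAc, hAw⟩ := exists_hA (k := k) a
  obtain ⟨hBh, hBc, hBw⟩ := exists_hB (k := k)
  have hpx : px (KK k) = Polynomial.eval₂RingHom (HahnSeries.C)
      (HahnSeries.single (-1 : ℤ) (1 : KK k)) := by
    apply Polynomial.ringHom_ext
    · intro r
      rw [px_C, Polynomial.coe_eval₂RingHom, Polynomial.eval₂_C]
    · rw [px_X, Polynomial.coe_eval₂RingHom, Polynomial.eval₂_X]
  have hAα : hA.comp (α2 k a 0) = px (KK k) := by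
    rw [hpx]
    apply comp_α2 hA HahnSeries.C hAc
    rw [hAw, map_zero, map_zero, sub_zero, map_pow, mul_left_comm, hss, mul_one]
  have hBα : hBh.comp (α2 k 1 1) = px (KK k) := by
    rw [hpx]
    apply comp_α2 hBh (HahnSeries.C : KK k →+* LaurentSeries (KK k)) hBc
    rw [map_one (HahnSeries.C : k →+* KK k),
      map_one (HahnSeries.C : KK k →+* LaurentSeries (KK k)), pow_one]
    have h1 := congrArg (fun x => x * (HahnSeries.single (-1 : ℤ) (1 : KK k) :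
      LaurentSeries (KK k))) hBw
    have h2 := hss (KK k)
    beta_reduce at h1
    linear_combination h1 + (hBh (w2 k) + HahnSeries.C (HahnSeries.single (1 : ℤ) (1 : k))) * h2
  obtain ⟨i, hi⟩ : ∃ i : LaurentSeries (KK k) →+* AlgebraicClosure (LaurentSeries (KK k)),
      i = algebraMap _ _ := ⟨_, rfl⟩
  haveI : CharP (LaurentSeries (KK k)) p := charP_LS p (KK k)
  haveI : CharP (AlgebraicClosure (LaurentSeries (KK k))) p := charP_hom i
  obtain ⟨κi, hκi⟩ := pt_hom hP hp0 D (i.comp (px (KK k)))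
  have hBinf : Rel (φ0 k 1 1) (E.map (φ2 k) * UM D kB)
      ((i.comp hBh).comp (α2 k 1 1)) (E.map (i.comp hBh) * UM D κi) := by
    have h3 := rel_tr hP hp0 D (α2 k 1 1) hconn (α2 k 1 1) (φ2_injective k) kB hkB'
      (j := i.comp hBh) κi (by rw [hκi, RingHom.comp_assoc, hBα]) E
    rwa [φ2_α2] at h3
  have hcA : (i.comp hA).comp (α2 k a 0) = (i.comp hBh).comp (α2 k 1 1) := by
    rw [RingHom.comp_assoc, RingHom.comp_assoc, hAα, hBα]
  have hRelS : Rel e' YS (i.comp hA) (E.map (i.comp hBh) * UM D κi) :=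
    rel_baseChange (α2 k a 0) hFMB e' he' YS hRelBS hδ (i.comp hA) _ (by rw [hcA]; exact hBinf)
  have hRelA := hRelAS.trans hRelS
  have hRelf := (hRelA.mul_left (B4.map (algebraMap (Pk k) (R2 k)) * Q)).restrict (α2 k a 0)
  rw [φ2_α2, RingHom.comp_assoc, hAα, Matrix.map_mul, Matrix.mul_assoc] at hRelf
  have hinj : Function.Injective (i.comp (px (KK k))) := i.injective.comp (px_injective _)
  obtain ⟨hfin, -⟩ := fm_transport hinj hFMf hRelf
  refine ⟨D, (B4.map (algebraMap (Pk k) (R2 k)) * Q).map hA * E.map hBh, _, _, i, κi, hgood,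
    hκi, ?_, ?_⟩
  · exact (isUnit_map _ ((isUnit_map _ hB4).mul hQu)).mul (isUnit_map _ hEu)
  · have h5 : ((B4.map (algebraMap (Pk k) (R2 k)) * Q).map hA * E.map hBh).map i *
        UM D κi = (B4.map (algebraMap (Pk k) (R2 k)) * Q).map (i.comp hA) *
          (E.map (i.comp hBh) * UM D κi) := by
      rw [Matrix.map_mul, ← Matrix.mul_assoc]
      rfl
    rw [h5]
    exact hfin

end Pool.Agent.Helper54.SJ
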