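import Pool.Agent.Helper54.SJ.PatchOne
import Pool.Agent.Helper54.SJ.PatchTwo
import Pool.Agent.Helper54.SJ.GeomExt
import Pool.Agent.Helper54.SJ.Descent
import Pool.Agent.Helper54.SJ.Global
import Pool.Agent.Helper54.SJ.OfCover
import Pool.Agent.Helper54.SJ.Ind

/-!
# Joins of covers of the affine line: increasing the inertia group and generating the group
-/

set_option autoImplicit false
set_option linter.unusedVariables false
set_option linter.unusedSectionVars false
set_option linter.style.haveILetI false

open Pool.Agent.Helper54.FP Pool.Agent.Helper54.PW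

namespace Pool.Agent.Helper54.SJ

section
variable {p : ℕ} [Fact p.Prime] {G : Type} [Group G] [Fintype G] [DecidableEq G]
  {P : Subgroup G} [Fintype P]

theorem pcovR_down {k : Type} [Field k] [IsAlgClosed k] [CharP k p] (hP : IsPGroup p P)
    {H : Subgroup G} (h : PCovR p (KK k) P H) : PCovR p k P H := by
  haveI : CharP (KK k) p := charP_KK p k
  obtain ⟨j, hj⟩ : ∃ j : KK k →+* AlgebraicClosure (KK k), j = algebraMap _ _ := ⟨_, rfl⟩
  have h4 : PCovR p (AlgebraicClosure (KK k)) P H := pcovR_baseChange hP j h
  letI : Algebra k (AlgebraicClosure (KK k)) := (j.comp HahnSeries.C).toAlgebra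
  exact pcovR_descent hP h4

/-- finite joins -/
theorem pcovR_sup' {k : Type} [Field k] [IsAlgClosed k] [CharP k p] (hP : IsPGroup p P)
    (s : Finset (Subgroup G)) (hs : s.Nonempty) (h : ∀ H ∈ s, PCovG p k P H) :
    PCovR p k P (s.sup' hs id ⊔ P) := by
  induction hs using Finset.Nonempty.cons_induction with
  | singleton a =>
    rw [Finset.sup'_singleton]
    exact pcovR_down hP (patch_one hP (h a (Finset.mem_singleton_self a)))
  | cons a s ha hs ih =>
    have h1 := ih (fun H hH => h H (Finset.mem_cons_of_mem hH))
    rw [Finset.sup'_cons hs, sup_assoc]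
    exact pcovR_down hP (patch_two' hP le_sup_right (h a (Finset.mem_cons_self a s))
      (pcovR_to h1))

end

/-- **Strong join.**  Let the finite group `G` be generated by the `p`-subgroup `P` and by subgroups `H`,
each of which has a cover of the affine line with inertia groups at infinity conjugate to a subgroup of `P`.
Then `G` has a cover of the affine line with inertia groups at infinity conjugate to `P`. -/
theorem realAct_join {p : ℕ} [Fact p.Prime] {k : Type} [Field k] [IsAlgClosed k] [CharP k p]
    {G : Type} [Group G] [Finite G] {P : Subgroup G} (hP : IsPGroup p P) (S : Set (Subgroup G))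
    (hne : S.Nonempty)
    (h : ∀ H ∈ S, ∃ P1 ≤ P, RealAct k (P1.subgroupOf H)) (htop : P ⊔ sSup S = ⊤) :
    RealAct k P := by
  classical
  haveI : Fintype G := Fintype.ofFinite G
  haveI : Fintype P := Fintype.ofFinite P
  haveI : Finite (Subgroup G) := inferInstance
  have hfin : S.Finite := S.toFinite
  have hne' : hfin.toFinset.Nonempty := by
    rw [Set.Finite.toFinset_nonempty]; exact hne
  have h1 : PCovR p k P (hfin.toFinset.sup' hne' id ⊔ P) := by
    refine pcovR_sup' hP _ hne' fun H hH => ?_
    obtain ⟨P1, hP1, h2⟩ := h H (hfin.mem_toFinset.1 hH)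
    haveI : Fintype (P1 ⊓ H : Subgroup G) := Fintype.ofFinite _
    have h3 : RealAct k ((P1 ⊓ H).subgroupOf H) := by
      rw [Subgroup.inf_subgroupOf_right]; exact h2
    have h4 : P1 ⊓ H ≤ P := inf_le_left.trans hP1
    exact pcovG_mono h4 (pcovG_of_realAct (hP.to_le h4) inf_le_right h3)
  apply realAct_of_pcovR hP
  have h2 : hfin.toFinset.sup' hne' id ⊔ P = ⊤ := by
    rw [← htop, sup_comm]
    congr 1
    apply le_antisymm
    · exact Finset.sup'_le _ _ fun H hH => le_sSup (hfin.mem_toFinset.1 hH)
    · exact sSup_le fun H hH => Finset.le_sup' id (hfin.mem_toFinset.2 hH)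
  rw [← h2]
  exact h1

end Pool.Agent.Helper54.SJ
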