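import Pool.Agent.Helper54.SJ.Defs
import Pool.Agent.Helper54.FP.Patch2

/-!
# SJ-17: approximation by polynomials at two places

`R1 k = k[z]⟦t⟧[1/t]`, `α1 k a c : k((t))[X] → R1 k`, `X ↦ c + t^a z`.

PROOF.  Every element of `R1 k` is, modulo `t^B k[z]⟦t⟧`, a finite sum of terms `c z^i t^j` with `c ∈ k`, `i ≥ 0`,
`j ∈ ℤ` (write it as `t^(-n) s`, `s ∈ k[z]⟦t⟧`, and truncate `s`).  Hence there are `P1`, `P2` in `k((t))[X]` with
`α1 k a 0 P1 ≡ r1` and `α1 k 1 1 P2 ≡ r2` modulo `t^B k[z]⟦t⟧` (`z = X / t^a`, resp. `z = (X - 1) / t`).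
Let `q = p^n`.  `α1 k a 0 (X^q) = t^(a q) z^q` and `α1 k 1 1 (X^q) = (1 + t z)^q = 1 + t^q z^q` (characteristic `p`).
Let `g0 = P1 (1 - X^q) + P2 X^q = P1 + (P2 - P1) X^q`.  `α1 k a 0 g0 = α1 k a 0 P1 + t^(a q) z^q α1 k a 0 (P2 - P1)`
and `α1 k 1 1 g0 = α1 k 1 1 P2 + t^q z^q α1 k 1 1 (P2 - P1)`; for `n` large the error terms are in
`t^B k[z]⟦t⟧` (elements of `R1 k` have bounded poles in `t`).  Finally `g = g0 + t^B X^d` with `d > N`,
`d > natDegree g0`, `p ∤ d`: then `natDegree g = d`, and `α1 (t^B X^d) ∈ t^B k[z]⟦t⟧` in both cases.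
-/

set_option autoImplicit false
open Pool.Agent.Helper54.FP

namespace Pool.Agent.Helper54.SJ

section aux
variable {k : Type} [Field k]

/-- small elements -/
private def Sm (B : ℕ) (r : R1 k) : Prop :=
  ∃ s : Pk k, r = algebraMap (Pk k) (R1 k) (PowerSeries.X ^ B * s)

private lemma sm_add {B : ℕ} {r s : R1 k} (h : Sm B r) (h' : Sm B s) : Sm B (r + s) := by
  obtain ⟨u, rfl⟩ := h
  obtain ⟨v, rfl⟩ := h'
  exact ⟨u + v, by rw [mul_add, map_add]⟩

private lemma sm_neg {B : ℕ} {r : R1 k} (h : Sm B r) : Sm B (-r) := by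
  obtain ⟨u, rfl⟩ := h
  exact ⟨-u, by rw [mul_neg, map_neg]⟩

private lemma sm_mul {B : ℕ} {r : R1 k} (h : Sm B r) (s : Pk k) :
    Sm B (algebraMap (Pk k) (R1 k) s * r) := by
  obtain ⟨u, rfl⟩ := h
  exact ⟨s * u, by rw [← map_mul]; congr 1; ring⟩

private lemma t1_inv : ∃ u : KK k, t1 k * c1 k u = 1 := by
  refine ⟨HahnSeries.single (-1) 1, ?_⟩
  rw [← c1_single, ← map_mul, HahnSeries.single_mul_single]
  simp

private lemma exists_pow (r : R1 k) : ∃ (n : ℕ) (s : Pk k),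
    t1 k ^ n * r = algebraMap (Pk k) (R1 k) s := by
  obtain ⟨n, s, h⟩ := IsLocalization.Away.surj (PowerSeries.X : Pk k) r
  refine ⟨n, s, ?_⟩
  rw [← h, t1, mul_comm]

private lemma c1_CC (c : k) : c1 k (HahnSeries.C c) =
    algebraMap (Pk k) (R1 k) (PowerSeries.C (Polynomial.C c)) := by
  have h1 : (HahnSeries.C c : KK k) =
      algebraMap (PowerSeries k) (LaurentSeries k) (PowerSeries.C c) := by
    rw [LaurentSeries.coe_algebraMap, HahnSeries.ofPowerSeries_C]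
  rw [h1, c1_algebraMap, PowerSeries.map_C]

private lemma z1_mem (a : ℕ) (c : k) : ∃ P : Polynomial (KK k), α1 k a c P = z1 k := by
  obtain ⟨u, hu⟩ := t1_inv (k := k)
  refine ⟨Polynomial.C (u ^ a) * (Polynomial.X - Polynomial.C (HahnSeries.C c)), ?_⟩
  rw [map_mul, map_sub, α1_C, α1_C, α1_X, map_pow, add_sub_cancel_left, ← mul_assoc, ← mul_pow,
    mul_comm (c1 k u), hu, one_pow, one_mul]

private lemma poly_mem (a : ℕ) (c : k) (q : Polynomial k) : ∃ P : Polynomial (KK k),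
    α1 k a c P = algebraMap (Pk k) (R1 k) (PowerSeries.C q) := by
  obtain ⟨Z, hZ⟩ := z1_mem a c
  induction q using Polynomial.induction_on' with
  | add q r hq hr =>
    obtain ⟨P, hP⟩ := hq
    obtain ⟨Q, hQ⟩ := hr
    exact ⟨P + Q, by rw [map_add, hP, hQ, map_add, map_add]⟩
  | monomial m b =>
    refine ⟨Polynomial.C (HahnSeries.C b) * Z ^ m, ?_⟩
    rw [map_mul, map_pow, hZ, α1_C, c1_CC, z1, ← map_pow, ← map_mul, ← map_pow, ← map_mul,
      Polynomial.C_mul_X_pow_eq_monomial]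

private lemma ps_mem (a : ℕ) (c : k) (N : ℕ) : ∀ s : Pk k, ∃ (P : Polynomial (KK k)) (s' : Pk k),
    algebraMap (Pk k) (R1 k) s = α1 k a c P +
      algebraMap (Pk k) (R1 k) (PowerSeries.X ^ N * s') := by
  induction N with
  | zero =>
    intro s
    exact ⟨0, s, by rw [map_zero, zero_add, pow_zero, one_mul]⟩
  | succ N ih =>
    intro s
    obtain ⟨s1, hs1⟩ : PowerSeries.X ∣ s - PowerSeries.C (PowerSeries.constantCoeff s) := by
      rw [PowerSeries.X_dvd_iff, map_sub, PowerSeries.constantCoeff_C, sub_self]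
    obtain ⟨P1, s', h1⟩ := ih s1
    obtain ⟨P0, h0⟩ := poly_mem a c (PowerSeries.constantCoeff s)
    refine ⟨P0 + Polynomial.C (HahnSeries.single 1 1) * P1, s', ?_⟩
    have h2 : s = PowerSeries.C (PowerSeries.constantCoeff s) + PowerSeries.X * s1 := by
      rw [← hs1]; ring
    have h3 : algebraMap (Pk k) (R1 k) (PowerSeries.X ^ (N + 1) * s') =
        t1 k * algebraMap (Pk k) (R1 k) (PowerSeries.X ^ N * s') := by
      rw [t1, ← map_mul, pow_succ', mul_assoc]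
    have h4 : α1 k a c (P0 + Polynomial.C (HahnSeries.single 1 1) * P1) =
        α1 k a c P0 + t1 k * α1 k a c P1 := by
      rw [map_add, map_mul (α1 k a c), α1_C, c1_single]
    have h5 : algebraMap (Pk k) (R1 k) s =
        algebraMap (Pk k) (R1 k) (PowerSeries.C (PowerSeries.constantCoeff s)) +
        t1 k * algebraMap (Pk k) (R1 k) s1 := by
      rw [t1, ← map_mul, ← map_add, ← h2]
    rw [h5, h3, h4, h0, h1]
    ring

private lemma dense_one (a : ℕ) (c : k) (B : ℕ) (r : R1 k) : ∃ P : Polynomial (KK k),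
    Sm B (r - α1 k a c P) := by
  obtain ⟨n, s, h⟩ := exists_pow r
  obtain ⟨u, hu⟩ := t1_inv (k := k)
  obtain ⟨P, s', h'⟩ := ps_mem a c (B + n) s
  refine ⟨Polynomial.C (u ^ n) * P, s', ?_⟩
  have hn : c1 k u ^ n * t1 k ^ n = 1 := by
    rw [← mul_pow, mul_comm, hu, one_pow]
  have h1 : r = c1 k u ^ n * (t1 k ^ n * r) := by
    rw [← mul_assoc, hn, one_mul]
  have h3 : α1 k a c (Polynomial.C (u ^ n) * P) = c1 k u ^ n * α1 k a c P := by
    rw [map_mul (α1 k a c), α1_C, map_pow]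
  have h4 : algebraMap (Pk k) (R1 k) (PowerSeries.X ^ (B + n) * s') =
      t1 k ^ n * algebraMap (Pk k) (R1 k) (PowerSeries.X ^ B * s') := by
    rw [t1, ← map_pow, ← map_mul, pow_add]
    congr 1
    ring
  rw [h1, h, h', h3, h4, mul_add, add_sub_cancel_left, ← mul_assoc, hn, one_mul]

private lemma sm_big {m n : ℕ} {e : R1 k} {s : Pk k} (h : t1 k ^ m * e = algebraMap (Pk k) (R1 k) s)
    (B : ℕ) (hn : B + m ≤ n) (q : ℕ) : Sm B (t1 k ^ n * z1 k ^ q * e) := by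
  obtain ⟨j, rfl⟩ := Nat.exists_eq_add_of_le hn
  refine ⟨PowerSeries.X ^ j * PowerSeries.C Polynomial.X ^ q * s, ?_⟩
  rw [map_mul, map_mul, map_mul, map_pow, map_pow, map_pow, ← t1, ← z1, ← h]
  ring

end aux

theorem exists_dense {p : ℕ} [Fact p.Prime] {k : Type} [Field k] [CharP k p] (a : ℕ) (ha : 0 < a)
    (B N : ℕ) (r1 r2 : R1 k) :
    ∃ g : Polynomial (KK k), N < g.natDegree ∧ ¬ p ∣ g.natDegree ∧
      (∃ s : Pk k, r1 = α1 k a 0 g + algebraMap (Pk k) (R1 k) (PowerSeries.X ^ B * s)) ∧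
      ∃ s : Pk k, r2 = α1 k 1 1 g + algebraMap (Pk k) (R1 k) (PowerSeries.X ^ B * s) := by
  have hp : p.Prime := Fact.out
  have hnt : Nontrivial (R1 k) := (φ1 k).domain_nontrivial
  have hpz : (p : R1 k) = 0 := by
    have h1 : (p : k) = 0 := CharP.cast_eq_zero k p
    have h2 := congrArg ((algebraMap (Pk k) (R1 k)).comp
      ((PowerSeries.C (R := Polynomial k)).comp Polynomial.C)) h1
    rwa [map_natCast, map_zero] at h2
  have hchar : CharP (R1 k) p := (CharP.charP_iff_prime_eq_zero hp).2 hpz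
  obtain ⟨P1, h1⟩ := dense_one a 0 B r1
  obtain ⟨P2, h2⟩ := dense_one 1 1 B r2
  obtain ⟨m1, s1, e1⟩ := exists_pow (α1 k a 0 (P2 - P1))
  obtain ⟨m2, s2, e2⟩ := exists_pow (α1 k 1 1 (P2 - P1))
  set n := B + m1 + m2 with hn
  have hq : n ≤ p ^ n := (Nat.lt_pow_self hp.one_lt).le
  set q := p ^ n with hqd
  set g0 : Polynomial (KK k) := P1 + (P2 - P1) * Polynomial.X ^ q with hg0
  have hx1 : α1 k a 0 (Polynomial.X ^ q) = t1 k ^ (a * q) * z1 k ^ q := by
    rw [map_pow, α1_X, map_zero, map_zero, zero_add, mul_pow, ← pow_mul]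
  have hx2 : α1 k 1 1 (Polynomial.X ^ q) = 1 + t1 k ^ q * z1 k ^ q := by
    rw [map_pow, α1_X, map_one, map_one, pow_one, hqd, add_pow_char_pow, one_pow, mul_pow]
  have hg1 : Sm B (r1 - α1 k a 0 g0) := by
    have h3 : Sm B (t1 k ^ (a * q) * z1 k ^ q * α1 k a 0 (P2 - P1)) :=
      sm_big e1 B (by
        calc B + m1 ≤ n := by omega
          _ ≤ q := hq
          _ ≤ a * q := Nat.le_mul_of_pos_left _ ha) q
    have h4 := sm_add h1 (sm_neg h3)
    have h5 : r1 - α1 k a 0 P1 + -(t1 k ^ (a * q) * z1 k ^ q * α1 k a 0 (P2 - P1)) =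
        r1 - α1 k a 0 g0 := by
      rw [hg0, map_add, map_mul, hx1]
      ring
    rwa [h5] at h4
  have hg2 : Sm B (r2 - α1 k 1 1 g0) := by
    have h3 : Sm B (t1 k ^ q * z1 k ^ q * α1 k 1 1 (P2 - P1)) :=
      sm_big e2 B (by
        calc B + m2 ≤ n := by omega
          _ ≤ q := hq) q
    have h4 := sm_add h2 (sm_neg h3)
    have h5 : r2 - α1 k 1 1 P2 + -(t1 k ^ q * z1 k ^ q * α1 k 1 1 (P2 - P1)) =
        r2 - α1 k 1 1 g0 := by
      rw [hg0, map_add, map_mul, hx2, map_sub]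
      ring
    rwa [h5] at h4
  set d := p * (N + g0.natDegree + 1) + 1 with hd
  have hpd : ¬ p ∣ d := by
    intro h
    have h3 : p ∣ 1 := (Nat.dvd_add_right (Dvd.intro _ rfl)).1 h
    exact hp.one_lt.ne' (Nat.dvd_one.1 h3)
  have hdN : N + g0.natDegree + 1 ≤ d := by
    have : N + g0.natDegree + 1 ≤ p * (N + g0.natDegree + 1) := Nat.le_mul_of_pos_left _ hp.pos
    omega
  have hne : (HahnSeries.single (1 : ℤ) (1 : k) : KK k) ≠ 0 := by
    rw [Ne, HahnSeries.single_eq_zero_iff]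
    exact one_ne_zero
  have hdeg0 : (Polynomial.C ((HahnSeries.single (1 : ℤ) (1 : k) : KK k) ^ B) *
      Polynomial.X ^ d).natDegree = d :=
    Polynomial.natDegree_C_mul_X_pow d _ (pow_ne_zero B hne)
  have hdeg : (g0 + Polynomial.C ((HahnSeries.single (1 : ℤ) (1 : k) : KK k) ^ B) *
      Polynomial.X ^ d).natDegree = d := by
    rw [Polynomial.natDegree_add_eq_right_of_natDegree_lt, hdeg0]
    rw [hdeg0]
    omega
  have hsm : ∀ (b : ℕ) (c : k), Sm B (α1 k b c (Polynomial.C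
      ((HahnSeries.single (1 : ℤ) (1 : k) : KK k) ^ B) * Polynomial.X ^ d)) := by
    intro b c
    refine ⟨(PowerSeries.C (Polynomial.C c) + PowerSeries.X ^ b * PowerSeries.C Polynomial.X) ^ d,
      ?_⟩
    rw [map_mul (α1 k b c), α1_C, map_pow (α1 k b c), α1_X, map_pow (c1 k), c1_single, c1_CC,
      map_mul (algebraMap (Pk k) (R1 k)), map_pow (algebraMap (Pk k) (R1 k)),
      map_pow (algebraMap (Pk k) (R1 k)), map_add (algebraMap (Pk k) (R1 k)),
      map_mul (algebraMap (Pk k) (R1 k)), map_pow (algebraMap (Pk k) (R1 k)), ← t1, ← z1]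
  refine ⟨g0 + Polynomial.C ((HahnSeries.single (1 : ℤ) (1 : k) : KK k) ^ B) *
      Polynomial.X ^ d, by rw [hdeg]; omega, by rw [hdeg]; exact hpd, ?_, ?_⟩
  · obtain ⟨s, hs⟩ := sm_add hg1 (sm_neg (hsm a 0))
    refine ⟨s, ?_⟩
    rw [← hs, map_add]
    ring
  · obtain ⟨s, hs⟩ := sm_add hg2 (sm_neg (hsm 1 1))
    refine ⟨s, ?_⟩
    rw [← hs, map_add]
    ring

end Pool.Agent.Helper54.SJ
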