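import Pool.Agent.Helper54.SJ.UMat

/-!
# SJ-18: products of Galois algebras; change of the element of trace one

PROOF.
* `pt_prod`: `T = D1.T × D2.T`, everything componentwise (`RingHom.prodMap`), `e = (e1, e2)`, `β1 = fst`, `β2 = snd`.
* `um_change`: `act σ⁻¹ e1 = ∑_τ ι (ρ τ) act (σ⁻¹ τ) e`.  In
  `UM (D.withE e1 h1) κ i j = ∑_σ [i = σ j] ∑_τ κ (ι (ρ τ)) κ (act (σ⁻¹ τ) e)` put `σ = τ σ'`:
  `= ∑_τ κ (ι (ρ τ)) ∑_σ' [i = τ σ' j] κ (act σ'⁻¹ e)`, and `[i = τ σ' j] = ∑_l [i = τ l] [l = σ' j]`.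
-/

set_option autoImplicit false
open Pool.Agent.Helper54.FP

namespace Pool.Agent.Helper54.SJ

theorem pt_prod {P : Type} [Group P] [Fintype P] {R1 R2 : Type} [CommRing R1] [CommRing R2]
    (D1 : PT P R1) (D2 : PT P R2) :
    ∃ (D : PT P (R1 × R2)) (β1 : D.T →+* D1.T) (β2 : D.T →+* D2.T),
      IsEq D (RingHom.fst R1 R2) D1 β1 ∧ IsEq D (RingHom.snd R1 R2) D2 β2 ∧ β1 D.e = D1.e ∧
      β2 D.e = D2.e := by
  have hsum : ∀ (s : Finset P), ∑ σ ∈ s, ((D1.act σ).prodMap (D2.act σ)) (D1.e, D2.e) =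
      (∑ σ ∈ s, D1.act σ D1.e, ∑ σ ∈ s, D2.act σ D2.e) := by
    intro s
    apply Prod.ext
    · rw [Prod.fst_sum]
      rfl
    · rw [Prod.snd_sum]
      rfl
  refine ⟨{ T := D1.T × D2.T
            ι := D1.ι.prodMap D2.ι
            act := fun σ => (D1.act σ).prodMap (D2.act σ)
            act_one := ?_
            act_mul := ?_
            act_ι := ?_
            fix := ?_
            inj := ?_
            e := (D1.e, D2.e)
            tr := ?_ }, RingHom.fst _ _, RingHom.snd _ _, ?_, ?_, rfl, rfl⟩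
  · apply RingHom.ext
    rintro ⟨x, y⟩
    change (D1.act 1 x, D2.act 1 y) = (x, y)
    rw [D1.act_one, D2.act_one]
    rfl
  · intro σ τ
    apply RingHom.ext
    rintro ⟨x, y⟩
    change (D1.act (σ * τ) x, D2.act (σ * τ) y) = (D1.act σ (D1.act τ x), D2.act σ (D2.act τ y))
    rw [D1.act_mul, D2.act_mul]
    rfl
  · intro σ
    apply RingHom.ext
    rintro ⟨x, y⟩
    change (D1.act σ (D1.ι x), D2.act σ (D2.ι y)) = (D1.ι x, D2.ι y)
    have h1 : D1.act σ (D1.ι x) = D1.ι x := RingHom.congr_fun (D1.act_ι σ) x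
    have h2 : D2.act σ (D2.ι y) = D2.ι y := RingHom.congr_fun (D2.act_ι σ) y
    rw [h1, h2]
  · rintro ⟨x, y⟩ h
    obtain ⟨r1, hr1⟩ := D1.fix x (fun σ => congrArg Prod.fst (h σ))
    obtain ⟨r2, hr2⟩ := D2.fix y (fun σ => congrArg Prod.snd (h σ))
    refine ⟨(r1, r2), ?_⟩
    change (D1.ι r1, D2.ι r2) = (x, y)
    rw [hr1, hr2]
  · rintro ⟨x, y⟩ ⟨x', y'⟩ h
    have h1 : D1.ι x = D1.ι x' := congrArg Prod.fst h
    have h2 : D2.ι y = D2.ι y' := congrArg Prod.snd h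
    rw [D1.inj h1, D2.inj h2]
  · rw [hsum, D1.tr, D2.tr]
    rfl
  · exact ⟨rfl, fun σ => rfl⟩
  · exact ⟨rfl, fun σ => rfl⟩

/-- the matrix `∑_τ ρ(τ) [τ]` -/
noncomputable def Wm {G : Type} [Group G] [DecidableEq G] {P : Subgroup G} [Fintype P] {R : Type}
    [CommRing R] (ρ : P → R) : Matrix G G R := fun i l => ∑ τ : P, if i = (τ : G) * l then ρ τ else 0

section aux
variable {G : Type} [Group G] [DecidableEq G] {P : Subgroup G}
  [Fintype P] {Ω : Type} [CommRing Ω]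

private lemma wm_pos (x : P → Ω) {i j : G} (σ : P) (h : i = (σ : G) * j) : Wm x i j = x σ := by
  unfold Wm
  rw [Finset.sum_eq_single σ]
  · rw [if_pos h]
  · intro τ _ hne
    rw [if_neg]
    intro h2
    apply hne
    apply Subtype.ext
    rw [h] at h2
    exact (mul_right_cancel h2).symm
  · intro h2
    exact absurd (Finset.mem_univ _) h2

private lemma wm_neg (x : P → Ω) {i j : G} (h : ∀ σ : P, i ≠ (σ : G) * j) : Wm x i j = 0 := by
  unfold Wm
  apply Finset.sum_eq_zero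
  intro σ _
  rw [if_neg (h σ)]

private lemma wm_mul [Fintype G] (x y : P → Ω) :
    Wm x * Wm y = Wm (G := G) (P := P) (fun ρ => ∑ σ, x σ * y (σ⁻¹ * ρ)) := by
  ext i j
  rw [Matrix.mul_apply]
  have h1 : ∀ l ∈ (Finset.univ : Finset G), Wm x i l * Wm y l j =
      ∑ σ : P, if l = (σ : G)⁻¹ * i then x σ * Wm y l j else 0 := by
    intro l _
    conv_lhs => rw [Wm]
    rw [Finset.sum_mul]
    apply Finset.sum_congr rfl
    intro σ _
    by_cases h : i = (σ : G) * l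
    · have h2 : l = (σ : G)⁻¹ * i := by rw [h]; group
      rw [if_pos h, if_pos h2]
    · have h2 : ¬ l = (σ : G)⁻¹ * i := by
        intro h3
        apply h
        rw [h3]
        group
      rw [if_neg h, if_neg h2, zero_mul]
  rw [Finset.sum_congr rfl h1, Finset.sum_comm]
  have h2 : ∀ σ ∈ (Finset.univ : Finset P), (∑ l : G, if l = (σ : G)⁻¹ * i then
      x σ * Wm y l j else 0) = x σ * Wm y ((σ : G)⁻¹ * i) j := by
    intro σ _
    rw [Finset.sum_ite_eq' Finset.univ ((σ : G)⁻¹ * i), if_pos (Finset.mem_univ _)]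
  rw [Finset.sum_congr rfl h2]
  by_cases h : ∃ ρ : P, i = (ρ : G) * j
  · obtain ⟨ρ, hρ⟩ := h
    rw [wm_pos _ ρ hρ]
    apply Finset.sum_congr rfl
    intro σ _
    rw [wm_pos y (σ⁻¹ * ρ)]
    rw [hρ, Subgroup.coe_mul, Subgroup.coe_inv, mul_assoc]
  · push Not at h
    rw [wm_neg _ h]
    apply Finset.sum_eq_zero
    intro σ _
    rw [wm_neg y, mul_zero]
    intro τ hτ
    apply h (σ * τ)
    rw [Subgroup.coe_mul, mul_assoc, ← hτ]
    group

private lemma wm_map {Ω' : Type} [CommRing Ω'] (x : P → Ω) (f : Ω →+* Ω') :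
    (Wm x).map f = Wm (G := G) (P := P) (fun σ => f (x σ)) := by
  ext i j
  rw [Matrix.map_apply]
  by_cases h : ∃ σ : P, i = (σ : G) * j
  · obtain ⟨σ, hσ⟩ := h
    rw [wm_pos x σ hσ, wm_pos (fun σ => f (x σ)) σ hσ]
  · push Not at h
    rw [wm_neg x h, wm_neg (fun σ => f (x σ)) h, map_zero]

end aux

theorem um_change {G : Type} [Group G] [Fintype G] [DecidableEq G] {P : Subgroup G} [Fintype P]
    {R Ω : Type} [CommRing R] [CommRing Ω] (D : PT P R) (e1 : D.T)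
    (h1 : ∑ σ, D.act σ e1 = 1) (ρ : P → R) (he : e1 = ∑ τ, D.ι (ρ τ) * D.act τ D.e)
    (κ : D.T →+* Ω) :
    UM (D.withE e1 h1) κ = (Wm ρ).map (κ.comp D.ι) * UM D κ := by
  have e2 : UM (D.withE e1 h1) κ = Wm (G := G) (P := P) (fun σ => κ (D.act σ⁻¹ e1)) := rfl
  have e3 : UM D κ = Wm (G := G) (P := P) (fun σ => κ (D.act σ⁻¹ D.e)) := rfl
  rw [e2, e3, wm_map, wm_mul]
  congr 1
  funext σ
  rw [he, map_sum, map_sum]
  apply Finset.sum_congr rfl
  intro τ _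
  have h3 : D.act σ⁻¹ (D.ι (ρ τ)) = D.ι (ρ τ) := RingHom.congr_fun (D.act_ι σ⁻¹) (ρ τ)
  have h4 : D.act σ⁻¹ (D.act τ D.e) = D.act (σ⁻¹ * τ) D.e := by
    rw [D.act_mul]
    rfl
  rw [map_mul, h3, h4, map_mul, RingHom.comp_apply, mul_inv_rev, inv_inv]

end Pool.Agent.Helper54.SJ
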