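import Pool.Agent.Helper54.SJ.Approx
import Pool.Agent.Helper54.SJ.Dense
import Pool.Agent.Helper54.SJ.Prod
import Pool.Agent.Helper54.SJ.Lift
import Pool.Agent.Helper54.SJ.BaseChange
import Pool.Agent.Helper11.FP.Interp

/-!
# SJ-19: a Galois algebra over `k((t))[X]` close to two given ones at two places

PROOF.  Let `α = (α1 k a 0).prod (α1 k 1 1) : k((t))[X] → R1 × R1`.  The hypothesis of `pt_approx` holds for `α` and
`𝒢 = degSet p (KK k)`: for `r' = (r1, r2)` and `F` let `N` be the maximal degree of the elements of `F`; `exists_dense`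
(with `B = 1`) gives `r`; `r' - α r = (t s1, t s2)` and `exists_eps` (FP/Interp.lean, with `B = 1`) gives
`s' = (t ε1, t ε2)`.  If `g ∈ F` and `p ∤ c` then `g + c r` has the degree of `r` (`(c : k((t))) ≠ 0`).
Let `D'A`, `bA` (resp. `D'B`, `bB`) be the base change of `DA` (`DB`) along `β1 k` (`pt_baseChange`, `bA DA.e = D'A.e`),
and `D'` the product (`pt_prod`), `q1 : D'.T → D'A.T`, `q2 : D'.T → D'B.T`.
`pt_approx` gives `D0 : PT P (KK k)[X]`, `β0 : D0.T → D'.T`, good.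
By `nb_exists` for `D'` with `β0 D0.e`: `D'.e = ∑_σ D'.ι (r' σ) β0 (act σ D0.e)`, with `D'.e`:
`β0 (act σ D0.e) = ∑_τ D'.ι (n σ τ) act τ D'.e`.  Choose `N` with `t^N n σ τ ∈ (k[z]⟦t⟧)²` for all `σ, τ`.
`exists_dense` with `B = m + N`: `r σ` in `k((t))[X]` with `α (r σ) = r' σ - t^(m+N) s σ`, `s σ ∈ (k[z]⟦t⟧)²`.
`∑ r' σ = 1` (trace of `D'.e`), so after replacing `r 1` by `r 1 + (1 - ∑ r σ)` we may assume `∑ r σ = 1`.  So
`e1 = ∑_σ ι (r σ) act σ D0.e` has trace one, `D = D0.withE e1`.  `β0 e1 = D'.e - ∑_σ ι' (t^(m+N) s σ) β0 (act σ e0)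
= ∑_τ D'.ι (ρ τ) act τ D'.e`, `ρ τ = [τ = 1] - t^m ∑_σ s σ (t^N n σ τ)`.
Let `κA` be given.  `φ1 ∘ β1 = θ ∘ px` (`φ1_β1` of FP/LaurentMaps), so `pt_lift` gives `κ' : D'A.T → Om k` with
`κ' ∘ D'A.ι = φ1`, `κ' ∘ bA = κA`.  Put `κ = κ' ∘ q1 ∘ β0`.  `κ ∘ D.ι = κ' ∘ D'A.ι ∘ α1 k a 0 = φ0 k a 0`.  `UM D κ =
UM (D'.withE (β0 e1)) (κ' ∘ q1)` (`um_eq`) `= (Wm ρ).map (φ1 ∘ fst) * UM D' (κ' ∘ q1)` (`um_change`) and
`UM D' (κ' ∘ q1) = UM D'A κ' = UM DA κA` (`um_eq`).  `(Wm ρ).map (φ1 ∘ fst) = (1 + X^m • M).map iA` by the formula for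
`ρ` (`φ1 (algebraMap s) = iA (a1 s)`: `φ1_algebraMap`).  The same for `κB` with `snd` and `α1 k 1 1`.
-/

set_option autoImplicit false
open Pool.Agent.Helper54.FP

namespace Pool.Agent.Helper54.SJ

private theorem bt_act {P : Type} [Group P] [Fintype P] {R : Type} [CommRing R] (D : PT P R)
    (σ τ : P) (t : D.T) : D.act σ (D.act τ t) = D.act (σ * τ) t := by
  rw [D.act_mul]; rfl

private theorem bt_actι {P : Type} [Group P] [Fintype P] {R : Type} [CommRing R] (D : PT P R)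
    (σ : P) (r : R) : D.act σ (D.ι r) = D.ι r := RingHom.congr_fun (D.act_ι σ) r

/-- trace of a combination of conjugates -/
private theorem bt_tr {P : Type} [Group P] [Fintype P] {R : Type} [CommRing R] (D : PT P R)
    (e : D.T) (he : ∑ σ, D.act σ e = 1) (r : P → R) :
    ∑ τ, D.act τ (∑ σ, D.ι (r σ) * D.act σ e) = D.ι (∑ σ, r σ) := by
  have h1 : ∀ σ, ∑ τ, D.act τ (D.ι (r σ) * D.act σ e) = D.ι (r σ) := by
    intro σ
    have h2 : ∀ τ, D.act τ (D.ι (r σ) * D.act σ e) = D.ι (r σ) * D.act (τ * σ) e := by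
      intro τ
      rw [map_mul, bt_actι, bt_act]
    rw [Finset.sum_congr rfl (fun τ _ => h2 τ), ← Finset.mul_sum]
    have h3 : ∑ τ, D.act (τ * σ) e = 1 := by
      rw [← he]
      exact Equiv.sum_comp (Equiv.mulRight σ) (fun τ => D.act τ e)
    rw [h3, mul_one]
  have h4 : ∀ τ, D.act τ (∑ σ, D.ι (r σ) * D.act σ e) =
      ∑ σ, D.act τ (D.ι (r σ) * D.act σ e) := fun τ => map_sum _ _ _
  rw [Finset.sum_congr rfl (fun τ _ => h4 τ), Finset.sum_comm,
    Finset.sum_congr rfl (fun σ _ => h1 σ), ← map_sum]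

/-- composition of equivariant homomorphisms -/
private theorem bt_comp {P : Type} [Group P] [Fintype P] {R R' R'' : Type} [CommRing R]
    [CommRing R'] [CommRing R''] {D : PT P R} {α : R →+* R'} {D' : PT P R'} {β : D.T →+* D'.T}
    {α' : R' →+* R''} {D'' : PT P R''} {β' : D'.T →+* D''.T}
    (h : IsEq D α D' β) (h' : IsEq D' α' D'' β') : IsEq D (α'.comp α) D'' (β'.comp β) := by
  refine ⟨?_, ?_⟩
  · rw [RingHom.comp_assoc, h.comm, ← RingHom.comp_assoc, h'.comm, RingHom.comp_assoc]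
  · intro σ
    rw [RingHom.comp_assoc, h.equi, ← RingHom.comp_assoc, h'.equi, RingHom.comp_assoc]

private theorem bt_eqtr {P : Type} [Group P] [Fintype P] {R R' : Type} [CommRing R] [CommRing R']
    {D : PT P R} {α : R →+* R'} {D' : PT P R'} {β : D.T →+* D'.T} (h : IsEq D α D' β) (e : D.T)
    (he : ∑ σ, D.act σ e = 1) :
    ∑ σ, D'.act σ (β e) = 1 := by
  have h1 : ∀ σ, D'.act σ (β e) = β (D.act σ e) := fun σ =>
    (RingHom.congr_fun (h.equi σ) e).symm
  rw [Finset.sum_congr rfl (fun σ _ => h1 σ), ← map_sum, he, map_one]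

/-- clearing the denominators of a finite family in `R1 k` -/
private theorem bt_denom {k : Type} [Field k] {P : Type} [Fintype P] (n : P → R1 k) :
    ∃ (N : ℕ) (ν : P → Pk k), ∀ τ, algebraMap (Pk k) (R1 k) (PowerSeries.X ^ N) * n τ =
      algebraMap (Pk k) (R1 k) (ν τ) := by
  classical
  have h1 : ∀ τ, ∃ (N : ℕ) (s : Pk k), n τ * algebraMap (Pk k) (R1 k) (PowerSeries.X ^ N) =
      algebraMap (Pk k) (R1 k) s := by
    intro τ
    obtain ⟨⟨s, ⟨_, N, rfl⟩⟩, hs⟩ := IsLocalization.surj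
      (Submonoid.powers (PowerSeries.X : Pk k)) (n τ)
    exact ⟨N, s, hs⟩
  choose N s hs using h1
  refine ⟨∑ τ, N τ, fun τ => PowerSeries.X ^ (∑ σ ∈ Finset.univ.erase τ, N σ) * s τ, ?_⟩
  intro τ
  rw [← Finset.add_sum_erase _ _ (Finset.mem_univ τ), pow_add, map_mul, map_mul, ← hs]
  ring

/-- the coefficients with respect to the two normal bases -/
private theorem bt_coef {p : ℕ} [Fact p.Prime] {P : Type} [Group P] [Fintype P] [DecidableEq P]
    (hP : IsPGroup p P) {k : Type} [Field k] [CharP k p] {R : Type} [CommRing R]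
    {D0 : PT P R} {α' : R →+* R1 k} {D1 : PT P (R1 k)} {β : D0.T →+* D1.T}
    (h : IsEq D0 α' D1 β) :
    ∃ (r' : P → R1 k) (N : ℕ), ∑ σ, r' σ = 1 ∧ ∀ (m : ℕ) (r : P → R) (s : P → Pk k),
      (∀ σ, r' σ = α' (r σ) + algebraMap (Pk k) (R1 k) (PowerSeries.X ^ (m + N) * s σ)) →
      ∃ M : P → Pk k, β (∑ σ, D0.ι (r σ) * D0.act σ D0.e) =
        ∑ τ, D1.ι ((if τ = 1 then 1 else 0) - algebraMap (Pk k) (R1 k) (PowerSeries.X ^ m * M τ)) *
          D1.act τ D1.e := by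
  have hp1 : (p : R1 k) = 0 := CharP.cast_eq_zero _ p
  obtain ⟨r', hr'⟩ := nb_exists hP hp1 D1 (β D0.e) (bt_eqtr h _ D0.tr) D1.e
  obtain ⟨n, hn⟩ := nb_exists hP hp1 D1 D1.e D1.tr (β D0.e)
  obtain ⟨N, ν, hν⟩ := bt_denom n
  refine ⟨r', N, ?_, ?_⟩
  · apply D1.inj
    have h1 := bt_tr D1 (β D0.e) (bt_eqtr h _ D0.tr) r'
    rw [← hr', D1.tr] at h1
    rw [← h1, map_one]
  · intro m r s hs
    refine ⟨fun τ => ∑ σ, s σ * ν (σ⁻¹ * τ), ?_⟩
    have h1 : β (∑ σ, D0.ι (r σ) * D0.act σ D0.e) =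
        ∑ σ, D1.ι (α' (r σ)) * D1.act σ (β D0.e) := by
      rw [map_sum]
      refine Finset.sum_congr rfl fun σ _ => ?_
      rw [map_mul]
      congr 1
      · exact RingHom.congr_fun h.comm (r σ)
      · exact RingHom.congr_fun (h.equi σ) D0.e
    have h2 : ∀ σ, D1.ι (α' (r σ)) * D1.act σ (β D0.e) = D1.ι (r' σ) * D1.act σ (β D0.e) -
        D1.ι (algebraMap (Pk k) (R1 k) (PowerSeries.X ^ (m + N) * s σ)) *
          D1.act σ (β D0.e) := by
      intro σ
      rw [hs σ, map_add, add_mul]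
      ring
    have h3 : ∀ σ, D1.act σ (β D0.e) = ∑ τ, D1.ι (n (σ⁻¹ * τ)) * D1.act τ D1.e := by
      intro σ
      have h4 : D1.act σ (β D0.e) = ∑ τ, D1.ι (n τ) * D1.act (σ * τ) D1.e := by
        conv_lhs => rw [hn]
        rw [map_sum]
        refine Finset.sum_congr rfl fun τ _ => ?_
        rw [map_mul, bt_actι, bt_act]
      rw [h4]
      symm
      rw [← Equiv.sum_comp (Equiv.mulLeft σ)]
      refine Finset.sum_congr rfl fun τ _ => ?_
      rw [Equiv.coe_mulLeft, inv_mul_cancel_left]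
    have h5 : ∀ σ, D1.ι (algebraMap (Pk k) (R1 k) (PowerSeries.X ^ (m + N) * s σ)) *
          D1.act σ (β D0.e) = ∑ τ, D1.ι (algebraMap (Pk k) (R1 k)
            (PowerSeries.X ^ m * (s σ * ν (σ⁻¹ * τ)))) * D1.act τ D1.e := by
      intro σ
      rw [h3 σ, Finset.mul_sum]
      refine Finset.sum_congr rfl fun τ _ => ?_
      rw [← mul_assoc, ← map_mul]
      congr 2
      rw [map_mul, map_mul, map_mul, ← hν, pow_add, map_mul]
      ring
    have h6 : ∑ τ, D1.ι (if τ = 1 then 1 else 0) * D1.act τ D1.e = D1.e := by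
      rw [Finset.sum_eq_single (1 : P)]
      · rw [if_pos rfl, map_one, one_mul, D1.act_one]
        rfl
      · intro τ _ hτ
        rw [if_neg hτ, map_zero, zero_mul]
      · intro h7
        exact absurd (Finset.mem_univ _) h7
    rw [h1, Finset.sum_congr rfl (fun σ _ => h2 σ), Finset.sum_sub_distrib, ← hr',
      Finset.sum_congr rfl (fun σ _ => h5 σ), Finset.sum_comm]
    have h8 : ∀ τ, D1.ι ((if τ = 1 then 1 else 0) - algebraMap (Pk k) (R1 k)
          (PowerSeries.X ^ m * ∑ σ, s σ * ν (σ⁻¹ * τ))) * D1.act τ D1.e =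
        D1.ι (if τ = 1 then 1 else 0) * D1.act τ D1.e -
          ∑ σ, D1.ι (algebraMap (Pk k) (R1 k)
            (PowerSeries.X ^ m * (s σ * ν (σ⁻¹ * τ)))) * D1.act τ D1.e := by
      intro τ
      rw [map_sub, sub_mul, Finset.mul_sum, map_sum, map_sum, Finset.sum_mul]
    rw [Finset.sum_congr rfl (fun τ _ => h8 τ), Finset.sum_sub_distrib, h6]

/-- the statement at one place -/
private theorem bt_place {p : ℕ} [Fact p.Prime] {G : Type} [Group G] [Fintype G] [DecidableEq G]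
    {P : Subgroup G} [Fintype P] (hP : IsPGroup p P) {k : Type} [Field k] [CharP k p]
    {R : Type} [CommRing R] {DA : PT P (Polynomial k)} {D0 : PT P R} {α' : R →+* R1 k}
    {D1 : PT P (R1 k)} {β : D0.T →+* D1.T} (h : IsEq D0 α' D1 β) {bA : DA.T →+* D1.T}
    (hA : IsEq DA (β1 k) D1 bA) (hAe : bA DA.e = D1.e) (m : ℕ) (e1 : D0.T)
    (h1 : ∑ σ, D0.act σ e1 = 1) (M : P → Pk k)
    (hM : β e1 = ∑ τ, D1.ι ((if τ = 1 then 1 else 0) -
      algebraMap (Pk k) (R1 k) (PowerSeries.X ^ m * M τ)) * D1.act τ D1.e)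
    (κA : DA.T →+* Om k) (hκ : κA.comp DA.ι = (θ k).comp (px k)) :
    ∃ (κ : (D0.withE e1 h1).T →+* Om k) (M : Matrix G G (A0 k)),
      κ.comp (D0.withE e1 h1).ι = (φ1 k).comp α' ∧
      UM (D0.withE e1 h1) κ = (1 + (PowerSeries.X : A0 k) ^ m • M).map (iA k) * UM DA κA := by
  have hpk : (p : Polynomial k) = 0 := CharP.cast_eq_zero _ p
  obtain ⟨κ', hκ1, hκ2⟩ := pt_lift hP hpk hA κA (φ1 k) (by rw [φ1_β1]; exact hκ)
  have htr := bt_eqtr h e1 h1
  have h' : IsEq (D0.withE e1 h1) α' (D1.withE (β e1) htr) β := ⟨h.comm, h.equi⟩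
  refine ⟨κ'.comp β, -Wm (fun τ => a1 k (M τ)), ?_, ?_⟩
  · change (κ'.comp β).comp D0.ι = _
    rw [RingHom.comp_assoc, h.comm, ← RingHom.comp_assoc, hκ1]
  · have h2 : UM (G := G) (D0.withE e1 h1) (κ'.comp β) = UM (D1.withE (β e1) htr) κ' :=
      (um_eq h' rfl κ').symm
    have h3 := um_change (G := G) D1 (β e1) htr _ hM κ'
    have h4 : UM (G := G) D1 κ' = UM DA κA := by
      rw [um_eq hA hAe κ', hκ2]
    rw [h2, h3, h4, hκ1]
    congr 1
    ext i l
    rw [Matrix.map_apply, Matrix.map_apply]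
    unfold Wm
    rw [map_sum, Matrix.add_apply, Matrix.smul_apply, Matrix.neg_apply, map_add, smul_eq_mul,
      mul_neg, map_neg, map_mul, map_sum]
    have h5 : ∀ τ : P, φ1 k (if i = (τ : G) * l then (if τ = 1 then 1 else 0) -
        algebraMap (Pk k) (R1 k) (PowerSeries.X ^ m * M τ) else 0) =
        (if τ = 1 then (if i = l then 1 else 0) else 0) -
          iA k (PowerSeries.X ^ m) * iA k (if i = (τ : G) * l then a1 k (M τ) else 0) := by
      intro τ
      by_cases hi : i = (τ : G) * l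
      · rw [if_pos hi, if_pos hi, map_sub, φ1_algebraMap, map_mul, map_mul, map_pow, a1_X]
        congr 1
        by_cases hτ : τ = 1
        · rw [if_pos hτ, if_pos hτ, if_pos, map_one]
          rw [hi, hτ]
          simp
        · rw [if_neg hτ, if_neg hτ, map_zero]
      · rw [if_neg hi, if_neg hi, map_zero, map_zero, mul_zero, sub_zero]
        by_cases hτ : τ = 1
        · rw [if_pos hτ, if_neg]
          intro h6
          apply hi
          rw [h6, hτ]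
          simp
        · rw [if_neg hτ]
    rw [Finset.sum_congr rfl (fun τ _ => h5 τ), Finset.sum_sub_distrib, ← Finset.mul_sum,
      Finset.sum_ite_eq' Finset.univ (1 : P), if_pos (Finset.mem_univ _), Matrix.one_apply,
      sub_eq_add_neg]
    congr 1
    split_ifs
    · rw [map_one]
    · rw [map_zero]

private theorem bt_app {p : ℕ} [Fact p.Prime] {k : Type} [Field k] [CharP k p] (a : ℕ)
    (ha : 0 < a) (r' : R1 k × R1 k) (F : Finset (Polynomial (KK k))) :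
    ∃ (r : Polynomial (KK k)) (s' : R1 k × R1 k),
      r' = ((α1 k a 0).prod (α1 k 1 1)) r + (s' ^ p - s') ∧
      ∀ g ∈ F, ∀ c : ℕ, ¬ p ∣ c → g + c * r ∈ degSet p (KK k) := by
  obtain ⟨r, hr1, hr2, ⟨s1, hs1⟩, s2, hs2⟩ := exists_dense (p := p) (k := k) a ha 1
    (F.sup Polynomial.natDegree) r'.1 r'.2
  obtain ⟨e1, he1⟩ := exists_eps (p := p) (k := k) 1 one_pos s1
  obtain ⟨e2, he2⟩ := exists_eps (p := p) (k := k) 1 one_pos s2
  refine ⟨r, (algebraMap (Pk k) (R1 k) (PowerSeries.X ^ 1 * e1),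
    algebraMap (Pk k) (R1 k) (PowerSeries.X ^ 1 * e2)), ?_, ?_⟩
  · apply Prod.ext
    · rw [Prod.fst_add, Prod.fst_sub, Prod.pow_fst, hs1, ← he1, map_sub, map_pow]
      rfl
    · rw [Prod.snd_add, Prod.snd_sub, Prod.pow_snd, hs2, ← he2, map_sub, map_pow]
      rfl
  · intro g hg c hc
    have hc0 : (c : KK k) ≠ 0 := by
      intro h
      exact hc ((CharP.cast_eq_zero_iff (KK k) p c).1 h)
    have hcC : (c : Polynomial (KK k)) = Polynomial.C (c : KK k) := by
      rw [map_natCast]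
    have hdeg : (c * r : Polynomial (KK k)).natDegree = r.natDegree := by
      rw [hcC, Polynomial.natDegree_C_mul hc0]
    have hlt : g.natDegree < (c * r : Polynomial (KK k)).natDegree := by
      rw [hdeg]
      exact lt_of_le_of_lt (Finset.le_sup (f := Polynomial.natDegree) hg) hr1
    have hsum : (g + c * r).natDegree = r.natDegree := by
      rw [Polynomial.natDegree_add_eq_right_of_natDegree_lt hlt, hdeg]
    refine ⟨?_, ?_⟩
    · rw [hsum]
      exact lt_of_le_of_lt (Nat.zero_le _) hr1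
    · rw [hsum]
      exact hr2
theorem base_torsor {p : ℕ} [Fact p.Prime] {G : Type} [Group G] [Fintype G] [DecidableEq G]
    {P : Subgroup G} [Fintype P] (hP : IsPGroup p P) {k : Type} [Field k] [CharP k p]
    (DA DB : PT P (Polynomial k)) (a m : ℕ) (ha : 0 < a) :
    ∃ D : PT P (Polynomial (KK k)), GoodPT p (degSet p (KK k)) D ∧
      (∀ κA : DA.T →+* Om k, κA.comp DA.ι = (θ k).comp (px k) →
        ∃ (κ : D.T →+* Om k) (M : Matrix G G (A0 k)), κ.comp D.ι = φ0 k a 0 ∧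
          UM D κ = (1 + (PowerSeries.X : A0 k) ^ m • M).map (iA k) * UM DA κA) ∧
      ∀ κB : DB.T →+* Om k, κB.comp DB.ι = (θ k).comp (px k) →
        ∃ (κ : D.T →+* Om k) (M : Matrix G G (A0 k)), κ.comp D.ι = φ0 k 1 1 ∧
          UM D κ = (1 + (PowerSeries.X : A0 k) ^ m • M).map (iA k) * UM DB κB := by
  classical
  have hpk : (p : Polynomial k) = 0 := CharP.cast_eq_zero _ p
  have hpK : (p : Polynomial (KK k)) = 0 := CharP.cast_eq_zero _ p
  obtain ⟨DA', bA, hA, hAe⟩ := pt_baseChange hP hpk DA (β1 k)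
  obtain ⟨DB', bB, hB, hBe⟩ := pt_baseChange hP hpk DB (β1 k)
  obtain ⟨D', q1, q2, hq1, hq2, hq1e, hq2e⟩ := pt_prod DA' DB'
  obtain ⟨D0, β0, hβ0, hgood⟩ := pt_approx hpK ((α1 k a 0).prod (α1 k 1 1)) (degSet p (KK k))
    (bt_app a ha) P hP D'
  have hβ1 : IsEq D0 (α1 k a 0) DA' (q1.comp β0) := bt_comp hβ0 hq1
  have hβ2 : IsEq D0 (α1 k 1 1) DB' (q2.comp β0) := bt_comp hβ0 hq2
  obtain ⟨r1, N1, hr1, hc1⟩ := bt_coef hP hβ1
  obtain ⟨r2, N2, hr2, hc2⟩ := bt_coef hP hβ2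
  have hd : ∀ σ : P, ∃ (g : Polynomial (KK k)) (s1 s2 : Pk k),
      r1 σ = α1 k a 0 g + algebraMap (Pk k) (R1 k) (PowerSeries.X ^ (m + N1 + N2) * s1) ∧
      r2 σ = α1 k 1 1 g + algebraMap (Pk k) (R1 k) (PowerSeries.X ^ (m + N1 + N2) * s2) := by
    intro σ
    obtain ⟨g, -, -, ⟨s1, h1⟩, s2, h2⟩ := exists_dense (p := p) (k := k) a ha (m + N1 + N2) 0
      (r1 σ) (r2 σ)
    exact ⟨g, s1, s2, h1, h2⟩
  choose g s1 s2 hs1 hs2 using hd
  obtain ⟨r, t1, t2, hrsum, ht1, ht2⟩ : ∃ (r : P → Polynomial (KK k)) (t1 t2 : P → Pk k),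
      ∑ σ, r σ = 1 ∧
      (∀ σ, r1 σ = α1 k a 0 (r σ) +
        algebraMap (Pk k) (R1 k) (PowerSeries.X ^ (m + N1 + N2) * t1 σ)) ∧
      ∀ σ, r2 σ = α1 k 1 1 (r σ) +
        algebraMap (Pk k) (R1 k) (PowerSeries.X ^ (m + N1 + N2) * t2 σ) := by
    refine ⟨fun σ => g σ + (if σ = 1 then 1 - ∑ τ, g τ else 0),
      fun σ => s1 σ - (if σ = 1 then ∑ τ, s1 τ else 0),
      fun σ => s2 σ - (if σ = 1 then ∑ τ, s2 τ else 0), ?_, ?_, ?_⟩
    · rw [Finset.sum_add_distrib, Finset.sum_ite_eq' Finset.univ (1 : P),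
        if_pos (Finset.mem_univ _)]
      ring
    · have h1 : α1 k a 0 (1 - ∑ τ, g τ) =
          algebraMap (Pk k) (R1 k) (PowerSeries.X ^ (m + N1 + N2) * ∑ τ, s1 τ) := by
        have h2 : ∑ τ, r1 τ = ∑ τ, (α1 k a 0 (g τ) +
            algebraMap (Pk k) (R1 k) (PowerSeries.X ^ (m + N1 + N2) * s1 τ)) :=
          Finset.sum_congr rfl fun τ _ => hs1 τ
        rw [hr1, Finset.sum_add_distrib, ← map_sum, ← map_sum, ← Finset.mul_sum] at h2
        rw [map_sub, map_one, h2]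
        ring
      intro σ
      by_cases hσ : σ = 1
      · simp only [if_pos hσ]
        have h3 : algebraMap (Pk k) (R1 k) (PowerSeries.X ^ (m + N1 + N2) * s1 σ) =
            algebraMap (Pk k) (R1 k) (PowerSeries.X ^ (m + N1 + N2) * ∑ τ, s1 τ) +
              algebraMap (Pk k) (R1 k)
                (PowerSeries.X ^ (m + N1 + N2) * (s1 σ - ∑ τ, s1 τ)) := by
          rw [← map_add]
          congr 1
          ring
        rw [map_add, h1, hs1 σ, h3]
        ring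
      · simp only [if_neg hσ]
        rw [add_zero, sub_zero]
        exact hs1 σ
    · have h1 : α1 k 1 1 (1 - ∑ τ, g τ) =
          algebraMap (Pk k) (R1 k) (PowerSeries.X ^ (m + N1 + N2) * ∑ τ, s2 τ) := by
        have h2 : ∑ τ, r2 τ = ∑ τ, (α1 k 1 1 (g τ) +
            algebraMap (Pk k) (R1 k) (PowerSeries.X ^ (m + N1 + N2) * s2 τ)) :=
          Finset.sum_congr rfl fun τ _ => hs2 τ
        rw [hr2, Finset.sum_add_distrib, ← map_sum, ← map_sum, ← Finset.mul_sum] at h2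
        rw [map_sub, map_one, h2]
        ring
      intro σ
      by_cases hσ : σ = 1
      · simp only [if_pos hσ]
        have h3 : algebraMap (Pk k) (R1 k) (PowerSeries.X ^ (m + N1 + N2) * s2 σ) =
            algebraMap (Pk k) (R1 k) (PowerSeries.X ^ (m + N1 + N2) * ∑ τ, s2 τ) +
              algebraMap (Pk k) (R1 k)
                (PowerSeries.X ^ (m + N1 + N2) * (s2 σ - ∑ τ, s2 τ)) := by
          rw [← map_add]
          congr 1
          ring
        rw [map_add, h1, hs2 σ, h3]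
        ring
      · simp only [if_neg hσ]
        rw [add_zero, sub_zero]
        exact hs2 σ
  have he1 : ∑ τ, D0.act τ (∑ σ, D0.ι (r σ) * D0.act σ D0.e) = 1 := by
    rw [bt_tr D0 D0.e D0.tr r, hrsum, map_one]
  obtain ⟨M1, hM1⟩ := hc1 m r (fun σ => PowerSeries.X ^ N2 * t1 σ) (fun σ => by
    rw [ht1 σ, pow_add, mul_assoc])
  obtain ⟨M2, hM2⟩ := hc2 m r (fun σ => PowerSeries.X ^ N1 * t2 σ) (fun σ => by
    rw [ht2 σ]
    congr 2
    ring)
  refine ⟨D0.withE _ he1, hgood, ?_, ?_⟩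
  · intro κA hκA
    exact bt_place hP hβ1 hA hAe m _ he1 M1 hM1 κA hκA
  · intro κB hκB
    exact bt_place hP hβ2 hB hBe m _ he1 M2 hM2 κB hκB

end Pool.Agent.Helper54.SJ
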