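import Pool.Agent.Helper54.SJ.Defs

/-!
# SJ-01: convolution inverses over a p-group in characteristic p

PROOF.  Write `(a * b)(ρ) = ∑_σ a(σ) b(σ⁻¹ ρ)` (this is the product of the group algebra `T[P]`; feel free to
work in `MonoidAlgebra T P`).  Claim: every `x` with `∑ x σ` a unit of `T` is invertible.  Induction on the
order of `P`.  If `P` is trivial it is clear.  Otherwise choose `z` in the center of `P` of order `p`
(`IsPGroup.center_nontrivial`, Cauchy) and let `Q = P / ⟨z⟩`.  The map `T[P] → T[Q]` is surjective with kernel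
`(z - 1) T[P]` (an element with zero sums over the cosets of `⟨z⟩` is a combination of `σ z^i - σ`, and
`z^i - 1` is a multiple of `z - 1`).  By induction the image of `x` has an inverse in `T[Q]`; lift it to `y`:
`x y = 1 + (z - 1) c`.  As `z - 1` is central and `(z - 1)^p = z^p - 1 = 0` (characteristic `p`:
`add_pow_char` for commuting elements, or `(p : T) = 0` and the binomial theorem), `(z - 1) c` is nilpotent, so
`x y` is a unit; the same for `y x`; so `x` has a right and a left inverse and they agree.
(Alternative: it is enough to see that left multiplication by `x` on `T[P] = T^P` has unit determinant; modulo a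
maximal ideal of `T` we are over a field `F` of characteristic `p`; the kernel `W` of `v ↦ x v` on `F[P]` is
stable under right translations; if `W ≠ 0`, the `𝔽_p`-span of the right translates of one nonzero vector of `W`
is a finite `𝔽_p`-space, so it contains a nonzero vector fixed by `P` (orbit counting,
`IsPGroup.card_modEq_card_fixedPoints`), which is a multiple `c N` of `N = ∑ σ`, and `x N = (∑ x σ) N ≠ 0`.)
-/

set_option autoImplicit false

namespace Pool.Agent.Helper54.SJ

theorem conv_isUnit_of_both {A : Type*} [Monoid A] {x y : A} (h1 : IsUnit (x * y))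
    (h2 : IsUnit (y * x)) : IsUnit x := by
  obtain ⟨u, hu⟩ := h1
  obtain ⟨v, hv⟩ := h2
  have e1 : x * (y * ↑u⁻¹) = 1 := by rw [← mul_assoc, ← hu, Units.mul_inv]
  have e2 : (↑v⁻¹ * y) * x = 1 := by rw [mul_assoc, ← hv, Units.inv_mul]
  have e3 : (↑v⁻¹ * y) = (y * ↑u⁻¹) := left_inv_eq_right_inv e2 e1
  exact isUnit_iff_exists.2 ⟨y * ↑u⁻¹, e1, by rw [← e3]; exact e2⟩

/-- the augmentation -/
noncomputable def convAug (T P : Type) [CommRing T] [Group P] : MonoidAlgebra T P →+* T :=
  (MonoidAlgebra.lift T T P (1 : P →* T) : MonoidAlgebra T P →ₐ[T] T).toRingHom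

theorem convAug_single {T P : Type} [CommRing T] [Group P] (σ : P) (t : T) :
    convAug T P (MonoidAlgebra.single σ t) = t := by
  change (MonoidAlgebra.lift T T P (1 : P →* T)) (MonoidAlgebra.single σ t) = t
  rw [MonoidAlgebra.lift_single]
  simp

theorem convAug_map {T P : Type} [CommRing T] [Group P] (N : Subgroup P) [N.Normal]
    (x : MonoidAlgebra T P) :
    convAug T (P ⧸ N) (MonoidAlgebra.mapDomainRingHom T (QuotientGroup.mk' N) x) =
      convAug T P x := by
  induction x using MonoidAlgebra.induction_linear with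
  | zero => simp
  | add x y hx hy => rw [map_add, map_add, map_add, hx, hy]
  | single σ t =>
    rw [MonoidAlgebra.mapDomainRingHom_apply, MonoidAlgebra.mapDomain_single, convAug_single,
      convAug_single]

/-- the kernel of the map to the group algebra of the quotient by a central cyclic subgroup -/
theorem conv_kernel {T P : Type} [CommRing T] [Group P] (z : P) (hz : ∀ σ, Commute z σ)
    [(Subgroup.zpowers z).Normal] (hzf : IsOfFinOrder z) (x : MonoidAlgebra T P) :
    ∃ c, x - MonoidAlgebra.mapDomain (Quotient.out : P ⧸ Subgroup.zpowers z → P)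
      (MonoidAlgebra.mapDomainRingHom T (QuotientGroup.mk' (Subgroup.zpowers z)) x) =
      (MonoidAlgebra.single z (1 : T) - 1) * c := by
  induction x using MonoidAlgebra.induction_linear with
  | zero => exact ⟨0, by simp⟩
  | add x y hx hy =>
    obtain ⟨c, hc⟩ := hx
    obtain ⟨d, hd⟩ := hy
    refine ⟨c + d, ?_⟩
    rw [map_add, MonoidAlgebra.mapDomain_add, mul_add, ← hc, ← hd]
    abel
  | single σ t =>
    rw [MonoidAlgebra.mapDomainRingHom_apply, MonoidAlgebra.mapDomain_single,
      MonoidAlgebra.mapDomain_single]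
    have h1 : (QuotientGroup.mk' (Subgroup.zpowers z) σ).out⁻¹ * σ ∈ Subgroup.zpowers z := by
      rw [← QuotientGroup.eq]
      exact Quotient.out_eq _
    have h2 : σ⁻¹ * (QuotientGroup.mk' (Subgroup.zpowers z) σ).out ∈ Subgroup.zpowers z := by
      have h3 := inv_mem h1
      rwa [mul_inv_rev, inv_inv] at h3
    obtain ⟨i, hi⟩ := Submonoid.mem_powers_iff _ _ |>.1 (hzf.mem_powers_iff_mem_zpowers.2 h2)
    have h4 : (QuotientGroup.mk' (Subgroup.zpowers z) σ).out = z ^ i * σ := by
      rw [((hz σ).pow_left i).eq, hi]
      group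
    refine ⟨-((∑ j ∈ Finset.range i, (MonoidAlgebra.single z (1 : T)) ^ j) *
      MonoidAlgebra.single σ t), ?_⟩
    rw [mul_neg, ← mul_assoc, mul_geom_sum, MonoidAlgebra.single_pow, one_pow, h4, sub_mul, one_mul,
      MonoidAlgebra.single_mul_single, one_mul, neg_sub]

theorem conv_triv {T P : Type} [CommRing T] [Group P] [Subsingleton P] (x : MonoidAlgebra T P) :
    x = MonoidAlgebra.single 1 (convAug T P x) := by
  induction x using MonoidAlgebra.induction_linear with
  | zero => simp
  | add x y hx hy =>
    rw [map_add, MonoidAlgebra.single_add]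
    exact congrArg₂ (· + ·) hx hy
  | single σ t => rw [convAug_single, Subsingleton.elim σ 1]

theorem conv_out {T P : Type} [CommRing T] [Group P] (N : Subgroup P) [N.Normal]
    (y : MonoidAlgebra T (P ⧸ N)) :
    MonoidAlgebra.mapDomain (QuotientGroup.mk' N)
      (MonoidAlgebra.mapDomain (Quotient.out : P ⧸ N → P) y) = y := by
  induction y using MonoidAlgebra.induction_linear with
  | zero => simp
  | add x y hx hy => rw [MonoidAlgebra.mapDomain_add, MonoidAlgebra.mapDomain_add, hx, hy]
  | single σ t =>
    rw [MonoidAlgebra.mapDomain_single, MonoidAlgebra.mapDomain_single]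
    congr 1
    exact Quotient.out_eq _

theorem conv_isUnit (p : ℕ) [Fact p.Prime] (T : Type) [CommRing T] (hT : (p : T) = 0) (n : ℕ) :
    ∀ (P : Type) [Group P] [Finite P], Nat.card P ≤ n → IsPGroup p P →
      ∀ x : MonoidAlgebra T P, IsUnit (convAug T P x) → IsUnit x := by
  rcases subsingleton_or_nontrivial T with hsub | hnt
  · intro P _ _ _ _ x _
    have : Subsingleton (MonoidAlgebra T P) := inferInstance
    exact isUnit_of_subsingleton x
  induction n with
  | zero =>
    intro P _ _ h1
    have := Nat.card_pos (α := P)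
    omega
  | succ n ih =>
    intro P _ _ hn hP x hx
    rcases subsingleton_or_nontrivial P with hs | hs
    · -- trivial group
      have h1 := conv_triv x
      rw [h1]
      exact hx.map (MonoidAlgebra.singleOneRingHom : T →+* MonoidAlgebra T P)
    · have hcen := hP.center_nontrivial
      obtain ⟨⟨z, hzc⟩, hz1⟩ := exists_ne (1 : Subgroup.center P)
      have hz1' : z ≠ 1 := fun h => hz1 (Subtype.ext h)
      have hz : ∀ σ, Commute z σ := fun σ => (Subgroup.mem_center_iff.1 hzc σ).symm
      have hnor : (Subgroup.zpowers z).Normal := by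
        refine ⟨fun g hg h => ?_⟩
        obtain ⟨i, rfl⟩ := hg
        have h2 : h * z ^ i * h⁻¹ = z ^ i := by
          rw [← ((hz h).zpow_left i).eq]
          group
        simp only
        rw [h2]
        exact ⟨i, rfl⟩
      have hfin : IsOfFinOrder z := isOfFinOrder_of_finite z
      have hcard : Nat.card (P ⧸ Subgroup.zpowers z) ≤ n := by
        have h3 := Subgroup.card_eq_card_quotient_mul_card_subgroup (Subgroup.zpowers z)
        have h4 : 2 ≤ Nat.card (Subgroup.zpowers z) := by
          rw [Nat.card_zpowers]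
          have h5 := orderOf_eq_one_iff.not.2 hz1'
          have h6 := hfin.orderOf_pos
          omega
        have h7 := Nat.card_pos (α := P ⧸ Subgroup.zpowers z)
        nlinarith
      let f := MonoidAlgebra.mapDomainRingHom T (QuotientGroup.mk' (Subgroup.zpowers z))
      have hfx : IsUnit (f x) := ih (P ⧸ Subgroup.zpowers z) hcard (hP.to_quotient _) (f x) (by
        rw [convAug_map]
        exact hx)
      obtain ⟨y', hy1, hy2⟩ := isUnit_iff_exists.1 hfx
      have hchar : CharP (MonoidAlgebra T P) p := by
        rw [CharP.charP_iff_prime_eq_zero Fact.out]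
        rw [MonoidAlgebra.natCast_def, hT]
        simp
      obtain ⟨k, hk⟩ := hP z
      have hnil : (MonoidAlgebra.single z (1 : T) - 1) ^ p ^ k = 0 := by
        rw [sub_pow_char_pow_of_commute _ _ (Commute.one_right _), MonoidAlgebra.single_pow, one_pow,
          one_pow, hk, ← MonoidAlgebra.one_def, sub_self]
      have hcomm : ∀ c : MonoidAlgebra T P, Commute (MonoidAlgebra.single z (1 : T) - 1) c :=
        fun c => (MonoidAlgebra.single_commute hz (fun r => Commute.one_left r) c).sub_left
          (Commute.one_left c)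
      let y := MonoidAlgebra.mapDomain (Quotient.out : P ⧸ Subgroup.zpowers z → P) y'
      have hfy : f y = y' := conv_out _ y'
      have key : ∀ w : MonoidAlgebra T P, f w = 1 → IsUnit w := by
        intro w hw
        obtain ⟨c, hc⟩ := conv_kernel z hz hfin w
        obtain ⟨d, hd⟩ := conv_kernel (T := T) z hz hfin 1
        change w - MonoidAlgebra.mapDomain _ (f w) = _ at hc
        change 1 - MonoidAlgebra.mapDomain _ (f 1) = _ at hd
        rw [hw] at hc
        rw [map_one] at hd
        have h8 : w = 1 + (MonoidAlgebra.single z (1 : T) - 1) * (c - d) := by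
          rw [mul_sub, ← hc, ← hd]
          abel
        rw [h8]
        refine IsNilpotent.isUnit_one_add ⟨p ^ k, ?_⟩
        rw [(hcomm (c - d)).mul_pow, hnil, zero_mul]
      refine conv_isUnit_of_both (y := y) (key _ ?_) (key _ ?_)
      · rw [map_mul, hfy, hy1]
      · rw [map_mul, hfy, hy2]

theorem exists_conv_inv {p : ℕ} [Fact p.Prime] {P : Type} [Group P] [Fintype P] [DecidableEq P]
    (hP : IsPGroup p P) {T : Type} [CommRing T] (hT : (p : T) = 0) (x : P → T)
    (hx : ∑ σ, x σ = 1) :
    ∃ y : P → T, (∀ ρ, ∑ σ, x σ * y (σ⁻¹ * ρ) = if ρ = 1 then 1 else 0) ∧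
      ∀ ρ, ∑ σ, y σ * x (σ⁻¹ * ρ) = if ρ = 1 then 1 else 0 := by
  let X : MonoidAlgebra T P := ∑ σ, MonoidAlgebra.single σ (x σ)
  have hX : ∀ σ, X.coeff σ = x σ := by
    intro σ
    simp only [X, MonoidAlgebra.coeff_sum, MonoidAlgebra.coeff_single, Finsupp.finsetSum_apply]
    rw [Finset.sum_eq_single σ]
    · simp
    · intro τ _ hτ
      rw [Finsupp.single_eq_of_ne]
      exact fun h => hτ h.symm
    · intro h
      exact absurd (Finset.mem_univ σ) h
  have hu : IsUnit X := by
    refine conv_isUnit p T hT (Nat.card P) P le_rfl hP X ?_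
    have h1 : convAug T P X = 1 := by
      rw [map_sum]
      simp_rw [convAug_single]
      exact hx
    rw [h1]
    exact isUnit_one
  obtain ⟨Y, h1, h2⟩ := isUnit_iff_exists.1 hu
  have hmul : ∀ (A B : MonoidAlgebra T P) (ρ : P),
      (A * B).coeff ρ = ∑ σ, A.coeff σ * B.coeff (σ⁻¹ * ρ) := by
    intro A B ρ
    rw [MonoidAlgebra.coeff_mul_antidiag A B ρ (Finset.univ.image (fun σ => (σ, σ⁻¹ * ρ)))]
    · rw [Finset.sum_image]
      intro a _ b _ hab
      exact (Prod.ext_iff.1 hab).1
    · intro q
      rw [Finset.mem_image]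
      constructor
      · rintro ⟨σ, -, rfl⟩
        simp
      · intro h
        refine ⟨q.1, Finset.mem_univ _, ?_⟩
        rw [← h]
        simp
  have hone : ∀ ρ : P, (1 : MonoidAlgebra T P).coeff ρ = if ρ = 1 then 1 else 0 := by
    intro ρ
    rw [MonoidAlgebra.one_def, MonoidAlgebra.coeff_single, Finsupp.single_apply]
    simp only [eq_comm]
  refine ⟨fun σ => Y.coeff σ, ?_, ?_⟩
  · intro ρ
    rw [← hone ρ, ← h1, hmul]
    simp_rw [hX]
  · intro ρ
    rw [← hone ρ, ← h2, hmul]
    simp_rw [hX]

end Pool.Agent.Helper54.SJ
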