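import Pool.Agent.Helper54.FP.Inst
import Pool.Agent.Helper54.FP.LaurentMaps

/-!
# Galois algebras with a p-group (project SJ: strong joins)

`PT P R` is a commutative `R`-algebra `T` (structure map `ι`) with an action of the finite group `P` by ring
endomorphisms, fixed ring `R`, and an element `e` of trace one.  For a `p`-group `P` and `p = 0` in `R` these
are exactly the `P`-torsors over `R` (with a normal basis generator `e`).
-/

set_option autoImplicit false
open scoped Pointwise

namespace Pool.Agent.Helper54.SJ
open Pool.Agent.Helper54.FP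

/-- a Galois algebra over `R` with group `P` and an element `e` of trace one -/
structure PT (P : Type) [Group P] [Fintype P] (R : Type) [CommRing R] where
  T : Type
  [ring : CommRing T]
  ι : R →+* T
  act : P → T →+* T
  act_one : act 1 = RingHom.id T
  act_mul : ∀ σ τ, act (σ * τ) = (act σ).comp (act τ)
  act_ι : ∀ σ, (act σ).comp ι = ι
  fix : ∀ t, (∀ σ, act σ t = t) → ∃ r, ι r = t
  inj : Function.Injective ι
  e : T
  tr : ∑ σ, act σ e = 1

attribute [instance] PT.ring

/-- the same algebra with another element of trace one -/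
def PT.withE {P : Type} [Group P] [Fintype P] {R : Type} [CommRing R] (D : PT P R) (e : D.T)
    (h : ∑ σ, D.act σ e = 1) : PT P R :=
  { D with e := e, tr := h }

/-- the same algebra, with the structure map composed with an automorphism of `R` -/
def PT.pull {P : Type} [Group P] [Fintype P] {R : Type} [CommRing R] (D : PT P R) (ψ : R ≃+* R) :
    PT P R :=
  { D with
    ι := D.ι.comp (ψ : R →+* R)
    act_ι := fun σ => by rw [← RingHom.comp_assoc, D.act_ι]
    fix := fun t ht => by
      obtain ⟨r, hr⟩ := D.fix t ht
      exact ⟨ψ.symm r, by simpa using hr⟩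
    inj := D.inj.comp ψ.injective }

/-- equivariant ring homomorphisms over a homomorphism `α` of the base rings -/
structure IsEq {P : Type} [Group P] [Fintype P] {R R' : Type} [CommRing R] [CommRing R']
    (D : PT P R) (α : R →+* R') (D' : PT P R') (β : D.T →+* D'.T) : Prop where
  comm : β.comp D.ι = D'.ι.comp α
  equi : ∀ σ, β.comp (D.act σ) = (D'.act σ).comp β

/-- the base change of `D` along `γ` is a domain -/
def Conn {P : Type} [Group P] [Fintype P] {R E : Type} [CommRing R] [CommRing E]
    (D : PT P R) (γ : R →+* E) : Prop :=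
  ∃ (D' : PT P E) (β : D.T →+* D'.T), IsEq D γ D' β ∧ IsDomain D'.T

/-- every nontrivial character `χ : P → ℤ/p` is given by an Artin-Schreier generator `w` with
`w ^ p - w` in `𝒢` -/
def GoodPT (p : ℕ) {P : Type} [Group P] [Fintype P] {R : Type} [CommRing R] (𝒢 : Set R)
    (D : PT P R) : Prop :=
  ∀ χ : P →* Multiplicative (ZMod p), χ ≠ 1 → ∃ (w : D.T) (g : R),
    (∀ σ, D.act σ w = w + (((χ σ).toAdd.val : ℕ) : D.T)) ∧ w ^ p - w = D.ι g ∧ g ∈ 𝒢

/-- polynomials of positive degree prime to `p` -/
def degSet (p : ℕ) (F : Type) [Field F] : Set (Polynomial F) :=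
  {g | 0 < g.natDegree ∧ ¬ p ∣ g.natDegree}

section matrices
variable {G : Type} [Group G] [Fintype G] [DecidableEq G] {P : Subgroup G} [Fintype P]
  {R Ω : Type} [CommRing R] [CommRing Ω]

/-- the fundamental matrix `∑_σ κ(σ⁻¹ e) [σ]` of a homomorphism `κ : T → Ω` -/
noncomputable def UM (D : PT P R) (κ : D.T →+* Ω) : Matrix G G Ω := fun i j =>
  ∑ σ : P, if i = (σ : G) * j then κ (D.act σ⁻¹ D.e) else 0

end matrices

/-- covers of the affine line over `F` with group `H`, the local cover at infinity being induced by a
`P`-torsor over the affine line: over `F((x))` the fundamental matrix is `C U(κ)` -/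
def PCovG (p : ℕ) {G : Type} [Group G] [Fintype G] [DecidableEq G] (F : Type) [Field F]
    (P : Subgroup G) [Fintype P] (H : Subgroup G) : Prop :=
  ∃ (D : PT P (Polynomial F)) (C : Matrix G G (LaurentSeries F)) (Ω : Type) (_ : Field Ω)
    (i : LaurentSeries F →+* Ω) (κ : D.T →+* Ω),
    κ.comp D.ι = i.comp (px F) ∧ IsUnit C ∧ FM p (i.comp (px F)) (C.map i * UM D κ) H

/-- the same with a `P`-torsor which is totally ramified at infinity: covers with inertia group `P` -/
def PCovR (p : ℕ) {G : Type} [Group G] [Fintype G] [DecidableEq G] (F : Type) [Field F]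
    (P : Subgroup G) [Fintype P] (H : Subgroup G) : Prop :=
  ∃ (D : PT P (Polynomial F)) (C : Matrix G G (LaurentSeries F)) (Ω : Type) (_ : Field Ω)
    (i : LaurentSeries F →+* Ω) (κ : D.T →+* Ω),
    GoodPT p (degSet p F) D ∧
    κ.comp D.ι = i.comp (px F) ∧ IsUnit C ∧ FM p (i.comp (px F)) (C.map i * UM D κ) H

/-- the affine substitution `X ↦ a + b X` -/
noncomputable def affE {F : Type} [Field F] (a b : F) (hb : b ≠ 0) : Polynomial F ≃+* Polynomial F :=
  RingEquiv.ofRingHom
    (Polynomial.compRingHom (Polynomial.C a + Polynomial.C b * Polynomial.X))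
    (Polynomial.compRingHom (Polynomial.C (-(b⁻¹ * a)) + Polynomial.C b⁻¹ * Polynomial.X))
    (by
      apply Polynomial.ringHom_ext
      · intro r
        simp
      · simp only [RingHom.comp_apply, Polynomial.coe_compRingHom_apply, Polynomial.X_comp,
          Polynomial.add_comp, Polynomial.mul_comp, Polynomial.C_comp, RingHom.id_apply]
        rw [mul_add, ← mul_assoc, ← Polynomial.C_mul, ← Polynomial.C_mul, inv_mul_cancel₀ hb,
          Polynomial.C_neg, map_one, one_mul]
        ring)
    (by
      apply Polynomial.ringHom_ext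
      · intro r
        simp
      · simp only [RingHom.comp_apply, Polynomial.coe_compRingHom_apply, Polynomial.X_comp,
          Polynomial.add_comp, Polynomial.mul_comp, Polynomial.C_comp, RingHom.id_apply]
        rw [mul_add, ← mul_assoc, ← Polynomial.C_mul, ← Polynomial.C_mul, mul_neg, ← mul_assoc,
          mul_inv_cancel₀ hb, one_mul, map_one, one_mul, Polynomial.C_neg]
        ring)

end Pool.Agent.Helper54.SJ
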