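import Pool.Agent.Helper54.SJ.Sub
import Pool.Agent.Helper54.SJ.Lift
import Pool.Agent.Helper54.FP.Descent

/-!
# SJ-25: a good Galois algebra over `K[X]` is defined over a finitely generated subalgebra

PROOF.  (`Evn`, `evn_poly`, `Evn.forall`, `Evn.and` of FP/Descent.lean.)  By `nb_exists` write
`D.e * act τ D.e = ∑ ι (m τ ρ) act ρ e`, and for every `χ ≠ 1` let `w_χ, g_χ` be given by `hD`,
`w_χ = ∑ ι (a χ ρ) act ρ e`; there are finitely many `χ`.  Let `c` be the product of the leading coefficients of all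
`g_χ` (nonzero) and let `S` be such that for `S ⊆ R` all `m τ ρ`, `a χ ρ`, `g_χ` are in the image of `R[X]` and
`c` and the leading coefficients of the `g_χ` are in `R`.  `pt_sub` with `α = mapRingHom R.val` (injective) gives `DR`,
`β`, and `w_χ = β w'_χ`; `β` is injective, so `act σ w'_χ = w'_χ + χ σ` and `w'_χ^p - w'_χ = DR.ι g'_χ` where
`g'_χ.map R.val = g_χ`.  If `l c ≠ 0` then `l` is nonzero at every leading coefficient (`c` is their product in `R`), so
`g'_χ.map l` has the degree of `g_χ`; `β' w'_χ` and `g'_χ.map l` show that `D'` is good.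
-/

set_option autoImplicit false
open Pool.Agent.Helper54.FP

namespace Pool.Agent.Helper54.SJ

theorem evn_pt {p : ℕ} [Fact p.Prime] {P : Type} [Group P] [Fintype P] (hP : IsPGroup p P)
    {k K : Type} [Field k] [Field K] [CharP K p] [Algebra k K] (D : PT P (Polynomial K))
    (hD : GoodPT p (degSet p K) D) :
    ∃ c : K, c ≠ 0 ∧ ∃ S : Finset K, ∀ R : Subalgebra k K, (S : Set K) ⊆ R →
      ∃ (hc : c ∈ R) (DR : PT P (Polynomial R)) (β : DR.T →+* D.T),
        IsEq DR (Polynomial.mapRingHom (R.val : R →+* K)) D β ∧ β DR.e = D.e ∧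
        ∀ l : R →ₐ[k] k, l ⟨c, hc⟩ ≠ 0 → ∀ (D' : PT P (Polynomial k)) (β' : DR.T →+* D'.T),
          IsEq DR (Polynomial.mapRingHom (l : R →+* k)) D' β' → GoodPT p (degSet p k) D' := by
  classical
  have hpK : ((p : ℕ) : Polynomial K) = 0 := by
    rw [← map_natCast (Polynomial.C : K →+* Polynomial K) p, CharP.cast_eq_zero, map_zero]
  have hmt : ∀ τ, ∃ m : P → Polynomial K,
      D.e * D.act τ D.e = ∑ ρ, D.ι (m ρ) * D.act ρ D.e :=
    fun τ => nb_exists hP hpK D D.e D.tr _
  choose m hm using hmt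
  haveI : Finite (P →* Multiplicative (ZMod p)) :=
    Finite.of_injective (fun χ : P →* Multiplicative (ZMod p) => (χ : P → Multiplicative (ZMod p)))
      DFunLike.coe_injective
  letI : Fintype (P →* Multiplicative (ZMod p)) := Fintype.ofFinite _
  have hχ : ∀ χ : P →* Multiplicative (ZMod p), ∃ (w : D.T) (g : Polynomial K), χ ≠ 1 →
      ((∀ σ, D.act σ w = w + (((χ σ).toAdd.val : ℕ) : D.T)) ∧ w ^ p - w = D.ι g ∧
        g ∈ degSet p K) := by
    intro χ
    by_cases h : χ = 1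
    · exact ⟨0, 0, fun h' => absurd h h'⟩
    · obtain ⟨w, g, h1, h2, h3⟩ := hD χ h
      exact ⟨w, g, fun _ => ⟨h1, h2, h3⟩⟩
  choose w g hw using hχ
  have ha : ∀ χ, ∃ a : P → Polynomial K, w χ = ∑ ρ, D.ι (a ρ) * D.act ρ D.e :=
    fun χ => nb_exists hP hpK D D.e D.tr _
  choose a haw using ha
  have E1 : Evn (fun R : Subalgebra k K => ∀ x ∈ (Finset.univ : Finset (P × P)),
      m x.1 x.2 ∈ Set.range (Polynomial.mapRingHom (R.val : R →+* K))) :=
    Evn.forall _ fun x _ => evn_poly _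
  have E2 : Evn (fun R : Subalgebra k K =>
      ∀ x ∈ (Finset.univ : Finset ((P →* Multiplicative (ZMod p)) × P)),
      a x.1 x.2 ∈ Set.range (Polynomial.mapRingHom (R.val : R →+* K))) :=
    Evn.forall _ fun x _ => evn_poly _
  have E3 : Evn (fun R : Subalgebra k K =>
      ∀ x ∈ (Finset.univ : Finset (P →* Multiplicative (ZMod p))),
      g x ∈ Set.range (Polynomial.mapRingHom (R.val : R →+* K))) :=
    Evn.forall _ fun x _ => evn_poly _
  obtain ⟨S, hS⟩ := E1.and (E2.and E3)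
  have hc0 : (∏ χ ∈ (Finset.univ.filter fun χ : P →* Multiplicative (ZMod p) => χ ≠ 1),
      (g χ).leadingCoeff) ≠ 0 := by
    refine Finset.prod_ne_zero_iff.2 fun χ h => ?_
    have h1 := (hw χ (Finset.mem_filter.1 h).2).2.2.1
    intro h0
    rw [Polynomial.leadingCoeff_eq_zero] at h0
    rw [h0, Polynomial.natDegree_zero] at h1
    exact lt_irrefl _ h1
  refine ⟨_, hc0, S, fun R hR => ?_⟩
  obtain ⟨h1, h2, h3⟩ := hS R hR
  have hm' : ∀ τ ρ, ∃ f : Polynomial R,
      Polynomial.mapRingHom (R.val : R →+* K) f = m τ ρ := fun τ ρ =>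
    h1 (τ, ρ) (Finset.mem_univ _)
  have ha' : ∀ χ ρ, ∃ f : Polynomial R,
      Polynomial.mapRingHom (R.val : R →+* K) f = a χ ρ := fun χ ρ =>
    h2 (χ, ρ) (Finset.mem_univ _)
  have hg' : ∀ χ, ∃ f : Polynomial R,
      Polynomial.mapRingHom (R.val : R →+* K) f = g χ := fun χ =>
    h3 χ (Finset.mem_univ _)
  choose m' hm' using hm'
  choose a' ha' using ha'
  choose g' hg' using hg'
  have hinj : Function.Injective (R.val : R →+* K) := Subtype.val_injective
  have hlc : ∀ χ, (g χ).leadingCoeff = (R.val : R →+* K) (g' χ).leadingCoeff := by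
    intro χ
    rw [← hg' χ, Polynomial.coe_mapRingHom]
    exact Polynomial.leadingCoeff_map_of_injective hinj (g' χ)
  have hcR : (∏ χ ∈ (Finset.univ.filter fun χ : P →* Multiplicative (ZMod p) => χ ≠ 1),
      (g χ).leadingCoeff) = (R.val : R →+* K)
        (∏ χ ∈ (Finset.univ.filter fun χ : P →* Multiplicative (ZMod p) => χ ≠ 1),
          (g' χ).leadingCoeff) := by
    rw [map_prod]
    exact Finset.prod_congr rfl fun χ _ => hlc χ
  have hc : (∏ χ ∈ (Finset.univ.filter fun χ : P →* Multiplicative (ZMod p) => χ ≠ 1),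
      (g χ).leadingCoeff) ∈ R := by
    rw [hcR]
    exact Subtype.property _
  obtain ⟨DR, β, hβ, hβe, hβi, hr⟩ := pt_sub hP hpK (Polynomial.mapRingHom (R.val : R →+* K))
    (by
      rw [Polynomial.coe_mapRingHom]
      exact Polynomial.map_injective _ hinj) D m' (by
      intro τ
      rw [hm τ]
      exact Finset.sum_congr rfl fun ρ _ => by rw [hm' τ ρ])
  refine ⟨hc, DR, β, hβ, hβe, ?_⟩
  intro l hl D' β' hβ' χ hχ
  obtain ⟨w1, hw1⟩ := hr (a' χ)
  have hw2 : β w1 = w χ := by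
    rw [hw1, haw χ]
    exact Finset.sum_congr rfl fun ρ _ => by rw [ha' χ ρ]
  obtain ⟨k1, k2, k3⟩ := hw χ hχ
  have e1 : ∀ σ, DR.act σ w1 = w1 + (((χ σ).toAdd.val : ℕ) : DR.T) := by
    intro σ
    apply hβi
    have h4 : β (DR.act σ w1) = D.act σ (β w1) := RingHom.congr_fun (hβ.equi σ) w1
    rw [h4, hw2, k1 σ, map_add, hw2, map_natCast]
  have e2 : w1 ^ p - w1 = DR.ι (g' χ) := by
    apply hβi
    have h4 : β (DR.ι (g' χ)) = D.ι (Polynomial.mapRingHom (R.val : R →+* K) (g' χ)) :=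
      RingHom.congr_fun hβ.comm (g' χ)
    rw [h4, hg' χ, map_sub, map_pow, hw2, k2]
  have hl2 : (l : R →+* k) (g' χ).leadingCoeff ≠ 0 := by
    intro h0
    apply hl
    have h5 : (⟨_, hc⟩ : R) =
        (∏ χ ∈ (Finset.univ.filter fun χ : P →* Multiplicative (ZMod p) => χ ≠ 1),
          (g' χ).leadingCoeff) := by
      apply hinj
      rw [← hcR]
      rfl
    rw [h5, map_prod]
    exact Finset.prod_eq_zero (Finset.mem_filter.2 ⟨Finset.mem_univ _, hχ⟩) h0
  have hdeg : ((g' χ).map (l : R →+* k)).natDegree = (g χ).natDegree := by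
    rw [Polynomial.natDegree_map_of_leadingCoeff_ne_zero _ hl2, ← hg' χ,
      Polynomial.coe_mapRingHom, Polynomial.natDegree_map_eq_of_injective hinj]
  refine ⟨β' w1, (g' χ).map (l : R →+* k), ?_, ?_, ?_⟩
  · intro σ
    have h4 : β' (DR.act σ w1) = D'.act σ (β' w1) := RingHom.congr_fun (hβ'.equi σ) w1
    rw [← h4, e1 σ, map_add, map_natCast]
  · have h4 : β' (DR.ι (g' χ)) = D'.ι (Polynomial.mapRingHom (l : R →+* k) (g' χ)) :=
      RingHom.congr_fun hβ'.comm (g' χ)
    rw [← map_pow, ← map_sub, e2, h4, Polynomial.coe_mapRingHom]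
  · refine ⟨?_, ?_⟩
    · rw [hdeg]
      exact k3.1
    · rw [hdeg]
      exact k3.2

end Pool.Agent.Helper54.SJ
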