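import Pool.Agent.Helper54.SJ.IsDom
import Pool.Agent.Helper54.SJ.Dom
import Pool.Agent.Helper54.SJ.Coc
import Pool.Agent.Helper54.FP.LaurentMaps
import Pool.Agent.Helper75.FP.LocalGlobal
import Pool.Agent.Helper54.PW.Basic
import Pool.Agent.Helper18.PW.Places1
import Pool.Agent.Helper51.PW.Degree
import Pool.Agent.Helper51.PW.ExistsF
import Pool.Agent.Helper51.PW.ThetaAux
import Pool.Agent.Helper79.PW.Transitive

/-!
# SJ-28: the local cover at infinity as a Galois algebra

PROOF.  Compare `exists_local` in Helper87/FP/LocalAS.lean.  `Ω` = algebraic closure of `k((x))`, `i` the inclusion,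
`j`, `B` from `exists_embedding` there (it is private: copy it), so by `local_global`: `σ ∈ range f` iff `σ y = y` for all
`y` with `j y ∈ range i`.  `M = {y | j y ∈ range i}` is an intermediate field with fixing subgroup `range f`
(as there), so `y ∈ M` iff `f σ y = y` for all `σ : P`.
Let `i_M : M → k((x))`, `i (i_M y) = j y`.  Let `DL : PT P M` have `T = L`, `ι` = inclusion, `act σ = f σ`; an element of
trace one exists: `c` with `∑ f σ c ≠ 0` by independence of characters (`linearIndependent_monoidHom`, `f` injective);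
the trace is in `M`; divide by it.  Let `D'`, `b` be the base change along `i_M` (`pt_baseChange`; `(p : M) = 0`).
`pt_lift` (`κ = j`, `φ = i`) gives `κ' : D'.T → Ω`, `κ' ∘ D'.ι = i`, `κ' ∘ b = j`.
`D'.T` is a domain by `pt_isDomain`: let `χ ≠ 1`, `act σ w = w + χ σ`, `w^p - w = 0`.  By `pt_h1` for `DL` (the cocycle
`σ ↦ χ σ`) there is `v : L` with `f σ v = v + χ σ`.  `b v - w` is fixed, so it is `D'.ι g`, and
`j v = κ' w + i g`; `(κ' w)^p = κ' w`, so `κ' w` is one of the elements `0, 1, …, p-1` of `Ω` and is in `range i`.  So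
`v ∈ M`, `f σ v = v`, `χ = 1`, a contradiction.  So `κ'` is injective (`pt_dom_inj`).
For `y : L` take `t = b y`: `κ' (act σ (b y)) = κ' (b (f σ y)) = j (f σ y)`.
* `exists_px`: a Laurent series is the sum of a polynomial in `1/x` and a power series `h` without constant term, and
  `h = w^p - w` for a power series `w` (`split_laurent` and `pos_part` in LocalAS.lean, private: copy them).
-/

set_option autoImplicit false
set_option linter.unusedSectionVars false
open Pool.Agent.Helper54.FP Pool.Agent.Helper54.PW
open scoped Pointwise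

namespace Pool.Agent.Helper54.SJ

section nf
variable {p : ℕ} [Fact p.Prime] {k : Type} [Field k] [IsAlgClosed k] [CharP k p]

/-- positive part: solve `w^p - w = h` for a power series `h` without constant term -/
private theorem pos_part (h : PowerSeries k) (hh : PowerSeries.constantCoeff h = 0) :
    ∃ w : PowerSeries k, w ^ p - w = h := by
  have hp : p.Prime := Fact.out
  have hcp : CharP (PowerSeries k) p :=
    charP_of_injective_ringHom (f := (PowerSeries.C : k →+* PowerSeries k))
      (RingHom.injective _) p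
  let I : Ideal (PowerSeries k) := Ideal.span {PowerSeries.X}
  have hI : IsAdicComplete I (PowerSeries k) := inferInstance
  have hhI : h ∈ I := by
    rw [Ideal.mem_span_singleton, PowerSeries.X_dvd_iff]
    exact hh
  let f : Polynomial (PowerSeries k) := Polynomial.X ^ p - (Polynomial.X + Polynomial.C h)
  have hf : f.Monic := by
    apply Polynomial.monic_X_pow_sub
    rw [Polynomial.degree_X_add_C]
    exact_mod_cast hp.one_lt
  have hd : f.derivative = -1 := by
    simp only [f, Polynomial.derivative_sub, Polynomial.derivative_add, Polynomial.derivative_X,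
      Polynomial.derivative_C, Polynomial.derivative_X_pow, CharP.cast_eq_zero, map_zero,
      zero_mul, add_zero, zero_sub]
  obtain ⟨a, ha, -⟩ := HenselianRing.is_henselian (I := I) f hf 0 (by
      simp only [f, Polynomial.eval_sub, Polynomial.eval_add, Polynomial.eval_pow,
        Polynomial.eval_X, Polynomial.eval_C]
      rw [zero_pow hp.ne_zero, zero_add, zero_sub]
      exact I.neg_mem hhI) (by
      rw [hd]
      apply IsUnit.map
      rw [Polynomial.eval_neg, Polynomial.eval_one]
      exact isUnit_one.neg)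
  refine ⟨a, ?_⟩
  have h1 : f.eval a = 0 := ha
  simp only [f, Polynomial.eval_sub, Polynomial.eval_add, Polynomial.eval_pow,
    Polynomial.eval_X, Polynomial.eval_C] at h1
  linear_combination h1

/-- a Laurent series is the sum of a polynomial in `1/x` and a power series without constant term -/
private theorem split_laurent (m : LaurentSeries k) :
    ∃ (g : Polynomial k) (h : PowerSeries k), PowerSeries.constantCoeff h = 0 ∧
      m = px k g + algebraMap (PowerSeries k) (LaurentSeries k) h := by
  classical
  obtain ⟨N, hN⟩ : ∃ N : ℕ, ∀ n : ℤ, n < -(N : ℤ) → m.coeff n = 0 := by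
    refine ⟨m.order.natAbs, fun n hn => ?_⟩
    apply HahnSeries.coeff_eq_zero_of_lt_order
    omega
  refine ⟨∑ n ∈ Finset.range (N + 1), Polynomial.monomial n (m.coeff (-(n : ℤ))),
    PowerSeries.mk (fun n => if n = 0 then 0 else m.coeff (n : ℤ)), ?_, ?_⟩
  · rw [← PowerSeries.coeff_zero_eq_constantCoeff_apply, PowerSeries.coeff_mk, if_pos rfl]
  · ext n
    rw [HahnSeries.coeff_add, px_coeff]
    have e1 : (algebraMap (PowerSeries k) (LaurentSeries k)
        (PowerSeries.mk (fun n => if n = 0 then 0 else m.coeff (n : ℤ)))).coeff n =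
        if 0 < n then m.coeff n else 0 := by
      rw [algebraMap_coeff, PowerSeries.coeff_mk]
      by_cases hn : 0 < n
      · rw [if_neg (by omega), if_neg (by omega), if_pos hn]
        congr 1
        omega
      · rw [if_neg hn]
        by_cases hn2 : n < 0
        · rw [if_pos hn2]
        · rw [if_neg hn2, if_pos (by omega)]
    rw [e1]
    by_cases hn : n ≤ 0
    · obtain ⟨j, hj⟩ := Int.eq_ofNat_of_zero_le (show 0 ≤ -n by omega)
      have hn' : n = -(j : ℤ) := by omega
      subst hn'
      rw [if_pos hn, if_neg (by omega), add_zero, Polynomial.finsetSum_coeff]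
      simp only [neg_neg, Int.toNat_natCast, Polynomial.coeff_monomial]
      by_cases hj2 : j < N + 1
      · rw [Finset.sum_ite_eq_of_mem' _ _ _ (Finset.mem_range.2 hj2)]
      · rw [Finset.sum_eq_zero, hN _ (by omega)]
        intro b hb
        rw [Finset.mem_range] at hb
        rw [if_neg (by omega)]
    · rw [if_neg hn, if_pos (by omega), zero_add]

end nf

section aux

/-- the valuation ring of power series -/
private noncomputable def VK (k : Type) [Field k] : ValuationSubring (LaurentSeries k) :=
  (Valued.v : Valuation (LaurentSeries k) (WithZero (Multiplicative ℤ))).valuationSubring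

private theorem mem_VK {k : Type} [Field k] (f : LaurentSeries k) :
    f ∈ VK k ↔ ∃ g : PowerSeries k, algebraMap (PowerSeries k) (LaurentSeries k) g = f := by
  rw [VK, Valuation.mem_valuationSubring_iff, LaurentSeries.val_le_one_iff_eq_coe]
  rfl

private theorem rx_poly {k : Type} [Field k] (q : Polynomial k) :
    rx k (algebraMap (Polynomial k) (RatFunc k) q) = px k q := by
  rw [rx]
  exact RatFunc.liftRingHom_algebraMap _ _ _

private theorem rx_C {k : Type} [Field k] (c : k) :
    rx k (algebraMap k (RatFunc k) c) = HahnSeries.C c := by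
  rw [IsScalarTower.algebraMap_apply k (Polynomial k) (RatFunc k), rx_poly]
  simp [px]

private theorem rx_X {k : Type} [Field k] :
    rx k RatFunc.X = HahnSeries.single (-1 : ℤ) (1 : k) := by
  rw [← RatFunc.algebraMap_X, rx_poly]
  simp [px]

/-- existence of an embedding compatible with the given place -/
private theorem exists_embedding {k L : Type} [Field k] [IsAlgClosed k] [Field L]
    [Algebra (RatFunc k) L] [FiniteDimensional (RatFunc k) L] [IsGalois (RatFunc k) L]
    (A : ValuationSubring L) (hA : A ≠ ⊤)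
    (hAk : ∀ c : k, algebraMap (RatFunc k) L (algebraMap k (RatFunc k) c) ∈ A)
    (hX : tX k L ∉ A) (Ω : Type) [Field Ω] [IsAlgClosed Ω] (i : LaurentSeries k →+* Ω) :
    ∃ (j : L →+* Ω) (B : ValuationSubring Ω),
      (∀ r : RatFunc k, j (algebraMap (RatFunc k) L r) = i (rx k r)) ∧
      (∀ f : LaurentSeries k, i f ∈ B ↔
        ∃ g : PowerSeries k, algebraMap (PowerSeries k) (LaurentSeries k) g = f) ∧
      B.comap j = A := by
  let _ : Algebra (LaurentSeries k) Ω := i.toAlgebra
  let _ : Algebra k Ω := (i.comp (algebraMap k (LaurentSeries k))).toAlgebra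
  have : @IsScalarTower k (LaurentSeries k) Ω Algebra.toSMul Algebra.toSMul Algebra.toSMul :=
    IsScalarTower.of_algebraMap_eq (fun x => rfl)
  have hV : IsPlace k (VK k) := by
    refine ⟨fun h => ?_, fun c => ?_⟩
    · have h1 : (HahnSeries.single (-1 : ℤ) (1 : k) : LaurentSeries k) ∈ VK k := by
        rw [h]; trivial
      obtain ⟨g, hg⟩ := (mem_VK _).1 h1
      have h2 := congrArg (fun f : LaurentSeries k => f.coeff (-1)) hg
      simp only [algebraMap_coeff, HahnSeries.coeff_single_same] at h2
      rw [if_pos (by omega)] at h2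
      exact zero_ne_one h2
    · rw [mem_VK]
      refine ⟨algebraMap k (PowerSeries k) c, ?_⟩
      rw [LaurentSeries.coe_algebraMap]
      exact (HahnSeries.algebraMap_apply' ℤ c).symm
  obtain ⟨B, hB, hBV⟩ := exists_place_extension (Ω := Ω) (VK k) hV
  have hB' : ∀ f : LaurentSeries k, i f ∈ B ↔
      ∃ g : PowerSeries k, algebraMap (PowerSeries k) (LaurentSeries k) g = f := by
    intro f
    rw [← mem_VK, ← hBV]
    rfl
  let _ : Algebra (RatFunc k) Ω := (i.comp (rx k)).toAlgebra
  let j0 : L →ₐ[RatFunc k] Ω := IsAlgClosed.lift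
  have hj0 : ∀ r : RatFunc k, j0 (algebraMap (RatFunc k) L r) = i (rx k r) := fun r => j0.commutes r
  let _ : Algebra k L := ((algebraMap (RatFunc k) L).comp (algebraMap k (RatFunc k))).toAlgebra
  have : IsScalarTower k (RatFunc k) L := IsScalarTower.of_algebraMap_eq (fun x => rfl)
  have hFF : FF k L := ff_of_algebraic k L
  have hX' : tX k L ∉ B.comap (j0 : L →+* Ω) := by
    intro h
    rw [ValuationSubring.mem_comap] at h
    have h1 : i (HahnSeries.single (-1 : ℤ) (1 : k)) ∈ B := by
      rw [← rx_X, ← hj0]
      exact h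
    obtain ⟨g, hg⟩ := (hB' _).1 h1
    have h2 := congrArg (fun f : LaurentSeries k => f.coeff (-1)) hg
    simp only [algebraMap_coeff, HahnSeries.coeff_single_same] at h2
    rw [if_pos (by omega)] at h2
    exact zero_ne_one h2
  have hk' : ∀ c : k, algebraMap k L c ∈ B.comap (j0 : L →+* Ω) := by
    intro c
    rw [ValuationSubring.mem_comap]
    have h1 : (j0 : L →+* Ω) (algebraMap k L c) = i (HahnSeries.C c) := by
      rw [← rx_C]
      exact hj0 _
    rw [h1, hB']
    exact ⟨PowerSeries.C c, algebraMap_C_eq c⟩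
  have hpl : IsPlace k A := ⟨hA, hAk⟩
  have hpl' : IsPlace k (B.comap (j0 : L →+* Ω)) := by
    refine ⟨fun h => ?_, hk'⟩
    apply hX'
    rw [h]
    trivial
  obtain ⟨σ, hσ⟩ := places_transitive (M := RatFunc k) hFF A (B.comap (j0 : L →+* Ω)) hpl hpl' (by
    ext r
    rw [ValuationSubring.mem_comap, ValuationSubring.mem_comap,
      (mem_place_iff A hAk hX r).1, (mem_place_iff _ hk' hX' r).1])
  refine ⟨(j0 : L →+* Ω).comp (σ : L →+* L), B, fun r => ?_, hB', ?_⟩
  · rw [RingHom.comp_apply]
    have h1 : (σ : L →+* L) (algebraMap (RatFunc k) L r) = algebraMap (RatFunc k) L r :=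
      σ.commutes r
    rw [h1]
    exact hj0 r
  · ext x
    have h1 : x ∈ B.comap ((j0 : L →+* Ω).comp (σ : L →+* L)) ↔ σ x ∈ B.comap (j0 : L →+* Ω) :=
      Iff.rfl
    rw [h1, ← hσ, mem_smul_iff']
    have h2 : σ⁻¹ (σ x) = x := σ.symm_apply_apply x
    rw [h2]

end aux

section
variable {p : ℕ} [Fact p.Prime] {k : Type} [Field k] [IsAlgClosed k] [CharP k p]

theorem exists_px (r : LaurentSeries k) :
    ∃ (g : Polynomial k) (s : LaurentSeries k), r = px k g + (s ^ p - s) := by
  obtain ⟨g, h, hh, hm⟩ := split_laurent r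
  obtain ⟨w, hw⟩ := pos_part (p := p) h hh
  refine ⟨g, algebraMap _ _ w, ?_⟩
  rw [hm, ← hw, map_sub, map_pow]

theorem exists_local_pt {P : Type} [Group P] [Fintype P] (hP : IsPGroup p P) {L : Type} [Field L]
    [Algebra (RatFunc k) L] [FiniteDimensional (RatFunc k) L] [IsGalois (RatFunc k) L]
    (f : P →* (L ≃ₐ[RatFunc k] L)) (hf : Function.Injective f) (A : ValuationSubring L)
    (hA : A ≠ ⊤)
    (hAk : ∀ c : k, algebraMap (RatFunc k) L (algebraMap k (RatFunc k) c) ∈ A) (hX : tX k L ∉ A)
    (hst : ∀ σ : L ≃ₐ[RatFunc k] L, σ • A = A ↔ σ ∈ f.range) :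
    ∃ (Ω : Type) (_ : Field Ω) (i : LaurentSeries k →+* Ω) (j : L →+* Ω)
      (D' : PT P (LaurentSeries k)) (κ' : D'.T →+* Ω), Function.Injective κ' ∧
      κ'.comp D'.ι = i ∧ (∀ r : RatFunc k, j (algebraMap (RatFunc k) L r) = i (rx k r)) ∧
      ∀ y : L, ∃ t : D'.T, j y = κ' t ∧ ∀ σ : P, j (f σ y) = κ' (D'.act σ t) := by
  classical
  have hp : p.Prime := Fact.out
  have hcK : CharP (LaurentSeries k) p := inferInstance
  let Ω : Type := AlgebraicClosure (LaurentSeries k)
  let i : LaurentSeries k →+* Ω := algebraMap (LaurentSeries k) Ω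
  have hcΩ : CharP Ω p := charP_of_injective_ringHom (f := i) i.injective p
  have hcL : CharP L p := charP_of_injective_ringHom
    (f := (algebraMap (RatFunc k) L).comp (algebraMap k (RatFunc k))) (RingHom.injective _) p
  obtain ⟨j, B, hj, hB, hBA⟩ := exists_embedding A hA hAk hX Ω i
  have hlg : ∀ σ : L ≃ₐ[RatFunc k] L, σ ∈ f.range ↔
      ∀ y : L, j y ∈ Set.range i → σ y = y := by
    intro σ
    rw [← hst, ← hBA]
    exact local_global i j hj B hB σ
  -- the intermediate field
  let M : IntermediateField (RatFunc k) L :=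
    { carrier := {y | j y ∈ i.fieldRange}
      mul_mem' := fun {a b} ha hb => by
        change j (a * b) ∈ i.fieldRange
        rw [map_mul]
        exact mul_mem ha hb
      add_mem' := fun {a b} ha hb => by
        change j (a + b) ∈ i.fieldRange
        rw [map_add]
        exact add_mem ha hb
      algebraMap_mem' := fun r => ⟨rx k r, (hj r).symm⟩
      inv_mem' := fun a ha => by
        change j a⁻¹ ∈ i.fieldRange
        rw [map_inv₀]
        exact inv_mem ha }
  have hM : ∀ y : L, y ∈ M ↔ j y ∈ Set.range i := fun y => Iff.rfl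
  have hfix : M.fixingSubgroup = f.range := by
    ext σ
    rw [hlg, IntermediateField.mem_fixingSubgroup_iff]
    exact Iff.rfl
  have hfM : ∀ y : L, (∀ σ : P, f σ y = y) → y ∈ M := by
    intro y hy
    have h1 := IsGalois.fixedField_fixingSubgroup M
    rw [← h1, IntermediateField.mem_fixedField_iff]
    intro σ hσ
    rw [hfix] at hσ
    obtain ⟨s, rfl⟩ := hσ
    exact hy s
  have hMf : ∀ y ∈ M, ∀ σ : P, f σ y = y := fun y hy σ => (hlg (f σ)).1 ⟨σ, rfl⟩ y hy
  -- an element of trace one
  obtain ⟨c, hc⟩ : ∃ c : L, (∑ σ : P, f σ c) ≠ 0 := by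
    have hinj : Function.Injective (fun σ : P => ((f σ : L ≃ₐ[RatFunc k] L) : L →* L)) := by
      intro a b hab
      apply hf
      apply AlgEquiv.ext
      intro x
      exact DFunLike.congr_fun hab x
    have hli : LinearIndependent L
        (fun σ : P => (((f σ : L ≃ₐ[RatFunc k] L) : L →* L) : L → L)) :=
      (linearIndependent_monoidHom L L).comp _ hinj
    by_contra hcon
    push Not at hcon
    have h1 := (Fintype.linearIndependent_iff.1 hli) (fun _ => 1) (by
      funext c
      simpa using hcon c) 1
    exact one_ne_zero h1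
  have htr : ∀ τ : P, f τ (∑ σ : P, f σ c) = ∑ σ : P, f σ c := by
    intro τ
    rw [map_sum]
    refine Fintype.sum_equiv (Equiv.mulLeft τ) _ _ (fun σ => ?_)
    rw [Equiv.coe_mulLeft, map_mul]
    rfl
  let DL : PT P M :=
    { T := L
      ι := algebraMap M L
      act := fun σ => ((f σ : L ≃ₐ[RatFunc k] L) : L →+* L)
      act_one := by
        ext x
        rw [map_one]
        rfl
      act_mul := fun σ τ => by
        ext x
        rw [map_mul]
        rfl
      act_ι := fun σ => by
        ext x
        exact hMf x x.2 σ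
      fix := fun t ht => ⟨⟨t, hfM t ht⟩, rfl⟩
      inj := fun a b hab => Subtype.ext hab
      e := c / ∑ σ : P, f σ c
      tr := by
        have h1 : ∀ σ : P, ((f σ : L ≃ₐ[RatFunc k] L) : L →+* L) (c / ∑ σ : P, f σ c) =
            f σ c / ∑ σ : P, f σ c := by
          intro σ
          rw [map_div₀]
          congr 1
          exact htr σ
        simp only [h1]
        rw [← Finset.sum_div, div_self hc] }
  have hex : ∀ y : M, ∃ r : LaurentSeries k, i r = j y := fun y => (hM y).1 y.2
  choose g hg using hex
  let iM : M →+* LaurentSeries k :=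
    { toFun := g
      map_one' := i.injective (by rw [hg, map_one]; exact map_one j)
      map_mul' := fun a b => i.injective (by rw [hg, map_mul, hg, hg]; exact map_mul j _ _)
      map_zero' := i.injective (by rw [hg, map_zero]; exact map_zero j)
      map_add' := fun a b => i.injective (by rw [hg, map_add, hg, hg]; exact map_add j _ _) }
  have hpM : ((p : ℕ) : M) = 0 := by
    apply Subtype.ext
    simp
  obtain ⟨D', b, hb, -⟩ := pt_baseChange hP hpM DL iM
  obtain ⟨κ', hκ1, hκ2⟩ := pt_lift hP hpM hb j i (by
    ext y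
    exact (hg y).symm)
  have hbeq : ∀ (σ : P) (y : L), b (f σ y) = D'.act σ (b y) := fun σ y =>
    RingHom.congr_fun (hb.equi σ) y
  have hjb : ∀ y : L, κ' (b y) = j y := fun y => RingHom.congr_fun hκ2 y
  have hκι : ∀ r, κ' (D'.ι r) = i r := fun r => RingHom.congr_fun hκ1 r
  have hdom : IsDomain D'.T := by
    apply pt_isDomain (p := p) P hP D'
    intro χ hχ w hw heq
    apply hχ
    have hcast : ∀ (R : Type) [CommRing R] [CharP R p] (z : ZMod p),
        ((z.val : ℕ) : R) = ZMod.castHom (dvd_refl p) R z := by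
      intro R _ _ z
      rw [ZMod.castHom_apply, ZMod.natCast_val]
    obtain ⟨v, hv⟩ := pt_h1 DL (fun σ => (((χ σ).toAdd.val : ℕ) : L)) (by
      intro σ τ
      have h1 : DL.act σ (((χ τ).toAdd.val : ℕ) : L) = (((χ τ).toAdd.val : ℕ) : L) :=
        map_natCast (DL.act σ) _
      rw [h1]
      change (((χ (σ * τ)).toAdd.val : ℕ) : L) = (((χ σ).toAdd.val : ℕ) : L) +
        (((χ τ).toAdd.val : ℕ) : L)
      rw [hcast L, hcast L, hcast L, map_mul, toAdd_mul, map_add])
    have hv' : ∀ σ : P, f σ v = v + (((χ σ).toAdd.val : ℕ) : L) := by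
      intro σ
      have h1 : (((χ σ).toAdd.val : ℕ) : L) = f σ v - v := hv σ
      rw [h1]
      ring
    obtain ⟨g0, hg0⟩ := D'.fix (b v - w) (by
      intro σ
      rw [map_sub, ← hbeq, hv', map_add, map_natCast, hw]
      ring)
    have h2 : (κ' w) ^ p - κ' w = 0 := by
      rw [← map_pow, ← map_sub, heq, map_zero]
    have h3 : ∏ c : ZMod p, (κ' w - ZMod.castHom (dvd_refl p) Ω c) = 0 := by
      rw [prod_sub_castHom, wp_apply]
      exact h2
    obtain ⟨c', -, hc'⟩ := Finset.prod_eq_zero_iff.1 h3
    have h4 : v ∈ M := by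
      refine ⟨g0 + ZMod.castHom (dvd_refl p) (LaurentSeries k) c', ?_⟩
      have h5 : j v = κ' w + i g0 := by
        rw [← hκι, ← map_add, hg0, ← hjb]
        congr 1
        ring
      rw [map_add, castHom_map, h5]
      linear_combination -hc'
    ext σ
    have h5 := hMf v h4 σ
    rw [hv', add_eq_left, hcast L] at h5
    have h6 : (χ σ).toAdd = 0 := by
      apply (ZMod.castHom (dvd_refl p) L).injective
      rw [h5, map_zero]
    rw [MonoidHom.one_apply]
    exact toAdd_eq_zero.1 h6
  refine ⟨Ω, inferInstance, i, j, D', κ', ?_, hκ1, hj, fun y => ⟨b y, (hjb y).symm, fun σ => ?_⟩⟩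
  · apply pt_dom_inj D' κ'
    rw [hκ1]
    exact i.injective
  · rw [← hbeq, hjb]

end

end Pool.Agent.Helper54.SJ
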