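import Pool.Agent.Helper54.SJ.Conv

/-!
# SJ-02: an element of trace one generates a normal basis

PROOF.  `(p : D.T) = D.ι p = 0`.  Put `x σ = D.act σ e'`, and let `y` be the convolution inverse of
`exists_conv_inv`.  Convolution `(a * b)(ρ) = ∑_σ a(σ) b(σ⁻¹ ρ)` is associative with unit `[ρ = 1]`.
A vector `r : P → D.T` satisfies the system `(S)`: `∑_σ r σ * x (τ σ) = D.act τ t` for all `τ`, iff
`x * r' = t'` with `r' ν = r ν⁻¹`, `t' τ = D.act τ t` (put `μ = τ σ`), iff `r' = y * t'`.  So `(S)` has exactly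
one solution `r`.  Applying `D.act ρ` to `(S)` and replacing `τ` by `ρ⁻¹ τ` one sees that `D.act ρ ∘ r` is also a
solution, so `D.act ρ (r σ) = r σ` for all `ρ`, and `r σ = D.ι (r0 σ)` by `D.fix`.  The equation `τ = 1` of `(S)`
is `nb_exists`.  Uniqueness: from `∑ ι (r σ) act σ e' = 0`, applying all `D.act τ`, `ι ∘ r` solves `(S)` for
`t = 0`, so it is `0`, and `D.ι` is injective.
-/

set_option autoImplicit false

namespace Pool.Agent.Helper54.SJ

/-- the matrix of the normal basis system is invertible -/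
private theorem h86nb_inv {p : ℕ} [Fact p.Prime] {P : Type} [Group P] [Fintype P] [DecidableEq P]
    (hP : IsPGroup p P) {R : Type} [CommRing R] (hp : (p : R) = 0) (D : PT P R) (e' : D.T)
    (he : ∑ σ, D.act σ e' = 1) : ∃ N : Matrix P P D.T,
      (Matrix.of fun τ σ : P => D.act (τ * σ) e') * N = 1 ∧
      N * (Matrix.of fun τ σ : P => D.act (τ * σ) e') = 1 := by
  have hT : (p : D.T) = 0 := by rw [← map_natCast D.ι p, hp, map_zero]
  obtain ⟨y, hy, -⟩ := exists_conv_inv hP hT (fun σ => D.act σ e') he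
  have h1 : (Matrix.of fun τ σ : P => D.act (τ * σ) e') *
      (Matrix.of fun σ ρ : P => y (σ⁻¹ * ρ⁻¹)) = 1 := by
    ext τ ρ
    rw [Matrix.mul_apply]
    simp only [Matrix.of_apply]
    rw [← Equiv.sum_comp (Equiv.mulLeft τ⁻¹)]
    have h2 := hy (τ * ρ⁻¹)
    rw [Matrix.one_apply]
    have h3 : (τ * ρ⁻¹ = 1) ↔ τ = ρ := mul_inv_eq_one
    simp only [h3] at h2
    rw [← h2]
    apply Finset.sum_congr rfl
    intro μ _
    have e1 : τ * (Equiv.mulLeft τ⁻¹) μ = μ := by
      change τ * (τ⁻¹ * μ) = μ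
      group
    have e2 : ((Equiv.mulLeft τ⁻¹) μ)⁻¹ * ρ⁻¹ = μ⁻¹ * (τ * ρ⁻¹) := by
      change (τ⁻¹ * μ)⁻¹ * ρ⁻¹ = _
      group
    rw [e1, e2]
  exact ⟨_, h1, mul_eq_one_comm.1 h1⟩

private theorem h86nb_act {P : Type} [Group P] [Fintype P] {R : Type} [CommRing R] (D : PT P R)
    (σ τ : P) (t : D.T) : D.act σ (D.act τ t) = D.act (σ * τ) t := by
  rw [D.act_mul]; rfl

theorem nb_exists {p : ℕ} [Fact p.Prime] {P : Type} [Group P] [Fintype P] (hP : IsPGroup p P)
    {R : Type} [CommRing R] (hp : (p : R) = 0) (D : PT P R) (e' : D.T)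
    (he : ∑ σ, D.act σ e' = 1) (t : D.T) :
    ∃ r : P → R, t = ∑ σ, D.ι (r σ) * D.act σ e' := by
  classical
  obtain ⟨N, hMN, hNM⟩ := h86nb_inv hP hp D e' he
  set M : Matrix P P D.T := Matrix.of fun τ σ : P => D.act (τ * σ) e' with hM
  set t' : P → D.T := fun τ => D.act τ t with ht'
  set r : P → D.T := N.mulVec t' with hr
  have hS : M.mulVec r = t' := by
    rw [hr, Matrix.mulVec_mulVec, hMN, Matrix.one_mulVec]
  have hinj : ∀ a b : P → D.T, M.mulVec a = M.mulVec b → a = b := by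
    intro a b h
    have := congrArg (N.mulVec) h
    rwa [Matrix.mulVec_mulVec, Matrix.mulVec_mulVec, hNM, Matrix.one_mulVec,
      Matrix.one_mulVec] at this
  have hSe : ∀ τ, ∑ σ, D.act (τ * σ) e' * r σ = D.act τ t := by
    intro τ
    exact congrFun hS τ
  have hfix : ∀ ρ, (fun σ => D.act ρ (r σ)) = r := by
    intro ρ
    apply hinj
    rw [hS]
    funext τ
    change ∑ σ, D.act (τ * σ) e' * D.act ρ (r σ) = D.act τ t
    have h1 := congrArg (D.act ρ) (hSe (ρ⁻¹ * τ))
    rw [map_sum, h86nb_act, mul_inv_cancel_left] at h1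
    rw [← h1]
    apply Finset.sum_congr rfl
    intro σ _
    rw [map_mul, h86nb_act]
    congr 3
    group
  have hex : ∀ σ, ∃ a, D.ι a = r σ := by
    intro σ
    apply D.fix
    intro ρ
    exact congrFun (hfix ρ) σ
  choose r0 hr0 using hex
  refine ⟨r0, ?_⟩
  have h2 := hSe 1
  rw [D.act_one, RingHom.id_apply] at h2
  rw [← h2]
  apply Finset.sum_congr rfl
  intro σ _
  rw [hr0, one_mul, mul_comm]

theorem nb_unique {p : ℕ} [Fact p.Prime] {P : Type} [Group P] [Fintype P] (hP : IsPGroup p P)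
    {R : Type} [CommRing R] (hp : (p : R) = 0) (D : PT P R) (e' : D.T)
    (he : ∑ σ, D.act σ e' = 1) (r : P → R) (h : ∑ σ, D.ι (r σ) * D.act σ e' = 0) : r = 0 := by
  classical
  obtain ⟨N, hMN, hNM⟩ := h86nb_inv hP hp D e' he
  set M : Matrix P P D.T := Matrix.of fun τ σ : P => D.act (τ * σ) e' with hM
  have h1 : M.mulVec (fun σ => D.ι (r σ)) = 0 := by
    funext τ
    change ∑ σ, D.act (τ * σ) e' * D.ι (r σ) = 0
    have h2 := congrArg (D.act τ) h
    rw [map_sum, map_zero] at h2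
    rw [← h2]
    apply Finset.sum_congr rfl
    intro σ _
    have h3 : D.act τ (D.ι (r σ)) = D.ι (r σ) := RingHom.congr_fun (D.act_ι τ) (r σ)
    rw [map_mul, h86nb_act, h3, mul_comm]
  have h4 := congrArg (N.mulVec) h1
  rw [Matrix.mulVec_mulVec, hNM, Matrix.one_mulVec, Matrix.mulVec_zero] at h4
  funext σ
  apply D.inj
  have h5 := congrFun h4 σ
  rw [Pi.zero_apply, map_zero]
  exact h5

end Pool.Agent.Helper54.SJ
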