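import Pool.Agent.Helper54.SJ.Base
import Pool.Agent.Helper54.SJ.ConnPx
import Pool.Agent.Helper54.SJ.Transfer
import Pool.Agent.Helper54.SJ.Glue
import Pool.Agent.Helper54.SJ.Hom
import Pool.Agent.Helper54.FP.Step

/-!
# SJ-22: adding the inertia group

PROOF.  (Compare the proof of `patch_two` in FP/Patch2.lean, this is a part of it.)  Let `h` be
`(DB, C2, Ω2, i2, κB)`.  `conj_estimate` gives `m` for `C2`; `disc_cover'` gives `κ2 : DB.T → Om k` and, with the `e` of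
`exists_e1`, `FM p (φ1 k) (C2.map θ * UM DB κ2) H`.  `base_torsor` with `DA = DB`, `a = 1` and `m` gives `D` (good) and
for `κ2` (second part) `κ`, `M`.  `conn_α2` gives `Conn D (α2 k 1 1)`.  `step_b` gives `B1`, `B2` and
`FM p (φ0 k 1 1) (E.map φ2 * UM D κ) (H ⊔ P)`, `E = B2.map .. * C2.map θ2` (an invertible matrix over `R2 k`).
Infinity: `hB : R2 k → LaurentSeries (KK k)` of `exists_hB` satisfies `hB.comp (α2 k 1 1) = px (KK k)` (see `hBα` in
FP/Patch2.lean, `comp_α2`).  Let `i : LaurentSeries (KK k) → AlgebraicClosure`, and `κ∞ : D.T → AlgebraicClosure` with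
`κ∞ ∘ ι = i ∘ px` (`pt_hom`).  `rel_tr` (`γ0 = γ = α2 k 1 1`, `i = φ2 k` injective, `j = i ∘ hB`, `C = E`) gives
`Rel (φ0 k 1 1) (E.map φ2 * UM D κ) (i ∘ px) (E.map (i ∘ hB) * UM D κ∞)`, and `fm_transport` (the homomorphism
`i ∘ px` is injective) gives `FM p (i ∘ px) ((E.map hB).map i * UM D κ∞) (H ⊔ P)`.
-/

set_option autoImplicit false
open Pool.Agent.Helper54.FP

namespace Pool.Agent.Helper54.SJ

attribute [local irreducible] φ1 φ2 c1 c2 α1 α2 θ2 θ β1 t1 z1 w2 t2 iK φ0 lm px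

theorem patch_one {p : ℕ} [Fact p.Prime] {G : Type} [Group G] [Fintype G] [DecidableEq G]
    {P : Subgroup G} [Fintype P] (hP : IsPGroup p P) {k : Type} [Field k] [CharP k p]
    {H : Subgroup G} (h : PCovG p k P H) : PCovR p (KK k) P (H ⊔ P) := by
  have : CharP (KK k) p := charP_KK p k
  have : CharP (Om k) p := charP_Om p k
  obtain ⟨DB, C2, Ω2, _, i2, κB, hκB, hC2, hF2⟩ := h
  obtain ⟨m2, hm2⟩ := conj_estimate C2 hC2
  obtain ⟨κ2, L, _, ι, y, YL, hκ2, hy, -, hdisc2⟩ := disc_cover' hP DB κB hκB hF2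
  obtain ⟨e, he, hec, hez, heδ⟩ := exists_e1 ι y hy
  obtain ⟨hFM2, -⟩ := hdisc2 e he hec hez heδ
  obtain ⟨D, hgood, -, hB⟩ := base_torsor (G := G) hP DB DB 1 m2 one_pos
  obtain ⟨κ, M2, hκ, hU⟩ := hB κ2 hκ2
  have hc : Conn D (α2 k 1 1) := conn_α2 hP hgood
  obtain ⟨B1, B2, -, hB2, -, hFMB⟩ :=
    step_b hP DB C2 hC2 m2 hm2 κ2 hFM2 D hc κ hκ M2 hU
  obtain ⟨E, hE⟩ : ∃ E : Matrix G G (R2 k),
      E = B2.map (algebraMap (Pk k) (R2 k)) * C2.map (θ2 k) := ⟨_, rfl⟩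
  have hEu : IsUnit E := by
    rw [hE]
    exact (isUnit_map _ hB2).mul (isUnit_map _ hC2)
  rw [← hE] at hFMB
  -- infinity
  obtain ⟨hBh, hBc, hBw⟩ := exists_hB (k := k)
  have hss : (HahnSeries.single (-1 : ℤ) (1 : KK k) : LaurentSeries (KK k)) *
      HahnSeries.single (1 : ℤ) (1 : KK k) = 1 := by
    rw [HahnSeries.single_mul_single]
    simp
  have hpx : px (KK k) = Polynomial.eval₂RingHom (HahnSeries.C)
      (HahnSeries.single (-1 : ℤ) (1 : KK k)) := by
    apply Polynomial.ringHom_ext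
    · intro r
      rw [px_C, Polynomial.coe_eval₂RingHom, Polynomial.eval₂_C]
    · rw [px_X, Polynomial.coe_eval₂RingHom, Polynomial.eval₂_X]
  have hBα : hBh.comp (α2 k 1 1) = px (KK k) := by
    rw [hpx]
    apply comp_α2 hBh (HahnSeries.C : KK k →+* LaurentSeries (KK k)) hBc
    rw [map_one (HahnSeries.C : k →+* KK k),
      map_one (HahnSeries.C : KK k →+* LaurentSeries (KK k)), pow_one]
    have h1 := congrArg (fun x => x * (HahnSeries.single (-1 : ℤ) (1 : KK k) :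
      LaurentSeries (KK k))) hBw
    have h2 := hss
    beta_reduce at h1
    linear_combination h1 + (hBh (w2 k) + HahnSeries.C (HahnSeries.single (1 : ℤ) (1 : k))) * h2
  obtain ⟨i, hi⟩ : ∃ i : LaurentSeries (KK k) →+* AlgebraicClosure (LaurentSeries (KK k)),
      i = algebraMap _ _ := ⟨_, rfl⟩
  have hpz : (p : Polynomial (KK k)) = 0 := by
    have : CharP (Polynomial (KK k)) p := charP_KKX p k
    exact CharP.cast_eq_zero _ p
  obtain ⟨κi, hκi⟩ := pt_hom hP hpz D (i.comp (px (KK k)))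
  have hκ' : κ.comp D.ι = (φ2 k).comp (α2 k 1 1) := by rw [φ2_α2]; exact hκ
  have hκi' : κi.comp D.ι = (i.comp hBh).comp (α2 k 1 1) := by
    rw [RingHom.comp_assoc, hBα]
    exact hκi
  have hRel := rel_tr hP hpz D (α2 k 1 1) hc (α2 k 1 1) (φ2_injective k) κ hκ' κi hκi' E
  rw [φ2_α2, RingHom.comp_assoc, hBα] at hRel
  have hinj : Function.Injective (i.comp (px (KK k))) := i.injective.comp (px_injective _)
  obtain ⟨hfin, -⟩ := fm_transport hinj hFMB hRel
  refine ⟨D, E.map hBh, _, _, i, κi, hgood, hκi, isUnit_map _ hEu, ?_⟩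
  exact hfin

end Pool.Agent.Helper54.SJ
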