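import Pool.Agent.Helper54.SJ.Defs

/-!
# SJ-08: the quotient by a central element of order p

PROOF.  `(p : D.T) = 0`.  Let `N = ⟨z⟩`, `T1 = {t | act z t = t}` (a subring), `incl` = inclusion.  `act σ` maps `T1`
to itself (`z` central) and depends only on the class of `σ` there; `D1.act` (class of `σ`) = restriction of
`act σ` (`Quotient.out` or `QuotientGroup` lift).  `D1.ι` = `D.ι` with values in `T1`; `fix`, `inj` are inherited.
`D1.e = ∑_{n ∈ N} act n e` (fixed by `z`), and the trace of it over `P/N` is `∑_{σ ∈ P} act σ e = 1`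
(`P` is the disjoint union of the cosets; `groupQuotient` equivalence, `Fintype.sum_equiv` with
`Subgroup.groupEquivQuotientProdSubgroup`).
Let `f = ∑_{cosets q} act (q.out) e` with the factors arranged so that `∑_{i<p} act (z^i) f = ∑_{σ} act σ e = 1`
(`z` central, every element of `P` is uniquely `z^i q.out`).  Put `x = - ∑_{i<p} i * act (z^i) f`.  Then
`act z x = - ∑_{i<p} i * act (z^(i+1)) f = - ∑_{j=1}^{p} (j-1) act (z^j) f = x + 1` (the term `j = p` is
`(p-1) act 1 f = (0 - 1) f` as `p = 0`).  `act z (x^p - x) = (x+1)^p - (x+1) = x^p - x` (`p = 0`, binomial theorem;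
`D.T` has characteristic `p` or is trivial), so `x^p - x = incl m`.
Last statement: let `Δ = act z - id` (additive, `T1`-linear).  `Δ^p = act (z^p) - id = 0` (binomial coefficients).
Claim: for `n ≤ p`, if `Δ^n t = 0` then `t = ∑_{i<n} incl (a i) x^i`.  `n = 0`: `t = 0`.  Step `n → n+1 ≤ p`: if
`Δ^(n+1) t = 0` then `Δ t = ∑_{i<n} incl (a i) x^i` by induction, and every `x^i`, `i < n`, is `Δ` of a polynomial
in `x` of degree `≤ n` with coefficients in the prime ring (induction on `i`: `Δ x^(i+1) = (i+1) x^i + lower terms`,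
and `i + 1 < p` is invertible).  So `Δ (t - b) = 0` for a combination `b` of `x^0, …, x^n`, so `t - b ∈ T1`.
-/

set_option autoImplicit false

namespace Pool.Agent.Helper54.SJ

section quot

variable {p : ℕ} {P : Type} [Group P] [Fintype P] {R : Type} [CommRing R]
  (D : PT P R) (z : P)

/-- the fixed ring of `z` -/
private def T1 : Subring D.T where
  carrier := {t | D.act z t = t}
  mul_mem' := by
    intro a b ha hb
    change D.act z (a * b) = a * b
    rw [map_mul, ha, hb]
  one_mem' := map_one _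
  add_mem' := by
    intro a b ha hb
    change D.act z (a + b) = a + b
    rw [map_add, ha, hb]
  zero_mem' := map_zero _
  neg_mem' := by
    intro a ha
    change D.act z (-a) = -a
    rw [map_neg, ha]

private lemma mem_T1 {t : D.T} : t ∈ T1 D z ↔ D.act z t = t := Iff.rfl

private lemma act_mul_apply (σ τ : P) (t : D.T) : D.act (σ * τ) t = D.act σ (D.act τ t) := by
  rw [D.act_mul]; rfl

private lemma act_one_apply (t : D.T) : D.act 1 t = t := by
  rw [D.act_one]; rfl

private lemma act_pow_fix {t : D.T} (ht : t ∈ T1 D z) (i : ℕ) : D.act (z ^ i) t = t := by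
  induction i with
  | zero => rw [pow_zero, act_one_apply]
  | succ i ih => rw [pow_succ, act_mul_apply, ht, ih]

private lemma act_zpowers_fix {t : D.T} (ht : t ∈ T1 D z) {n : P} (hn : n ∈ Subgroup.zpowers z) :
    D.act n t = t := by
  rw [← mem_powers_iff_mem_zpowers] at hn
  obtain ⟨i, rfl⟩ := (Submonoid.mem_powers_iff _ _).1 hn
  exact act_pow_fix D z ht i

/-- the action of `P` on the fixed ring -/
private def res1 (hz : z ∈ Subgroup.center P) (σ : P) : T1 D z →+* T1 D z :=
  ((D.act σ).comp (T1 D z).subtype).codRestrict (T1 D z) (by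
    intro t
    change D.act z (D.act σ t) = D.act σ t
    rw [← act_mul_apply, ← (Subgroup.mem_center_iff.1 hz σ), act_mul_apply, t.2])

private lemma res1_coe (hz : z ∈ Subgroup.center P) (σ : P) (t : T1 D z) :
    ((res1 D z hz σ t : T1 D z) : D.T) = D.act σ t := rfl

private lemma act_class {σ τ : P} (h : (QuotientGroup.mk σ : P ⧸ Subgroup.zpowers z) =
    QuotientGroup.mk τ) (t : T1 D z) : D.act σ t = D.act τ t := by
  rw [QuotientGroup.eq] at h
  have h1 : τ = σ * (σ⁻¹ * τ) := by group
  rw [h1, act_mul_apply, act_zpowers_fix D z t.2 h]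

private lemma act_out (σ : P) (t : T1 D z) :
    D.act ((QuotientGroup.mk σ : P ⧸ Subgroup.zpowers z)).out t = D.act σ t :=
  act_class D z (Quotient.out_eq _) t

/-- the elements of `P` are the products of a representative and a power of `z` -/
private lemma bij_out (hp : 0 < p) (hzp : orderOf z = p) :
    Function.Bijective (fun x : (P ⧸ Subgroup.zpowers z) × Fin p => x.1.out * z ^ (x.2 : ℕ)) := by
  have hmk : ∀ (q : P ⧸ Subgroup.zpowers z) (i : ℕ),
      (QuotientGroup.mk (q.out * z ^ i) : P ⧸ Subgroup.zpowers z) = q := by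
    intro q i
    have h1 : (QuotientGroup.mk (q.out * z ^ i) : P ⧸ Subgroup.zpowers z) =
        QuotientGroup.mk q.out := by
      rw [QuotientGroup.eq]
      have e : (q.out * z ^ i)⁻¹ * q.out = (z ^ i)⁻¹ := by group
      rw [e]
      exact (Subgroup.zpowers z).inv_mem (Subgroup.pow_mem _ (Subgroup.mem_zpowers z) i)
    rw [h1]
    exact Quotient.out_eq q
  constructor
  · rintro ⟨q, i⟩ ⟨q', i'⟩ h
    simp only at h
    have h1 : q = q' := by
      rw [← hmk q i, h, hmk]
    subst h1
    have h2 : z ^ (i : ℕ) = z ^ (i' : ℕ) := mul_left_cancel h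
    have h3 : (i : ℕ) = (i' : ℕ) := pow_injOn_Iio_orderOf
      (by rw [Set.mem_Iio, hzp]; exact i.2) (by rw [Set.mem_Iio, hzp]; exact i'.2) h2
    rw [Fin.ext h3]
  · intro σ
    have h1 : ((QuotientGroup.mk σ : P ⧸ Subgroup.zpowers z).out)⁻¹ * σ ∈ Subgroup.zpowers z := by
      rw [← QuotientGroup.eq]
      exact Quotient.out_eq _
    rw [← mem_powers_iff_mem_zpowers] at h1
    obtain ⟨k, hk⟩ := (Submonoid.mem_powers_iff _ _).1 h1
    refine ⟨(QuotientGroup.mk σ, ⟨k % p, Nat.mod_lt _ hp⟩), ?_⟩
    simp only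
    rw [← hzp, pow_mod_orderOf, hk]
    group

variable [(Subgroup.zpowers z).Normal] [Fintype (P ⧸ Subgroup.zpowers z)]

omit [(Subgroup.zpowers z).Normal] in
private lemma sum_all (hp : 0 < p) (hzp : orderOf z = p) (t : D.T) :
    ∑ q : P ⧸ Subgroup.zpowers z, ∑ i ∈ Finset.range p, D.act (q.out * z ^ i) t =
      ∑ σ, D.act σ t := by
  rw [← (Equiv.ofBijective _ (bij_out z hp hzp)).sum_comp, Fintype.sum_prod_type]
  apply Finset.sum_congr rfl
  intro q _
  rw [Finset.sum_range]
  rfl

/-- the quotient algebra -/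
private noncomputable def quotPT (hp : 0 < p) (hz : z ∈ Subgroup.center P) (hzp : orderOf z = p) :
    PT (P ⧸ Subgroup.zpowers z) R where
  T := T1 D z
  ι := D.ι.codRestrict (T1 D z) (fun r => RingHom.congr_fun (D.act_ι z) r)
  act q := res1 D z hz q.out
  act_one := by
    ext t
    rw [res1_coe]
    have h1 := act_out D z (1 : P) t
    rw [QuotientGroup.mk_one, act_one_apply] at h1
    exact h1
  act_mul := by
    intro σ τ
    ext t
    rw [res1_coe, RingHom.comp_apply, res1_coe, res1_coe]
    have h1 := act_class D z (σ := (σ * τ).out) (τ := σ.out * τ.out) (by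
      rw [QuotientGroup.mk_mul]
      have e1 : (QuotientGroup.mk (σ * τ).out : P ⧸ Subgroup.zpowers z) = σ * τ :=
        Quotient.out_eq _
      have e2 : (QuotientGroup.mk σ.out : P ⧸ Subgroup.zpowers z) = σ := Quotient.out_eq _
      have e3 : (QuotientGroup.mk τ.out : P ⧸ Subgroup.zpowers z) = τ := Quotient.out_eq _
      rw [e1, e2, e3]) t
    rw [h1, act_mul_apply]
  act_ι := by
    intro σ
    ext r
    rw [RingHom.comp_apply, res1_coe]
    exact RingHom.congr_fun (D.act_ι _) r
  fix := by
    intro t ht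
    obtain ⟨r, hr⟩ := D.fix t (by
      intro σ
      rw [← act_out D z σ t]
      exact congrArg Subtype.val (ht (QuotientGroup.mk σ)))
    exact ⟨r, Subtype.ext hr⟩
  inj := by
    intro a b hab
    exact D.inj (congrArg Subtype.val hab)
  e := ⟨∑ i ∈ Finset.range p, D.act (z ^ i) D.e, by
    change D.act z _ = _
    rw [map_sum]
    have e1 : ∀ i ∈ Finset.range p, D.act z (D.act (z ^ i) D.e) = D.act (z ^ (i + 1)) D.e := by
      intro i _
      rw [← act_mul_apply, ← pow_succ']
    rw [Finset.sum_congr rfl e1]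
    have e2 := Finset.sum_range_succ (fun i => D.act (z ^ i) D.e) p
    have e3 := Finset.sum_range_succ' (fun i => D.act (z ^ i) D.e) p
    have hzp' : z ^ p = 1 := by rw [← hzp]; exact pow_orderOf_eq_one z
    rw [e2, pow_zero, hzp'] at e3
    exact (add_right_cancel e3).symm⟩
  tr := by
    apply Subtype.ext
    rw [AddSubmonoidClass.coe_finsetSum]
    change ∑ q : P ⧸ Subgroup.zpowers z, D.act q.out (∑ i ∈ Finset.range p, D.act (z ^ i) D.e) = 1
    rw [← D.tr, ← sum_all D z hp hzp D.e]
    apply Finset.sum_congr rfl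
    intro q _
    rw [map_sum]
    apply Finset.sum_congr rfl
    intro i _
    rw [act_mul_apply]

end quot

section xs

variable {T : Type} [CommRing T]

/-- combinations of `x ^ i`, `i < n`, with coefficients in the subring `S` -/
private def W (S : Subring T) (x : T) (n : ℕ) (t : T) : Prop :=
  ∃ a : ℕ → S, t = ∑ i ∈ Finset.range n, (a i : T) * x ^ i

private lemma W_zero (S : Subring T) (x : T) (n : ℕ) : W S x n 0 := ⟨fun _ => 0, by simp⟩

private lemma W_add {S : Subring T} {x : T} {n : ℕ} {t t' : T} (h : W S x n t) (h' : W S x n t') :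
    W S x n (t + t') := by
  obtain ⟨a, rfl⟩ := h
  obtain ⟨b, rfl⟩ := h'
  refine ⟨fun i => a i + b i, ?_⟩
  rw [← Finset.sum_add_distrib]
  apply Finset.sum_congr rfl
  intro i _
  push_cast
  ring

private lemma W_smul {S : Subring T} {x : T} {n : ℕ} {t : T} (c : S) (h : W S x n t) :
    W S x n ((c : T) * t) := by
  obtain ⟨a, rfl⟩ := h
  refine ⟨fun i => c * a i, ?_⟩
  rw [Finset.mul_sum]
  apply Finset.sum_congr rfl
  intro i _
  push_cast
  ring

private lemma W_mono {S : Subring T} {x : T} {n m : ℕ} (hnm : n ≤ m) {t : T} (h : W S x n t) :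
    W S x m t := by
  obtain ⟨a, rfl⟩ := h
  refine ⟨fun i => if i < n then a i else 0, ?_⟩
  have h1 : Finset.range n ⊆ Finset.range m := Finset.range_subset_range.2 hnm
  rw [← Finset.sum_subset h1]
  · apply Finset.sum_congr rfl
    intro i hi
    simp only [if_pos (Finset.mem_range.1 hi)]
  · intro i _ hi
    simp only [if_neg (fun h2 => hi (Finset.mem_range.2 h2))]
    simp

private lemma W_pow (S : Subring T) (x : T) {n i : ℕ} (hi : i < n) : W S x n (x ^ i) := by
  refine ⟨fun j => if j = i then 1 else 0, ?_⟩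
  rw [Finset.sum_eq_single i]
  · simp
  · intro j _ hj
    simp [hj]
  · intro h
    exact absurd (Finset.mem_range.2 hi) h

private lemma W_sum {S : Subring T} {x : T} {n : ℕ} {ι : Type} (s : Finset ι) (f : ι → T)
    (h : ∀ i ∈ s, W S x n (f i)) : W S x n (∑ i ∈ s, f i) := by
  classical
  induction s using Finset.induction_on with
  | empty => simpa using W_zero S x n
  | insert a s ha ih =>
    rw [Finset.sum_insert ha]
    exact W_add (h a (Finset.mem_insert_self a s))
      (ih (fun i hi => h i (Finset.mem_insert_of_mem hi)))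

private lemma binom_W (S : Subring T) (x : T) (n : ℕ) :
    W S x n ((x + 1) ^ (n + 1) - x ^ (n + 1) - ((n + 1 : ℕ) : T) * x ^ n) := by
  rw [add_pow, Finset.sum_range_succ, Finset.sum_range_succ]
  simp only [one_pow, mul_one, Nat.choose_self, Nat.cast_one]
  have e : (n + 1).choose n = n + 1 := by
    rw [Nat.choose_succ_self_right]
  rw [e]
  have e2 : ∑ m ∈ Finset.range n, x ^ m * ((n + 1).choose m : T) + x ^ n * ((n + 1 : ℕ) : T) +
      x ^ (n + 1) - x ^ (n + 1) - ((n + 1 : ℕ) : T) * x ^ n =
      ∑ m ∈ Finset.range n, x ^ m * ((n + 1).choose m : T) := by ring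
  rw [e2]
  apply W_sum
  intro i hi
  have h1 := W_smul (((n + 1).choose i : ℕ) : S) (W_pow S x (Finset.mem_range.1 hi))
  rw [mul_comm] at h1
  simpa using h1

/-- `Δ = g - id` maps the span of `x^i`, `i ≤ n`, onto the span of `x^i`, `i < n` -/
private lemma delta_surj {p : ℕ} [Fact p.Prime] (hp : (p : T) = 0) (g : T →+* T) (S : Subring T)
    (hS : ∀ t ∈ S, g t = t) (x : T) (hx : g x = x + 1) (n : ℕ) (hn : n + 1 ≤ p) :
    ∀ w, W S x n w → ∃ v, W S x (n + 1) v ∧ g v - v = w := by
  induction n with
  | zero =>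
    rintro w ⟨a, rfl⟩
    exact ⟨0, W_zero _ _ _, by simp⟩
  | succ n ih =>
    rintro w ⟨a, rfl⟩
    -- the inverse of `n + 1`
    obtain ⟨u, hu⟩ : ∃ u : ℕ, ((n + 1 : ℕ) : T) * (u : T) = 1 := by
      have hcop : Nat.Coprime (n + 1) p := by
        rw [Nat.coprime_comm]
        apply (Nat.Prime.coprime_iff_not_dvd Fact.out).2
        intro hd
        have := Nat.le_of_dvd (by omega) hd
        omega
      obtain ⟨u, hu⟩ := Nat.exists_mul_mod_eq_one_of_coprime hcop
        (Fact.out : p.Prime).one_lt
      refine ⟨u, ?_⟩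
      have h1 : (n + 1) * u = p * (((n + 1) * u) / p) + 1 := by
        have := Nat.div_add_mod ((n + 1) * u) p
        rw [hu.2] at this
        exact this.symm
      rw [← Nat.cast_mul, h1, Nat.cast_add, Nat.cast_mul, hp, zero_mul, zero_add, Nat.cast_one]
    set c : S := a n * ((u : ℕ) : S) with hc
    have hcT : (c : T) = (a n : T) * (u : T) := by
      rw [hc]; push_cast; rfl
    have hgc : g (c : T) = c := hS _ c.2
    have h1 := W_smul (-c) (binom_W S x n)
    have h2 : W S x n (∑ i ∈ Finset.range n, (a i : T) * x ^ i +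
        ((-c : S) : T) * ((x + 1) ^ (n + 1) - x ^ (n + 1) - ((n + 1 : ℕ) : T) * x ^ n)) :=
      W_add ⟨a, rfl⟩ h1
    obtain ⟨v, hv, hv'⟩ := ih (by omega) _ h2
    refine ⟨v + (c : T) * x ^ (n + 1), W_add (W_mono (by omega) hv)
      (W_smul c (W_pow S x (by omega))), ?_⟩
    rw [map_add, map_mul, map_pow, hx, hgc, Finset.sum_range_succ]
    have e3 : g v = v + (∑ i ∈ Finset.range n, (a i : T) * x ^ i +
        ((-c : S) : T) * ((x + 1) ^ (n + 1) - x ^ (n + 1) - ((n + 1 : ℕ) : T) * x ^ n)) := by
      rw [← hv']; ring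
    rw [e3]
    have e4 : ((-c : S) : T) = -(c : T) := by push_cast; rfl
    rw [e4]
    have e5 : (c : T) * (((n + 1 : ℕ) : T) * x ^ n) = (a n : T) * x ^ n := by
      rw [hcT]
      calc (a n : T) * (u : T) * (((n + 1 : ℕ) : T) * x ^ n) =
          (a n : T) * x ^ n * (((n + 1 : ℕ) : T) * (u : T)) := by ring
        _ = _ := by rw [hu, mul_one]
    linear_combination e5

/-- the elements killed by `Δ ^ n` -/
private lemma span_of_delta {p : ℕ} [Fact p.Prime] (hp : (p : T) = 0) (g : T →+* T) (S : Subring T)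
    (hS : ∀ t, t ∈ S ↔ g t = t) (x : T) (hx : g x = x + 1)
    (Δ : AddMonoid.End T) (hΔ : ∀ t, Δ t = g t - t) (n : ℕ) (hn : n ≤ p) :
    ∀ t, (Δ ^ n) t = 0 → W S x n t := by
  induction n with
  | zero =>
    intro t ht
    rw [pow_zero] at ht
    have h1 : t = 0 := ht
    rw [h1]
    exact W_zero _ _ _
  | succ n ih =>
    intro t ht
    rw [pow_succ] at ht
    have h1 : (Δ ^ n) (Δ t) = 0 := ht
    have h2 := ih (by omega) _ h1
    obtain ⟨v, hv, hv'⟩ := delta_surj hp g S (fun t ht => (hS t).1 ht) x hx n hn _ h2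
    have h3 : t - v ∈ S := by
      rw [hS, map_sub]
      rw [hΔ] at hv'
      linear_combination -hv'
    have h4 : W S x (n + 1) (t - v) := by
      have h5 := W_smul (⟨t - v, h3⟩ : S) (W_pow S x (show 0 < n + 1 by omega))
      rw [pow_zero, mul_one] at h5
      exact h5
    have h6 := W_add h4 hv
    rw [sub_add_cancel] at h6
    exact h6

private lemma frob_add_one {p : ℕ} [Fact p.Prime] (hp : (p : T) = 0) (x : T) :
    (x + 1) ^ p = x ^ p + 1 := by
  rcases subsingleton_or_nontrivial T with h | h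
  · exact Subsingleton.elim _ _
  · have : CharP T p := (CharP.charP_iff_prime_eq_zero Fact.out).2 hp
    rw [add_pow_char, one_pow]

private lemma delta_pow {p : ℕ} [Fact p.Prime] (hp : (p : T) = 0) (A : AddMonoid.End T)
    (hA : A ^ p = 1) : (A - 1) ^ p = 0 := by
  rcases subsingleton_or_nontrivial T with h | h
  · ext t
    exact Subsingleton.elim _ _
  · have hnt : Nontrivial (AddMonoid.End T) := by
      obtain ⟨t, ht⟩ := exists_ne (0 : T)
      exact ⟨⟨1, 0, fun h => ht (DFunLike.congr_fun h t)⟩⟩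
    have hp' : (p : AddMonoid.End T) = 0 := by
      ext t
      change (p : AddMonoid.End T) t = 0
      rw [AddMonoid.End.natCast_apply, nsmul_eq_mul, hp, zero_mul]
    have : CharP (AddMonoid.End T) p := (CharP.charP_iff_prime_eq_zero Fact.out).2 hp'
    rw [sub_pow_char_of_commute _ (Commute.one_right A), hA, one_pow, sub_self]

end xs

theorem pt_quot {p : ℕ} [Fact p.Prime] {P : Type} [Group P] [Fintype P] {R : Type} [CommRing R]
    (hp : (p : R) = 0) (D : PT P R) (z : P) (hz : z ∈ Subgroup.center P) (hzp : orderOf z = p)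
    [(Subgroup.zpowers z).Normal] [Fintype (P ⧸ Subgroup.zpowers z)] :
    ∃ (D1 : PT (P ⧸ Subgroup.zpowers z) R) (incl : D1.T →+* D.T) (x : D.T) (m : D1.T),
      Function.Injective incl ∧ incl.comp D1.ι = D.ι ∧
      (∀ σ : P, incl.comp (D1.act (QuotientGroup.mk σ)) = (D.act σ).comp incl) ∧
      (∀ t, D.act z t = t → ∃ t1, incl t1 = t) ∧
      D.act z x = x + 1 ∧ x ^ p - x = incl m ∧
      ∀ t : D.T, ∃ a : ℕ → D1.T, t = ∑ i ∈ Finset.range p, incl (a i) * x ^ i := by
  have hp0 : 0 < p := (Fact.out : p.Prime).pos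
  have hpT : (p : D.T) = 0 := by
    have h := congrArg D.ι hp
    rwa [map_natCast, map_zero] at h
  -- the element `x`
  set f : D.T := ∑ q : P ⧸ Subgroup.zpowers z, D.act q.out D.e with hf
  set a : ℕ → D.T := fun i => D.act (z ^ i) f with ha
  have hsum : ∑ i ∈ Finset.range p, a i = 1 := by
    rw [← D.tr, ← sum_all D z hp0 hzp D.e, Finset.sum_comm]
    apply Finset.sum_congr rfl
    intro i _
    simp only [ha, hf, map_sum]
    apply Finset.sum_congr rfl
    intro q _
    rw [← act_mul_apply]
    have hcomm : z ^ i * q.out = q.out * z ^ i :=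
      ((Subgroup.mem_center_iff.1 ((Subgroup.center P).pow_mem hz i)) q.out).symm
    rw [hcomm]
  have hap : a p = a 0 := by
    simp only [ha]
    rw [← hzp, pow_orderOf_eq_one, pow_zero]
  have hza : ∀ i, D.act z (a i) = a (i + 1) := by
    intro i
    simp only [ha]
    rw [← act_mul_apply, ← pow_succ']
  set x : D.T := -∑ i ∈ Finset.range p, (i : D.T) * a i with hx
  have hzx : D.act z x = x + 1 := by
    have e1 : D.act z x = -∑ i ∈ Finset.range p, (i : D.T) * a (i + 1) := by
      rw [hx, map_neg, map_sum]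
      congr 1
      apply Finset.sum_congr rfl
      intro i _
      rw [map_mul, map_natCast, hza]
    have e2 : ∑ i ∈ Finset.range p, ((i + 1 : ℕ) : D.T) * a (i + 1) =
        ∑ i ∈ Finset.range p, (i : D.T) * a i := by
      have h1 := Finset.sum_range_succ (fun i => (i : D.T) * a i) p
      have h2 := Finset.sum_range_succ' (fun i => (i : D.T) * a i) p
      rw [h1, hpT, zero_mul, add_zero, Nat.cast_zero, zero_mul, add_zero] at h2
      exact h2.symm
    have e3 : ∑ i ∈ Finset.range p, a (i + 1) = 1 := by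
      have h1 := Finset.sum_range_succ a p
      have h2 := Finset.sum_range_succ' a p
      rw [h1, hap] at h2
      rw [← hsum]
      exact (add_right_cancel h2).symm
    have e4 : ∑ i ∈ Finset.range p, ((i + 1 : ℕ) : D.T) * a (i + 1) =
        ∑ i ∈ Finset.range p, (i : D.T) * a (i + 1) + ∑ i ∈ Finset.range p, a (i + 1) := by
      rw [← Finset.sum_add_distrib]
      apply Finset.sum_congr rfl
      intro i _
      push_cast
      ring
    rw [e1, hx]
    rw [e2, e3] at e4
    linear_combination e4
  have hm : x ^ p - x ∈ T1 D z := by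
    rw [mem_T1, map_sub, map_pow, hzx, frob_add_one hpT]
    ring
  refine ⟨quotPT D z hp0 hz hzp, (T1 D z).subtype, x, ⟨x ^ p - x, hm⟩, ?_, ?_, ?_, ?_, hzx, rfl, ?_⟩
  · exact Subtype.val_injective
  · rfl
  · intro σ
    ext t
    exact act_out D z σ t
  · intro t ht
    exact ⟨⟨t, ht⟩, rfl⟩
  · -- the span
    set A : AddMonoid.End D.T := (D.act z).toAddMonoidHom with hA
    have hApow : ∀ (i : ℕ) (t : D.T), (A ^ i) t = D.act (z ^ i) t := by
      intro i
      induction i with
      | zero => intro t; rw [pow_zero, pow_zero, act_one_apply]; rfl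
      | succ i ih =>
        intro t
        rw [pow_succ, pow_succ, act_mul_apply]
        exact ih (D.act z t)
    have hAp : A ^ p = 1 := by
      ext t
      rw [hApow, ← hzp, pow_orderOf_eq_one, act_one_apply]
      rfl
    have hΔp := delta_pow hpT A hAp
    intro t
    obtain ⟨b, hb⟩ := span_of_delta hpT (D.act z) (T1 D z) (fun t => Iff.rfl) x hzx (A - 1)
      (fun t => rfl) p le_rfl t (by rw [hΔp]; rfl)
    exact ⟨b, hb⟩

end Pool.Agent.Helper54.SJ
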