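import Pool.Agent.Helper54.SJ.NB

/-!
# SJ-16: a Galois algebra over a subring

PROOF.  `D.T` = the set of all elements `∑_ρ D'.ι (α (r ρ)) * D'.act ρ D'.e`, `r : P → R`, of `D'.T`.  It is an additive
subgroup, closed under `act σ` (permutes the basis), it contains `D'.ι (α a) = ∑_ρ D'.ι (α a) act ρ e` (trace one),
and it is closed under multiplication: by equivariance `act σ e * act τ e = act σ (e * act (σ⁻¹ τ) e) =
∑_ρ ι (α (m (σ⁻¹ τ) ρ)) act (σ ρ) e`.  `ι` = restriction of `D'.ι ∘ α`, `act σ` = restriction, `e = D'.e`, `β` = inclusion.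
fix: if `∑ ι (α (r ρ)) act ρ e` is fixed then `α (r (σ ρ)) = α (r ρ)` (`nb_unique`), so `r` is constant (`hα`) and the
element is `ι (r 1)`.  inj: `D'.inj` and `hα`.
-/

set_option autoImplicit false

namespace Pool.Agent.Helper54.SJ

section sub

variable {P : Type} [Group P] [Fintype P] {R R' : Type} [CommRing R] [CommRing R']
  (α : R →+* R') (D' : PT P R')

/-- combinations of the normal basis with coefficients in the subring -/
private def h43comb (r : P → R) : D'.T := ∑ ρ, D'.ι (α (r ρ)) * D'.act ρ D'.e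

private lemma h43comb_add (r s : P → R) :
    h43comb α D' (r + s) = h43comb α D' r + h43comb α D' s := by
  unfold h43comb
  rw [← Finset.sum_add_distrib]
  refine Finset.sum_congr rfl fun ρ _ => ?_
  rw [Pi.add_apply, map_add, map_add, add_mul]

private lemma h43comb_zero : h43comb α D' 0 = 0 := by
  unfold h43comb
  refine Finset.sum_eq_zero fun ρ _ => ?_
  rw [Pi.zero_apply, map_zero, map_zero, zero_mul]

private lemma h43comb_neg (r : P → R) : h43comb α D' (-r) = - h43comb α D' r := by
  rw [eq_neg_iff_add_eq_zero, ← h43comb_add, neg_add_cancel, h43comb_zero]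

private lemma h43comb_smul (a : R) (r : P → R) :
    D'.ι (α a) * h43comb α D' r = h43comb α D' (fun ρ => a * r ρ) := by
  unfold h43comb
  rw [Finset.mul_sum]
  refine Finset.sum_congr rfl fun ρ _ => ?_
  rw [map_mul, map_mul, mul_assoc]

private lemma h43comb_const (a : R) : h43comb α D' (fun _ => a) = D'.ι (α a) := by
  unfold h43comb
  rw [← Finset.mul_sum, D'.tr, mul_one]

private lemma h43act_act (σ τ : P) (t : D'.T) : D'.act σ (D'.act τ t) = D'.act (σ * τ) t := by
  rw [D'.act_mul]
  rfl

private lemma h43act_comb (σ : P) (r : P → R) :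
    D'.act σ (h43comb α D' r) = h43comb α D' (fun ρ => r (σ⁻¹ * ρ)) := by
  unfold h43comb
  rw [map_sum, ← Equiv.sum_comp (Equiv.mulLeft σ)
    (fun ρ => D'.ι (α (r (σ⁻¹ * ρ))) * D'.act ρ D'.e)]
  refine Finset.sum_congr rfl fun ρ _ => ?_
  have h1 : D'.act σ (D'.ι (α (r ρ))) = D'.ι (α (r ρ)) := RingHom.congr_fun (D'.act_ι σ) _
  rw [map_mul, h1, h43act_act]
  have h2 : σ⁻¹ * (Equiv.mulLeft σ) ρ = ρ := by
    change σ⁻¹ * (σ * ρ) = ρ
    group
  rw [h2]
  rfl

/-- the additive subgroup of the combinations -/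
private def h43A : AddSubgroup D'.T where
  carrier := Set.range (h43comb α D')
  add_mem' := by
    rintro _ _ ⟨r, rfl⟩ ⟨s, rfl⟩
    exact ⟨r + s, h43comb_add α D' r s⟩
  zero_mem' := ⟨0, h43comb_zero α D'⟩
  neg_mem' := by
    rintro _ ⟨r, rfl⟩
    exact ⟨-r, h43comb_neg α D' r⟩

private lemma h43A_smul (a : R) {t : D'.T} (ht : t ∈ h43A α D') : D'.ι (α a) * t ∈ h43A α D' := by
  obtain ⟨r, rfl⟩ := ht
  exact ⟨_, (h43comb_smul α D' a r).symm⟩

private lemma h43A_act (σ : P) {t : D'.T} (ht : t ∈ h43A α D') : D'.act σ t ∈ h43A α D' := by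
  obtain ⟨r, rfl⟩ := ht
  exact ⟨_, (h43act_comb α D' σ r).symm⟩

private lemma h43A_mul (m : P → P → R)
    (hm : ∀ τ, D'.e * D'.act τ D'.e = ∑ ρ, D'.ι (α (m τ ρ)) * D'.act ρ D'.e) {s t : D'.T}
    (hs : s ∈ h43A α D') (ht : t ∈ h43A α D') : s * t ∈ h43A α D' := by
  obtain ⟨r, rfl⟩ := hs
  obtain ⟨q, rfl⟩ := ht
  have h1 : ∀ σ τ : P, D'.act σ D'.e * D'.act τ D'.e ∈ h43A α D' := by
    intro σ τ
    have e1 : D'.act σ D'.e * D'.act τ D'.e = D'.act σ (D'.e * D'.act (σ⁻¹ * τ) D'.e) := by
      rw [map_mul, h43act_act]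
      congr 3
      group
    rw [e1]
    apply h43A_act
    exact ⟨m (σ⁻¹ * τ), (hm _).symm⟩
  have e2 : h43comb α D' r * h43comb α D' q =
      ∑ σ, D'.ι (α (r σ)) * ∑ τ, D'.ι (α (q τ)) * (D'.act σ D'.e * D'.act τ D'.e) := by
    unfold h43comb
    rw [Finset.sum_mul]
    refine Finset.sum_congr rfl fun σ _ => ?_
    rw [Finset.mul_sum, Finset.mul_sum]
    refine Finset.sum_congr rfl fun τ _ => ?_
    ring
  rw [e2]
  refine AddSubgroup.sum_mem _ fun σ _ => h43A_smul α D' _ (AddSubgroup.sum_mem _ fun τ _ =>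
    h43A_smul α D' _ (h1 σ τ))

/-- the subring of the combinations -/
private def h43S (m : P → P → R)
    (hm : ∀ τ, D'.e * D'.act τ D'.e = ∑ ρ, D'.ι (α (m τ ρ)) * D'.act ρ D'.e) : Subring D'.T where
  carrier := h43A α D'
  add_mem' := (h43A α D').add_mem'
  zero_mem' := (h43A α D').zero_mem'
  neg_mem' := (h43A α D').neg_mem'
  mul_mem' := fun ha hb => h43A_mul α D' m hm ha hb
  one_mem' := ⟨fun _ => 1, by rw [h43comb_const, map_one, map_one]⟩

end sub

theorem pt_sub {p : ℕ} [Fact p.Prime] {P : Type} [Group P] [Fintype P] (hP : IsPGroup p P)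
    {R R' : Type} [CommRing R] [CommRing R'] (hp : (p : R') = 0) (α : R →+* R')
    (hα : Function.Injective α) (D' : PT P R') (m : P → P → R)
    (hm : ∀ τ, D'.e * D'.act τ D'.e = ∑ ρ, D'.ι (α (m τ ρ)) * D'.act ρ D'.e) :
    ∃ (D : PT P R) (β : D.T →+* D'.T), IsEq D α D' β ∧ β D.e = D'.e ∧ Function.Injective β ∧
      ∀ r : P → R, ∃ s, β s = ∑ ρ, D'.ι (α (r ρ)) * D'.act ρ D'.e := by
  classical
  have he : D'.e ∈ h43S α D' m hm := by
    refine ⟨Pi.single 1 1, ?_⟩
    unfold h43comb
    rw [Finset.sum_eq_single (1 : P)]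
    · rw [Pi.single_eq_same, map_one, map_one, one_mul, D'.act_one, RingHom.id_apply]
    · intro ρ _ hρ
      rw [Pi.single_eq_of_ne hρ, map_zero, map_zero, zero_mul]
    · intro h
      exact absurd (Finset.mem_univ _) h
  let D : PT P R :=
    { T := h43S α D' m hm
      ι := (D'.ι.comp α).codRestrict (h43S α D' m hm)
        (fun a => ⟨fun _ => a, h43comb_const α D' a⟩)
      act := fun σ => ((D'.act σ).comp (h43S α D' m hm).subtype).codRestrict (h43S α D' m hm)
        (fun t => h43A_act α D' σ t.2)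
      act_one := by
        apply RingHom.ext
        intro t
        apply Subtype.ext
        change D'.act 1 t.1 = t.1
        rw [D'.act_one, RingHom.id_apply]
      act_mul := by
        intro σ τ
        apply RingHom.ext
        intro t
        apply Subtype.ext
        change D'.act (σ * τ) t.1 = D'.act σ (D'.act τ t.1)
        rw [h43act_act]
      act_ι := by
        intro σ
        apply RingHom.ext
        intro a
        apply Subtype.ext
        change D'.act σ (D'.ι (α a)) = D'.ι (α a)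
        exact RingHom.congr_fun (D'.act_ι σ) _
      fix := by
        rintro ⟨t, r, rfl⟩ ht
        have h1 : ∀ σ ρ, r (σ⁻¹ * ρ) = r ρ := by
          intro σ
          have h2 : D'.act σ (h43comb α D' r) = h43comb α D' r := congrArg Subtype.val (ht σ)
          rw [h43act_comb] at h2
          have h3 := nb_unique hP hp D' D'.e D'.tr (fun ρ => α (r (σ⁻¹ * ρ)) - α (r ρ)) (by
            have h4 : h43comb α D' (fun ρ => r (σ⁻¹ * ρ)) - h43comb α D' r = 0 := sub_eq_zero.2 h2
            unfold h43comb at h4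
            rw [← Finset.sum_sub_distrib] at h4
            rw [← h4]
            refine Finset.sum_congr rfl fun ρ _ => ?_
            rw [map_sub, sub_mul])
          intro ρ
          have h5 := congrFun h3 ρ
          exact hα (sub_eq_zero.1 h5)
        refine ⟨r 1, ?_⟩
        apply Subtype.ext
        change D'.ι (α (r 1)) = h43comb α D' r
        rw [← h43comb_const]
        congr 1
        funext σ
        have h2 := h1 σ σ
        rw [inv_mul_cancel] at h2
        exact h2
      inj := by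
        intro a b h
        exact hα (D'.inj (congrArg Subtype.val h))
      e := ⟨D'.e, he⟩
      tr := by
        apply Subtype.ext
        have h1 : ∀ (f : P → h43S α D' m hm), ((∑ σ, f σ : h43S α D' m hm) : D'.T) =
            ∑ σ, (f σ : D'.T) := fun f => map_sum (h43S α D' m hm).subtype f Finset.univ
        rw [h1]
        exact D'.tr }
  refine ⟨D, (h43S α D' m hm).subtype, ⟨?_, ?_⟩, rfl, Subtype.val_injective, ?_⟩
  · apply RingHom.ext
    intro a
    rfl
  · intro σ
    apply RingHom.ext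
    intro t
    rfl
  · intro r
    exact ⟨⟨h43comb α D' r, r, rfl⟩, rfl⟩

end Pool.Agent.Helper54.SJ
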